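import Pool.Agent.Lib.MP_9f2731_nt.H.Spec

/-!
# Blk1: the moment bound for one block of primes
-/

set_option autoImplicit false

open Finset

namespace Pool.Agent.Lib.MP_9f2731_nt.H

theorem Blk1_mem {Q q : ℕ} (hQ : 1 ≤ Q) (hq : q ∈ PQ Q) :
    q.Prime ∧ q ≠ 2 ∧ Q < q ∧ q ≤ 4 * Q ∧ 1 ≤ od q ∧ od q ≤ q ∧
      1 / (od q : ℝ) ≤ Real.log (4 * (Q : ℝ)) / √(Q : ℝ) := by
  unfold PQ at hq
  rw [mem_filter, mem_Ioc] at hq
  obtain ⟨⟨h1, h2⟩, h3, h4, h5⟩ := hq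
  have hQ' : (1 : ℝ) ≤ Q := by exact_mod_cast hQ
  have hs : 0 < √(Q : ℝ) := Real.sqrt_pos.mpr (by linarith)
  have ho : 1 ≤ od q := by
    rcases Nat.eq_zero_or_pos (od q) with h | h
    · rw [h] at h5
      simp only [Nat.cast_zero, zero_mul] at h5
      linarith
    · exact h
  have : Fact q.Prime := ⟨h3⟩
  refine ⟨h3, h4, h1, h2, ho, ?_, ?_⟩
  · have h7 : od q ∣ q - 1 := by
      refine ZMod.orderOf_dvd_card_sub_one ?_
      intro h
      have h6 : ((2 : ℕ) : ZMod q) = 0 := by exact_mod_cast h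
      rw [ZMod.natCast_eq_zero_iff] at h6
      have := Nat.le_of_dvd (by norm_num) h6
      have := h3.two_le
      omega
    have := Nat.le_of_dvd (by have := h3.two_le; omega) h7
    omega
  · have ho' : (0 : ℝ) < od q := by exact_mod_cast ho
    rw [div_le_div_iff₀ ho' hs]
    linarith

/-- the mean value over `ZMod N` -/
theorem Blk1_Ex (N : ℕ) [NeZero N] (F : ℕ → ℝ) :
    Ex (fun x : ZMod N => F x.val) = (∑ m ∈ range N, F m) / (N : ℝ) := by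
  unfold Ex
  rw [ZMod.card]
  congr 1
  obtain ⟨n, rfl⟩ := Nat.exists_eq_succ_of_ne_zero (NeZero.ne N)
  exact Fin.sum_univ_eq_sum_range F (n + 1)

/-- shifts -/
theorem Blk1_shift {α : Type} (N : ℕ) [NeZero N] (h : ℕ → α) (hh : Function.Periodic h N)
    (x : ZMod N) (t c : ℕ) : h (x + t • (c : ZMod N)).val = h (x.val + t * c) := by
  have e1 : x + t • (c : ZMod N) = ((x.val + t * c : ℕ) : ZMod N) := by
    push_cast
    rw [ZMod.natCast_zmod_val, nsmul_eq_mul]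
  rw [e1, ZMod.val_natCast, hh.map_mod_nat]

theorem Blk1_not_dvd {s : Finset ℕ} (hs : ∀ q ∈ s, q.Prime) {q : ℕ} (hq : q ∈ s) :
    ¬ q ∣ ∏ p ∈ s.erase q, p := by
  intro h
  rw [(hs q hq).prime.dvd_finsetProd_iff] at h
  obtain ⟨p, hp, hd⟩ := h
  rw [mem_erase] at hp
  exact hp.1 ((Nat.prime_dvd_prime_iff_eq (hs q hq) (hs p hp.2)).mp hd).symm

theorem Blk1_dvd {s : Finset ℕ} {q q' : ℕ} (hq : q' ∈ s) (hne : q' ≠ q) :
    q' ∣ ∏ p ∈ s.erase q, p := by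
  exact Finset.dvd_prod_of_mem _ (mem_erase.mpr ⟨hne, hq⟩)

theorem Blk1_ord (h3 : StmtOrdB) {q : ℕ} (hq : q.Prime) (hq2 : q ≠ 2) :
    (∀ m, 0 ≤ d1 q m ∧ d1 q m ≤ 1 / (od q : ℝ) ∧ d1 q (m + q) = d1 q m) ∧
    (∀ c m, ¬ q ∣ c → ∑ t ∈ range q, d1 q (m + t * c) = 1) := by
  by_cases h : q = 3
  · have := h3 q 5 hq hq2 (by norm_num) (by norm_num) (by omega)
    exact ⟨this.1, this.2.2.1⟩
  · have := h3 q 3 hq hq2 (by norm_num) (by norm_num) h
    exact ⟨this.1, this.2.2.1⟩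

theorem Blk1_per (h3 : StmtOrdB) {q : ℕ} (hq : q.Prime) (hq2 : q ≠ 2) :
    Function.Periodic (Fq q) q := by
  intro m
  have h := (Blk1_ord h3 hq hq2).1 m
  unfold Fq
  rw [h.2.2]

theorem Blk1_per' (h3 : StmtOrdB) {q : ℕ} (hq : q.Prime) (hq2 : q ≠ 2) {N : ℕ} (hN : q ∣ N) :
    Function.Periodic (Fq q) N := by
  obtain ⟨k, rfl⟩ := hN
  have := (Blk1_per h3 hq hq2).nat_mul k
  rw [mul_comm]
  exact_mod_cast this

theorem tBlk1 (h1 : StmtMom1) (h2 : StmtOrdB) : StmtBlk1 := by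
  intro Q r σ hQ hσ
  have hpr : ∀ q ∈ σ, q.Prime := fun q hq => (Blk1_mem hQ (hσ hq)).1
  have hpos : 0 < ∏ q ∈ σ, q := Finset.prod_pos fun q hq => (hpr q hq).pos
  set N := ∏ q ∈ σ, q with hN
  have : NeZero N := ⟨hpos.ne'⟩
  have hQr : (1 : ℝ) ≤ Q := by exact_mod_cast hQ
  have hs1 : 1 ≤ √(Q : ℝ) := by
    rw [Real.one_le_sqrt]
    exact hQr
  have hs0 : 0 < √(Q : ℝ) := by linarith
  have hs2 : √(Q : ℝ) ^ 2 = Q := Real.sq_sqrt (by linarith)
  have hL1 : 1 ≤ Real.log (4 * (Q : ℝ)) := by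
    rw [Real.le_log_iff_exp_le (by linarith)]
    have := Real.exp_one_lt_d9
    linarith
  have hL2 : Real.log (4 * (Q : ℝ)) ≤ 4 * √(Q : ℝ) := by
    have e1 : 4 * (Q : ℝ) = (2 * √(Q : ℝ)) ^ 2 := by
      rw [mul_pow, hs2]
      norm_num
    rw [e1, Real.log_pow]
    have := Real.log_le_sub_one_of_pos (show 0 < 2 * √(Q : ℝ) by linarith)
    push_cast
    linarith
  set L := Real.log (4 * (Q : ℝ)) with hL
  have hA : 0 ≤ A1 Q := by
    unfold A1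
    positivity
  have hA1 : A1 Q = 4 * L * (1 / √(Q : ℝ)) := by
    unfold A1
    ring
  have hcast : ∀ q ∈ σ, (0 : ℝ) < q := fun q hq => by exact_mod_cast (hpr q hq).pos
  have hod : ∀ q ∈ σ, (0 : ℝ) ≤ 1 / (od q : ℝ) := fun q _ => by positivity
  have hkey := h1 (ZMod N) ℕ σ (fun q => ((∏ p ∈ σ.erase q, p : ℕ) : ZMod N)) (fun q => q)
    (fun q x => Fq q x.val) (A1 Q) r hA (fun q hq => (hpr q hq).one_le) ?_ ?_ ?_ ?_
  · rw [Blk1_Ex N (fun m => (∑ q ∈ σ, Fq q m) ^ (2 * r))] at hkey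
    exact hkey
  · -- mean zero
    intro q hq x
    obtain ⟨m1, m2, -⟩ := Blk1_mem hQ (hσ hq)
    have hper := Blk1_per' h2 m1 m2 (show q ∣ N from Finset.dvd_prod_of_mem _ hq)
    unfold Av
    simp only [Blk1_shift N (Fq q) hper]
    have e1 : ∑ t ∈ range q, Fq q (x.val + t * ∏ p ∈ σ.erase q, p) = 0 := by
      unfold Fq
      rw [sum_sub_distrib, (Blk1_ord h2 m1 m2).2 _ _ (Blk1_not_dvd hpr hq), sum_const,
        card_range, nsmul_eq_mul, mul_one_div_cancel (hcast q hq).ne', sub_self]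
    rw [e1, zero_div]
  · -- invariance
    intro i hi j hj hne x
    obtain ⟨m1, m2, -⟩ := Blk1_mem hQ (hσ hj)
    have hper := Blk1_per' h2 m1 m2 (show j ∣ N from Finset.dvd_prod_of_mem _ hj)
    have e1 := Blk1_shift N (Fq j) hper x 1 (∏ p ∈ σ.erase i, p)
    rw [one_smul, one_mul] at e1
    show Fq j (x + ((∏ p ∈ σ.erase i, p : ℕ) : ZMod N)).val = Fq j x.val
    rw [e1]
    exact Blk1_per' h2 m1 m2 (Blk1_dvd hj (Ne.symm hne)) x.val
  · -- sup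
    intro q hq x
    obtain ⟨m1, m2, m3, m4, m5, m6, m7⟩ := Blk1_mem hQ (hσ hq)
    have ho : (0 : ℝ) < od q := by exact_mod_cast m5
    have hd := (Blk1_ord h2 m1 m2).1 x.val
    have hq1 : 1 / (q : ℝ) ≤ 1 / (od q : ℝ) :=
      one_div_le_one_div_of_le ho (by exact_mod_cast m6)
    have hq0 : 0 ≤ 1 / (q : ℝ) := by positivity
    have e1 : |Fq q x.val| ≤ L * (1 / √(Q : ℝ)) := by
      unfold Fq
      rw [abs_le]
      have : L * (1 / √(Q : ℝ)) = L / √(Q : ℝ) := by ring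
      constructor <;> linarith [hd.1, hd.2.1]
    have e2 : Fq q x.val ^ 2 ≤ (L * (1 / √(Q : ℝ))) ^ 2 := by
      rw [← sq_abs]
      exact pow_le_pow_left₀ (abs_nonneg _) e1 2
    refine e2.trans ?_
    rw [hA1]
    have e3 : √(Q : ℝ) * (1 / √(Q : ℝ)) = 1 := mul_one_div_cancel hs0.ne'
    calc (L * (1 / √(Q : ℝ))) ^ 2 = L * (1 / √(Q : ℝ)) * (1 / √(Q : ℝ)) * L := by ring
      _ ≤ L * (1 / √(Q : ℝ)) * (1 / √(Q : ℝ)) * (4 * √(Q : ℝ)) := by gcongr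
      _ = 4 * L * (1 / √(Q : ℝ)) * (√(Q : ℝ) * (1 / √(Q : ℝ))) := by ring
      _ = 4 * L * (1 / √(Q : ℝ)) := by rw [e3, mul_one]
  · -- the sum of the variances
    intro x
    have hterm : ∀ q ∈ σ, Av ((∏ p ∈ σ.erase q, p : ℕ) : ZMod N) q
        (fun y => (Fq q y.val) ^ 2) x ≤ L * (1 / √(Q : ℝ)) * (1 / (Q : ℝ)) := by
      intro q hq
      obtain ⟨m1, m2, m3, m4, m5, m6, m7⟩ := Blk1_mem hQ (hσ hq)
      have hper := Blk1_per' h2 m1 m2 (show q ∣ N from Finset.dvd_prod_of_mem _ hq)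
      have ho : (0 : ℝ) < od q := by exact_mod_cast m5
      have hq0 := hcast q hq
      unfold Av
      have e1 : ∀ t ∈ range q, (Fq q (x + t • ((∏ p ∈ σ.erase q, p : ℕ) : ZMod N)).val) ^ 2 =
          (Fq q (x.val + t * ∏ p ∈ σ.erase q, p)) ^ 2 := by
        intro t _
        rw [Blk1_shift N (Fq q) hper]
      rw [sum_congr rfl e1]
      have e2 : ∀ m, Fq q m ^ 2 ≤ (1 / (od q : ℝ) - 2 * (1 / (q : ℝ))) * d1 q m +
          (1 / (q : ℝ)) ^ 2 := by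
        intro m
        have hd := (Blk1_ord h2 m1 m2).1 m
        have e3 : d1 q m * d1 q m ≤ 1 / (od q : ℝ) * d1 q m :=
          mul_le_mul_of_nonneg_right hd.2.1 hd.1
        unfold Fq
        nlinarith
      have e4 : ∑ t ∈ range q, (Fq q (x.val + t * ∏ p ∈ σ.erase q, p)) ^ 2 ≤
          (1 / (od q : ℝ) - 2 * (1 / (q : ℝ))) * 1 + q * (1 / (q : ℝ)) ^ 2 := by
        refine (sum_le_sum fun t _ => e2 _).trans (le_of_eq ?_)
        rw [sum_add_distrib, ← mul_sum, (Blk1_ord h2 m1 m2).2 _ _ (Blk1_not_dvd hpr hq),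
          sum_const, card_range, nsmul_eq_mul]
      have e5 : (q : ℝ) * (1 / (q : ℝ)) ^ 2 = 1 / (q : ℝ) := by
        field_simp
      have e6 : 0 ≤ 1 / (q : ℝ) := by positivity
      have e7 : ∑ t ∈ range q, (Fq q (x.val + t * ∏ p ∈ σ.erase q, p)) ^ 2 ≤
          L * (1 / √(Q : ℝ)) := by
        rw [e5] at e4
        have : L * (1 / √(Q : ℝ)) = L / √(Q : ℝ) := by ring
        linarith
      rw [div_eq_mul_one_div]
      have e8 : 1 / (q : ℝ) ≤ 1 / (Q : ℝ) :=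
        one_div_le_one_div_of_le (by linarith) (by exact_mod_cast m3.le)
      exact mul_le_mul e7 e8 e6 (by positivity)
    refine (sum_le_sum hterm).trans ?_
    rw [sum_const, nsmul_eq_mul, hA1]
    have hcard : ((σ.card : ℕ) : ℝ) ≤ 3 * Q := by
      have h1 : σ ⊆ Ioc Q (4 * Q) := hσ.trans (by unfold PQ; exact filter_subset _ _)
      have h2 := card_le_card h1
      rw [Nat.card_Ioc] at h2
      have h3 : σ.card ≤ 3 * Q := by omega
      exact_mod_cast h3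
    have hQc : (Q : ℝ) * (1 / (Q : ℝ)) = 1 := mul_one_div_cancel (by linarith)
    have hnn : 0 ≤ L * (1 / √(Q : ℝ)) := by positivity
    have hnn2 : 0 ≤ L * (1 / √(Q : ℝ)) * (1 / (Q : ℝ)) := by positivity
    calc (σ.card : ℝ) * (L * (1 / √(Q : ℝ)) * (1 / (Q : ℝ)))
        ≤ (3 * Q) * (L * (1 / √(Q : ℝ)) * (1 / (Q : ℝ))) :=
          mul_le_mul_of_nonneg_right hcard hnn2
      _ = 3 * (L * (1 / √(Q : ℝ))) * ((Q : ℝ) * (1 / (Q : ℝ))) := by ring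
      _ = 3 * (L * (1 / √(Q : ℝ))) := by rw [hQc, mul_one]
      _ ≤ 4 * L * (1 / √(Q : ℝ)) := by linarith

end Pool.Agent.Lib.MP_9f2731_nt.H
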