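import Pool.Agent.Lib.MP_9f2731_nt.H.Spec

/-!
# Blk2: the moment bound for two blocks of primes
-/

set_option autoImplicit false

open Finset

namespace Pool.Agent.Lib.MP_9f2731_nt.H

theorem Blk2_mem {Q q : ℕ} (hq : q ∈ PQ Q) : q.Prime ∧ q ≠ 2 := by
  unfold PQ at hq
  rw [mem_filter, mem_Ioc] at hq
  exact ⟨hq.2.1, hq.2.2.1⟩

/-- the mean value over `ZMod N` -/
theorem Blk2_Ex (N : ℕ) [NeZero N] (F : ℕ → ℝ) :
    Ex (fun x : ZMod N => F x.val) = (∑ m ∈ range N, F m) / (N : ℝ) := by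
  unfold Ex
  rw [ZMod.card]
  congr 1
  obtain ⟨n, rfl⟩ := Nat.exists_eq_succ_of_ne_zero (NeZero.ne N)
  exact Fin.sum_univ_eq_sum_range F (n + 1)

/-- shifts -/
theorem Blk2_shift {α : Type} (N : ℕ) [NeZero N] (h : ℕ → α) (hh : Function.Periodic h N)
    (x : ZMod N) (t c : ℕ) : h (x + t • (c : ZMod N)).val = h (x.val + t * c) := by
  have e1 : x + t • (c : ZMod N) = ((x.val + t * c : ℕ) : ZMod N) := by
    push_cast
    rw [ZMod.natCast_zmod_val, nsmul_eq_mul]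
  rw [e1, ZMod.val_natCast, hh.map_mod_nat]

/-- double shifts -/
theorem Blk2_shift2 {α : Type} (N : ℕ) [NeZero N] (h : ℕ → α) (hh : Function.Periodic h N)
    (x : ZMod N) (t c t' c' : ℕ) :
    h (x + t • (c : ZMod N) + t' • (c' : ZMod N)).val = h (x.val + t * c + t' * c') := by
  have e1 : x + t • (c : ZMod N) + t' • (c' : ZMod N) =
      ((x.val + t * c + t' * c' : ℕ) : ZMod N) := by
    push_cast
    rw [ZMod.natCast_zmod_val, nsmul_eq_mul, nsmul_eq_mul]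
  rw [e1, ZMod.val_natCast, hh.map_mod_nat]

theorem Blk2_not_dvd {s : Finset ℕ} (hs : ∀ q ∈ s, q.Prime) {q : ℕ} (hq : q ∈ s) :
    ¬ q ∣ ∏ p ∈ s.erase q, p := by
  intro h
  rw [(hs q hq).prime.dvd_finsetProd_iff] at h
  obtain ⟨p, hp, hd⟩ := h
  rw [mem_erase] at hp
  exact hp.1 ((Nat.prime_dvd_prime_iff_eq (hs q hq) (hs p hp.2)).mp hd).symm

theorem Blk2_dvd {s : Finset ℕ} {q q' : ℕ} (hq : q' ∈ s) (hne : q' ≠ q) :
    q' ∣ ∏ p ∈ s.erase q, p := by
  exact Finset.dvd_prod_of_mem _ (mem_erase.mpr ⟨hne, hq⟩)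

theorem Blk2_comm (h : StmtOrdB) {q q' : ℕ} (hq : q.Prime) (h2 : q ≠ 2) (hq' : q'.Prime)
    (h2' : q' ≠ 2) (hne : q ≠ q') (m : ℕ) : Gq q q' m = Gq q' q m := by
  have h3 := ((h q q' hq h2 hq' h2' hne).2.1 m).2.2.2
  unfold Gq
  rw [h3]
  ring

/-- `Gq` has the period `N` if `q, q' ∣ N` -/
theorem Blk2_per (h : StmtOrdB) {q q' : ℕ} (hq : q.Prime) (h2 : q ≠ 2) (hq' : q'.Prime)
    (h2' : q' ≠ 2) (hne : q ≠ q') {N : ℕ} (hN : q ∣ N) (hN' : q' ∣ N) :
    Function.Periodic (Gq q q') N := by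
  have hcop : Nat.Coprime q q' := (Nat.coprime_primes hq hq').mpr hne
  have e1 : Function.Periodic (d1 q) N := by
    obtain ⟨k, rfl⟩ := hN
    have hp : Function.Periodic (d1 q) q := fun x => ((h q q' hq h2 hq' h2' hne).1 x).2.2
    have := hp.nat_mul k
    rw [mul_comm]
    exact_mod_cast this
  have e2 : Function.Periodic (d1 q') N := by
    obtain ⟨k, rfl⟩ := hN'
    have hp : Function.Periodic (d1 q') q' := fun x =>
      ((h q' q hq' h2' hq h2 (Ne.symm hne)).1 x).2.2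
    have := hp.nat_mul k
    rw [mul_comm]
    exact_mod_cast this
  have e3 : Function.Periodic (d2 q q') N := by
    obtain ⟨k, hk⟩ := hcop.mul_dvd_of_dvd_of_dvd hN hN'
    have hp : Function.Periodic (d2 q q') (q * q') := fun x =>
      ((h q q' hq h2 hq' h2' hne).2.1 x).2.2.1
    have := hp.nat_mul k
    rw [hk, mul_comm]
    exact_mod_cast this
  intro m
  unfold Gq
  rw [e1 m, e2 m, e3 m]

/-- mean value zero in the coordinate `q` -/
theorem Blk2_zero (h : StmtOrdB) {q q' : ℕ} (hq : q.Prime) (h2 : q ≠ 2) (hq' : q'.Prime)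
    (h2' : q' ≠ 2) (hne : q ≠ q') {c : ℕ} (hc : ¬ q ∣ c) (hc' : q' ∣ c) (m : ℕ) :
    ∑ t ∈ range q, Gq q q' (m + t * c) = 0 := by
  have hq0 : (q : ℝ) ≠ 0 := by
    have := hq.pos
    positivity
  have e1 : ∑ t ∈ range q, d2 q q' (m + t * c) = d1 q' m :=
    (h q q' hq h2 hq' h2' hne).2.2.2 c m hc hc'
  have e2 : ∑ t ∈ range q, d1 q (m + t * c) = 1 := (h q q' hq h2 hq' h2' hne).2.2.1 c m hc
  have e3 : ∑ t ∈ range q, d1 q' (m + t * c) = q * d1 q' m := by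
    have e4 : ∀ t ∈ range q, d1 q' (m + t * c) = d1 q' m := by
      intro t _
      obtain ⟨k, rfl⟩ := hc'
      have hp : Function.Periodic (d1 q') q' := fun x =>
        ((h q' q hq' h2' hq h2 (Ne.symm hne)).1 x).2.2
      have := hp.nat_mul (t * k) m
      rw [← this]
      congr 1
      push_cast
      ring
    rw [sum_congr rfl e4, sum_const, card_range, nsmul_eq_mul]
  unfold Gq
  rw [sum_add_distrib, sum_sub_distrib, sum_sub_distrib, ← sum_div, ← sum_div, e1, e2, e3,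
    sum_const, card_range, nsmul_eq_mul]
  field_simp
  ring

theorem tBlk2 (h1 : StmtMom2) (h2 : StmtOrdB) (h3 : StmtHA2) : StmtBlk2 := by
  intro Q Q' r σ σ' hQ' hQQ hσ hσ' hdis
  have hm : ∀ q ∈ σ, q.Prime ∧ q ≠ 2 := fun q hq => Blk2_mem (hσ hq)
  have hm' : ∀ q ∈ σ', q.Prime ∧ q ≠ 2 := fun q hq => Blk2_mem (hσ' hq)
  have hpr : ∀ q ∈ σ ∪ σ', q.Prime := by
    intro q hq
    rcases mem_union.mp hq with h | h
    · exact (hm q h).1
    · exact (hm' q h).1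
  have hpos : 0 < ∏ q ∈ σ ∪ σ', q := Finset.prod_pos fun q hq => (hpr q hq).pos
  set N := ∏ q ∈ σ ∪ σ', q with hN
  have : NeZero N := ⟨hpos.ne'⟩
  have hne : ∀ q ∈ σ, ∀ q' ∈ σ', q ≠ q' := fun q hq q' hq' h =>
    (Finset.disjoint_left.mp hdis hq) (h ▸ hq')
  have hdN : ∀ q ∈ σ ∪ σ', q ∣ N := fun q hq => Finset.dvd_prod_of_mem _ hq
  have hU : ∀ q ∈ σ, q ∈ σ ∪ σ' := fun q hq => mem_union_left _ hq
  have hU' : ∀ q ∈ σ', q ∈ σ ∪ σ' := fun q hq => mem_union_right _ hq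
  have hper : ∀ q ∈ σ, ∀ q' ∈ σ', Function.Periodic (Gq q q') N := fun q hq q' hq' =>
    Blk2_per h2 (hm q hq).1 (hm q hq).2 (hm' q' hq').1 (hm' q' hq').2 (hne q hq q' hq')
      (hdN q (hU q hq)) (hdN q' (hU' q' hq'))
  have hA : 0 ≤ A2 Q Q' := by
    have hQr : (1 : ℝ) ≤ Q := by exact_mod_cast hQ'.trans hQQ
    have hL1 : 0 ≤ Real.log (4 * (Q : ℝ)) := Real.log_nonneg (by linarith)
    unfold A2
    positivity
  set c : ℕ → ℕ := fun q => ∏ p ∈ (σ ∪ σ').erase q, p with hc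
  have hc1 : ∀ q ∈ σ ∪ σ', ¬ q ∣ c q := fun q hq => Blk2_not_dvd hpr hq
  have hc2 : ∀ q ∈ σ ∪ σ', ∀ q' ∈ σ ∪ σ', q ≠ q' → q' ∣ c q := fun q _ q' hq' h =>
    Blk2_dvd hq' (Ne.symm h)
  have hHA := h3 Q Q' σ σ' c hQ' hQQ hσ hσ' hdis hc1 hc2
  have hkey := h1 (ZMod N) ℕ σ σ' (fun q => (c q : ZMod N)) (fun q => q)
    (fun q q' x => Gq q q' x.val) (A2 Q Q') r hA hdis (fun q hq => (hpr q hq).one_le)
    ?_ ?_ ?_ ?_ ?_ ?_ ?_
  · rw [Blk2_Ex N (fun m => (∑ q ∈ σ, ∑ q' ∈ σ', Gq q q' m) ^ (2 * r))] at hkey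
    exact hkey
  · intro q hq q' hq' x
    unfold Av
    simp only [Blk2_shift N (Gq q q') (hper q hq q' hq')]
    rw [Blk2_zero h2 (hm q hq).1 (hm q hq).2 (hm' q' hq').1 (hm' q' hq').2 (hne q hq q' hq')
      (hc1 q (hU q hq)) (hc2 q (hU q hq) q' (hU' q' hq') (hne q hq q' hq')), zero_div]
  · intro q hq q' hq' x
    unfold Av
    simp only [Blk2_shift N (Gq q q') (hper q hq q' hq')]
    have e1 : ∀ m, Gq q q' m = Gq q' q m := fun m =>
      Blk2_comm h2 (hm q hq).1 (hm q hq).2 (hm' q' hq').1 (hm' q' hq').2 (hne q hq q' hq') m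
    simp only [e1]
    rw [Blk2_zero h2 (hm' q' hq').1 (hm' q' hq').2 (hm q hq).1 (hm q hq).2
      (Ne.symm (hne q hq q' hq')) (hc1 q' (hU' q' hq'))
      (hc2 q' (hU' q' hq') q (hU q hq) (Ne.symm (hne q hq q' hq'))), zero_div]
  · intro q hq q' hq' i hi hiq hiq' x
    have e1 := Blk2_shift N (Gq q q') (hper q hq q' hq') x 1 (c i)
    rw [one_smul, one_mul] at e1
    show Gq q q' (x + (c i : ZMod N)).val = Gq q q' x.val
    rw [e1]
    exact Blk2_per h2 (hm q hq).1 (hm q hq).2 (hm' q' hq').1 (hm' q' hq').2 (hne q hq q' hq')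
      (hc2 i hi q (hU q hq) hiq) (hc2 i hi q' (hU' q' hq') hiq') x.val
  · intro q hq q' hq' x
    exact (hHA x.val).1 q hq q' hq'
  · intro q hq x
    refine le_trans (le_of_eq ?_) ((hHA x.val).2.1 q hq)
    refine sum_congr rfl fun q' hq' => ?_
    unfold Av
    congr 1
    refine sum_congr rfl fun t _ => ?_
    beta_reduce
    rw [Blk2_shift N (Gq q q') (hper q hq q' hq')]
  · intro q' hq' x
    refine le_trans (le_of_eq ?_) ((hHA x.val).2.2.1 q' hq')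
    refine sum_congr rfl fun q hq => ?_
    unfold Av
    congr 1
    refine sum_congr rfl fun t _ => ?_
    beta_reduce
    rw [Blk2_shift N (Gq q q') (hper q hq q' hq')]
  · intro x
    refine le_trans (le_of_eq ?_) (hHA x.val).2.2.2
    refine sum_congr rfl fun q hq => sum_congr rfl fun q' hq' => ?_
    unfold Av
    congr 1
    refine sum_congr rfl fun t _ => ?_
    congr 1
    refine sum_congr rfl fun t' _ => ?_
    beta_reduce
    rw [Blk2_shift2 N (Gq q q') (hper q hq q' hq')]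

end Pool.Agent.Lib.MP_9f2731_nt.H
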