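import Pool.Agent.Lib.MP_9f2731_nt.H.AllA
import Pool.Agent.Lib.MP_9f2731_nt.H.Blk1
import Pool.Agent.Lib.MP_9f2731_nt.H.Blk2

/-!
# Theorem H
-/

set_option autoImplicit false

open Finset

namespace Pool.Agent.Lib.MP_9f2731_nt.H

theorem main : StmtMain :=
  main_of (tBlk1 (tMom1 mz tZ1) ordB) (tBlk2 (tMom2 mz tZ2) ordB (tHA2 ordB tTau tGcd))

/-- Theorem H with the definitions written out. -/
theorem main_explicit (η : ℝ) (hη : 0 < η) : ∃ C : ℝ, 1 ≤ C ∧ ∀ X : ℕ, C ≤ X → ∀ M : ℕ,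
    ∃ E : Finset ℕ, (E.card : ℝ) ≤ (X : ℝ) ^ (3 / 4 + η) ∧
      ∀ m : ℕ, M < m → m ≤ M + X → m ∉ E → ∀ a W : ℕ, Real.log X ^ C ≤ W → ∀ Λ : ℝ,
        Λ = Real.log (Real.log (min W X : ℕ) / Real.log (Real.log X)) →
        0 < Λ ∧ (((Ico a (a + W)).filter fun b =>
          C * ((m * 2 ^ b + 1).primeFactors.card : ℝ) ≤ Λ).card : ℝ) ≤ C * W / Λ := by
  obtain ⟨C, hC, h⟩ := main η hη
  refine ⟨C, hC, fun X hX M => ?_⟩
  obtain ⟨E, -, hE, h1⟩ := h X hX M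
  refine ⟨E, hE, fun m hm hm' hmE a W hW Λ hΛ => ?_⟩
  obtain ⟨h2, h3⟩ := h1 m (mem_Ioc.2 ⟨hm, hm'⟩) hmE a W hW
  have hΛ' : Λ = Lam X W := hΛ
  rw [hΛ']
  refine ⟨h2, le_trans ?_ h3⟩
  norm_cast
  apply card_le_card_of_injOn (fun b => b - a)
  · intro b hb
    rw [coe_filter] at hb
    obtain ⟨hb1, hb2⟩ := hb
    rw [mem_Ico] at hb1
    show b - a ∈ _
    rw [coe_filter]
    refine ⟨mem_range.2 (by omega), ?_⟩
    have h4 : a + (b - a) = b := by omega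
    rw [h4, mul_comm (2 ^ b) m]
    exact hb2
  · intro b hb b' hb' hbb
    rw [coe_filter] at hb hb'
    have h4 := mem_Ico.1 hb.1
    have h5 := mem_Ico.1 hb'.1
    simp only at hbb
    omega

end Pool.Agent.Lib.MP_9f2731_nt.H
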