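import Pool.Agent.Lib.MP_9f2731_nt.H.Spec

/-!
# Statement Dec: decoupling
-/

set_option autoImplicit false

open Finset

namespace Pool.Agent.Lib.MP_9f2731_nt.H

theorem Dec_count (P : Finset ℕ) (q q' : ℕ) (hq : q ∈ P) (hq' : q' ∈ P) (hne : q ≠ q') :
    (P.powerset.filter fun σ => q ∈ σ ∧ q' ∉ σ).card * 4 = 2 ^ P.card := by
  have hcard : ((P.erase q).erase q').card + 2 = P.card := by
    have h1 : q' ∈ P.erase q := mem_erase.2 ⟨hne.symm, hq'⟩
    have h2 := card_erase_add_one h1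
    have h3 := card_erase_add_one hq
    omega
  have h : (P.powerset.filter fun σ => q ∈ σ ∧ q' ∉ σ).card =
      ((P.erase q).erase q').powerset.card := by
    symm
    apply card_bij (fun τ _ => insert q τ)
    · intro τ hτ
      rw [mem_powerset] at hτ
      rw [mem_filter, mem_powerset]
      refine ⟨?_, mem_insert_self _ _, ?_⟩
      · intro x hx
        rcases mem_insert.1 hx with rfl | hx
        · exact hq
        · exact mem_of_mem_erase (mem_of_mem_erase (hτ hx))
      · intro hx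
        rcases mem_insert.1 hx with h1 | hx
        · exact hne h1.symm
        · exact (mem_erase.1 (hτ hx)).1 rfl
    · intro τ hτ τ' hτ' h
      rw [mem_powerset] at hτ hτ'
      have h1 : q ∉ τ := fun hx => (mem_erase.1 (mem_of_mem_erase (hτ hx))).1 rfl
      have h2 : q ∉ τ' := fun hx => (mem_erase.1 (mem_of_mem_erase (hτ' hx))).1 rfl
      rw [← erase_insert h1, ← erase_insert h2, h]
    · intro σ hσ
      rw [mem_filter, mem_powerset] at hσ
      obtain ⟨h1, h2, h3⟩ := hσ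
      refine ⟨σ.erase q, ?_, insert_erase h2⟩
      rw [mem_powerset]
      intro x hx
      obtain ⟨hx1, hx2⟩ := mem_erase.1 hx
      rw [mem_erase, mem_erase]
      refine ⟨?_, hx1, h1 hx2⟩
      rintro rfl
      exact h3 hx2
  rw [h, card_powerset, ← hcard, pow_add]
  norm_num

theorem Dec_sum (P : Finset ℕ) (G : ℕ → ℕ → ℝ) :
    ∑ σ ∈ P.powerset, ∑ q ∈ σ, ∑ q' ∈ P \ σ, G q q' =
      2 ^ P.card / 4 * ∑ q ∈ P, ∑ q' ∈ P.erase q, G q q' := by
  have h1 : ∀ σ ∈ P.powerset, ∑ q ∈ σ, ∑ q' ∈ P \ σ, G q q' =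
      ∑ q ∈ P, ∑ q' ∈ P.erase q, if q ∈ σ ∧ q' ∉ σ then G q q' else 0 := by
    intro σ hσ
    rw [mem_powerset] at hσ
    have h2 : ∑ q ∈ σ, ∑ q' ∈ P \ σ, G q q' =
        ∑ q ∈ P, if q ∈ σ then ∑ q' ∈ P \ σ, G q q' else 0 := by
      rw [← sum_filter]
      apply sum_congr _ fun _ _ => rfl
      ext q
      rw [mem_filter]
      exact ⟨fun h => ⟨hσ h, h⟩, fun h => h.2⟩
    rw [h2]
    apply sum_congr rfl
    intro q hq
    split_ifs with hqσ
    · have h3 : P \ σ = (P.erase q).filter fun q' => q' ∉ σ := by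
        ext q'
        rw [mem_sdiff, mem_filter, mem_erase]
        constructor
        · rintro ⟨h4, h5⟩
          refine ⟨⟨?_, h4⟩, h5⟩
          rintro rfl
          exact h5 hqσ
        · rintro ⟨⟨-, h4⟩, h5⟩
          exact ⟨h4, h5⟩
      rw [h3, sum_filter]
      apply sum_congr rfl
      intro q' _
      simp [hqσ]
    · symm
      apply sum_eq_zero
      intro q' _
      simp [hqσ]
  rw [sum_congr rfl h1, sum_comm, mul_sum]
  apply sum_congr rfl
  intro q hq
  rw [sum_comm, mul_sum]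
  apply sum_congr rfl
  intro q' hq'
  rw [← sum_filter, sum_const, nsmul_eq_mul]
  have h2 := Dec_count P q q' hq (mem_of_mem_erase hq') (mem_erase.1 hq').1.symm
  have h3 : ((P.powerset.filter fun σ => q ∈ σ ∧ q' ∉ σ).card : ℝ) * 4 = 2 ^ P.card := by
    exact_mod_cast h2
  rw [← h3]
  ring

theorem tDec : StmtDec := by
  intro P G r
  have h1 := Dec_sum P G
  set S : ℝ := ∑ q ∈ P, ∑ q' ∈ P.erase q, G q q' with hS
  have h2 : (0 : ℝ) < 2 ^ P.card := by positivity
  have h3 : ∑ σ ∈ P.powerset, (1 / (2 : ℝ) ^ P.card) = 1 := by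
    rw [sum_const, card_powerset, nsmul_eq_mul]
    push_cast
    field_simp
  have h4 := Real.pow_arith_mean_le_arith_mean_pow_of_even P.powerset
    (fun _ => 1 / (2 : ℝ) ^ P.card) (fun σ => ∑ q ∈ σ, ∑ q' ∈ P \ σ, G q q')
    (fun _ _ => by positivity) h3 (even_two_mul r)
  rw [← mul_sum, ← mul_sum, h1] at h4
  have h5 : 1 / (2 : ℝ) ^ P.card * (2 ^ P.card / 4 * S) = S / 4 := by field_simp
  rw [h5] at h4
  have h6 : S ^ (2 * r) = 16 ^ r * (S / 4) ^ (2 * r) := by
    rw [div_pow, pow_mul (4 : ℝ) 2 r]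
    norm_num
    field_simp
  rw [h6]
  apply mul_le_mul_of_nonneg_left _ (by positivity)
  refine h4.trans (le_of_eq ?_)
  ring

end Pool.Agent.Lib.MP_9f2731_nt.H
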