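import Pool.Agent.Lib.MP_9f2731_nt.H.Spec

/-!
# Statement Exc: all exceptional sets together
-/

set_option autoImplicit false

open Finset

namespace Pool.Agent.Lib.MP_9f2731_nt.H

theorem Exc_mem {Q q : ℕ} (h : q ∈ PQ Q) : Q < q ∧ q ≤ 4 * Q ∧ q.Prime ∧ q ≠ 2 := by
  unfold PQ at h
  rw [mem_filter, mem_Ioc] at h
  exact ⟨h.1.1, h.1.2, h.2.1, h.2.2.1⟩

theorem Exc_Gsymm (h : StmtOrdB) {q q' : ℕ} (hq : q.Prime) (hq2 : q ≠ 2) (hq' : q'.Prime)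
    (hq2' : q' ≠ 2) (hne : q ≠ q') (m : ℕ) : Gq q q' m = Gq q' q m := by
  have e := ((h q q' hq hq2 hq' hq2' hne).2.1 m).2.2.2
  unfold Gq
  rw [e, mul_comm (q' : ℝ) (q : ℝ)]
  ring

theorem Exc_sum_symm (h : StmtOrdB) (Q Q' m : ℕ) :
    ∑ q ∈ PQ Q, ∑ q' ∈ (PQ Q').erase q, Gq q q' m =
      ∑ q ∈ PQ Q', ∑ q' ∈ (PQ Q).erase q, Gq q q' m := by
  have h1 : ∀ (A B : Finset ℕ) (f : ℕ → ℕ → ℝ), ∑ q ∈ A, ∑ q' ∈ B.erase q, f q q' =
      ∑ q ∈ A, ∑ q' ∈ B, if q' ≠ q then f q q' else 0 := by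
    intro A B f
    apply sum_congr rfl
    intro q _
    rw [← sum_filter]
    apply sum_congr _ fun _ _ => rfl
    ext q'
    rw [mem_erase, mem_filter]
    tauto
  rw [h1, h1, sum_comm]
  apply sum_congr rfl
  intro q' hq'
  apply sum_congr rfl
  intro q hq
  obtain ⟨-, -, a3, a4⟩ := Exc_mem hq
  obtain ⟨-, -, b3, b4⟩ := Exc_mem hq'
  by_cases hne : q' = q
  · simp [hne]
  · have hne' : q ≠ q' := fun e => hne e.symm
    rw [if_pos hne, if_pos hne']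
    exact Exc_Gsymm h a3 a4 b3 b4 hne' m

theorem Exc_num (η : ℝ) (hη : 0 < η) : ∃ X0 : ℕ, ∀ X : ℕ, X0 ≤ X → 1 ≤ Real.log X ∧
    8 * Real.log X ^ 2 ≤ (X : ℝ) ^ (η / 2) := by
  have ht1 : Filter.Tendsto (fun n : ℕ => (n : ℝ)) Filter.atTop Filter.atTop :=
    tendsto_natCast_atTop_atTop
  have h1 : ∀ᶠ n : ℕ in Filter.atTop, 1 ≤ Real.log (n : ℝ) :=
    (Real.tendsto_log_atTop.comp ht1).eventually_ge_atTop (1 : ℝ)
  have h2 := (isLittleO_log_rpow_rpow_atTop 2 (show 0 < η / 2 by positivity)).bound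
    (show (0 : ℝ) < 1 / 8 by norm_num)
  have h3 := ht1.eventually h2
  obtain ⟨X0, hX0⟩ := Filter.eventually_atTop.1 (h1.and h3)
  refine ⟨X0, fun X hX => ?_⟩
  obtain ⟨h4, h5⟩ := hX0 X hX
  refine ⟨h4, ?_⟩
  rw [Real.norm_eq_abs, Real.norm_eq_abs, abs_of_nonneg (by positivity),
    abs_of_nonneg (by positivity), Real.rpow_two] at h5
  linarith

open Classical in
theorem tExc (h1 : StmtExc1) (h2 : StmtExc2) (h3 : StmtOrdB) : StmtExc := by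
  intro η hη
  obtain ⟨B1, hB1, X1, hE1⟩ := h1 η hη
  obtain ⟨B2, hB2, X2, hE2⟩ := h2 η hη
  obtain ⟨X3, hX3⟩ := Exc_num η hη
  refine ⟨max B1 B2, le_max_of_le_left hB1, min (η / 8) (1 / 20), by positivity,
    min_le_right _ _, max X1 (max X2 X3), ?_⟩
  intro X hX M
  have hXX1 : X1 ≤ X := (le_max_left _ _).trans hX
  have hXX2 : X2 ≤ X := (le_max_left _ _).trans ((le_max_right _ _).trans hX)
  have hXX3 : X3 ≤ X := (le_max_right _ _).trans ((le_max_right _ _).trans hX)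
  obtain ⟨hℓ1, hℓX⟩ := hX3 X hXX3
  have hX0 : (1 : ℝ) < X := by
    by_contra h
    have : Real.log (X : ℝ) ≤ 0 := Real.log_nonpos (by positivity) (not_lt.1 h)
    linarith
  have hXpos : (0 : ℝ) < X := by linarith
  set ℓ : ℝ := Real.log (X : ℝ) with hℓ
  set κ : ℝ := min (η / 8) (1 / 20) with hκ
  set B : ℝ := max B1 B2 with hB
  have hκ1 : κ ≤ η / 8 := min_le_left _ _
  have hκ2 : κ ≤ 1 / 20 := min_le_right _ _
  have hκX1 : (X : ℝ) ^ κ ≤ (X : ℝ) ^ (η / 8) := Real.rpow_le_rpow_of_exponent_le hX0.le hκ1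
  have hκX2 : (X : ℝ) ^ κ ≤ (X : ℝ) ^ (1 / 20 : ℝ) :=
    Real.rpow_le_rpow_of_exponent_le hX0.le hκ2
  have hℓB1 : ℓ ^ B1 ≤ ℓ ^ B := Real.rpow_le_rpow_of_exponent_le hℓ1 (le_max_left _ _)
  have hℓB2 : ℓ ^ B2 ≤ ℓ ^ B := Real.rpow_le_rpow_of_exponent_le hℓ1 (le_max_right _ _)
  set J : Finset ℕ := (range (⌊ℓ⌋₊ + 1)).filter fun j =>
    ℓ ^ B ≤ (4 : ℝ) ^ j ∧ (4 : ℝ) ^ j ≤ (X : ℝ) ^ κ with hJ
  have hJmem : ∀ j : ℕ, ℓ ^ B ≤ (4 : ℝ) ^ j → (4 : ℝ) ^ j ≤ (X : ℝ) ^ κ → j ∈ J := by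
    intro j hj1 hj2
    rw [hJ, mem_filter, mem_range, Nat.lt_succ_iff]
    refine ⟨Nat.le_floor ?_, hj1, hj2⟩
    have h4 : Real.log ((4 : ℝ) ^ j) ≤ Real.log ((X : ℝ) ^ κ) :=
      Real.log_le_log (by positivity) hj2
    rw [Real.log_pow, Real.log_rpow hXpos, ← hℓ] at h4
    have h5 : (1 : ℝ) ≤ Real.log 4 := by
      rw [Real.le_log_iff_exp_le (by norm_num)]
      have := Real.exp_one_lt_d9
      linarith
    have h6 : (j : ℝ) * 1 ≤ j * Real.log 4 := mul_le_mul_of_nonneg_left h5 (by positivity)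
    have h7 : κ * ℓ ≤ 1 * ℓ := mul_le_mul_of_nonneg_right (by linarith) (by linarith)
    linarith
  have hJcard : (J.card : ℝ) ≤ 2 * ℓ := by
    have h4 : J.card ≤ ⌊ℓ⌋₊ + 1 := by
      refine (card_filter_le _ _).trans ?_
      rw [card_range]
    have h5 : (J.card : ℝ) ≤ (⌊ℓ⌋₊ : ℝ) + 1 := by exact_mod_cast h4
    have h6 := Nat.floor_le (show 0 ≤ ℓ by linarith)
    linarith
  set E1 : ℕ → Finset ℕ := fun j => (Ioc M (M + X)).filter fun m =>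
    1 / ℓ ^ 2 < |∑ q ∈ PQ (4 ^ j), Fq q m| with hE1def
  set E2 : ℕ × ℕ → Finset ℕ := fun p => (Ioc M (M + X)).filter fun m =>
    1 / ℓ ^ 3 < |∑ q ∈ PQ (4 ^ p.1), ∑ q' ∈ (PQ (4 ^ p.2)).erase q, Gq q q' m| with hE2def
  set Y : ℝ := (X : ℝ) ^ (3 / 4 + η / 2) with hY
  have hY0 : 0 ≤ Y := by positivity
  have hE1c : ∀ j ∈ J, ((E1 j).card : ℝ) ≤ Y := by
    intro j hj
    rw [hJ, mem_filter] at hj
    have := hE1 X hXX1 M (4 ^ j)
    push_cast at this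
    exact this (hℓB1.trans hj.2.1) (hj.2.2.trans hκX1) (hj.2.2.trans hκX2)
  have hE2c' : ∀ j ∈ J, ∀ j' ∈ J, j' ≤ j → ((E2 (j, j')).card : ℝ) ≤ Y := by
    intro j hj j' hj' hjj
    rw [hJ, mem_filter] at hj hj'
    have := hE2 X hXX2 M (4 ^ j) (4 ^ j')
    push_cast at this
    refine this (hℓB2.trans hj'.2.1) ?_ (hj.2.2.trans hκX1) (hj.2.2.trans hκX2)
    rcases Nat.eq_or_lt_of_le hjj with h | h
    · left
      rw [h]
    · right
      calc 4 * 4 ^ j' = 4 ^ (j' + 1) := by ring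
        _ ≤ 4 ^ j := Nat.pow_le_pow_right (by norm_num) h
  have hE2c : ∀ p ∈ J ×ˢ J, ((E2 p).card : ℝ) ≤ Y := by
    rintro ⟨j, j'⟩ hp
    obtain ⟨hj, hj'⟩ := mem_product.1 hp
    rcases le_total j' j with h | h
    · exact hE2c' j hj j' hj' h
    · have e : E2 (j, j') = E2 (j', j) := by
        rw [hE2def]
        apply filter_congr
        intro m _
        simp only
        rw [Exc_sum_symm h3]
      rw [e]
      exact hE2c' j' hj' j hj h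
  refine ⟨J.biUnion E1 ∪ (J ×ˢ J).biUnion E2, ?_, ?_, ?_⟩
  · apply union_subset
    · apply biUnion_subset.2
      intro j _
      exact filter_subset _ _
    · apply biUnion_subset.2
      intro p _
      exact filter_subset _ _
  · have h4 : ((J.biUnion E1).card : ℝ) ≤ J.card * Y := by
      calc ((J.biUnion E1).card : ℝ) ≤ ((∑ j ∈ J, (E1 j).card : ℕ) : ℝ) := by
            exact_mod_cast card_biUnion_le
        _ = ∑ j ∈ J, ((E1 j).card : ℝ) := by push_cast; rfl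
        _ ≤ ∑ j ∈ J, Y := sum_le_sum hE1c
        _ = J.card * Y := by rw [sum_const, nsmul_eq_mul]
    have h5 : (((J ×ˢ J).biUnion E2).card : ℝ) ≤ J.card * J.card * Y := by
      calc (((J ×ˢ J).biUnion E2).card : ℝ) ≤ ((∑ p ∈ J ×ˢ J, (E2 p).card : ℕ) : ℝ) := by
            exact_mod_cast card_biUnion_le
        _ = ∑ p ∈ J ×ˢ J, ((E2 p).card : ℝ) := by push_cast; rfl
        _ ≤ ∑ p ∈ J ×ˢ J, Y := sum_le_sum hE2c
        _ = J.card * J.card * Y := by rw [sum_const, nsmul_eq_mul, card_product]; push_cast; rfl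
    have h6 : ((J.biUnion E1 ∪ (J ×ˢ J).biUnion E2).card : ℝ) ≤
        (J.biUnion E1).card + ((J ×ˢ J).biUnion E2).card := by exact_mod_cast card_union_le _ _
    have h7 : (J.card : ℝ) * Y ≤ 2 * ℓ * Y := mul_le_mul_of_nonneg_right hJcard hY0
    have h8 : (J.card : ℝ) * J.card * Y ≤ 2 * ℓ * (2 * ℓ) * Y := by
      apply mul_le_mul_of_nonneg_right _ hY0
      exact mul_le_mul hJcard hJcard (by positivity) (by positivity)
    have h9 : 2 * ℓ * Y ≤ 2 * ℓ ^ 2 * Y := by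
      apply mul_le_mul_of_nonneg_right _ hY0
      nlinarith
    have h10 : 8 * ℓ ^ 2 * Y ≤ (X : ℝ) ^ (η / 2) * Y := mul_le_mul_of_nonneg_right hℓX hY0
    have h11 : (X : ℝ) ^ (η / 2) * Y = (X : ℝ) ^ (3 / 4 + η) := by
      rw [hY, ← Real.rpow_add hXpos]
      congr 1
      ring
    have h12 : (0 : ℝ) ≤ ℓ ^ 2 * Y := by positivity
    have h13 : 2 * ℓ * (2 * ℓ) * Y = 4 * (ℓ ^ 2 * Y) := by ring
    have h14 : 2 * ℓ ^ 2 * Y = 2 * (ℓ ^ 2 * Y) := by ring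
    have h15 : 8 * ℓ ^ 2 * Y = 8 * (ℓ ^ 2 * Y) := by ring
    rw [← h11]
    linarith
  · intro m hm hmE j hj1 hj2
    rw [mem_union, not_or, mem_biUnion, mem_biUnion, not_exists, not_exists] at hmE
    have hjJ := hJmem j hj1 hj2
    refine ⟨?_, ?_⟩
    · by_contra h
      refine hmE.1 j ⟨hjJ, ?_⟩
      rw [hE1def]
      exact mem_filter.2 ⟨hm, not_le.1 h⟩
    · intro j' hj1' hj2'
      have hjJ' := hJmem j' hj1' hj2'
      by_contra h
      refine hmE.2 (j, j') ⟨mem_product.2 ⟨hjJ, hjJ'⟩, ?_⟩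
      rw [hE2def]
      exact mem_filter.2 ⟨hm, not_le.1 h⟩

end Pool.Agent.Lib.MP_9f2731_nt.H
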