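import Pool.Agent.Lib.MP_9f2731_nt.H.Spec

/-!
# Exc1: the exceptional set for one block of primes
-/

set_option autoImplicit false

open Finset

namespace Pool.Agent.Lib.MP_9f2731_nt.H

theorem exc1_mem {Q q : ℕ} (hq : q ∈ PQ Q) : q.Prime ∧ q ≠ 2 ∧ Q < q ∧ q ≤ 4 * Q := by
  unfold PQ at hq
  rw [mem_filter, mem_Ioc] at hq
  exact ⟨hq.2.1, hq.2.2.1, hq.1.1, hq.1.2⟩

theorem exc1_per (h3 : StmtOrdB) {q : ℕ} (hq : q.Prime) (hq2 : q ≠ 2) (m : ℕ) :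
    Fq q (m + q) = Fq q m := by
  have key : ∀ q' : ℕ, q'.Prime → q' ≠ 2 → q ≠ q' → Fq q (m + q) = Fq q m := by
    intro q' hq' hq'2 hne
    have h := (h3 q q' hq hq2 hq' hq'2 hne).1 m
    unfold Fq
    rw [h.2.2]
  by_cases h : q = 3
  · exact key 5 (by norm_num) (by norm_num) (by omega)
  · exact key 3 (by norm_num) (by norm_num) h

/-- moment over the interval for one block -/
theorem exc1_mom (h1 : StmtLSP) (h2 : StmtBlk1) (h3 : StmtOrdB) (Q X M s : ℕ) (hQ : 1 ≤ Q)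
    (hs : (4 * Q) ^ (2 * s) ≤ X) :
    ∑ m ∈ Ioc M (M + X), (∑ q ∈ PQ Q, Fq q m) ^ (2 * s) ≤
      20 * X * ((32 * (s : ℝ) ^ 2) ^ s * ((s : ℝ) * A1 Q) ^ s) := by
  have hpos : 0 < ∏ q ∈ PQ Q, q := Finset.prod_pos fun q hq => (exc1_mem hq).1.pos
  have h4 := h1 ℕ (PQ Q) (∏ q ∈ PQ Q, q) (4 * Q) X M s (fun q m => Fq q m) (fun q => q) hpos
    (fun q hq => ⟨Finset.dvd_prod_of_mem _ hq, (exc1_mem hq).2.2.2,
      fun m => exc1_per h3 (exc1_mem hq).1 (exc1_mem hq).2.1 m⟩) hs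
  have h5 := h2 Q s (PQ Q) hQ (Finset.Subset.refl _)
  refine h4.trans ?_
  exact mul_le_mul_of_nonneg_left h5 (by positivity)

/-- Markov for an even power -/
theorem exc1_markov (S : Finset ℕ) (F : ℕ → ℝ) (t : ℝ) (ht : 0 < t) (s : ℕ) :
    (((S.filter fun m => 1 / t < |F m|).card : ℕ) : ℝ) ≤ t ^ (2 * s) * ∑ m ∈ S, F m ^ (2 * s) := by
  have h1 : (((S.filter fun m => 1 / t < |F m|).card : ℕ) : ℝ) * (1 / t) ^ (2 * s) ≤
      ∑ m ∈ S, F m ^ (2 * s) := by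
    calc (((S.filter fun m => 1 / t < |F m|).card : ℕ) : ℝ) * (1 / t) ^ (2 * s)
        = ∑ m ∈ S.filter (fun m => 1 / t < |F m|), (1 / t) ^ (2 * s) := by
          rw [sum_const, nsmul_eq_mul]
      _ ≤ ∑ m ∈ S.filter (fun m => 1 / t < |F m|), F m ^ (2 * s) := by
          refine sum_le_sum fun m hm => ?_
          rw [mem_filter] at hm
          have h2 : (1 / t) ^ (2 * s) ≤ |F m| ^ (2 * s) :=
            pow_le_pow_left₀ (by positivity) hm.2.le _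
          have h3 : |F m| ^ (2 * s) = F m ^ (2 * s) := by
            rw [pow_mul, pow_mul, sq_abs]
          linarith
      _ ≤ ∑ m ∈ S, F m ^ (2 * s) := by
          refine sum_le_sum_of_subset_of_nonneg (filter_subset _ _) fun m _ _ => ?_
          rw [pow_mul]
          positivity
  have h2 : t ^ (2 * s) * (1 / t) ^ (2 * s) = 1 := by
    rw [← mul_pow, mul_one_div_cancel ht.ne', one_pow]
  calc (((S.filter fun m => 1 / t < |F m|).card : ℕ) : ℝ)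
      = t ^ (2 * s) * ((((S.filter fun m => 1 / t < |F m|).card : ℕ) : ℝ) *
          (1 / t) ^ (2 * s)) := by
        rw [mul_left_comm, h2, mul_one]
    _ ≤ t ^ (2 * s) * ∑ m ∈ S, F m ^ (2 * s) :=
        mul_le_mul_of_nonneg_left h1 (by positivity)

/-- the real analysis -/
theorem exc1_real (η ℓ X Q : ℝ) (s : ℕ) (hη : 0 < η) (hX : 1 ≤ X) (hℓ : ℓ = Real.log X)
    (hℓ1 : 256 ≤ ℓ) (h40 : 40 ≤ X ^ (5 * η / 16)) (hQ1 : 1 ≤ Q)
    (hB : ℓ ^ (36 / η + 1) ≤ Q) (hQX : Q ≤ X ^ (η / 8)) (hQ20 : Q ≤ X ^ (1 / 20 : ℝ))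
    (hs1 : (4 * Q) ^ (2 * s) ≤ X) (hs2 : X < (4 * Q) ^ (2 * s + 2)) :
    (ℓ ^ 2) ^ (2 * s) * (20 * X * ((32 * (s : ℝ) ^ 2) ^ s *
      ((s : ℝ) * (4 * Real.log (4 * Q) / √Q)) ^ s)) ≤ X ^ (3 / 4 + η / 2) := by
  have hX0 : 0 < X := by linarith
  have hQ0 : 0 < Q := by linarith
  have hℓ0 : 0 < ℓ := by linarith
  set u := √Q with hu
  have hu0 : 0 < u := Real.sqrt_pos.mpr hQ0
  have huu : u ^ 2 = Q := Real.sq_sqrt hQ0.le
  -- s ≤ ℓ
  have hsℓ : (s : ℝ) ≤ ℓ := by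
    have h1 : Real.exp 1 ≤ 4 * Q := by
      have := Real.exp_one_lt_d9
      linarith
    have h2 : Real.log ((4 * Q) ^ (2 * s)) ≤ Real.log X :=
      Real.log_le_log (by positivity) hs1
    rw [Real.log_pow] at h2
    have h3 : 1 ≤ Real.log (4 * Q) := by
      rw [Real.le_log_iff_exp_le (by positivity)]
      exact h1
    rw [← hℓ] at h2
    push_cast at h2
    have hs0 : (0 : ℝ) ≤ s := Nat.cast_nonneg s
    nlinarith
  -- log (4 Q) ≤ ℓ
  have hlog : Real.log (4 * Q) ≤ ℓ := by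
    rw [hℓ]
    refine Real.log_le_log (by positivity) ?_
    have h1 : X ^ (1 / 20 : ℝ) ≤ X ^ (1 / 2 : ℝ) :=
      Real.rpow_le_rpow_of_exponent_le hX (by norm_num)
    have h2 : X ^ (1 / 2 : ℝ) * X ^ (1 / 2 : ℝ) = X := by
      rw [← Real.rpow_add hX0]
      norm_num
    have h3 : 4 ≤ X ^ (1 / 2 : ℝ) := by
      have h4 : Real.log X ≤ X - 1 := Real.log_le_sub_one_of_pos hX0
      have h5 : (4 : ℝ) = 16 ^ (1 / 2 : ℝ) := by
        rw [show (16 : ℝ) = 4 ^ (2 : ℝ) by norm_num, ← Real.rpow_mul (by norm_num)]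
        norm_num
      rw [h5]
      exact Real.rpow_le_rpow (by norm_num) (by linarith) (by norm_num)
    have h6 : 0 ≤ X ^ (1 / 2 : ℝ) := by positivity
    nlinarith
  have hlog0 : 0 ≤ Real.log (4 * Q) := Real.log_nonneg (by linarith)
  have hs0 : (0 : ℝ) ≤ s := Nat.cast_nonneg s
  -- the main factor
  have hmain : (ℓ ^ 2) ^ (2 * s) * (20 * X * ((32 * (s : ℝ) ^ 2) ^ s *
      ((s : ℝ) * (4 * Real.log (4 * Q) / u)) ^ s)) ≤ 20 * X * ((128 * ℓ ^ 8) ^ s * (1 / u) ^ s) := by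
    have h1 : (ℓ ^ 2) ^ (2 * s) * (20 * X * ((32 * (s : ℝ) ^ 2) ^ s *
      ((s : ℝ) * (4 * Real.log (4 * Q) / u)) ^ s)) =
        20 * X * ((ℓ ^ 4 * (32 * (s : ℝ) ^ 2) * (s * (4 * Real.log (4 * Q) / u))) ^ s) := by
      have e1 : (ℓ ^ 2) ^ (2 * s) = (ℓ ^ 4) ^ s := by
        rw [← pow_mul, ← pow_mul]
        congr 1
        ring
      rw [e1, mul_pow (ℓ ^ 4 * (32 * (s : ℝ) ^ 2)), mul_pow (ℓ ^ 4)]
      generalize (32 * (s : ℝ) ^ 2) ^ s = P1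
      generalize ((s : ℝ) * (4 * Real.log (4 * Q) / u)) ^ s = P2
      generalize (ℓ ^ 4) ^ s = P3
      ring
    rw [h1, ← mul_pow]
    refine mul_le_mul_of_nonneg_left ?_ (by positivity)
    refine pow_le_pow_left₀ (by positivity) ?_ _
    have h2 : ℓ ^ 4 * (32 * (s : ℝ) ^ 2) * (s * (4 * Real.log (4 * Q) / u)) =
        128 * (ℓ ^ 4 * (s : ℝ) ^ 3 * Real.log (4 * Q)) * (1 / u) := by ring
    rw [h2]
    refine mul_le_mul_of_nonneg_right ?_ (by positivity)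
    refine mul_le_mul_of_nonneg_left ?_ (by norm_num)
    calc ℓ ^ 4 * (s : ℝ) ^ 3 * Real.log (4 * Q) ≤ ℓ ^ 4 * ℓ ^ 3 * ℓ := by gcongr
      _ = ℓ ^ 8 := by ring
  -- u ^ s from below
  have hus : X ^ (1 / 4 : ℝ) ≤ 2 ^ s * u ^ s * (2 * u) := by
    have h1 : X ≤ ((2 * u) ^ (s + 1)) ^ 4 := by
      have : ((2 * u) ^ (s + 1)) ^ 4 = (4 * Q) ^ (2 * s + 2) := by
        rw [← huu, show 4 * u ^ 2 = (2 * u) ^ 2 by ring, ← pow_mul, ← pow_mul]
        congr 1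
        ring
      rw [this]
      exact hs2.le
    have h2 : X ^ (1 / 4 : ℝ) ≤ (((2 * u) ^ (s + 1)) ^ 4) ^ (1 / 4 : ℝ) :=
      Real.rpow_le_rpow hX0.le h1 (by norm_num)
    have h3 : (((2 * u) ^ (s + 1)) ^ 4) ^ (1 / 4 : ℝ) = (2 * u) ^ (s + 1) := by
      rw [show (1 / 4 : ℝ) = ((4 : ℕ) : ℝ)⁻¹ by norm_num]
      exact Real.pow_rpow_inv_natCast (by positivity) (by norm_num)
    rw [h3] at h2
    calc X ^ (1 / 4 : ℝ) ≤ (2 * u) ^ (s + 1) := h2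
      _ = 2 ^ s * u ^ s * (2 * u) := by rw [pow_succ, mul_pow]
  -- ℓ ^ (9 s)
  have hℓs : (ℓ ^ 9) ^ s ≤ X ^ (η / 8) := by
    have h1 : (ℓ ^ (36 / η)) ^ (2 * s) ≤ X := by
      have h2 : ℓ ^ (36 / η) ≤ 4 * Q := by
        calc ℓ ^ (36 / η) ≤ ℓ ^ (36 / η + 1) :=
              Real.rpow_le_rpow_of_exponent_le (by linarith) (by linarith)
          _ ≤ Q := hB
          _ ≤ 4 * Q := by linarith
      calc (ℓ ^ (36 / η)) ^ (2 * s) ≤ (4 * Q) ^ (2 * s) :=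
            pow_le_pow_left₀ (by positivity) h2 _
        _ ≤ X := hs1
    have h3 : ((ℓ ^ (36 / η)) ^ (2 * s)) ^ (η / 8) ≤ X ^ (η / 8) :=
      Real.rpow_le_rpow (by positivity) h1 (by positivity)
    have h4 : ((ℓ ^ (36 / η)) ^ (2 * s)) ^ (η / 8) = (ℓ ^ 9) ^ s := by
      rw [← Real.rpow_natCast (ℓ ^ (36 / η)) (2 * s), ← Real.rpow_mul hℓ0.le,
        ← Real.rpow_mul hℓ0.le, ← pow_mul, ← Real.rpow_natCast]
      congr 1
      push_cast
      field_simp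
      ring
    rw [h4] at h3
    exact h3
  have huX : u ≤ X ^ (η / 16) := by
    have h1 : u ^ 2 ≤ (X ^ (η / 16)) ^ 2 := by
      rw [huu, ← Real.rpow_natCast, ← Real.rpow_mul hX0.le]
      calc Q ≤ X ^ (η / 8) := hQX
        _ = X ^ (η / 16 * ((2 : ℕ) : ℝ)) := by
            congr 1
            push_cast
            ring
    exact le_of_sq_le_sq h1 (by positivity)
  -- conclusion
  refine hmain.trans ?_
  have h1 : X ^ (1 / 4 : ℝ) * (1 / u) ^ s ≤ 2 ^ s * (2 * u) := by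
    have h2 : X ^ (1 / 4 : ℝ) * (1 / u) ^ s ≤ (2 ^ s * u ^ s * (2 * u)) * (1 / u) ^ s :=
      mul_le_mul_of_nonneg_right hus (by positivity)
    have h3 : u ^ s * (1 / u) ^ s = 1 := by
      rw [← mul_pow, mul_one_div_cancel hu0.ne', one_pow]
    calc X ^ (1 / 4 : ℝ) * (1 / u) ^ s ≤ (2 ^ s * u ^ s * (2 * u)) * (1 / u) ^ s := h2
      _ = 2 ^ s * (2 * u) * (u ^ s * (1 / u) ^ s) := by ring
      _ = 2 ^ s * (2 * u) := by rw [h3, mul_one]
  have h4 : X = X ^ (3 / 4 : ℝ) * X ^ (1 / 4 : ℝ) := by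
    rw [← Real.rpow_add hX0]
    norm_num
  have h5 : (256 * ℓ ^ 8) ^ s ≤ (ℓ ^ 9) ^ s := by
    refine pow_le_pow_left₀ (by positivity) ?_ _
    calc 256 * ℓ ^ 8 ≤ ℓ * ℓ ^ 8 := by
          exact mul_le_mul_of_nonneg_right hℓ1 (by positivity)
      _ = ℓ ^ 9 := by ring
  calc 20 * X * ((128 * ℓ ^ 8) ^ s * (1 / u) ^ s)
      = 20 * X ^ (3 / 4 : ℝ) * (128 * ℓ ^ 8) ^ s * (X ^ (1 / 4 : ℝ) * (1 / u) ^ s) := by
        nth_rw 1 [h4]
        ring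
    _ ≤ 20 * X ^ (3 / 4 : ℝ) * (128 * ℓ ^ 8) ^ s * (2 ^ s * (2 * u)) :=
        mul_le_mul_of_nonneg_left h1 (by positivity)
    _ = 40 * X ^ (3 / 4 : ℝ) * (256 * ℓ ^ 8) ^ s * u := by
        rw [show (256 : ℝ) * ℓ ^ 8 = (128 * ℓ ^ 8) * 2 by ring, mul_pow (128 * ℓ ^ 8) 2]
        ring
    _ ≤ X ^ (5 * η / 16) * X ^ (3 / 4 : ℝ) * X ^ (η / 8) * X ^ (η / 16) := by
        have h6 := h5.trans hℓs
        gcongr
    _ = X ^ (3 / 4 + η / 2) := by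
        rw [← Real.rpow_add hX0, ← Real.rpow_add hX0, ← Real.rpow_add hX0]
        congr 1
        ring

theorem tExc1 (h1 : StmtLSP) (h2 : StmtBlk1) (h3 : StmtOrdB) : StmtExc1 := by
  intro η hη
  refine ⟨36 / η + 1, by have : 0 < 36 / η := by positivity
                         linarith, ?_⟩
  have e1 : ∀ᶠ X : ℕ in Filter.atTop, 256 ≤ Real.log (X : ℝ) :=
    (Real.tendsto_log_atTop.comp tendsto_natCast_atTop_atTop).eventually_ge_atTop 256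
  have e2 : ∀ᶠ X : ℕ in Filter.atTop, 40 ≤ (X : ℝ) ^ (5 * η / 16) :=
    ((tendsto_rpow_atTop (by positivity : 0 < 5 * η / 16)).comp
      tendsto_natCast_atTop_atTop).eventually_ge_atTop 40
  obtain ⟨X0, hX0⟩ := Filter.eventually_atTop.mp (e1.and (e2.and (Filter.eventually_ge_atTop 1)))
  refine ⟨X0, fun X hX M Q hQB hQX hQ20 => ?_⟩
  obtain ⟨hl, h40, hX1⟩ := hX0 X hX
  have hQ1 : (1 : ℝ) ≤ Q := by
    refine le_trans ?_ hQB
    exact Real.one_le_rpow (by linarith) (by positivity)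
  have hQ1' : 1 ≤ Q := by exact_mod_cast hQ1
  set s := Nat.log ((4 * Q) ^ 2) X with hs
  have hb : 1 < (4 * Q) ^ 2 := by
    have : 4 ≤ 4 * Q := by omega
    nlinarith
  have hs1 : (4 * Q) ^ (2 * s) ≤ X := by
    rw [pow_mul]
    exact Nat.pow_log_le_self _ (by omega)
  have hs2 : X < (4 * Q) ^ (2 * s + 2) := by
    have := Nat.lt_pow_succ_log_self hb X
    rw [← pow_mul] at this
    exact this
  have hm := exc1_mom h1 h2 h3 Q X M s hQ1' hs1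
  have hk := exc1_markov (Ioc M (M + X)) (fun m => ∑ q ∈ PQ Q, Fq q m) (Real.log X ^ 2)
    (by positivity) s
  have hr := exc1_real η (Real.log X) X Q s hη (by exact_mod_cast hX1) rfl hl h40 hQ1 hQB hQX hQ20
    (by exact_mod_cast hs1) (by exact_mod_cast hs2)
  refine hk.trans (le_trans ?_ hr)
  refine mul_le_mul_of_nonneg_left ?_ (by positivity)
  refine hm.trans (le_of_eq ?_)
  rfl

end Pool.Agent.Lib.MP_9f2731_nt.H
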