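import Pool.Agent.Lib.MP_9f2731_nt.H.Spec

/-!
# Statement Exc2: the exceptional set for two blocks
-/

set_option autoImplicit false

open Finset

namespace Pool.Agent.Lib.MP_9f2731_nt.H

theorem Exc2_d1_period (h4 : StmtOrdB) {q q' : ℕ} (hq : q.Prime) (hq2 : q ≠ 2) (hq' : q'.Prime)
    (hq2' : q' ≠ 2) (hne : q ≠ q') (m k : ℕ) : d1 q (m + q * k) = d1 q m := by
  induction k with
  | zero => simp
  | succ k ih =>
    have h := ((h4 q q' hq hq2 hq' hq2' hne).1 (m + q * k)).2.2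
    rw [← ih, ← h]
    congr 1
    ring

theorem Exc2_period (h4 : StmtOrdB) {q q' : ℕ} (hq : q.Prime) (hq2 : q ≠ 2) (hq' : q'.Prime)
    (hq2' : q' ≠ 2) (hne : q ≠ q') (m : ℕ) : Gq q q' (m + q * q') = Gq q q' m := by
  have e1 := Exc2_d1_period h4 hq hq2 hq' hq2' hne m q'
  have e2 := Exc2_d1_period h4 hq' hq2' hq hq2 hne.symm m q
  have e3 := ((h4 q q' hq hq2 hq' hq2' hne).2.1 m).2.2.1
  unfold Gq
  rw [e1, e3, mul_comm q q', e2]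

theorem Exc2_mem {Q q : ℕ} (h : q ∈ PQ Q) : Q < q ∧ q ≤ 4 * Q ∧ q.Prime ∧ q ≠ 2 := by
  unfold PQ at h
  rw [mem_filter, mem_Ioc] at h
  exact ⟨h.1.1, h.1.2, h.2.1, h.2.2.1⟩

/-- The moment over the interval, disjoint sets of primes. -/
theorem Exc2_pair (h1 : StmtLSP) (h2 : StmtBlk2) (h4 : StmtOrdB) (Q Q' s X M : ℕ)
    (σ σ' : Finset ℕ) (hQ' : 1 ≤ Q') (hQQ : Q' ≤ Q) (hσ : σ ⊆ PQ Q) (hσ' : σ' ⊆ PQ Q')
    (hd : Disjoint σ σ') (hX : (16 * Q * Q') ^ (2 * s) ≤ X) :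
    ∑ m ∈ Ioc M (M + X), (∑ q ∈ σ, ∑ q' ∈ σ', Gq q q' m) ^ (2 * s) ≤
      20 * X * ((32 * (s : ℝ) ^ 2) ^ (2 * s) * ((s : ℝ) ^ 2 * A2 Q Q') ^ s) := by
  have hpr : ∀ q ∈ σ ∪ σ', q.Prime := by
    intro q hq
    rcases mem_union.1 hq with h | h
    · exact (Exc2_mem (hσ h)).2.2.1
    · exact (Exc2_mem (hσ' h)).2.2.1
  have hN : 0 < ∏ q ∈ σ ∪ σ', q := prod_pos fun q hq => (hpr q hq).pos
  have h := h1 (ℕ × ℕ) (σ ×ˢ σ') (∏ q ∈ σ ∪ σ', q) (16 * Q * Q') X M s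
    (fun p m => Gq p.1 p.2 m) (fun p => p.1 * p.2) hN (by
      rintro ⟨q, q'⟩ hp
      obtain ⟨hq, hq'⟩ := mem_product.1 hp
      simp only at hq hq' ⊢
      have hne : q ≠ q' := fun e => disjoint_left.1 hd hq (e ▸ hq')
      obtain ⟨a1, a2, a3, a4⟩ := Exc2_mem (hσ hq)
      obtain ⟨b1, b2, b3, b4⟩ := Exc2_mem (hσ' hq')
      refine ⟨?_, ?_, fun m => Exc2_period h4 a3 a4 b3 b4 hne m⟩
      · exact Nat.Coprime.mul_dvd_of_dvd_of_dvd ((Nat.coprime_primes a3 b3).2 hne)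
          (dvd_prod_of_mem _ (mem_union_left _ hq)) (dvd_prod_of_mem _ (mem_union_right _ hq'))
      · calc q * q' ≤ (4 * Q) * (4 * Q') := Nat.mul_le_mul a2 b2
          _ = 16 * Q * Q' := by ring) hX
  have e : ∀ m, ∑ p ∈ σ ×ˢ σ', Gq p.1 p.2 m = ∑ q ∈ σ, ∑ q' ∈ σ', Gq q q' m := fun m =>
    sum_product σ σ' _
  simp only [e] at h
  refine h.trans ?_
  have h3 := h2 Q Q' s σ σ' hQ' hQQ hσ hσ' hd
  exact mul_le_mul_of_nonneg_left h3 (by positivity)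

/-- The moment over the interval, also for equal blocks. -/
theorem Exc2_all (h1 : StmtLSP) (h2 : StmtBlk2) (h3 : StmtDec) (h4 : StmtOrdB) (Q Q' s X M : ℕ)
    (hQ' : 1 ≤ Q') (hQQ : Q = Q' ∨ 4 * Q' ≤ Q) (hX : (16 * Q * Q') ^ (2 * s) ≤ X) :
    ∑ m ∈ Ioc M (M + X), (∑ q ∈ PQ Q, ∑ q' ∈ (PQ Q').erase q, Gq q q' m) ^ (2 * s) ≤
      20 * X * (16 ^ s * ((32 * (s : ℝ) ^ 2) ^ (2 * s) * ((s : ℝ) ^ 2 * A2 Q Q') ^ s)) := by
  rcases hQQ with rfl | hQQ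
  · set b : ℝ := 20 * X * ((32 * (s : ℝ) ^ 2) ^ (2 * s) * ((s : ℝ) ^ 2 * A2 Q Q) ^ s) with hb
    have hpt : ∀ m, (∑ q ∈ PQ Q, ∑ q' ∈ (PQ Q).erase q, Gq q q' m) ^ (2 * s) ≤
        16 ^ s * ((∑ σ ∈ (PQ Q).powerset, (∑ q ∈ σ, ∑ q' ∈ PQ Q \ σ, Gq q q' m) ^ (2 * s)) /
          2 ^ (PQ Q).card) := fun m => h3 (PQ Q) (fun q q' => Gq q q' m) s
    have hle : ∀ σ ∈ (PQ Q).powerset,
        ∑ m ∈ Ioc M (M + X), (∑ q ∈ σ, ∑ q' ∈ PQ Q \ σ, Gq q q' m) ^ (2 * s) ≤ b := by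
      intro σ hσ
      exact Exc2_pair h1 h2 h4 Q Q s X M σ (PQ Q \ σ) hQ' le_rfl (mem_powerset.1 hσ) sdiff_subset
        disjoint_sdiff hX
    calc ∑ m ∈ Ioc M (M + X), (∑ q ∈ PQ Q, ∑ q' ∈ (PQ Q).erase q, Gq q q' m) ^ (2 * s)
        ≤ ∑ m ∈ Ioc M (M + X), 16 ^ s * ((∑ σ ∈ (PQ Q).powerset,
          (∑ q ∈ σ, ∑ q' ∈ PQ Q \ σ, Gq q q' m) ^ (2 * s)) / 2 ^ (PQ Q).card) :=
          sum_le_sum fun m _ => hpt m
      _ = 16 ^ s * ((∑ σ ∈ (PQ Q).powerset, ∑ m ∈ Ioc M (M + X),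
          (∑ q ∈ σ, ∑ q' ∈ PQ Q \ σ, Gq q q' m) ^ (2 * s)) / 2 ^ (PQ Q).card) := by
          rw [← mul_sum, ← sum_div, sum_comm]
      _ ≤ 16 ^ s * ((∑ σ ∈ (PQ Q).powerset, b) / 2 ^ (PQ Q).card) := by
          have := sum_le_sum hle
          gcongr
      _ = 16 ^ s * b := by
          rw [sum_const, card_powerset, nsmul_eq_mul]
          push_cast
          rw [mul_div_cancel_left₀ _ (by positivity)]
      _ = _ := by rw [hb]; ring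
  · have hQ1 : 1 ≤ Q := by omega
    have hdis : Disjoint (PQ Q) (PQ Q') := by
      rw [disjoint_left]
      intro q hq hq'
      have a := Exc2_mem hq
      have b := Exc2_mem hq'
      omega
    have he : ∀ q ∈ PQ Q, (PQ Q').erase q = PQ Q' := fun q hq =>
      erase_eq_of_notMem (disjoint_left.1 hdis hq)
    have e : ∀ m, ∑ q ∈ PQ Q, ∑ q' ∈ (PQ Q').erase q, Gq q q' m =
        ∑ q ∈ PQ Q, ∑ q' ∈ PQ Q', Gq q q' m := fun m => sum_congr rfl fun q hq => by rw [he q hq]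
    simp only [e]
    refine (Exc2_pair h1 h2 h4 Q Q' s X M (PQ Q) (PQ Q') hQ' (by omega) (Subset.refl _)
      (Subset.refl _) hdis hX).trans ?_
    have hA2 : 0 ≤ A2 Q Q' := by
      unfold A2
      have : 0 ≤ Real.log (4 * (Q : ℝ)) := Real.log_nonneg (by
        have : (1 : ℝ) ≤ Q := by exact_mod_cast hQ1
        linarith)
      positivity
    have h16 : (1 : ℝ) ≤ 16 ^ s := one_le_pow₀ (by norm_num)
    have hp : 0 ≤ (32 * (s : ℝ) ^ 2) ^ (2 * s) * ((s : ℝ) ^ 2 * A2 Q Q') ^ s := by positivity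
    refine mul_le_mul_of_nonneg_left ?_ (by positivity)
    nlinarith

/-- The numerical estimate. -/
theorem Exc2_num (η : ℝ) (hη : 0 < η) : ∃ X0 : ℕ, ∀ X : ℕ, X0 ≤ X → ∀ Q Q' s : ℕ,
    Real.log X ^ (32 / η + 1) ≤ Q' → Q' ≤ Q → (Q : ℝ) ≤ (X : ℝ) ^ (η / 8) →
    (Q : ℝ) ≤ (X : ℝ) ^ (1 / 20 : ℝ) → (16 * Q * Q') ^ (2 * s) ≤ X → X < (16 * Q * Q') ^ (2 * s + 2) →
    20 * X * (16 ^ s * ((32 * (s : ℝ) ^ 2) ^ (2 * s) * ((s : ℝ) ^ 2 * A2 Q Q') ^ s)) *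
      (Real.log X ^ 3) ^ (2 * s) ≤ (X : ℝ) ^ (3 / 4 + η / 2) := by
  have ht1 : Filter.Tendsto (fun n : ℕ => Real.log (n : ℝ)) Filter.atTop Filter.atTop :=
    Real.tendsto_log_atTop.comp tendsto_natCast_atTop_atTop
  have ht2 : Filter.Tendsto (fun n : ℕ => (n : ℝ) ^ (η / 4)) Filter.atTop Filter.atTop :=
    (tendsto_rpow_atTop (by positivity)).comp tendsto_natCast_atTop_atTop
  obtain ⟨X1, hX1⟩ := Filter.eventually_atTop.1 (ht1.eventually_ge_atTop (32768000 : ℝ))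
  obtain ⟨X2, hX2⟩ := Filter.eventually_atTop.1 (ht2.eventually_ge_atTop (80 : ℝ))
  refine ⟨max X1 (max X2 16), ?_⟩
  intro X hX Q Q' s hQ' hQQ hQη hQ20 hlow hup
  have hl : (32768000 : ℝ) ≤ Real.log X := hX1 X (le_trans (le_max_left _ _) hX)
  have h80 : (80 : ℝ) ≤ (X : ℝ) ^ (η / 4) :=
    hX2 X (le_trans ((le_max_left _ _).trans (le_max_right _ _)) hX)
  have h16 : 16 ≤ X := le_trans ((le_max_right _ _).trans (le_max_right _ _)) hX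
  set ℓ := Real.log (X : ℝ) with hℓ
  have hX1' : (1 : ℝ) ≤ X := by exact_mod_cast (by omega : 1 ≤ X)
  have hX0 : (0 : ℝ) < X := by linarith
  have hℓ1 : (1 : ℝ) ≤ ℓ := by linarith
  have hℓ0 : (0 : ℝ) < ℓ := by linarith
  -- Q' and Q are at least 1
  have hQ'1 : (1 : ℝ) ≤ Q' := le_trans (Real.one_le_rpow hℓ1 (by positivity)) hQ'
  have hQQ' : (Q' : ℝ) ≤ Q := by exact_mod_cast hQQ
  have hQ1 : (1 : ℝ) ≤ Q := hQ'1.trans hQQ'
  set D : ℝ := 16 * Q * Q' with hD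
  have hD16 : (16 : ℝ) ≤ D := by
    rw [hD]
    nlinarith
  have hD0 : 0 < D := by linarith
  have hlow' : D ^ (2 * s) ≤ X := by
    have : (((16 * Q * Q') ^ (2 * s) : ℕ) : ℝ) ≤ (X : ℝ) := by exact_mod_cast hlow
    push_cast at this
    exact this
  have hup' : (X : ℝ) < D ^ (2 * s + 2) := by
    have : (X : ℝ) < (((16 * Q * Q') ^ (2 * s + 2) : ℕ) : ℝ) := by exact_mod_cast hup
    push_cast at this
    exact this
  -- s ≤ ℓ
  have hs : (s : ℝ) ≤ ℓ := by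
    have h1 : (16 : ℝ) ^ (2 * s) ≤ X := le_trans (pow_le_pow_left₀ (by norm_num) hD16 _) hlow'
    have h2 : Real.log ((16 : ℝ) ^ (2 * s)) ≤ ℓ := Real.log_le_log (by positivity) h1
    rw [Real.log_pow] at h2
    push_cast at h2
    have h3 : (1 : ℝ) ≤ Real.log 16 := by
      rw [Real.le_log_iff_exp_le (by norm_num)]
      have := Real.exp_one_lt_d9
      linarith
    have hs0 : (0 : ℝ) ≤ s := by positivity
    nlinarith
  -- L ≤ ℓ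
  have hL0 : 0 ≤ Real.log (4 * (Q : ℝ)) := Real.log_nonneg (by linarith)
  have hL : Real.log (4 * (Q : ℝ)) ≤ ℓ := by
    apply Real.log_le_log (by positivity)
    have h1 : (X : ℝ) ^ (1 / 20 : ℝ) ≤ (X : ℝ) ^ (1 / 2 : ℝ) :=
      Real.rpow_le_rpow_of_exponent_le hX1' (by norm_num)
    have h2 : (X : ℝ) ^ (1 / 2 : ℝ) * (X : ℝ) ^ (1 / 2 : ℝ) = X := by
      rw [← Real.rpow_add hX0]
      norm_num
    have h3 : (4 : ℝ) ≤ (X : ℝ) ^ (1 / 2 : ℝ) := by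
      rw [← Real.sqrt_eq_rpow]
      apply Real.le_sqrt_of_sq_le
      have : (16 : ℝ) ≤ X := by exact_mod_cast h16
      linarith
    have h4 : (0 : ℝ) ≤ (X : ℝ) ^ (1 / 2 : ℝ) := by linarith
    calc 4 * (Q : ℝ) ≤ (X : ℝ) ^ (1 / 2 : ℝ) * (X : ℝ) ^ (1 / 2 : ℝ) := by
          apply mul_le_mul h3 (hQ20.trans h1) (by positivity) h4
      _ = X := h2
  -- the square root of D
  set u : ℝ := √D with hu
  have hu0 : 0 < u := Real.sqrt_pos.2 hD0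
  have hu2 : u ^ 2 = D := Real.sq_sqrt hD0.le
  have hu1 : 1 ≤ u := by
    rw [hu]
    exact Real.one_le_sqrt.2 (by linarith)
  have hQQu : √((Q : ℝ) * Q') = u / 4 := by
    have h1 : √((4 : ℝ) ^ 2 * (Q * Q')) = 4 * √((Q : ℝ) * Q') := by
      rw [Real.sqrt_mul (by norm_num) ((Q : ℝ) * Q'), Real.sqrt_sq (by norm_num)]
    rw [hu, hD, show (16 : ℝ) * Q * Q' = 4 ^ 2 * (Q * Q') by ring, h1]
    ring
  have huQ : u ≤ 4 * (X : ℝ) ^ (η / 8) := by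
    have h1 : √((Q : ℝ) * Q') ≤ Q := by
      rw [Real.sqrt_le_left (by positivity)]
      nlinarith
    rw [hQQu] at h1
    linarith
  -- the base
  have hA2 : A2 Q Q' ≤ 2000 * ℓ ^ 3 / u := by
    unfold A2
    rw [hQQu]
    rw [div_div_eq_mul_div]
    apply div_le_div_of_nonneg_right _ hu0.le
    have : Real.log (4 * (Q : ℝ)) ^ 3 ≤ ℓ ^ 3 := pow_le_pow_left₀ hL0 hL 3
    linarith
  have hA20 : 0 ≤ A2 Q Q' := by
    unfold A2
    positivity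
  have hs0 : (0 : ℝ) ≤ s := by positivity
  have hbase : 16 * ((32 * (s : ℝ) ^ 2) ^ 2 * ((s : ℝ) ^ 2 * A2 Q Q')) * (ℓ ^ 3) ^ 2 ≤
      ℓ ^ 16 / u := by
    have h1 : (s : ℝ) ^ 6 ≤ ℓ ^ 6 := pow_le_pow_left₀ hs0 hs 6
    have h2 : 16 * ((32 * (s : ℝ) ^ 2) ^ 2 * ((s : ℝ) ^ 2 * A2 Q Q')) * (ℓ ^ 3) ^ 2 =
        16384 * ℓ ^ 6 * ((s : ℝ) ^ 6 * A2 Q Q') := by ring
    rw [h2]
    have h3 : (s : ℝ) ^ 6 * A2 Q Q' ≤ ℓ ^ 6 * (2000 * ℓ ^ 3 / u) :=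
      mul_le_mul h1 hA2 hA20 (by positivity)
    calc 16384 * ℓ ^ 6 * ((s : ℝ) ^ 6 * A2 Q Q')
        ≤ 16384 * ℓ ^ 6 * (ℓ ^ 6 * (2000 * ℓ ^ 3 / u)) := by
          apply mul_le_mul_of_nonneg_left h3 (by positivity)
      _ = 32768000 * ℓ ^ 15 / u := by ring
      _ ≤ ℓ * ℓ ^ 15 / u := by
          apply div_le_div_of_nonneg_right _ hu0.le
          exact mul_le_mul_of_nonneg_right hl (by positivity)
      _ = ℓ ^ 16 / u := by ring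
  have hbase0 : 0 ≤ 16 * ((32 * (s : ℝ) ^ 2) ^ 2 * ((s : ℝ) ^ 2 * A2 Q Q')) * (ℓ ^ 3) ^ 2 := by
    positivity
  have hpow : 16 ^ s * ((32 * (s : ℝ) ^ 2) ^ (2 * s) * ((s : ℝ) ^ 2 * A2 Q Q') ^ s) *
      (ℓ ^ 3) ^ (2 * s) ≤ ℓ ^ (16 * s) / u ^ s := by
    have e : 16 ^ s * ((32 * (s : ℝ) ^ 2) ^ (2 * s) * ((s : ℝ) ^ 2 * A2 Q Q') ^ s) *
      (ℓ ^ 3) ^ (2 * s) =
      (16 * ((32 * (s : ℝ) ^ 2) ^ 2 * ((s : ℝ) ^ 2 * A2 Q Q')) * (ℓ ^ 3) ^ 2) ^ s := by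
      rw [pow_mul, pow_mul (ℓ ^ 3) 2 s]
      simp only [mul_pow]
    rw [e]
    refine (pow_le_pow_left₀ hbase0 hbase s).trans (le_of_eq ?_)
    rw [div_pow, pow_mul]
  -- u ^ (s + 1) is large
  have hbig : (X : ℝ) ^ (1 / 4 : ℝ) ≤ u ^ (s + 1) := by
    have h1 : (X : ℝ) ≤ (u ^ (s + 1)) ^ (4 : ℕ) := by
      have : (u ^ (s + 1)) ^ (4 : ℕ) = D ^ (2 * s + 2) := by
        rw [← hu2, ← pow_mul, ← pow_mul]
        congr 1
        ring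
      rw [this]
      exact hup'.le
    calc (X : ℝ) ^ (1 / 4 : ℝ) ≤ ((u ^ (s + 1)) ^ (4 : ℕ)) ^ (1 / 4 : ℝ) :=
          Real.rpow_le_rpow hX0.le h1 (by norm_num)
      _ = u ^ (s + 1) := by
          rw [← Real.rpow_natCast (u ^ (s + 1)) 4, ← Real.rpow_mul (by positivity)]
          norm_num
  -- ℓ ^ (16 s) is small
  have hB : (0 : ℝ) < 32 / η + 1 := by positivity
  have hsmall : ℓ ^ (16 * s) ≤ (X : ℝ) ^ (η / 8) := by
    have h1 : ℓ ^ (2 * (32 / η + 1)) ≤ D := by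
      have h2 : ℓ ^ (2 * (32 / η + 1)) = ℓ ^ (32 / η + 1) * ℓ ^ (32 / η + 1) := by
        rw [← Real.rpow_add hℓ0]
        congr 1
        ring
      rw [h2]
      have h3 : (0 : ℝ) ≤ ℓ ^ (32 / η + 1) := by positivity
      calc ℓ ^ (32 / η + 1) * ℓ ^ (32 / η + 1) ≤ Q' * Q' := mul_le_mul hQ' hQ' h3 (by positivity)
        _ ≤ D := by
          rw [hD]
          nlinarith
    have h2 : (ℓ ^ (2 * (32 / η + 1))) ^ (2 * s) ≤ X :=
      (pow_le_pow_left₀ (by positivity) h1 _).trans hlow'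
    have h3 : ℓ ^ (16 * s) = ((ℓ ^ (2 * (32 / η + 1))) ^ (2 * s)) ^ (4 / (32 / η + 1)) := by
      rw [← Real.rpow_natCast (ℓ ^ (2 * (32 / η + 1))) (2 * s), ← Real.rpow_mul hℓ0.le,
        ← Real.rpow_mul hℓ0.le, ← Real.rpow_natCast ℓ (16 * s)]
      congr 1
      push_cast
      field_simp
      ring
    rw [h3]
    refine (Real.rpow_le_rpow (by positivity) h2 (by positivity)).trans ?_
    apply Real.rpow_le_rpow_of_exponent_le hX1'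
    rw [div_le_div_iff₀ hB (by norm_num)]
    have : η * (32 / η + 1) = 32 + η := by field_simp
    rw [this]
    linarith
  -- conclusion
  have hus : 0 < u ^ s := by positivity
  have hX14 : 0 < (X : ℝ) ^ (1 / 4 : ℝ) := by positivity
  have hfin : ℓ ^ (16 * s) / u ^ s ≤ (X : ℝ) ^ (η / 8) * (4 * (X : ℝ) ^ (η / 8)) /
      (X : ℝ) ^ (1 / 4 : ℝ) := by
    rw [div_le_div_iff₀ hus hX14]
    have h1 : ℓ ^ (16 * s) * (X : ℝ) ^ (1 / 4 : ℝ) ≤ (X : ℝ) ^ (η / 8) * u ^ (s + 1) :=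
      mul_le_mul hsmall hbig hX14.le (by positivity)
    have h2 : (X : ℝ) ^ (η / 8) * u ^ (s + 1) = (X : ℝ) ^ (η / 8) * u * u ^ s := by
      rw [pow_succ]
      ring
    rw [h2] at h1
    refine h1.trans ?_
    apply mul_le_mul_of_nonneg_right _ hus.le
    exact mul_le_mul_of_nonneg_left huQ (by positivity)
  calc 20 * X * (16 ^ s * ((32 * (s : ℝ) ^ 2) ^ (2 * s) * ((s : ℝ) ^ 2 * A2 Q Q') ^ s)) *
      (ℓ ^ 3) ^ (2 * s)
      = 20 * X * (16 ^ s * ((32 * (s : ℝ) ^ 2) ^ (2 * s) * ((s : ℝ) ^ 2 * A2 Q Q') ^ s) *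
      (ℓ ^ 3) ^ (2 * s)) := by ring
    _ ≤ 20 * X * ((X : ℝ) ^ (η / 8) * (4 * (X : ℝ) ^ (η / 8)) / (X : ℝ) ^ (1 / 4 : ℝ)) := by
        apply mul_le_mul_of_nonneg_left (hpow.trans hfin) (by positivity)
    _ = 80 * ((X : ℝ) ^ (1 : ℝ) * (X : ℝ) ^ (η / 8) * (X : ℝ) ^ (η / 8) /
        (X : ℝ) ^ (1 / 4 : ℝ)) := by
        rw [Real.rpow_one]
        ring
    _ = 80 * (X : ℝ) ^ (3 / 4 + η / 4) := by
        rw [← Real.rpow_add hX0, ← Real.rpow_add hX0, ← Real.rpow_sub hX0]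
        congr 2
        ring
    _ ≤ (X : ℝ) ^ (η / 4) * (X : ℝ) ^ (3 / 4 + η / 4) :=
        mul_le_mul_of_nonneg_right h80 (by positivity)
    _ = (X : ℝ) ^ (3 / 4 + η / 2) := by
        rw [← Real.rpow_add hX0]
        congr 1
        ring

theorem tExc2 (h1 : StmtLSP) (h2 : StmtBlk2) (h3 : StmtDec) (h4 : StmtOrdB) : StmtExc2 := by
  intro η hη
  obtain ⟨X0, hX0⟩ := Exc2_num η hη
  refine ⟨32 / η + 1, by
    have : 0 < 32 / η := by positivity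
    linarith, max X0 3, ?_⟩
  intro X hX M Q Q' hQ' hQQ hQη hQ20
  have hX0' := hX0 X ((le_max_left _ _).trans hX)
  have hX3 : 3 ≤ X := (le_max_right _ _).trans hX
  have hl1 : 1 ≤ Real.log (X : ℝ) := by
    rw [Real.le_log_iff_exp_le (by positivity)]
    have := Real.exp_one_lt_d9
    have h3X : (3 : ℝ) ≤ X := by exact_mod_cast hX3
    linarith
  have hQ'1 : 1 ≤ Q' := by
    have : (1 : ℝ) ≤ Q' := le_trans (Real.one_le_rpow hl1 (by positivity)) hQ'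
    exact_mod_cast this
  have hQ'Q : Q' ≤ Q := by
    rcases hQQ with h | h <;> omega
  set D := 16 * Q * Q' with hD
  have hD2 : 1 < D ^ 2 := by
    have h1 : 1 ≤ Q * Q' := Nat.mul_pos (by omega) (by omega)
    have h2 : 16 ≤ D := by
      rw [hD, mul_assoc]
      omega
    nlinarith
  set s := Nat.log (D ^ 2) X with hs
  have hlow : D ^ (2 * s) ≤ X := by
    rw [pow_mul]
    exact Nat.pow_log_le_self _ (by omega)
  have hup : X < D ^ (2 * s + 2) := by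
    have := Nat.lt_pow_succ_log_self hD2 X
    rw [← hs, ← pow_mul] at this
    exact this
  have hmom := Exc2_all h1 h2 h3 h4 Q Q' s X M hQ'1 hQQ hlow
  have hnum := hX0' Q Q' s hQ' hQ'Q hQη hQ20 hlow hup
  set S := (Ioc M (M + X)).filter fun m =>
    1 / Real.log X ^ 3 < |∑ q ∈ PQ Q, ∑ q' ∈ (PQ Q').erase q, Gq q q' m| with hS
  have hl3 : 0 < Real.log (X : ℝ) ^ 3 := by positivity
  have h5 : (S.card : ℝ) * (1 / Real.log X ^ 3) ^ (2 * s) ≤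
      ∑ m ∈ Ioc M (M + X), (∑ q ∈ PQ Q, ∑ q' ∈ (PQ Q').erase q, Gq q q' m) ^ (2 * s) := by
    calc (S.card : ℝ) * (1 / Real.log X ^ 3) ^ (2 * s)
        = ∑ m ∈ S, (1 / Real.log X ^ 3) ^ (2 * s) := by rw [sum_const, nsmul_eq_mul]
      _ ≤ ∑ m ∈ S, (∑ q ∈ PQ Q, ∑ q' ∈ (PQ Q').erase q, Gq q q' m) ^ (2 * s) := by
          apply sum_le_sum
          intro m hm
          rw [hS, mem_filter] at hm
          rw [← (even_two_mul s).pow_abs (∑ q ∈ PQ Q, ∑ q' ∈ (PQ Q').erase q, Gq q q' m)]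
          exact pow_le_pow_left₀ (by positivity) hm.2.le _
      _ ≤ _ := by
          apply sum_le_sum_of_subset_of_nonneg (filter_subset _ _)
          intro m _ _
          exact (even_two_mul s).pow_nonneg _
  have h6 : (S.card : ℝ) ≤ (20 * X * (16 ^ s * ((32 * (s : ℝ) ^ 2) ^ (2 * s) *
      ((s : ℝ) ^ 2 * A2 Q Q') ^ s))) * (Real.log X ^ 3) ^ (2 * s) := by
    have h7 := h5.trans hmom
    rw [one_div, inv_pow, ← div_eq_mul_inv, div_le_iff₀ (by positivity)] at h7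
    exact h7
  exact h6.trans hnum

end Pool.Agent.Lib.MP_9f2731_nt.H
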