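import Pool.Agent.Lib.MP_9f2731_nt.H.Spec

/-!
# Statement Gcd: two sums of gcds
-/

set_option autoImplicit false

open Finset

namespace Pool.Agent.Lib.MP_9f2731_nt.H

theorem Gcd_count (Q g : ℕ) (hQ : 1 ≤ Q) (σ : Finset ℕ) (hσ : σ ⊆ Ioc Q (4 * Q)) (hg : 1 ≤ g) :
    ((σ.filter fun q => g ∣ q - 1).card : ℝ) ≤ 4 * Q / g := by
  have h1 : (σ.filter fun q => g ∣ q - 1).card ≤ (Icc 1 (4 * Q / g)).card := by
    apply card_le_card_of_injOn (fun q => (q - 1) / g)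
    · intro q hq
      rw [coe_filter, Set.mem_setOf_eq] at hq
      obtain ⟨hq1, hq2⟩ := hq
      have hq3 := mem_Ioc.1 (hσ hq1)
      obtain ⟨k, hk⟩ := hq2
      have h2 : (q - 1) / g = k := by
        rw [hk]
        exact Nat.mul_div_cancel_left _ hg
      show (q - 1) / g ∈ ((Icc 1 (4 * Q / g) : Finset ℕ) : Set ℕ)
      rw [h2, mem_coe, mem_Icc]
      constructor
      · rcases Nat.eq_zero_or_pos k with h0 | h0
        · rw [h0, mul_zero] at hk
          omega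
        · exact h0
      · rw [Nat.le_div_iff_mul_le hg, mul_comm, ← hk]
        omega
    · intro q hq q' hq' h
      rw [coe_filter, Set.mem_setOf_eq] at hq hq'
      have h3 := mem_Ioc.1 (hσ hq.1)
      have h4 := mem_Ioc.1 (hσ hq'.1)
      have h5 := Nat.mul_div_cancel' hq.2
      have h6 := Nat.mul_div_cancel' hq'.2
      simp only at h
      rw [h] at h5
      omega
  rw [Nat.card_Icc, Nat.add_sub_cancel] at h1
  calc ((σ.filter fun q => g ∣ q - 1).card : ℝ) ≤ ((4 * Q / g : ℕ) : ℝ) := by exact_mod_cast h1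
    _ ≤ ((4 * Q : ℕ) : ℝ) / g := Nat.cast_div_le
    _ = 4 * Q / g := by push_cast; ring

theorem Gcd_one (Q n : ℕ) (σ : Finset ℕ) (hQ : 1 ≤ Q) (hn : 1 ≤ n) (hσ : σ ⊆ Ioc Q (4 * Q)) :
    ∑ q ∈ σ, ((Nat.gcd n (q - 1) : ℕ) : ℝ) ≤ 7 * Q * ((n.divisors.card : ℕ) : ℝ) := by
  have h1 : ∀ q ∈ σ, ((Nat.gcd n (q - 1) : ℕ) : ℝ) ≤
      ∑ g ∈ n.divisors, if g ∣ q - 1 then (g : ℝ) else 0 := by
    intro q _
    have h2 : Nat.gcd n (q - 1) ∈ n.divisors :=
      Nat.mem_divisors.2 ⟨Nat.gcd_dvd_left _ _, by omega⟩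
    have h3 := single_le_sum (f := fun g : ℕ => if g ∣ q - 1 then (g : ℝ) else 0)
      (fun g _ => by split_ifs <;> positivity) h2
    simp only [Nat.gcd_dvd_right, if_true] at h3
    exact h3
  calc ∑ q ∈ σ, ((Nat.gcd n (q - 1) : ℕ) : ℝ)
      ≤ ∑ q ∈ σ, ∑ g ∈ n.divisors, (if g ∣ q - 1 then (g : ℝ) else 0) := sum_le_sum h1
    _ = ∑ g ∈ n.divisors, ((σ.filter fun q => g ∣ q - 1).card : ℝ) * g := by
        rw [sum_comm]
        apply sum_congr rfl
        intro g _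
        rw [← sum_filter, sum_const, nsmul_eq_mul]
    _ ≤ ∑ g ∈ n.divisors, 4 * (Q : ℝ) := by
        apply sum_le_sum
        intro g hg
        have hg0 : 1 ≤ g := Nat.pos_of_mem_divisors hg
        have hg1 : (0 : ℝ) < g := by exact_mod_cast hg0
        have h2 := Gcd_count Q g hQ σ hσ hg0
        rwa [le_div_iff₀ hg1] at h2
    _ = 4 * Q * ((n.divisors.card : ℕ) : ℝ) := by
        rw [sum_const, nsmul_eq_mul]
        ring
    _ ≤ 7 * Q * ((n.divisors.card : ℕ) : ℝ) := by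
        apply mul_le_mul_of_nonneg_right _ (by positivity)
        have : (0 : ℝ) ≤ Q := by positivity
        linarith

theorem Gcd_two (Q Q' : ℕ) (σ σ' : Finset ℕ) (hQ' : 1 ≤ Q') (hQQ : Q' ≤ Q)
    (hσ : σ ⊆ Ioc Q (4 * Q)) (hσ' : σ' ⊆ Ioc Q' (4 * Q')) :
    ∑ q ∈ σ, ∑ q' ∈ σ', ((Nat.gcd (q - 1) (q' - 1) : ℕ) : ℝ) ≤
      49 * Q * Q' * (1 + Real.log (4 * (Q' : ℝ))) := by
  have hQ : 1 ≤ Q := hQ'.trans hQQ
  have h1 : ∀ q ∈ σ, ∀ q' ∈ σ', ((Nat.gcd (q - 1) (q' - 1) : ℕ) : ℝ) ≤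
      ∑ g ∈ Icc 1 (4 * Q'), (if g ∣ q - 1 then (1 : ℝ) else 0) *
        (if g ∣ q' - 1 then (1 : ℝ) else 0) * g := by
    intro q hq q' hq'
    have hq1 := mem_Ioc.1 (hσ hq)
    have hq2 := mem_Ioc.1 (hσ' hq')
    have h0 : 0 < Nat.gcd (q - 1) (q' - 1) := Nat.gcd_pos_of_pos_left _ (by omega)
    have h4 : Nat.gcd (q - 1) (q' - 1) ≤ q' - 1 :=
      Nat.le_of_dvd (by omega) (Nat.gcd_dvd_right _ _)
    have h2 : Nat.gcd (q - 1) (q' - 1) ∈ Icc 1 (4 * Q') := by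
      rw [mem_Icc]
      omega
    have h3 := single_le_sum (f := fun g : ℕ => (if g ∣ q - 1 then (1 : ℝ) else 0) *
        (if g ∣ q' - 1 then (1 : ℝ) else 0) * g)
      (fun g _ => by split_ifs <;> simp) h2
    simp only [Nat.gcd_dvd_left, Nat.gcd_dvd_right, if_true, one_mul] at h3
    exact h3
  have hlog : ∑ g ∈ Icc 1 (4 * Q'), 1 / (g : ℝ) ≤ 1 + Real.log (4 * (Q' : ℝ)) := by
    have h := harmonic_le_one_add_log (4 * Q')
    rw [harmonic_eq_sum_Icc] at h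
    push_cast at h
    simpa [one_div] using h
  calc ∑ q ∈ σ, ∑ q' ∈ σ', ((Nat.gcd (q - 1) (q' - 1) : ℕ) : ℝ)
      ≤ ∑ q ∈ σ, ∑ q' ∈ σ', ∑ g ∈ Icc 1 (4 * Q'), (if g ∣ q - 1 then (1 : ℝ) else 0) *
        (if g ∣ q' - 1 then (1 : ℝ) else 0) * g :=
        sum_le_sum fun q hq => sum_le_sum fun q' hq' => h1 q hq q' hq'
    _ = ∑ q ∈ σ, ∑ g ∈ Icc 1 (4 * Q'), ∑ q' ∈ σ', (if g ∣ q - 1 then (1 : ℝ) else 0) *
        (if g ∣ q' - 1 then (1 : ℝ) else 0) * g := sum_congr rfl fun q _ => sum_comm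
    _ = ∑ g ∈ Icc 1 (4 * Q'), ∑ q ∈ σ, ∑ q' ∈ σ', (if g ∣ q - 1 then (1 : ℝ) else 0) *
        (if g ∣ q' - 1 then (1 : ℝ) else 0) * g := sum_comm
    _ = ∑ g ∈ Icc 1 (4 * Q'), ((σ.filter fun q => g ∣ q - 1).card : ℝ) *
        ((σ'.filter fun q => g ∣ q - 1).card : ℝ) * g := by
        apply sum_congr rfl
        intro g _
        rw [card_filter, card_filter]
        push_cast
        rw [sum_mul_sum, sum_mul]
        apply sum_congr rfl
        intro q _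
        rw [sum_mul]
    _ ≤ ∑ g ∈ Icc 1 (4 * Q'), 16 * (Q : ℝ) * Q' * (1 / g) := by
        apply sum_le_sum
        intro g hg
        have hg0 : 1 ≤ g := (mem_Icc.1 hg).1
        have hg1 : (0 : ℝ) < g := by exact_mod_cast hg0
        have h2 := Gcd_count Q g hQ σ hσ hg0
        have h3 := Gcd_count Q' g hQ' σ' hσ' hg0
        calc ((σ.filter fun q => g ∣ q - 1).card : ℝ) *
            ((σ'.filter fun q => g ∣ q - 1).card : ℝ) * g
            ≤ (4 * Q / g) * (4 * Q' / g) * g := by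
              apply mul_le_mul_of_nonneg_right _ hg1.le
              exact mul_le_mul h2 h3 (by positivity) (by positivity)
          _ = 16 * (Q : ℝ) * Q' * (1 / g) := by
              field_simp
              ring
    _ = 16 * (Q : ℝ) * Q' * ∑ g ∈ Icc 1 (4 * Q'), 1 / (g : ℝ) := by rw [mul_sum]
    _ ≤ 16 * (Q : ℝ) * Q' * (1 + Real.log (4 * (Q' : ℝ))) :=
        mul_le_mul_of_nonneg_left hlog (by positivity)
    _ ≤ 49 * Q * Q' * (1 + Real.log (4 * (Q' : ℝ))) := by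
        have h5 : (1 : ℝ) ≤ 4 * (Q' : ℝ) := by
          have : (1 : ℝ) ≤ Q' := by exact_mod_cast hQ'
          linarith
        have h6 := Real.log_nonneg h5
        apply mul_le_mul_of_nonneg_right _ (by linarith)
        apply mul_le_mul_of_nonneg_right _ (by positivity)
        have : (0 : ℝ) ≤ Q := by positivity
        linarith

theorem tGcd : StmtGcd := ⟨Gcd_one, Gcd_two⟩

end Pool.Agent.Lib.MP_9f2731_nt.H
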