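import Pool.Agent.Lib.MP_9f2731_nt.H.Spec

/-!
# HA2: the hypotheses of the moment bound for two blocks of primes
-/

set_option autoImplicit false

open Finset

namespace Pool.Agent.Lib.MP_9f2731_nt.H

theorem HA2_mem {Q q : ℕ} (hQ : 1 ≤ Q) (hq : q ∈ PQ Q) :
    q.Prime ∧ q ≠ 2 ∧ Q < q ∧ q ≤ 4 * Q ∧ 1 ≤ od q ∧ od q ∣ q - 1 ∧
      1 / (od q : ℝ) ≤ Real.log (4 * (Q : ℝ)) / √(Q : ℝ) := by
  unfold PQ at hq
  rw [mem_filter, mem_Ioc] at hq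
  obtain ⟨⟨h1, h2⟩, h3, h4, h5⟩ := hq
  have hQ' : (1 : ℝ) ≤ Q := by exact_mod_cast hQ
  have hs : 0 < √(Q : ℝ) := Real.sqrt_pos.mpr (by linarith)
  have ho : 1 ≤ od q := by
    rcases Nat.eq_zero_or_pos (od q) with h | h
    · rw [h] at h5
      simp only [Nat.cast_zero, zero_mul] at h5
      linarith
    · exact h
  have : Fact q.Prime := ⟨h3⟩
  refine ⟨h3, h4, h1, h2, ho, ?_, ?_⟩
  · refine ZMod.orderOf_dvd_card_sub_one ?_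
    intro h
    have h6 : ((2 : ℕ) : ZMod q) = 0 := by exact_mod_cast h
    rw [ZMod.natCast_eq_zero_iff] at h6
    have := Nat.le_of_dvd (by norm_num) h6
    have := h3.two_le
    omega
  · have ho' : (0 : ℝ) < od q := by exact_mod_cast ho
    rw [div_le_div_iff₀ ho' hs]
    linarith

theorem HA2_sq (a b c d : ℝ) : (a - b - c + d) ^ 2 ≤ 4 * (a ^ 2 + b ^ 2 + c ^ 2 + d ^ 2) := by
  nlinarith [sq_nonneg (a + b), sq_nonneg (a + c), sq_nonneg (a - d), sq_nonneg (b - c),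
    sq_nonneg (b + d), sq_nonneg (c + d)]

/-- `1 / lcm` -/
noncomputable def HA2_wl (q q' : ℕ) : ℝ := 1 / ((Nat.lcm (od q) (od q') : ℕ) : ℝ)

theorem HA2_wl_comm (q q' : ℕ) : HA2_wl q q' = HA2_wl q' q := by
  unfold HA2_wl
  rw [Nat.lcm_comm]

theorem HA2_wl_nonneg (q q' : ℕ) : 0 ≤ HA2_wl q q' := by
  unfold HA2_wl
  positivity

theorem HA2_gq_comm (h : StmtOrdB) {q q' : ℕ} (hq : q.Prime) (h2 : q ≠ 2) (hq' : q'.Prime)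
    (h2' : q' ≠ 2) (hne : q ≠ q') (m : ℕ) : Gq q q' m = Gq q' q m := by
  have h3 := ((h q q' hq h2 hq' h2' hne).2.1 m).2.2.2
  unfold Gq
  rw [h3]
  ring

theorem HA2_pt (h : StmtOrdB) {q q' : ℕ} (hq : q.Prime) (h2 : q ≠ 2) (hq' : q'.Prime)
    (h2' : q' ≠ 2) (hne : q ≠ q') (m : ℕ) :
    Gq q q' m ^ 2 ≤ 4 * (HA2_wl q q' * d2 q q' m + 1 / (od q : ℝ) * (1 / (q' : ℝ)) ^ 2 * d1 q m +
      1 / (od q' : ℝ) * (1 / (q : ℝ)) ^ 2 * d1 q' m + (1 / (q : ℝ) * (1 / (q' : ℝ))) ^ 2) := by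
  have ha := (h q q' hq h2 hq' h2' hne).1 m
  have hb := (h q' q hq' h2' hq h2 (Ne.symm hne)).1 m
  have hc := (h q q' hq h2 hq' h2' hne).2.1 m
  have e1 : Gq q q' m = d2 q q' m - d1 q m * (1 / (q' : ℝ)) - d1 q' m * (1 / (q : ℝ)) +
      1 / (q : ℝ) * (1 / (q' : ℝ)) := by
    unfold Gq
    rw [div_mul_div_comm, one_mul]
    ring
  rw [e1]
  refine (HA2_sq _ _ _ _).trans ?_
  have e2 : d2 q q' m ^ 2 ≤ HA2_wl q q' * d2 q q' m := by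
    rw [sq]
    exact mul_le_mul_of_nonneg_right hc.2.1 hc.1
  have e3 : (d1 q m * (1 / (q' : ℝ))) ^ 2 ≤ 1 / (od q : ℝ) * (1 / (q' : ℝ)) ^ 2 * d1 q m := by
    have h5 : d1 q m ^ 2 ≤ 1 / (od q : ℝ) * d1 q m := by
      rw [sq]
      exact mul_le_mul_of_nonneg_right ha.2.1 ha.1
    calc (d1 q m * (1 / (q' : ℝ))) ^ 2 = d1 q m ^ 2 * (1 / (q' : ℝ)) ^ 2 := by ring
      _ ≤ 1 / (od q : ℝ) * d1 q m * (1 / (q' : ℝ)) ^ 2 :=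
          mul_le_mul_of_nonneg_right h5 (by positivity)
      _ = _ := by ring
  have e4 : (d1 q' m * (1 / (q : ℝ))) ^ 2 ≤ 1 / (od q' : ℝ) * (1 / (q : ℝ)) ^ 2 * d1 q' m := by
    have h5 : d1 q' m ^ 2 ≤ 1 / (od q' : ℝ) * d1 q' m := by
      rw [sq]
      exact mul_le_mul_of_nonneg_right hb.2.1 hb.1
    calc (d1 q' m * (1 / (q : ℝ))) ^ 2 = d1 q' m ^ 2 * (1 / (q : ℝ)) ^ 2 := by ring
      _ ≤ 1 / (od q' : ℝ) * d1 q' m * (1 / (q : ℝ)) ^ 2 :=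
          mul_le_mul_of_nonneg_right h5 (by positivity)
      _ = _ := by ring
  linarith

theorem HA2_d1_mul (h : StmtOrdB) {q q' : ℕ} (hq : q.Prime) (h2 : q ≠ 2) (hq' : q'.Prime)
    (h2' : q' ≠ 2) (hne : q ≠ q') {c : ℕ} (hc : q ∣ c) (m t : ℕ) :
    d1 q (m + t * c) = d1 q m := by
  obtain ⟨k, rfl⟩ := hc
  have hper : Function.Periodic (d1 q) q := fun x => ((h q q' hq h2 hq' h2' hne).1 x).2.2
  have := hper.nat_mul (t * k) m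
  rw [← this]
  congr 1
  push_cast
  ring

theorem HA2_av1 (h : StmtOrdB) {q q' : ℕ} (hq : q.Prime) (h2 : q ≠ 2) (hq' : q'.Prime)
    (h2' : q' ≠ 2) (hne : q ≠ q') {c : ℕ} (hc : ¬ q' ∣ c) (hc' : q ∣ c) (m : ℕ) :
    (∑ t ∈ range q', Gq q q' (m + t * c) ^ 2) / (q' : ℝ) ≤
      4 * (HA2_wl q q' * (1 / (q' : ℝ)) * d1 q m + 1 / (od q : ℝ) * (1 / (q' : ℝ)) ^ 2 * d1 q m +
      1 / (od q' : ℝ) * (1 / (q : ℝ)) ^ 2 * (1 / (q' : ℝ)) +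
      (1 / (q : ℝ) * (1 / (q' : ℝ))) ^ 2) := by
  have hq0 : (0 : ℝ) < q' := by exact_mod_cast hq'.pos
  have e1 : ∑ t ∈ range q', d2 q q' (m + t * c) = d1 q m := by
    have := (h q' q hq' h2' hq h2 (Ne.symm hne)).2.2.2 c m hc hc'
    rw [← this]
    refine sum_congr rfl fun t _ => ?_
    exact ((h q q' hq h2 hq' h2' hne).2.1 _).2.2.2
  have e2 : ∑ t ∈ range q', d1 q' (m + t * c) = 1 :=
    (h q' q hq' h2' hq h2 (Ne.symm hne)).2.2.1 c m hc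
  have e3 : ∑ t ∈ range q', d1 q (m + t * c) = q' * d1 q m := by
    rw [sum_congr rfl fun t _ => HA2_d1_mul h hq h2 hq' h2' hne hc' m t]
    rw [sum_const, card_range, nsmul_eq_mul]
  rw [div_le_iff₀ hq0]
  calc ∑ t ∈ range q', Gq q q' (m + t * c) ^ 2 ≤ ∑ t ∈ range q', 4 * (HA2_wl q q' * d2 q q' (m + t * c) +
        1 / (od q : ℝ) * (1 / (q' : ℝ)) ^ 2 * d1 q (m + t * c) +
        1 / (od q' : ℝ) * (1 / (q : ℝ)) ^ 2 * d1 q' (m + t * c) +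
        (1 / (q : ℝ) * (1 / (q' : ℝ))) ^ 2) :=
        sum_le_sum fun t _ => HA2_pt h hq h2 hq' h2' hne _
    _ = 4 * (HA2_wl q q' * d1 q m + 1 / (od q : ℝ) * (1 / (q' : ℝ)) ^ 2 * (q' * d1 q m) +
        1 / (od q' : ℝ) * (1 / (q : ℝ)) ^ 2 * 1 +
        q' * (1 / (q : ℝ) * (1 / (q' : ℝ))) ^ 2) := by
        rw [← mul_sum, sum_add_distrib, sum_add_distrib, sum_add_distrib, ← mul_sum, ← mul_sum,
          ← mul_sum, e1, e2, e3, sum_const, card_range, nsmul_eq_mul]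
    _ = _ := by
        field_simp

theorem HA2_av2 (h : StmtOrdB) {q q' : ℕ} (hq : q.Prime) (h2 : q ≠ 2) (hq' : q'.Prime)
    (h2' : q' ≠ 2) (hne : q ≠ q') {c : ℕ} (hc : ¬ q ∣ c) (hc' : q' ∣ c) (m : ℕ) :
    (∑ t ∈ range q, Gq q q' (m + t * c) ^ 2) / (q : ℝ) ≤
      4 * (HA2_wl q q' * (1 / (q : ℝ)) * d1 q' m + 1 / (od q' : ℝ) * (1 / (q : ℝ)) ^ 2 * d1 q' m +
      1 / (od q : ℝ) * (1 / (q' : ℝ)) ^ 2 * (1 / (q : ℝ)) +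
      (1 / (q : ℝ) * (1 / (q' : ℝ))) ^ 2) := by
  have h3 := HA2_av1 h hq' h2' hq h2 (Ne.symm hne) hc hc' m
  rw [HA2_wl_comm q' q, mul_comm (1 / (q' : ℝ)) (1 / (q : ℝ))] at h3
  refine le_trans (le_of_eq ?_) h3
  congr 1
  refine sum_congr rfl fun t _ => ?_
  rw [HA2_gq_comm h hq h2 hq' h2' hne]

theorem HA2_av3 (h : StmtOrdB) {q q' : ℕ} (hq : q.Prime) (h2 : q ≠ 2) (hq' : q'.Prime)
    (h2' : q' ≠ 2) (hne : q ≠ q') {c c' : ℕ} (hc1 : ¬ q ∣ c) (hc : ¬ q' ∣ c') (hc' : q ∣ c')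
    (m : ℕ) :
    (∑ t ∈ range q, (∑ t' ∈ range q', Gq q q' (m + t * c + t' * c') ^ 2) / (q' : ℝ)) / (q : ℝ) ≤
      4 * (HA2_wl q q' * (1 / (q' : ℝ)) * (1 / (q : ℝ)) +
      1 / (od q : ℝ) * (1 / (q' : ℝ)) ^ 2 * (1 / (q : ℝ)) +
      1 / (od q' : ℝ) * (1 / (q : ℝ)) ^ 2 * (1 / (q' : ℝ)) +
      (1 / (q : ℝ) * (1 / (q' : ℝ))) ^ 2) := by
  have hq0 : (0 : ℝ) < q := by exact_mod_cast hq.pos
  have e2 : ∑ t ∈ range q, d1 q (m + t * c) = 1 := (h q q' hq h2 hq' h2' hne).2.2.1 c m hc1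
  rw [div_le_iff₀ hq0]
  calc ∑ t ∈ range q, (∑ t' ∈ range q', Gq q q' (m + t * c + t' * c') ^ 2) / (q' : ℝ)
      ≤ ∑ t ∈ range q, 4 * (HA2_wl q q' * (1 / (q' : ℝ)) * d1 q (m + t * c) +
        1 / (od q : ℝ) * (1 / (q' : ℝ)) ^ 2 * d1 q (m + t * c) +
        1 / (od q' : ℝ) * (1 / (q : ℝ)) ^ 2 * (1 / (q' : ℝ)) +
        (1 / (q : ℝ) * (1 / (q' : ℝ))) ^ 2) :=
        sum_le_sum fun t _ => HA2_av1 h hq h2 hq' h2' hne hc hc' _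
    _ = 4 * (HA2_wl q q' * (1 / (q' : ℝ)) * 1 + 1 / (od q : ℝ) * (1 / (q' : ℝ)) ^ 2 * 1 +
        q * (1 / (od q' : ℝ) * (1 / (q : ℝ)) ^ 2 * (1 / (q' : ℝ))) +
        q * (1 / (q : ℝ) * (1 / (q' : ℝ))) ^ 2) := by
        rw [← mul_sum, sum_add_distrib, sum_add_distrib, sum_add_distrib, ← mul_sum, ← mul_sum,
          e2, sum_const, sum_const, card_range, nsmul_eq_mul, nsmul_eq_mul]
    _ = _ := by
        field_simp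

theorem HA2_wl_le {Q Q' q q' : ℕ} (hQ : 1 ≤ Q) (hQ' : 1 ≤ Q') (hq : q ∈ PQ Q) (hq' : q' ∈ PQ Q') :
    HA2_wl q q' ≤ ((Nat.gcd (q - 1) (q' - 1) : ℕ) : ℝ) * (1 / (od q : ℝ)) * (1 / (od q' : ℝ)) ∧
      HA2_wl q q' ≤ 1 / (od q : ℝ) := by
  obtain ⟨h3, h4, h1, h2, ho, hd, -⟩ := HA2_mem hQ hq
  obtain ⟨h3', h4', h1', h2', ho', hd', -⟩ := HA2_mem hQ' hq'
  have ho0 : (0 : ℝ) < od q := by exact_mod_cast ho
  have ho0' : (0 : ℝ) < od q' := by exact_mod_cast ho'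
  have hl : 0 < Nat.lcm (od q) (od q') := Nat.lcm_pos ho ho'
  have hl0 : (0 : ℝ) < ((Nat.lcm (od q) (od q') : ℕ) : ℝ) := by exact_mod_cast hl
  constructor
  · have e1 : Nat.gcd (od q) (od q') ≤ Nat.gcd (q - 1) (q' - 1) := by
      refine Nat.le_of_dvd (Nat.gcd_pos_of_pos_left _ ?_) (Nat.dvd_gcd ((Nat.gcd_dvd_left _ _).trans hd)
        ((Nat.gcd_dvd_right _ _).trans hd'))
      have := h3.two_le
      omega
    have e2 : ((Nat.gcd (od q) (od q') : ℕ) : ℝ) * ((Nat.lcm (od q) (od q') : ℕ) : ℝ) =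
        od q * od q' := by exact_mod_cast Nat.gcd_mul_lcm (od q) (od q')
    have e3 : HA2_wl q q' = ((Nat.gcd (od q) (od q') : ℕ) : ℝ) * (1 / (od q : ℝ)) *
        (1 / (od q' : ℝ)) := by
      unfold HA2_wl
      field_simp
      linarith
    rw [e3]
    have e4 : ((Nat.gcd (od q) (od q') : ℕ) : ℝ) ≤ ((Nat.gcd (q - 1) (q' - 1) : ℕ) : ℝ) := by
      exact_mod_cast e1
    gcongr
  · unfold HA2_wl
    refine one_div_le_one_div_of_le ho0 ?_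
    exact_mod_cast Nat.le_of_dvd hl (Nat.dvd_lcm_left _ _)

theorem HA2_tau (ht : StmtTau) {Q q : ℕ} (hQ : 1 ≤ Q) (hq : q ∈ PQ Q) :
    (((q - 1).divisors.card : ℕ) : ℝ) ≤ 4 * √(Q : ℝ) := by
  obtain ⟨h3, h4, h1, h2, -⟩ := HA2_mem hQ hq
  have h5 := ht (q - 1) (by omega)
  have h6 : √(((q - 1 : ℕ)) : ℝ) ≤ 2 * √(Q : ℝ) := by
    rw [show (2 : ℝ) = √(4 : ℝ) by
      rw [show (4 : ℝ) = 2 ^ 2 by norm_num, Real.sqrt_sq (by norm_num)],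
      ← Real.sqrt_mul (by norm_num)]
    refine Real.sqrt_le_sqrt ?_
    have : q - 1 ≤ 4 * Q := by omega
    exact_mod_cast this
  linarith

theorem HA2_card {Q : ℕ} {σ : Finset ℕ} (hσ : σ ⊆ PQ Q) : ((σ.card : ℕ) : ℝ) ≤ 3 * Q := by
  have h1 : σ ⊆ Ioc Q (4 * Q) := hσ.trans (by unfold PQ; exact filter_subset _ _)
  have h2 := card_le_card h1
  rw [Nat.card_Ioc] at h2
  have h3 : σ.card ≤ 3 * Q := by omega
  exact_mod_cast h3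

/-- the real quantities -/
theorem HA2_ctx {Q Q' : ℕ} (hQ' : 1 ≤ Q') (hQQ : Q' ≤ Q) :
    ∃ u v e f L : ℝ, √(Q : ℝ) = u ∧ √(Q' : ℝ) = v ∧ (Q : ℝ) = u ^ 2 ∧ (Q' : ℝ) = v ^ 2 ∧
      0 < u ∧ 0 < v ∧ u * e = 1 ∧ v * f = 1 ∧ 0 < e ∧ e ≤ f ∧ f ≤ 1 ∧ 1 ≤ L ∧
      Real.log (4 * (Q' : ℝ)) ≤ L ∧ A2 Q Q' = 500 * L ^ 3 * (e * f) ∧
      (∀ q ∈ PQ Q, 1 / (od q : ℝ) ≤ L * e ∧ 1 / (od q : ℝ) ≤ 1 ∧ 1 / (q : ℝ) ≤ e ^ 2) ∧
      (∀ q ∈ PQ Q', 1 / (od q : ℝ) ≤ L * f ∧ 1 / (od q : ℝ) ≤ 1 ∧ 1 / (q : ℝ) ≤ f ^ 2) := by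
  have hQ : 1 ≤ Q := hQ'.trans hQQ
  have hQr : (1 : ℝ) ≤ Q := by exact_mod_cast hQ
  have hQr' : (1 : ℝ) ≤ Q' := by exact_mod_cast hQ'
  have hQQr : (Q' : ℝ) ≤ Q := by exact_mod_cast hQQ
  have hv1 : 1 ≤ √(Q' : ℝ) := by
    rw [Real.one_le_sqrt]
    exact hQr'
  have huv : √(Q' : ℝ) ≤ √(Q : ℝ) := Real.sqrt_le_sqrt hQQr
  have hu2 : √(Q : ℝ) ^ 2 = Q := Real.sq_sqrt (by linarith)
  have hv2 : √(Q' : ℝ) ^ 2 = Q' := Real.sq_sqrt (by linarith)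
  have hL' : Real.log (4 * (Q' : ℝ)) ≤ Real.log (4 * (Q : ℝ)) :=
    Real.log_le_log (by linarith) (by linarith)
  have hL1 : 1 ≤ Real.log (4 * (Q' : ℝ)) := by
    rw [Real.le_log_iff_exp_le (by linarith)]
    have := Real.exp_one_lt_d9
    linarith
  have hv0 : 0 < √(Q' : ℝ) := by linarith
  have hu0 : 0 < √(Q : ℝ) := by linarith
  refine ⟨√(Q : ℝ), √(Q' : ℝ), 1 / √(Q : ℝ), 1 / √(Q' : ℝ), Real.log (4 * (Q : ℝ)), rfl, rfl,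
    hu2.symm, hv2.symm, hu0, hv0, mul_one_div_cancel hu0.ne', mul_one_div_cancel hv0.ne',
    by positivity, one_div_le_one_div_of_le hv0 huv, ?_, by linarith, hL', ?_, ?_, ?_⟩
  · rw [div_le_one hv0]
    exact hv1
  · unfold A2
    rw [Real.sqrt_mul (by linarith)]
    field_simp
  · intro q hq
    obtain ⟨h3, h4, h1, h2, ho, hd, hol⟩ := HA2_mem hQ hq
    have ho0 : (1 : ℝ) ≤ od q := by exact_mod_cast ho
    refine ⟨hol.trans (le_of_eq (by ring)), ?_, ?_⟩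
    · rw [div_le_one (by linarith)]
      exact ho0
    · have h5 : (Q : ℝ) ≤ q := by exact_mod_cast h1.le
      rw [div_pow, one_pow, hu2]
      exact one_div_le_one_div_of_le (by linarith) h5
  · intro q hq
    obtain ⟨h3, h4, h1, h2, ho, hd, hol⟩ := HA2_mem hQ' hq
    have ho0 : (1 : ℝ) ≤ od q := by exact_mod_cast ho
    refine ⟨?_, ?_, ?_⟩
    · refine hol.trans ?_
      rw [div_eq_mul_one_div]
      exact mul_le_mul_of_nonneg_right hL' (by positivity)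
    · rw [div_le_one (by linarith)]
      exact ho0
    · have h5 : (Q' : ℝ) ≤ q := by exact_mod_cast h1.le
      rw [div_pow, one_pow, hv2]
      exact one_div_le_one_div_of_le (by linarith) h5

/-- (a) -/
theorem HA2_a (hB : StmtOrdB) {Q Q' q q' : ℕ} (hQ' : 1 ≤ Q') (hQQ : Q' ≤ Q) (hq : q ∈ PQ Q)
    (hq' : q' ∈ PQ Q') (hne : q ≠ q') (m : ℕ) : Gq q q' m ^ 2 ≤ A2 Q Q' := by
  have hQ : 1 ≤ Q := hQ'.trans hQQ
  obtain ⟨h3, h4, h1, h2, ho, hd, -⟩ := HA2_mem hQ hq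
  obtain ⟨h3', h4', h1', h2', ho', hd', -⟩ := HA2_mem hQ' hq'
  obtain ⟨u, v, e, f, L, -, -, -, -, hu, hv, hue, hvf, he, hef, hf1, hL, -, hA, hP, hP'⟩ :=
    HA2_ctx hQ' hQQ
  obtain ⟨p1, p2, p3⟩ := hP q hq
  obtain ⟨r1, r2, r3⟩ := hP' q' hq'
  have hp := HA2_pt hB h3 h4 h3' h4' hne m
  have hw := (HA2_wl_le hQ hQ' hq hq').2
  have hw0 := HA2_wl_nonneg q q'
  have hd2 := (hB q q' h3 h4 h3' h4' hne).2.1 m
  have hx := (hB q q' h3 h4 h3' h4' hne).1 m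
  have hx' := (hB q' q h3' h4' h3 h4 (Ne.symm hne)).1 m
  have hd21 : d2 q q' m ≤ HA2_wl q q' := hd2.2.1
  rw [hA]
  refine hp.trans ?_
  have he1 : e ≤ 1 := hef.trans hf1
  have a0 : 0 ≤ 1 / (od q : ℝ) := by positivity
  have a0' : 0 ≤ 1 / (od q' : ℝ) := by positivity
  have b0 : 0 ≤ 1 / (q : ℝ) := by positivity
  have b0' : 0 ≤ 1 / (q' : ℝ) := by positivity
  have hf0 : 0 < f := by linarith
  have t1 : HA2_wl q q' * d2 q q' m ≤ (L * e) * (L * e) :=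
    mul_le_mul (hw.trans p1) ((hd21.trans hw).trans p1) hd2.1 (by positivity)
  have q1 : 1 / (q' : ℝ) ≤ 1 := r3.trans (pow_le_one₀ hf0.le hf1)
  have q2 : 1 / (q : ℝ) ≤ e := p3.trans (by nlinarith)
  have t2 : 1 / (od q : ℝ) * (1 / (q' : ℝ)) ^ 2 * d1 q m ≤ (L * e) * 1 ^ 2 * (L * e) := by
    have := hx.2.1.trans p1
    have := hx.1
    gcongr
  have t3 : 1 / (od q' : ℝ) * (1 / (q : ℝ)) ^ 2 * d1 q' m ≤ 1 * e ^ 2 * 1 := by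
    have := hx'.2.1.trans r2
    have := hx'.1
    gcongr
  have t4 : (1 / (q : ℝ) * (1 / (q' : ℝ))) ^ 2 ≤ (e * 1) ^ 2 := by
    gcongr
  have s1 : e ^ 2 ≤ L ^ 3 * (e * f) := by
    have i1 : e ^ 2 ≤ 1 * (e * f) := by nlinarith
    have i2 : 1 * (e * f) ≤ L ^ 3 * (e * f) :=
      mul_le_mul_of_nonneg_right (one_le_pow₀ hL) (by positivity)
    linarith
  have s2 : (L * e) * (L * e) ≤ L ^ 3 * (e * f) := by
    have i1 : (L * e) * (L * e) ≤ L ^ 2 * (e * f) := by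
      have : e * e ≤ e * f := mul_le_mul_of_nonneg_left hef he.le
      calc (L * e) * (L * e) = L ^ 2 * (e * e) := by ring
        _ ≤ L ^ 2 * (e * f) := mul_le_mul_of_nonneg_left this (by positivity)
    have i2 : L ^ 2 * (e * f) ≤ L ^ 3 * (e * f) :=
      mul_le_mul_of_nonneg_right (pow_le_pow_right₀ hL (by norm_num)) (by positivity)
    linarith
  have s3 : 0 ≤ L ^ 3 * (e * f) := by positivity
  nlinarith

/-- (b) -/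
theorem HA2_b (hB : StmtOrdB) (hT : StmtTau) (hG : StmtGcd) {Q Q' q : ℕ} {σ' : Finset ℕ}
    (hQ' : 1 ≤ Q') (hQQ : Q' ≤ Q) (hq : q ∈ PQ Q) (hσ' : σ' ⊆ PQ Q') (c : ℕ → ℕ)
    (hne : ∀ q' ∈ σ', q ≠ q') (hc : ∀ q' ∈ σ', ¬ q' ∣ c q' ∧ q ∣ c q') (m : ℕ) :
    ∑ q' ∈ σ', (∑ t ∈ range q', (Gq q q' (m + t * c q')) ^ 2) / (q' : ℝ) ≤ A2 Q Q' := by
  have hQ : 1 ≤ Q := hQ'.trans hQQ
  obtain ⟨h3, h4, h1, h2, ho, hd, -⟩ := HA2_mem hQ hq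
  obtain ⟨u, v, e, f, L, hsu, hsv, hQu, hQv, hu, hv, hue, hvf, he, hef, hf1, hL, -, hA, hP, hP'⟩ :=
    HA2_ctx hQ' hQQ
  obtain ⟨p1, p2, p3⟩ := hP q hq
  have he1 : e ≤ 1 := hef.trans hf1
  have hf0 : 0 < f := by linarith
  have hterm : ∀ q' ∈ σ', (∑ t ∈ range q', (Gq q q' (m + t * c q')) ^ 2) / (q' : ℝ) ≤
      4 * (L ^ 3 * e ^ 2 * f ^ 3) * ((Nat.gcd (q - 1) (q' - 1) : ℕ) : ℝ) +
        12 * (L ^ 3 * e ^ 2 * f ^ 4) := by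
    intro q' hq'
    obtain ⟨h3', h4', h1', h2', ho', hd', -⟩ := HA2_mem hQ' (hσ' hq')
    obtain ⟨r1, r2, r3⟩ := hP' q' (hσ' hq')
    have hp := HA2_av1 hB h3 h4 h3' h4' (hne q' hq') (hc q' hq').1 (hc q' hq').2 m
    refine hp.trans ?_
    have hw := (HA2_wl_le hQ hQ' hq (hσ' hq')).1
    have hw0 := HA2_wl_nonneg q q'
    have hx := (hB q q' h3 h4 h3' h4' (hne q' hq')).1 m
    have hx0 := hx.1
    have hx1 := hx.2.1.trans p1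
    have a0 : 0 ≤ 1 / (od q : ℝ) := by positivity
    have a0' : 0 ≤ 1 / (od q' : ℝ) := by positivity
    have b0 : 0 ≤ 1 / (q : ℝ) := by positivity
    have b0' : 0 ≤ 1 / (q' : ℝ) := by positivity
    have g0 : (0 : ℝ) ≤ ((Nat.gcd (q - 1) (q' - 1) : ℕ) : ℝ) := by positivity
    have t1 : HA2_wl q q' * (1 / (q' : ℝ)) * d1 q m ≤
        (((Nat.gcd (q - 1) (q' - 1) : ℕ) : ℝ) * (L * e) * (L * f)) * f ^ 2 * (L * e) := by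
      have hw2 : HA2_wl q q' ≤ ((Nat.gcd (q - 1) (q' - 1) : ℕ) : ℝ) * (L * e) * (L * f) :=
        hw.trans (by gcongr)
      gcongr
    have t2 : 1 / (od q : ℝ) * (1 / (q' : ℝ)) ^ 2 * d1 q m ≤ (L * e) * (f ^ 2) ^ 2 * (L * e) := by
      gcongr
    have t3 : 1 / (od q' : ℝ) * (1 / (q : ℝ)) ^ 2 * (1 / (q' : ℝ)) ≤ 1 * (e ^ 2) ^ 2 * f ^ 2 := by
      gcongr
    have t4 : (1 / (q : ℝ) * (1 / (q' : ℝ))) ^ 2 ≤ (e ^ 2 * f ^ 2) ^ 2 := by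
      gcongr
    have l2 : L ^ 2 ≤ L ^ 3 := pow_le_pow_right₀ hL (by norm_num)
    have l3 : 1 ≤ L ^ 3 := one_le_pow₀ hL
    have s2 : (L * e) * (f ^ 2) ^ 2 * (L * e) ≤ L ^ 3 * e ^ 2 * f ^ 4 := by
      calc (L * e) * (f ^ 2) ^ 2 * (L * e) = L ^ 2 * (e ^ 2 * f ^ 4) := by ring
        _ ≤ L ^ 3 * (e ^ 2 * f ^ 4) := mul_le_mul_of_nonneg_right l2 (by positivity)
        _ = _ := by ring
    have s3 : 1 * (e ^ 2) ^ 2 * f ^ 2 ≤ L ^ 3 * e ^ 2 * f ^ 4 := by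
      have i1 : e ^ 2 ≤ f ^ 2 := pow_le_pow_left₀ he.le hef 2
      calc 1 * (e ^ 2) ^ 2 * f ^ 2 = e ^ 2 * (e ^ 2 * f ^ 2) := by ring
        _ ≤ f ^ 2 * (e ^ 2 * f ^ 2) := mul_le_mul_of_nonneg_right i1 (by positivity)
        _ = 1 * (e ^ 2 * f ^ 4) := by ring
        _ ≤ L ^ 3 * (e ^ 2 * f ^ 4) := mul_le_mul_of_nonneg_right l3 (by positivity)
        _ = _ := by ring
    have s4 : (e ^ 2 * f ^ 2) ^ 2 ≤ L ^ 3 * e ^ 2 * f ^ 4 := by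
      have i1 : e ^ 2 ≤ 1 := pow_le_one₀ he.le he1
      calc (e ^ 2 * f ^ 2) ^ 2 = e ^ 2 * (e ^ 2 * f ^ 4) := by ring
        _ ≤ 1 * (e ^ 2 * f ^ 4) := mul_le_mul_of_nonneg_right i1 (by positivity)
        _ ≤ L ^ 3 * (e ^ 2 * f ^ 4) := mul_le_mul_of_nonneg_right l3 (by positivity)
        _ = _ := by ring
    have s1 : (((Nat.gcd (q - 1) (q' - 1) : ℕ) : ℝ) * (L * e) * (L * f)) * f ^ 2 * (L * e) =
        L ^ 3 * e ^ 2 * f ^ 3 * ((Nat.gcd (q - 1) (q' - 1) : ℕ) : ℝ) := by ring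
    linarith
  refine (sum_le_sum hterm).trans ?_
  rw [sum_add_distrib, ← mul_sum, sum_const, nsmul_eq_mul, hA]
  have hg := hG.1 Q' (q - 1) σ' hQ' (by have := h3.two_le; omega)
    (hσ'.trans (by unfold PQ; exact filter_subset _ _))
  have htau := HA2_tau hT hQ hq
  have hcard := HA2_card hσ'
  rw [hsu] at htau
  rw [hQv] at hg hcard
  have hg2 : ∑ q' ∈ σ', ((Nat.gcd (q - 1) (q' - 1) : ℕ) : ℝ) ≤ 7 * v ^ 2 * (4 * u) :=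
    hg.trans (mul_le_mul_of_nonneg_left htau (by positivity))
  calc 4 * (L ^ 3 * e ^ 2 * f ^ 3) * ∑ q' ∈ σ', ((Nat.gcd (q - 1) (q' - 1) : ℕ) : ℝ) +
        (σ'.card : ℝ) * (12 * (L ^ 3 * e ^ 2 * f ^ 4))
      ≤ 4 * (L ^ 3 * e ^ 2 * f ^ 3) * (7 * v ^ 2 * (4 * u)) +
        (3 * v ^ 2) * (12 * (L ^ 3 * e ^ 2 * f ^ 4)) := by gcongr
    _ = 112 * (L ^ 3 * (e * f)) * ((v * f) ^ 2 * (u * e)) +
        36 * (L ^ 3 * (e * f)) * ((v * f) ^ 2 * (e * f)) := by ring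
    _ = 112 * (L ^ 3 * (e * f)) + 36 * (L ^ 3 * (e * f)) * (e * f) := by
        rw [hue, hvf]
        ring
    _ ≤ 112 * (L ^ 3 * (e * f)) + 36 * (L ^ 3 * (e * f)) * 1 := by
        have : e * f ≤ 1 := mul_le_one₀ he1 hf0.le hf1
        gcongr
    _ ≤ 500 * L ^ 3 * (e * f) := by
        have : 0 ≤ L ^ 3 * (e * f) := by positivity
        linarith

/-- (c) -/
theorem HA2_c (hB : StmtOrdB) (hT : StmtTau) (hG : StmtGcd) {Q Q' q' : ℕ} {σ : Finset ℕ}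
    (hQ' : 1 ≤ Q') (hQQ : Q' ≤ Q) (hq' : q' ∈ PQ Q') (hσ : σ ⊆ PQ Q) (c : ℕ → ℕ)
    (hne : ∀ q ∈ σ, q ≠ q') (hc : ∀ q ∈ σ, ¬ q ∣ c q ∧ q' ∣ c q) (m : ℕ) :
    ∑ q ∈ σ, (∑ t ∈ range q, (Gq q q' (m + t * c q)) ^ 2) / (q : ℝ) ≤ A2 Q Q' := by
  have hQ : 1 ≤ Q := hQ'.trans hQQ
  obtain ⟨h3', h4', h1', h2', ho', hd', -⟩ := HA2_mem hQ' hq'
  obtain ⟨u, v, e, f, L, hsu, hsv, hQu, hQv, hu, hv, hue, hvf, he, hef, hf1, hL, -, hA, hP, hP'⟩ :=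
    HA2_ctx hQ' hQQ
  obtain ⟨r1, r2, r3⟩ := hP' q' hq'
  have he1 : e ≤ 1 := hef.trans hf1
  have hf0 : 0 < f := by linarith
  have hterm : ∀ q ∈ σ, (∑ t ∈ range q, (Gq q q' (m + t * c q)) ^ 2) / (q : ℝ) ≤
      4 * (L ^ 3 * e ^ 3 * f ^ 2) * ((Nat.gcd (q' - 1) (q - 1) : ℕ) : ℝ) +
        12 * (L ^ 3 * e ^ 3 * f ^ 2) := by
    intro q hq
    obtain ⟨h3, h4, h1, h2, ho, hd, -⟩ := HA2_mem hQ (hσ hq)
    obtain ⟨p1, p2, p3⟩ := hP q (hσ hq)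
    have hp := HA2_av2 hB h3 h4 h3' h4' (hne q hq) (hc q hq).1 (hc q hq).2 m
    refine hp.trans ?_
    have hw := (HA2_wl_le hQ hQ' (hσ hq) hq').1
    rw [Nat.gcd_comm] at hw
    have hw0 := HA2_wl_nonneg q q'
    have hx := (hB q' q h3' h4' h3 h4 (Ne.symm (hne q hq))).1 m
    have hx0 := hx.1
    have hx1 := hx.2.1.trans r1
    have a0 : 0 ≤ 1 / (od q : ℝ) := by positivity
    have a0' : 0 ≤ 1 / (od q' : ℝ) := by positivity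
    have b0 : 0 ≤ 1 / (q : ℝ) := by positivity
    have b0' : 0 ≤ 1 / (q' : ℝ) := by positivity
    have g0 : (0 : ℝ) ≤ ((Nat.gcd (q' - 1) (q - 1) : ℕ) : ℝ) := by positivity
    have t1 : HA2_wl q q' * (1 / (q : ℝ)) * d1 q' m ≤
        (((Nat.gcd (q' - 1) (q - 1) : ℕ) : ℝ) * (L * e) * (L * f)) * e ^ 2 * (L * f) := by
      have hw2 : HA2_wl q q' ≤ ((Nat.gcd (q' - 1) (q - 1) : ℕ) : ℝ) * (L * e) * (L * f) :=
        hw.trans (by gcongr)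
      gcongr
    have t2 : 1 / (od q' : ℝ) * (1 / (q : ℝ)) ^ 2 * d1 q' m ≤ (L * f) * (e ^ 2) ^ 2 * (L * f) := by
      gcongr
    have t3 : 1 / (od q : ℝ) * (1 / (q' : ℝ)) ^ 2 * (1 / (q : ℝ)) ≤
        (L * e) * (f ^ 2) ^ 2 * e ^ 2 := by
      gcongr
    have t4 : (1 / (q : ℝ) * (1 / (q' : ℝ))) ^ 2 ≤ (e ^ 2 * f ^ 2) ^ 2 := by
      gcongr
    have l1 : L ≤ L ^ 3 := le_self_pow₀ hL (by norm_num)
    have l2 : L ^ 2 ≤ L ^ 3 := pow_le_pow_right₀ hL (by norm_num)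
    have l3 : 1 ≤ L ^ 3 := one_le_pow₀ hL
    have s2 : (L * f) * (e ^ 2) ^ 2 * (L * f) ≤ L ^ 3 * e ^ 3 * f ^ 2 := by
      calc (L * f) * (e ^ 2) ^ 2 * (L * f) = L ^ 2 * (e ^ 3 * f ^ 2) * e := by ring
        _ ≤ L ^ 3 * (e ^ 3 * f ^ 2) * 1 := by gcongr
        _ = _ := by ring
    have s3 : (L * e) * (f ^ 2) ^ 2 * e ^ 2 ≤ L ^ 3 * e ^ 3 * f ^ 2 := by
      have i1 : f ^ 2 ≤ 1 := pow_le_one₀ hf0.le hf1
      calc (L * e) * (f ^ 2) ^ 2 * e ^ 2 = L * (e ^ 3 * f ^ 2) * f ^ 2 := by ring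
        _ ≤ L ^ 3 * (e ^ 3 * f ^ 2) * 1 := by gcongr
        _ = _ := by ring
    have s4 : (e ^ 2 * f ^ 2) ^ 2 ≤ L ^ 3 * e ^ 3 * f ^ 2 := by
      have i1 : e * f ^ 2 ≤ 1 := mul_le_one₀ he1 (by positivity) (pow_le_one₀ hf0.le hf1)
      calc (e ^ 2 * f ^ 2) ^ 2 = 1 * (e ^ 3 * f ^ 2) * (e * f ^ 2) := by ring
        _ ≤ L ^ 3 * (e ^ 3 * f ^ 2) * 1 := by gcongr
        _ = _ := by ring
    have s1 : (((Nat.gcd (q' - 1) (q - 1) : ℕ) : ℝ) * (L * e) * (L * f)) * e ^ 2 * (L * f) =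
        L ^ 3 * e ^ 3 * f ^ 2 * ((Nat.gcd (q' - 1) (q - 1) : ℕ) : ℝ) := by ring
    linarith
  refine (sum_le_sum hterm).trans ?_
  rw [sum_add_distrib, ← mul_sum, sum_const, nsmul_eq_mul, hA]
  have hg := hG.1 Q (q' - 1) σ hQ (by have := h3'.two_le; omega)
    (hσ.trans (by unfold PQ; exact filter_subset _ _))
  have htau := HA2_tau hT hQ' hq'
  have hcard := HA2_card hσ
  rw [hsv] at htau
  rw [hQu] at hg hcard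
  have hg2 : ∑ q ∈ σ, ((Nat.gcd (q' - 1) (q - 1) : ℕ) : ℝ) ≤ 7 * u ^ 2 * (4 * v) :=
    hg.trans (mul_le_mul_of_nonneg_left htau (by positivity))
  calc 4 * (L ^ 3 * e ^ 3 * f ^ 2) * ∑ q ∈ σ, ((Nat.gcd (q' - 1) (q - 1) : ℕ) : ℝ) +
        (σ.card : ℝ) * (12 * (L ^ 3 * e ^ 3 * f ^ 2))
      ≤ 4 * (L ^ 3 * e ^ 3 * f ^ 2) * (7 * u ^ 2 * (4 * v)) +
        (3 * u ^ 2) * (12 * (L ^ 3 * e ^ 3 * f ^ 2)) := by gcongr
    _ = 112 * (L ^ 3 * (e * f)) * ((u * e) ^ 2 * (v * f)) +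
        36 * (L ^ 3 * (e * f)) * ((u * e) ^ 2 * f) := by ring
    _ = 112 * (L ^ 3 * (e * f)) + 36 * (L ^ 3 * (e * f)) * f := by
        rw [hue, hvf]
        ring
    _ ≤ 112 * (L ^ 3 * (e * f)) + 36 * (L ^ 3 * (e * f)) * 1 := by
        gcongr
    _ ≤ 500 * L ^ 3 * (e * f) := by
        have : 0 ≤ L ^ 3 * (e * f) := by positivity
        linarith

/-- (d) -/
theorem HA2_d (hB : StmtOrdB) (hG : StmtGcd) {Q Q' : ℕ} {σ σ' : Finset ℕ}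
    (hQ' : 1 ≤ Q') (hQQ : Q' ≤ Q) (hσ : σ ⊆ PQ Q) (hσ' : σ' ⊆ PQ Q') (c : ℕ → ℕ)
    (hne : ∀ q ∈ σ, ∀ q' ∈ σ', q ≠ q') (hc : ∀ q ∈ σ, ∀ q' ∈ σ', ¬ q ∣ c q ∧ ¬ q' ∣ c q' ∧ q ∣ c q')
    (m : ℕ) :
    ∑ q ∈ σ, ∑ q' ∈ σ', (∑ t ∈ range q,
      (∑ t' ∈ range q', (Gq q q' (m + t * c q + t' * c q')) ^ 2) / (q' : ℝ)) / (q : ℝ) ≤
      A2 Q Q' := by
  have hQ : 1 ≤ Q := hQ'.trans hQQ
  obtain ⟨u, v, e, f, L, hsu, hsv, hQu, hQv, hu, hv, hue, hvf, he, hef, hf1, hL, hL', hA, hP, hP'⟩ :=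
    HA2_ctx hQ' hQQ
  have he1 : e ≤ 1 := hef.trans hf1
  have hf0 : 0 < f := by linarith
  have hterm : ∀ q ∈ σ, ∀ q' ∈ σ', (∑ t ∈ range q,
      (∑ t' ∈ range q', (Gq q q' (m + t * c q + t' * c q')) ^ 2) / (q' : ℝ)) / (q : ℝ) ≤
      4 * (L ^ 2 * e ^ 3 * f ^ 3) * ((Nat.gcd (q - 1) (q' - 1) : ℕ) : ℝ) +
        12 * (L ^ 3 * e ^ 3 * f ^ 3) := by
    intro q hq q' hq'
    obtain ⟨h3, h4, h1, h2, ho, hd, -⟩ := HA2_mem hQ (hσ hq)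
    obtain ⟨h3', h4', h1', h2', ho', hd', -⟩ := HA2_mem hQ' (hσ' hq')
    obtain ⟨p1, p2, p3⟩ := hP q (hσ hq)
    obtain ⟨r1, r2, r3⟩ := hP' q' (hσ' hq')
    have hp := HA2_av3 hB h3 h4 h3' h4' (hne q hq q' hq') (hc q hq q' hq').1 (hc q hq q' hq').2.1
      (hc q hq q' hq').2.2 m
    refine hp.trans ?_
    have hw := (HA2_wl_le hQ hQ' (hσ hq) (hσ' hq')).1
    have hw0 := HA2_wl_nonneg q q'
    have a0 : 0 ≤ 1 / (od q : ℝ) := by positivity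
    have a0' : 0 ≤ 1 / (od q' : ℝ) := by positivity
    have b0 : 0 ≤ 1 / (q : ℝ) := by positivity
    have b0' : 0 ≤ 1 / (q' : ℝ) := by positivity
    have g0 : (0 : ℝ) ≤ ((Nat.gcd (q - 1) (q' - 1) : ℕ) : ℝ) := by positivity
    have t1 : HA2_wl q q' * (1 / (q' : ℝ)) * (1 / (q : ℝ)) ≤
        (((Nat.gcd (q - 1) (q' - 1) : ℕ) : ℝ) * (L * e) * (L * f)) * f ^ 2 * e ^ 2 := by
      have hw2 : HA2_wl q q' ≤ ((Nat.gcd (q - 1) (q' - 1) : ℕ) : ℝ) * (L * e) * (L * f) :=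
        hw.trans (by gcongr)
      gcongr
    have t2 : 1 / (od q : ℝ) * (1 / (q' : ℝ)) ^ 2 * (1 / (q : ℝ)) ≤
        (L * e) * (f ^ 2) ^ 2 * e ^ 2 := by
      gcongr
    have t3 : 1 / (od q' : ℝ) * (1 / (q : ℝ)) ^ 2 * (1 / (q' : ℝ)) ≤
        (L * f) * (e ^ 2) ^ 2 * f ^ 2 := by
      gcongr
    have t4 : (1 / (q : ℝ) * (1 / (q' : ℝ))) ^ 2 ≤ (e ^ 2 * f ^ 2) ^ 2 := by
      gcongr
    have l1 : L ≤ L ^ 3 := le_self_pow₀ hL (by norm_num)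
    have l3 : 1 ≤ L ^ 3 := one_le_pow₀ hL
    have s2 : (L * e) * (f ^ 2) ^ 2 * e ^ 2 ≤ L ^ 3 * e ^ 3 * f ^ 3 := by
      calc (L * e) * (f ^ 2) ^ 2 * e ^ 2 = L * (e ^ 3 * f ^ 3) * f := by ring
        _ ≤ L ^ 3 * (e ^ 3 * f ^ 3) * 1 := by gcongr
        _ = _ := by ring
    have s3 : (L * f) * (e ^ 2) ^ 2 * f ^ 2 ≤ L ^ 3 * e ^ 3 * f ^ 3 := by
      calc (L * f) * (e ^ 2) ^ 2 * f ^ 2 = L * (e ^ 3 * f ^ 3) * e := by ring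
        _ ≤ L ^ 3 * (e ^ 3 * f ^ 3) * 1 := by gcongr
        _ = _ := by ring
    have s4 : (e ^ 2 * f ^ 2) ^ 2 ≤ L ^ 3 * e ^ 3 * f ^ 3 := by
      have i1 : e * f ≤ 1 := mul_le_one₀ he1 hf0.le hf1
      calc (e ^ 2 * f ^ 2) ^ 2 = 1 * (e ^ 3 * f ^ 3) * (e * f) := by ring
        _ ≤ L ^ 3 * (e ^ 3 * f ^ 3) * 1 := by gcongr
        _ = _ := by ring
    have s1 : (((Nat.gcd (q - 1) (q' - 1) : ℕ) : ℝ) * (L * e) * (L * f)) * f ^ 2 * e ^ 2 =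
        L ^ 2 * e ^ 3 * f ^ 3 * ((Nat.gcd (q - 1) (q' - 1) : ℕ) : ℝ) := by ring
    linarith
  refine (sum_le_sum fun q hq => sum_le_sum (hterm q hq)).trans ?_
  have hsum : ∑ q ∈ σ, ∑ q' ∈ σ', (4 * (L ^ 2 * e ^ 3 * f ^ 3) *
      ((Nat.gcd (q - 1) (q' - 1) : ℕ) : ℝ) + 12 * (L ^ 3 * e ^ 3 * f ^ 3)) =
      4 * (L ^ 2 * e ^ 3 * f ^ 3) *
        (∑ q ∈ σ, ∑ q' ∈ σ', ((Nat.gcd (q - 1) (q' - 1) : ℕ) : ℝ)) +
        (σ.card : ℝ) * ((σ'.card : ℝ) * (12 * (L ^ 3 * e ^ 3 * f ^ 3))) := by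
    rw [mul_sum, ← nsmul_eq_mul (σ.card), ← sum_const, ← sum_add_distrib]
    refine sum_congr rfl fun q _ => ?_
    rw [sum_add_distrib, ← mul_sum, sum_const, nsmul_eq_mul]
  rw [hsum, hA]
  have hg := hG.2 Q Q' σ σ' hQ' hQQ (hσ.trans (by unfold PQ; exact filter_subset _ _))
    (hσ'.trans (by unfold PQ; exact filter_subset _ _))
  have hcard := HA2_card hσ
  have hcard' := HA2_card hσ'
  rw [hQu] at hg hcard
  rw [hQv] at hcard'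
  have hg2 : ∑ q ∈ σ, ∑ q' ∈ σ', ((Nat.gcd (q - 1) (q' - 1) : ℕ) : ℝ) ≤
      49 * u ^ 2 * v ^ 2 * (2 * L) := by
    refine hg.trans ?_
    rw [← hQv]
    have : 1 + Real.log (4 * (Q' : ℝ)) ≤ 2 * L := by linarith
    exact mul_le_mul_of_nonneg_left this (by positivity)
  calc 4 * (L ^ 2 * e ^ 3 * f ^ 3) *
        (∑ q ∈ σ, ∑ q' ∈ σ', ((Nat.gcd (q - 1) (q' - 1) : ℕ) : ℝ)) +
        (σ.card : ℝ) * ((σ'.card : ℝ) * (12 * (L ^ 3 * e ^ 3 * f ^ 3)))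
      ≤ 4 * (L ^ 2 * e ^ 3 * f ^ 3) * (49 * u ^ 2 * v ^ 2 * (2 * L)) +
        (3 * u ^ 2) * ((3 * v ^ 2) * (12 * (L ^ 3 * e ^ 3 * f ^ 3))) := by
        have k0 : 0 ≤ 12 * (L ^ 3 * e ^ 3 * f ^ 3) := by positivity
        have k1 : 0 ≤ 4 * (L ^ 2 * e ^ 3 * f ^ 3) := by positivity
        exact add_le_add (mul_le_mul_of_nonneg_left hg2 k1)
          (mul_le_mul hcard (mul_le_mul_of_nonneg_right hcard' k0)
            (mul_nonneg (Nat.cast_nonneg _) k0)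
            (mul_nonneg (by norm_num) (pow_nonneg hu.le 2)))
    _ = 500 * (L ^ 3 * (e * f)) * ((u * e) ^ 2 * (v * f) ^ 2) := by
        have k2 : 4 * (L ^ 2 * e ^ 3 * f ^ 3) * (49 * u ^ 2 * v ^ 2 * (2 * L)) =
            392 * ((L ^ 3 * (e * f)) * ((u * e) ^ 2 * (v * f) ^ 2)) := by ring
        have k3 : (3 * u ^ 2) * ((3 * v ^ 2) * (12 * (L ^ 3 * e ^ 3 * f ^ 3))) =
            108 * ((L ^ 3 * (e * f)) * ((u * e) ^ 2 * (v * f) ^ 2)) := by ring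
        rw [k2, k3]
        generalize (L ^ 3 * (e * f)) = z1
        generalize ((u * e) ^ 2 * (v * f) ^ 2) = z2
        linarith
    _ = 500 * L ^ 3 * (e * f) := by
        rw [hue, hvf]
        generalize L ^ 3 = z1
        generalize e * f = z2
        linarith

theorem tHA2 (h1 : StmtOrdB) (h2 : StmtTau) (h3 : StmtGcd) : StmtHA2 := by
  intro Q Q' σ σ' c hQ' hQQ hσ hσ' hdis hc1 hc2 m
  have hne : ∀ q ∈ σ, ∀ q' ∈ σ', q ≠ q' := fun q hq q' hq' h =>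
    (Finset.disjoint_left.mp hdis hq) (h ▸ hq')
  refine ⟨fun q hq q' hq' => HA2_a h1 hQ' hQQ (hσ hq) (hσ' hq') (hne q hq q' hq') m,
    fun q hq => HA2_b h1 h2 h3 hQ' hQQ (hσ hq) hσ' c (hne q hq) (fun q' hq' => ?_) m,
    fun q' hq' => HA2_c h1 h2 h3 hQ' hQQ (hσ' hq') hσ c (fun q hq => hne q hq q' hq')
      (fun q hq => ?_) m,
    HA2_d h1 h3 hQ' hQQ hσ hσ' c hne (fun q hq q' hq' => ?_) m⟩
  · exact ⟨hc1 q' (mem_union_right _ hq'),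
      hc2 q' (mem_union_right _ hq') q (mem_union_left _ hq) (Ne.symm (hne q hq q' hq'))⟩
  · exact ⟨hc1 q (mem_union_left _ hq),
      hc2 q (mem_union_left _ hq) q' (mem_union_right _ hq') (hne q hq q' hq')⟩
  · exact ⟨hc1 q (mem_union_left _ hq), hc1 q' (mem_union_right _ hq'),
      hc2 q' (mem_union_right _ hq') q (mem_union_left _ hq) (Ne.symm (hne q hq q' hq'))⟩

end Pool.Agent.Lib.MP_9f2731_nt.H
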