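import Pool.Agent.Lib.MP_9f2731_nt.H.Spec
import Pool.Agent.Lib.MP_9f2731_nt.LS2

/-!
# The dual large sieve for functions with small periods
-/

set_option autoImplicit false

open Finset

namespace Pool.Agent.Lib.MP_9f2731_nt.H

open Pool.Agent.Lib.MP_9f2731_nt

lemma LS_shift {M : Type} [AddCommGroup M] {φ : ℕ → M} {N : ℕ} (h : ∀ t, φ (t + N) = φ t) (e : ℕ) :
    ∑ t ∈ range N, φ (t + e) = ∑ t ∈ range N, φ t := by
  induction e with
  | zero => simp
  | succ e ih =>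
    rw [← ih]
    have h1 := Finset.sum_range_succ (fun t => φ (t + e)) N
    have h2 := Finset.sum_range_succ' (fun t => φ (t + e)) N
    have h3 : φ (N + e) = φ (0 + e) := by
      rw [Nat.add_comm N e, h e, Nat.zero_add]
    rw [h3] at h1
    rw [h1] at h2
    have h4 := add_right_cancel h2
    rw [h4]
    refine Finset.sum_congr rfl fun t _ => ?_
    congr 1
    omega

lemma LS_ee_ne {t : ℝ} (h : ∀ z : ℤ, t ≠ z) : ee t ≠ 1 := by
  intro h1
  unfold ee at h1
  rw [Complex.exp_eq_one_iff] at h1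
  obtain ⟨n, hn⟩ := h1
  apply h n
  have h2 : Complex.I * ((2 * Real.pi * t : ℝ) : ℂ) = Complex.I * ((2 * Real.pi * n : ℝ) : ℂ) := by
    rw [hn]
    push_cast
    ring
  have h3 := mul_left_cancel₀ Complex.I_ne_zero h2
  have h4 : (2 * Real.pi * t : ℝ) = 2 * Real.pi * n := by exact_mod_cast h3
  exact mul_left_cancel₀ (by positivity) h4

/-- the Fourier coefficient vanishes -/
lemma LS_gh_zero {N e D : ℕ} (hN : 0 < N) {g : ℕ → ℝ} (he : e ∣ N) (heD : e ≤ D)
    (hg : ∀ m, g (m + e) = g m) {b : ℕ} (hb : D < N / Nat.gcd b N) : gh N g b = 0 := by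
  have hNR : (N : ℝ) ≠ 0 := by positivity
  have he0 : 0 < e := Nat.pos_of_dvd_of_pos he hN
  have hper : ∀ c m, g (m + e * c) = g m := by
    intro c
    induction c with
    | zero => simp
    | succ c ih => intro m; rw [Nat.mul_succ, ← Nat.add_assoc, hg, ih]
  obtain ⟨c, hc⟩ := he
  set φ : ℕ → ℂ := fun t => (g t : ℂ) * ee (-(b * ((t : ℝ) / N))) with hφ
  have hφN : ∀ t, φ (t + N) = φ t := by
    intro t
    simp only [hφ]
    have h1 : g (t + N) = g t := by rw [hc]; exact hper c t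
    rw [h1]
    congr 1
    have h2 : -((b : ℝ) * (((t + N : ℕ) : ℝ) / N)) = -(b * ((t : ℝ) / N)) + ((-(b : ℤ) : ℤ) : ℝ) := by
      push_cast
      field_simp
      ring
    rw [h2, ee_add, ee_int, mul_one]
  have h1 := LS_shift hφN e
  have h2 : ∑ t ∈ range N, φ (t + e) = ee (-(b * ((e : ℝ) / N))) * ∑ t ∈ range N, φ t := by
    rw [Finset.mul_sum]
    refine Finset.sum_congr rfl fun t _ => ?_
    simp only [hφ]
    rw [hg t]
    have h3 : -((b : ℝ) * (((t + e : ℕ) : ℝ) / N)) = -(b * ((e : ℝ) / N)) + -(b * ((t : ℝ) / N)) := by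
      push_cast
      ring
    rw [h3, ee_add]
    ring
  have h4 : ee (-(b * ((e : ℝ) / N))) ≠ 1 := by
    refine LS_ee_ne fun z hz => ?_
    have h5 : (b : ℝ) * e = (-z : ℤ) * N := by
      push_cast
      field_simp at hz
      linarith
    have h6 : (b : ℤ) * e = (-z) * N := by exact_mod_cast h5
    have h7 : N ∣ b * e := by
      have : (N : ℤ) ∣ ((b * e : ℕ) : ℤ) := ⟨-z, by push_cast; rw [h6]; ring⟩
      exact_mod_cast this
    have hg0 : 0 < Nat.gcd b N := Nat.gcd_pos_of_pos_right _ hN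
    have h8 : N / Nat.gcd b N ∣ (b / Nat.gcd b N) * e := by
      have h9 : Nat.gcd b N * (N / Nat.gcd b N) ∣ Nat.gcd b N * ((b / Nat.gcd b N) * e) := by
        rw [Nat.mul_div_cancel' (Nat.gcd_dvd_right b N), ← mul_assoc,
          Nat.mul_div_cancel' (Nat.gcd_dvd_left b N)]
        exact h7
      exact Nat.dvd_of_mul_dvd_mul_left hg0 h9
    have h10 : Nat.Coprime (N / Nat.gcd b N) (b / Nat.gcd b N) :=
      (Nat.coprime_div_gcd_div_gcd hg0).symm
    have h11 : N / Nat.gcd b N ∣ e := h10.dvd_of_dvd_mul_left h8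
    have h12 := Nat.le_of_dvd he0 h11
    omega
  have h5 : gh N g b = ∑ t ∈ range N, φ t := rfl
  rw [h1] at h2
  rw [h5]
  have h6 : (1 - ee (-(b * ((e : ℝ) / N)))) * ∑ t ∈ range N, φ t = 0 := by
    rw [sub_mul, one_mul, ← h2, sub_self]
  rcases mul_eq_zero.mp h6 with h7 | h7
  · exact absurd (sub_eq_zero.mp h7).symm h4
  · exact h7

/-- the points are separated -/
lemma LS_sep {N D b b' : ℕ} (hD : 0 < D) (hb : b < N) (hb' : b' < N)
    (hJ : N / Nat.gcd b N ≤ D) (hJ' : N / Nat.gcd b' N ≤ D) (hne : b ≠ b') :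
    1 / (D : ℝ) ^ 2 ≤ |((b : ℝ) / N - (b' : ℝ) / N) - round ((b : ℝ) / N - (b' : ℝ) / N)| := by
  have hN : 0 < N := by omega
  have hNR : (N : ℝ) ≠ 0 := by positivity
  set v := N / Nat.gcd b N with hv
  set v' := N / Nat.gcd b' N with hv'
  set z : ℤ := round ((b : ℝ) / N - (b' : ℝ) / N) with hz
  have hg0 : 0 < Nat.gcd b N := Nat.gcd_pos_of_pos_right _ hN
  have hg0' : 0 < Nat.gcd b' N := Nat.gcd_pos_of_pos_right _ hN
  have hvN : Nat.gcd b N * v = N := Nat.mul_div_cancel' (Nat.gcd_dvd_right b N)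
  have hvN' : Nat.gcd b' N * v' = N := Nat.mul_div_cancel' (Nat.gcd_dvd_right b' N)
  have hbb : Nat.gcd b N * (b / Nat.gcd b N) = b := Nat.mul_div_cancel' (Nat.gcd_dvd_left b N)
  have hbb' : Nat.gcd b' N * (b' / Nat.gcd b' N) = b' :=
    Nat.mul_div_cancel' (Nat.gcd_dvd_left b' N)
  have hv0 : 0 < v := Nat.pos_of_mul_pos_left (a := Nat.gcd b N) (by rw [hvN]; exact hN)
  have hv0' : 0 < v' := Nat.pos_of_mul_pos_left (a := Nat.gcd b' N) (by rw [hvN']; exact hN)
  have e1 : (b : ℝ) / N * v = ((b / Nat.gcd b N : ℕ) : ℝ) := by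
    have h1 : (Nat.gcd b N : ℝ) * v = N := by exact_mod_cast hvN
    have h2 : (Nat.gcd b N : ℝ) * ((b / Nat.gcd b N : ℕ) : ℝ) = b := by exact_mod_cast hbb
    have h3 : (Nat.gcd b N : ℝ) ≠ 0 := by positivity
    have h4 : (v : ℝ) ≠ 0 := by positivity
    rw [← h2, ← h1]
    field_simp
  have e2 : (b' : ℝ) / N * v' = ((b' / Nat.gcd b' N : ℕ) : ℝ) := by
    have h1 : (Nat.gcd b' N : ℝ) * v' = N := by exact_mod_cast hvN'
    have h2 : (Nat.gcd b' N : ℝ) * ((b' / Nat.gcd b' N : ℕ) : ℝ) = b' := by exact_mod_cast hbb'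
    have h3 : (Nat.gcd b' N : ℝ) ≠ 0 := by positivity
    have h4 : (v' : ℝ) ≠ 0 := by positivity
    rw [← h2, ← h1]
    field_simp
  clear_value v v'
  generalize b / Nat.gcd b N = b1 at e1
  generalize b' / Nat.gcd b' N = b1' at e2
  set x : ℝ := ((b : ℝ) / N - (b' : ℝ) / N) - z with hx
  set w : ℤ := (b1 : ℤ) * v' - (b1' : ℤ) * v - z * v * v' with hw
  have hxw : x * (v * v') = (w : ℝ) := by
    rw [hw, hx]
    push_cast
    have : ((b : ℝ) / N - (b' : ℝ) / N - z) * (v * v') =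
        ((b : ℝ) / N * v) * v' - ((b' : ℝ) / N * v') * v - z * v * v' := by ring
    rw [this, e1, e2]
  have hx0 : x ≠ 0 := by
    intro h0
    have h1 : (b : ℝ) - b' = z * N := by
      rw [hx] at h0
      field_simp at h0
      linarith
    have h2 : (b : ℤ) - b' = z * N := by exact_mod_cast h1
    have h3 : z = 0 := by
      by_contra hz0
      have h4 : (N : ℤ) ≤ |z * N| := by
        rw [abs_mul, Nat.abs_cast]
        have : 1 ≤ |z| := Int.one_le_abs hz0
        nlinarith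
      rw [← h2] at h4
      have h5 : |(b : ℤ) - b'| < N := by
        rw [abs_lt]
        constructor <;> omega
      omega
    rw [h3, zero_mul] at h2
    exact hne (by omega)
  have hw0 : w ≠ 0 := by
    intro h0
    rw [h0, Int.cast_zero] at hxw
    have : (v : ℝ) * v' ≠ 0 := by positivity
    exact (mul_ne_zero hx0 this) hxw
  have hw1 : (1 : ℝ) ≤ |(w : ℝ)| := by
    have := Int.one_le_abs hw0
    exact_mod_cast this
  have hvv : (0 : ℝ) < (v : ℝ) * v' := by positivity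
  rw [← hxw, abs_mul, abs_of_pos hvv] at hw1
  have hvD : (v : ℝ) ≤ D := by exact_mod_cast hJ
  have hvD' : (v' : ℝ) ≤ D := by exact_mod_cast hJ'
  have hDD : (v : ℝ) * v' ≤ (D : ℝ) ^ 2 := by
    rw [sq]
    exact mul_le_mul hvD hvD' (by positivity) (by positivity)
  rw [div_le_iff₀ (by positivity)]
  exact hw1.trans (mul_le_mul_of_nonneg_left hDD (abs_nonneg _))

theorem tLS : StmtLS := by
  classical
  intro κ K N D X M g e hN hg hD
  have hNR : (0 : ℝ) < N := by exact_mod_cast hN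
  have hRHS : 0 ≤ (∑ m ∈ range N, (∑ k ∈ K, g k m) ^ 2) / (N : ℝ) :=
    div_nonneg (Finset.sum_nonneg fun _ _ => sq_nonneg _) hNR.le
  rcases K.eq_empty_or_nonempty with hK | ⟨k0, hk0⟩
  · subst hK
    simp
  have hD0 : 0 < D := by
    have h1 := hg k0 hk0
    exact lt_of_lt_of_le (Nat.pos_of_dvd_of_pos h1.1 hN) h1.2.1
  have hX0 : 0 < X := lt_of_lt_of_le (pow_pos hD0 2) hD
  set G : ℕ → ℝ := fun m => ∑ k ∈ K, g k m with hG
  set J : Finset ℕ := (range N).filter fun b => N / Nat.gcd b N ≤ D with hJ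
  -- periodicity of `G`
  have hGN : ∀ m, G (m % N) = G m := by
    have h1 : ∀ c m, G (m + N * c) = G m := by
      intro c m
      simp only [hG]
      refine Finset.sum_congr rfl fun k hk => ?_
      obtain ⟨⟨a, ha⟩, -, hp⟩ := hg k hk
      have h2 : ∀ c m, g k (m + e k * c) = g k m := by
        intro c
        induction c with
        | zero => simp
        | succ c ih => intro m; rw [Nat.mul_succ, ← Nat.add_assoc, hp, ih]
      rw [ha, mul_assoc]
      exact h2 _ m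
    intro m
    have h3 := h1 (m / N) (m % N)
    rw [Nat.mod_add_div] at h3
    exact h3.symm
  -- Fourier coefficients outside `J`
  have hghJ : ∀ b ∈ range N, b ∉ J → gh N G b = 0 := by
    intro b hb hbJ
    have hbD : D < N / Nat.gcd b N := by
      by_contra h
      exact hbJ (mem_filter.mpr ⟨hb, not_lt.mp h⟩)
    have h1 : gh N G b = ∑ k ∈ K, gh N (g k) b := by
      unfold gh
      rw [Finset.sum_comm]
      refine Finset.sum_congr rfl fun t _ => ?_
      simp only [hG]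
      push_cast
      rw [Finset.sum_mul]
    rw [h1]
    refine Finset.sum_eq_zero fun k hk => ?_
    exact LS_gh_zero hN (hg k hk).1 (hg k hk).2.1 (hg k hk).2.2 hbD
  have hinv : ∀ n : ℕ, ∑ b ∈ J, gh N G b * ee (n * ((b : ℝ) / N)) = (N : ℂ) * (G n : ℂ) := by
    intro n
    rw [← hGN n, ← gh_inv hN G n]
    refine Finset.sum_subset (filter_subset _ _) fun b hb hbJ => ?_
    rw [hghJ b hb hbJ, zero_mul]
  -- the large sieve
  set h : ℕ := (X + 1) / 2 with hh
  have hh0 : 0 < h := by omega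
  have h2h : X ≤ 2 * h := by omega
  have h2h' : 2 * h ≤ X + 1 := by omega
  have hδ : (0 : ℝ) < 1 / (D : ℝ) ^ 2 := by positivity
  have hLδ : 1 ≤ ((2 * h : ℕ) : ℝ) * (1 / (D : ℝ) ^ 2) := by
    rw [mul_one_div, le_div_iff₀ (by positivity), one_mul]
    exact_mod_cast hD.trans h2h
  have hsep : ∀ i ∈ J, ∀ j ∈ J, i ≠ j →
      1 / (D : ℝ) ^ 2 ≤ |((i : ℝ) / N - (j : ℝ) / N) - round ((i : ℝ) / N - (j : ℝ) / N)| := by
    intro i hi j hj hij
    rw [hJ, mem_filter] at hi hj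
    exact LS_sep hD0 (mem_range.mp hi.1) (mem_range.mp hj.1) hi.2 hj.2 hij
  have hls := dual_ls J (fun b : ℕ => (b : ℝ) / N) hδ hsep h hh0 hLδ
    (fun b => gh N G b * ee (((M + 1 : ℕ) : ℝ) * ((b : ℝ) / N)))
  have hterm : ∀ n : ℕ, ∑ b ∈ J, gh N G b * ee (((M + 1 : ℕ) : ℝ) * ((b : ℝ) / N)) *
      ee (n * ((b : ℝ) / N)) = (N : ℂ) * (G (M + 1 + n) : ℂ) := by
    intro n
    rw [← hinv (M + 1 + n)]
    refine Finset.sum_congr rfl fun b _ => ?_
    rw [mul_assoc, ← ee_add]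
    congr 2
    push_cast
    ring
  have hnorm : ∀ n : ℕ, ‖∑ b ∈ J, gh N G b * ee (((M + 1 : ℕ) : ℝ) * ((b : ℝ) / N)) *
      ee (n * ((b : ℝ) / N))‖ ^ 2 = (N : ℝ) ^ 2 * G (M + 1 + n) ^ 2 := by
    intro n
    rw [hterm n, norm_mul, Complex.norm_natCast, Complex.norm_real, Real.norm_eq_abs, mul_pow,
      sq_abs]
  simp_rw [hnorm] at hls
  have hcoef : ∑ b ∈ J, ‖gh N G b * ee (((M + 1 : ℕ) : ℝ) * ((b : ℝ) / N))‖ ^ 2 ≤
      (N : ℝ) * ∑ t ∈ range N, G t ^ 2 := by
    rw [← gh_parseval hN G]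
    have h1 : ∀ b ∈ J, ‖gh N G b * ee (((M + 1 : ℕ) : ℝ) * ((b : ℝ) / N))‖ ^ 2 =
        ‖gh N G b‖ ^ 2 := by
      intro b _
      rw [norm_mul, norm_ee, mul_one]
    rw [Finset.sum_congr rfl h1]
    exact Finset.sum_le_sum_of_subset_of_nonneg (filter_subset _ _) fun _ _ _ => sq_nonneg _
  have hsub : ∑ m ∈ Ioc M (M + X), G m ^ 2 ≤ ∑ n ∈ range (2 * h), G (M + 1 + n) ^ 2 := by
    have h1 : ∑ m ∈ Ioc M (M + X), G m ^ 2 = ∑ n ∈ range X, G (M + 1 + n) ^ 2 := by
      have h2 : Ioc M (M + X) = Ico (M + 1) (M + 1 + X) := by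
        ext a
        simp only [mem_Ioc, mem_Ico]
        omega
      rw [h2, Finset.sum_Ico_eq_sum_range]
      congr 2
      omega
    rw [h1]
    exact Finset.sum_le_sum_of_subset_of_nonneg (range_subset_range.mpr h2h)
      fun _ _ _ => sq_nonneg _
  set S : ℝ := ∑ t ∈ range N, G t ^ 2 with hS
  have hS0 : 0 ≤ S := Finset.sum_nonneg fun _ _ => sq_nonneg _
  have h1 : (N : ℝ) ^ 2 * ∑ n ∈ range (2 * h), G (M + 1 + n) ^ 2 ≤
      10 * ((2 * h : ℕ) : ℝ) * ((N : ℝ) * S) := by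
    rw [Finset.mul_sum]
    refine hls.trans ?_
    exact mul_le_mul_of_nonneg_left hcoef (by positivity)
  have h2 : ((2 * h : ℕ) : ℝ) ≤ 2 * X := by
    have : 2 * h ≤ 2 * X := by omega
    exact_mod_cast this
  have h3 : (N : ℝ) ^ 2 * ∑ m ∈ Ioc M (M + X), G m ^ 2 ≤ (N : ℝ) ^ 2 * (20 * X * (S / N)) := by
    calc (N : ℝ) ^ 2 * ∑ m ∈ Ioc M (M + X), G m ^ 2
        ≤ (N : ℝ) ^ 2 * ∑ n ∈ range (2 * h), G (M + 1 + n) ^ 2 :=
          mul_le_mul_of_nonneg_left hsub (by positivity)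
      _ ≤ 10 * ((2 * h : ℕ) : ℝ) * ((N : ℝ) * S) := h1
      _ ≤ 10 * (2 * X) * ((N : ℝ) * S) :=
          mul_le_mul_of_nonneg_right (mul_le_mul_of_nonneg_left h2 (by norm_num)) (by positivity)
      _ = (N : ℝ) ^ 2 * (20 * X * (S / N)) := by
          field_simp
          ring
  exact le_of_mul_le_mul_left h3 (by positivity)

end Pool.Agent.Lib.MP_9f2731_nt.H
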