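import Pool.Agent.Lib.MP_9f2731_nt.H.Spec

/-!
# The dual large sieve for powers
-/

set_option autoImplicit false

open Finset

namespace Pool.Agent.Lib.MP_9f2731_nt.H

lemma LSP_per {g : ℕ → ℝ} {e : ℕ} (h : ∀ m, g (m + e) = g m) (c m : ℕ) : g (m + e * c) = g m := by
  induction c with
  | zero => simp
  | succ c ih => rw [Nat.mul_succ, ← Nat.add_assoc, h, ih]

theorem tLSP (hLS : StmtLS) : StmtLSP := by
  classical
  intro κ K N D X M s g e hN hg hD
  have h := hLS (Fin s → κ) (Fintype.piFinset fun _ : Fin s => K) N (D ^ s) X M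
    (fun u m => ∏ i, g (u i) m) (fun u => (univ : Finset (Fin s)).lcm fun i => e (u i)) hN ?_ ?_
  · have hpow : ∀ m, ∑ u ∈ Fintype.piFinset (fun _ : Fin s => K), ∏ i, g (u i) m =
        (∑ k ∈ K, g k m) ^ s := by
      intro m
      rw [← Finset.prod_univ_sum (fun _ : Fin s => K) (fun _ k => g k m), Finset.prod_const,
        Finset.card_univ, Fintype.card_fin]
    simp_rw [hpow, ← pow_mul, mul_comm s 2] at h
    exact h
  · intro u hu
    rw [Fintype.mem_piFinset] at hu
    refine ⟨?_, ?_, ?_⟩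
    · exact Finset.lcm_dvd fun i _ => (hg (u i) (hu i)).1
    · have h1 : (univ : Finset (Fin s)).lcm (fun i => e (u i)) ∣ ∏ i, e (u i) :=
        Finset.lcm_dvd fun i hi => Finset.dvd_prod_of_mem _ hi
      have h2 : 0 < ∏ i, e (u i) := by
        refine Finset.prod_pos fun i _ => ?_
        exact Nat.pos_of_dvd_of_pos (hg (u i) (hu i)).1 hN
      refine (Nat.le_of_dvd h2 h1).trans ?_
      calc ∏ i, e (u i) ≤ ∏ _i : Fin s, D :=
            Finset.prod_le_prod' fun i _ => (hg (u i) (hu i)).2.1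
        _ = D ^ s := by rw [Finset.prod_const, Finset.card_univ, Fintype.card_fin]
    · intro m
      refine Finset.prod_congr rfl fun i _ => ?_
      obtain ⟨c, hc⟩ := Finset.dvd_lcm (f := fun i => e (u i)) (mem_univ i)
      rw [hc]
      exact LSP_per (hg (u i) (hu i)).2.2 c m
  · rw [← pow_mul, mul_comm s 2]
    exact hD

end Pool.Agent.Lib.MP_9f2731_nt.H
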