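import Pool.Agent.Lib.MP_9f2731_nt.H.Spec

/-!
# The Marcinkiewicz - Zygmund inequality on finite groups
-/

set_option autoImplicit false

open Finset

namespace Pool.Agent.Lib.MP_9f2731_nt.H

lemma MZ_shift {G : Type} [Fintype G] [AddCommGroup G] (g : G → ℝ) (a : G) :
    ∑ x, g (x + a) = ∑ x, g x := Equiv.sum_comp (Equiv.addRight a) g

lemma MZ_nsmul {G : Type} [AddCommGroup G] {d : G} {h : G → ℝ} (hi : Inv d h) (t : ℕ) (x : G) :
    h (x + t • d) = h x := by
  induction t with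
  | zero => simp
  | succ t ih => rw [succ_nsmul, ← add_assoc, hi, ih]

lemma MZ_av {G : Type} [Fintype G] [AddCommGroup G] {d : G} {n : ℕ} (hn : 1 ≤ n) {h : G → ℝ}
    (hi : Inv d h) (g : G → ℝ) : ∑ x, h x * g x = ∑ x, h x * Av d n g x := by
  have h1 : ∀ x, h x * Av d n g x =
      (∑ t ∈ range n, h (x + t • d) * g (x + t • d)) / (n : ℝ) := by
    intro x
    unfold Av
    rw [← mul_div_assoc, Finset.mul_sum]
    congr 1
    refine Finset.sum_congr rfl fun t _ => ?_
    rw [MZ_nsmul hi]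
  simp_rw [h1]
  rw [← Finset.sum_div, Finset.sum_comm]
  have h2 : ∀ t ∈ range n, ∑ x, h (x + t • d) * g (x + t • d) = ∑ x, h x * g x :=
    fun t _ => MZ_shift (fun x => h x * g x) (t • d)
  rw [Finset.sum_congr rfl h2, Finset.sum_const, card_range, nsmul_eq_mul]
  have : (n : ℝ) ≠ 0 := by positivity
  field_simp

lemma MZ_inv_mul {G : Type} [AddCommGroup G] {d : G} {g h : G → ℝ} (hg : Inv d g) (hh : Inv d h) :
    Inv d (fun x => g x * h x) := fun x => by simp only; rw [hg x, hh x]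

lemma MZ_inv_pow {G : Type} [AddCommGroup G] {d : G} {g : G → ℝ} (hg : Inv d g) (l : ℕ) :
    Inv d (fun x => g x ^ l) := fun x => by simp only; rw [hg x]

lemma MZ_inv_const_mul {G : Type} [AddCommGroup G] {d : G} {g : G → ℝ} (hg : Inv d g) (c : ℝ) :
    Inv d (fun x => c * g x) := fun x => by simp only; rw [hg x]

lemma MZ_inv_sum {G ι : Type} [AddCommGroup G] {d : G} {s : Finset ι} {g : ι → G → ℝ}
    (hg : ∀ i ∈ s, Inv d (g i)) : Inv d (fun x => ∑ i ∈ s, g i x) := fun x => by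
  simp only
  exact Finset.sum_congr rfl fun i hi => hg i hi x

theorem MZ_claim (hS : StmtScal) {G ι κ : Type} [Fintype G] [AddCommGroup G] [DecidableEq ι]
    (K : Finset κ) (d : ι → G) (n : ι → ℕ) (f : ι → κ → G → ℝ) (r : ℕ) (s : Finset ι) :
    (∀ j ∈ s, 1 ≤ n j) → (∀ j ∈ s, ∀ k ∈ K, ∀ x, Av (d j) (n j) (f j k) x = 0) →
    (∀ i ∈ s, ∀ j ∈ s, i ≠ j → ∀ k ∈ K, Inv (d i) (f j k)) →
    ∀ l : ℕ, l ≤ r → ∀ w : G → ℝ, (∀ x, 0 ≤ w x) → (∀ i ∈ s, Inv (d i) w) →
      ∑ x, w x * (∑ k ∈ K, (∑ j ∈ s, f j k x) ^ 2) ^ l ≤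
        ∑ x, w x * (32 * (r : ℝ) ^ 2 * ∑ j ∈ s, ∑ k ∈ K, (f j k x) ^ 2) ^ l := by
  induction s using Finset.induction_on with
  | empty =>
    intro _ _ _ l _ w _ _
    simp
  | insert j s hj ih =>
    intro hn hav hinv l hl w hw hwi
    have hn' : ∀ i ∈ s, 1 ≤ n i := fun i hi => hn i (mem_insert_of_mem hi)
    have hav' : ∀ i ∈ s, ∀ k ∈ K, ∀ x, Av (d i) (n i) (f i k) x = 0 :=
      fun i hi => hav i (mem_insert_of_mem hi)
    have hinv' : ∀ i ∈ s, ∀ i' ∈ s, i ≠ i' → ∀ k ∈ K, Inv (d i) (f i' k) :=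
      fun i hi i' hi' => hinv i (mem_insert_of_mem hi) i' (mem_insert_of_mem hi')
    have IH := ih hn' hav' hinv'
    rcases Nat.eq_zero_or_pos l with h0 | hl1
    · subst h0
      simp
    set A : G → ℝ := fun x => ∑ k ∈ K, (∑ i ∈ s, f i k x) ^ 2 with hA
    set B : G → ℝ := fun x => ∑ k ∈ K, (f j k x) ^ 2 with hB
    set t : G → ℝ := fun x => ∑ k ∈ K, (∑ i ∈ s, f i k x) * f j k x with ht
    have hA0 : ∀ x, 0 ≤ A x := fun x => Finset.sum_nonneg fun k _ => sq_nonneg _
    have hB0 : ∀ x, 0 ≤ B x := fun x => Finset.sum_nonneg fun k _ => sq_nonneg _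
    have ht2 : ∀ x, t x ^ 2 ≤ A x * B x := fun x =>
      Finset.sum_mul_sq_le_sq_mul_sq K (fun k => ∑ i ∈ s, f i k x) (fun k => f j k x)
    have hsum : ∀ x, ∑ k ∈ K, (∑ i ∈ insert j s, f i k x) ^ 2 = A x + 2 * t x + B x := by
      intro x
      simp only [hA, hB, ht]
      rw [Finset.mul_sum, ← Finset.sum_add_distrib, ← Finset.sum_add_distrib]
      refine Finset.sum_congr rfl fun k _ => ?_
      rw [Finset.sum_insert hj]
      ring
    have hsum2 : ∀ x, ∑ i ∈ insert j s, ∑ k ∈ K, (f i k x) ^ 2 =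
        B x + ∑ i ∈ s, ∑ k ∈ K, (f i k x) ^ 2 := by
      intro x
      rw [Finset.sum_insert hj]
    -- invariance under `d j`
    have hSj : ∀ k ∈ K, Inv (d j) (fun x => ∑ i ∈ s, f i k x) := by
      intro k hk
      refine MZ_inv_sum fun i hi => ?_
      exact hinv j (mem_insert_self _ _) i (mem_insert_of_mem hi)
        (fun h => hj (h ▸ hi)) k hk
    have hAj : Inv (d j) A := MZ_inv_sum fun k hk => MZ_inv_pow (hSj k hk) 2
    -- the middle term
    have hmid : ∑ x, w x * (2 * l * A x ^ (l - 1) * t x) = 0 := by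
      have h1 : ∀ x, w x * (2 * l * A x ^ (l - 1) * t x) =
          ∑ k ∈ K, ((w x * (2 * l * A x ^ (l - 1))) * ∑ i ∈ s, f i k x) * f j k x := by
        intro x
        simp only [ht]
        rw [← mul_assoc, Finset.mul_sum]
        refine Finset.sum_congr rfl fun k _ => ?_
        ring
      simp_rw [h1]
      rw [Finset.sum_comm]
      refine Finset.sum_eq_zero fun k hk => ?_
      have hI : Inv (d j) (fun x => (w x * (2 * l * A x ^ (l - 1))) * ∑ i ∈ s, f i k x) := by
        refine MZ_inv_mul (MZ_inv_mul (hwi j (mem_insert_self _ _)) ?_) (hSj k hk)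
        exact MZ_inv_const_mul (MZ_inv_pow hAj (l - 1)) (2 * l)
      rw [MZ_av (hn j (mem_insert_self _ _)) hI]
      refine Finset.sum_eq_zero fun x _ => ?_
      rw [hav j (mem_insert_self _ _) k hk x, mul_zero]
    have hstep1 : ∑ x, w x * (∑ k ∈ K, (∑ i ∈ insert j s, f i k x) ^ 2) ^ l ≤
        ∑ x, w x * (A x + 32 * (r : ℝ) ^ 2 * B x) ^ l := by
      have h1 : ∑ x, w x * (∑ k ∈ K, (∑ i ∈ insert j s, f i k x) ^ 2) ^ l ≤
          ∑ x, (w x * (2 * l * A x ^ (l - 1) * t x) +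
            w x * (A x + 32 * (r : ℝ) ^ 2 * B x) ^ l) := by
        refine Finset.sum_le_sum fun x _ => ?_
        rw [hsum x, ← mul_add]
        exact mul_le_mul_of_nonneg_left (hS r l (A x) (B x) (t x) hl1 hl (hA0 x) (hB0 x) (ht2 x))
          (hw x)
      rw [Finset.sum_add_distrib, hmid, zero_add] at h1
      exact h1
    refine hstep1.trans ?_
    -- expand
    set Kc : ℝ := 32 * (r : ℝ) ^ 2 with hKc
    have hKc0 : 0 ≤ Kc := by positivity
    set P : G → ℝ := fun x => ∑ i ∈ s, ∑ k ∈ K, (f i k x) ^ 2 with hP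
    have hexp : ∀ (u : G → ℝ) (x : G), w x * (u x + Kc * B x) ^ l =
        ∑ m ∈ range (l + 1), (w x * ((Kc * B x) ^ (l - m) * (l.choose m : ℝ))) * u x ^ m := by
      intro u x
      rw [add_pow, Finset.mul_sum]
      refine Finset.sum_congr rfl fun m _ => ?_
      ring
    have hR : ∀ x, w x * (Kc * ∑ i ∈ insert j s, ∑ k ∈ K, (f i k x) ^ 2) ^ l =
        w x * ((Kc * P x) + Kc * B x) ^ l := by
      intro x
      rw [hsum2 x]
      simp only [hP]
      ring
    simp_rw [hR]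
    rw [Finset.sum_congr rfl fun x _ => hexp A x,
      Finset.sum_congr rfl fun x _ => hexp (fun y => Kc * P y) x, Finset.sum_comm,
      Finset.sum_comm (s := (univ : Finset G))]
    refine Finset.sum_le_sum fun m hm => ?_
    have hml : m ≤ l := Nat.lt_succ_iff.mp (mem_range.mp hm)
    refine IH m (hml.trans hl) (fun x => w x * ((Kc * B x) ^ (l - m) * (l.choose m : ℝ))) ?_ ?_
    · intro x
      have h1 := hw x
      have h2 := hB0 x
      positivity
    · intro i hi
      refine MZ_inv_mul (hwi i (mem_insert_of_mem hi)) ?_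
      have hBi : Inv (d i) B := by
        refine MZ_inv_sum fun k hk => MZ_inv_pow ?_ 2
        exact hinv i (mem_insert_of_mem hi) j (mem_insert_self _ _)
          (fun h => hj (h ▸ hi)) k hk
      intro x
      simp only
      rw [hBi x]

theorem tMZ (hS : StmtScal) : StmtMZ := by
  intro G ι κ _ _ _ s K d n f r hn hav hinv
  have h := MZ_claim hS K d n f r s hn hav hinv r le_rfl (fun _ => 1) (fun _ => zero_le_one)
    (fun _ _ _ => rfl)
  simp only [one_mul] at h
  unfold Ex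
  rw [← mul_div_assoc]
  refine div_le_div_of_nonneg_right (h.trans (le_of_eq ?_)) (Nat.cast_nonneg _)
  rw [Finset.mul_sum]
  refine Finset.sum_congr rfl fun x _ => ?_
  rw [mul_pow]

end Pool.Agent.Lib.MP_9f2731_nt.H
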