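import Pool.Agent.Lib.MP_9f2731_nt.H.Spec

/-!
# Moment bound for one block, abstract
-/

set_option autoImplicit false

open Finset

namespace Pool.Agent.Lib.MP_9f2731_nt.H

theorem tMom1 (hMZ : StmtMZ) (hZ1 : StmtZ1) : StmtMom1 := by
  intro G ι _ _ _ s d n f A r hA hn hav hinv hfA hav2
  have h1 := hMZ G ι Unit s {()} d n (fun j _ => f j) r hn (fun j hj _ _ x => hav j hj x)
    (fun i hi j hj hij _ _ => hinv i hi j hj hij)
  simp only [sum_singleton] at h1
  have h2 := hZ1 G ι s d n (fun j x => (f j x) ^ 2) A r hA hn (fun j _ x => sq_nonneg _)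
    (fun i hi j hj hij x => by simp only; rw [hinv i hi j hj hij x]) hfA hav2
  simp only [pow_mul]
  refine h1.trans ?_
  exact mul_le_mul_of_nonneg_left h2 (by positivity)

end Pool.Agent.Lib.MP_9f2731_nt.H
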