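import Pool.Agent.Lib.MP_9f2731_nt.H.Spec

/-!
# Moment bound for two blocks, abstract
-/

set_option autoImplicit false

open Finset

namespace Pool.Agent.Lib.MP_9f2731_nt.H

lemma Mom2_Av_sum {G ι : Type} [AddCommGroup G] (d : G) (n : ℕ) (s : Finset ι) (f : ι → G → ℝ)
    (x : G) : Av d n (fun y => ∑ j ∈ s, f j y) x = ∑ j ∈ s, Av d n (f j) x := by
  unfold Av
  rw [Finset.sum_comm, Finset.sum_div]

theorem tMom2 (hMZ : StmtMZ) (hZ2 : StmtZ2) : StmtMom2 := by
  intro G ι _ _ _ s s' d n f A r hA hdis hn hav1 hav2 hinv hfA ha hb hc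
  have hne : ∀ i ∈ s, ∀ j' ∈ s', i ≠ j' := by
    intro i hi j' hj' h
    exact (Finset.disjoint_left.mp hdis hi) (h ▸ hj')
  have hns : ∀ j ∈ s, 1 ≤ n j := fun j hj => hn j (mem_union_left _ hj)
  have hns' : ∀ j ∈ s', 1 ≤ n j := fun j hj => hn j (mem_union_right _ hj)
  have h1 := hMZ G ι Unit s {()} d n (fun j _ x => ∑ j' ∈ s', f j j' x) r hns ?_ ?_
  · simp only [sum_singleton] at h1
    have h2 := hMZ G ι ι s' s d n (fun j' k => f k j') r hns' ?_ ?_
    · have h3 := hZ2 G ι s s' d n (fun j j' x => (f j j' x) ^ 2) A r hA hdis hn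
        (fun j _ j' _ x => sq_nonneg _)
        (fun j hj j' hj' i hi hij hij' x => by
          simp only
          rw [hinv j hj j' hj' i hi hij hij' x]) hfA ha hb hc
      simp only [pow_mul]
      have h4 : ((32 * (r : ℝ) ^ 2) ^ 2) ^ r = (32 * (r : ℝ) ^ 2) ^ r * (32 * (r : ℝ) ^ 2) ^ r := by
        rw [← mul_pow, ← sq]
      refine h1.trans ?_
      rw [h4, mul_assoc]
      refine mul_le_mul_of_nonneg_left ?_ (by positivity)
      refine h2.trans ?_
      refine mul_le_mul_of_nonneg_left ?_ (by positivity)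
      have h5 : (fun x => (∑ j' ∈ s', ∑ k ∈ s, (f k j' x) ^ 2) ^ r) =
          fun x => (∑ j ∈ s, ∑ j' ∈ s', (f j j' x) ^ 2) ^ r := by
        funext x
        rw [Finset.sum_comm]
      rw [h5]
      exact h3
    · intro j' hj' k hk x
      exact hav2 k hk j' hj' x
    · intro i hi j' hj' hij k hk
      exact hinv k hk j' hj' i (mem_union_right _ hi) (fun h => hne k hk i hi h.symm) hij
  · intro j hj _ _ x
    rw [Mom2_Av_sum]
    exact Finset.sum_eq_zero fun j' hj' => hav1 j hj j' hj' x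
  · intro i hi j hj hij _ _ x
    simp only
    exact Finset.sum_congr rfl fun j' hj' =>
      hinv j hj j' hj' i (mem_union_left _ hi) hij (hne i hi j' hj') x

end Pool.Agent.Lib.MP_9f2731_nt.H
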