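import Pool.Agent.Lib.MP_9f2731_nt.H.Spec

/-!
# Elementary facts on the order of `2`
-/

set_option autoImplicit false

open Finset

namespace Pool.Agent.Lib.MP_9f2731_nt.H

lemma OrdA_iff (q m i : ℕ) : q ∣ 2 ^ i * m + 1 ↔ (2 : ZMod q) ^ i * (m : ZMod q) + 1 = 0 := by
  rw [← ZMod.natCast_eq_zero_iff]
  push_cast
  rfl

lemma OrdA_one {q m i : ℕ} (h : xi q m i = 1) : (2 : ZMod q) ^ i * (m : ZMod q) + 1 = 0 := by
  rw [← OrdA_iff]
  by_contra h1
  unfold xi at h
  rw [if_neg h1] at h
  exact zero_ne_one h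

lemma OrdA_two {q : ℕ} (hq : q.Prime) (hq2 : q ≠ 2) : (2 : ZMod q) ≠ 0 := by
  intro h
  have : ((2 : ℕ) : ZMod q) = 0 := by exact_mod_cast h
  rw [ZMod.natCast_eq_zero_iff] at this
  exact hq2 ((Nat.prime_dvd_prime_iff_eq hq Nat.prime_two).mp this)

theorem tOrdA : StmtOrdA := by
  intro q hq hq2
  have hF : Fact q.Prime := ⟨hq⟩
  have h2 := OrdA_two hq hq2
  have hpow : (2 : ZMod q) ^ (q - 1) = 1 := ZMod.pow_card_sub_one_eq_one h2
  have hq1 : 0 < q - 1 := by have := hq.two_le; omega
  have hdvd : od q ∣ q - 1 := orderOf_dvd_of_pow_eq_one hpow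
  refine ⟨Nat.pos_of_dvd_of_pos hdvd hq1, hdvd, ?_, ?_, ?_, ?_⟩
  · intro m i
    unfold xi
    have : (q ∣ 2 ^ (i + od q) * m + 1) ↔ (q ∣ 2 ^ i * m + 1) := by
      rw [OrdA_iff, OrdA_iff, pow_add]
      unfold od
      rw [pow_orderOf_eq_one, mul_one]
    simp only [this]
  · intro m i
    unfold xi
    have : (q ∣ 2 ^ i * (m + q) + 1) ↔ (q ∣ 2 ^ i * m + 1) := by
      rw [OrdA_iff, OrdA_iff]
      push_cast
      rw [ZMod.natCast_self, add_zero]
    simp only [this]
  · intro m i i' hi hi'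
    have h1 := OrdA_one hi
    have h3 := OrdA_one hi'
    have hm : (m : ZMod q) ≠ 0 := by
      intro h
      rw [h, mul_zero, zero_add] at h1
      exact one_ne_zero h1
    have h4 : (2 : ZMod q) ^ i = 2 ^ i' := by
      refine mul_right_cancel₀ hm ?_
      linear_combination h1 - h3
    have h6 : (Units.mk0 (2 : ZMod q) h2) ^ i = (Units.mk0 (2 : ZMod q) h2) ^ i' := by
      apply Units.ext
      simpa using h4
    have h7 := pow_eq_pow_iff_modEq.mp h6
    rw [← orderOf_units, Units.val_mk0] at h7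
    exact h7
  · intro c m i hc
    have hc0 : (c : ZMod q) ≠ 0 := by
      rw [Ne, ZMod.natCast_eq_zero_iff]
      exact hc
    have h2i : (2 : ZMod q) ^ i ≠ 0 := pow_ne_zero i h2
    set z : ZMod q := (-1 - 2 ^ i * (m : ZMod q)) / (2 ^ i * (c : ZMod q)) with hz
    have hne : (2 : ZMod q) ^ i * (c : ZMod q) ≠ 0 := mul_ne_zero h2i hc0
    have hzq : z * (2 ^ i * (c : ZMod q)) = -1 - 2 ^ i * (m : ZMod q) := div_mul_cancel₀ _ hne
    have hkey : ∀ t ∈ range q, xi q (m + t * c) i = if t = z.val then 1 else 0 := by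
      intro t ht
      have htq : t < q := mem_range.mp ht
      unfold xi
      have : (q ∣ 2 ^ i * (m + t * c) + 1) ↔ t = z.val := by
        rw [OrdA_iff]
        push_cast
        constructor
        · intro h
          have h5 : (t : ZMod q) = z := by
            refine mul_right_cancel₀ hne ?_
            rw [hzq]
            linear_combination h
          rw [← h5, ZMod.val_natCast, Nat.mod_eq_of_lt htq]
        · intro h
          have h5 : (t : ZMod q) = z := by
            rw [h, ZMod.natCast_val, ZMod.cast_id', id_eq]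
          rw [h5]
          linear_combination hzq
      simp only [this]
    rw [Finset.sum_congr rfl hkey, Finset.sum_ite_eq']
    rw [if_pos (mem_range.mpr (ZMod.val_lt z))]

end Pool.Agent.Lib.MP_9f2731_nt.H
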