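import Pool.Agent.Lib.MP_9f2731_nt.H.Spec

/-!
# The densities `d1`, `d2`
-/

set_option autoImplicit false

open Finset

namespace Pool.Agent.Lib.MP_9f2731_nt.H

lemma OrdB_xi01 (q m i : ℕ) : xi q m i = 0 ∨ xi q m i = 1 := by
  unfold xi
  split_ifs
  · exact Or.inr rfl
  · exact Or.inl rfl

lemma OrdB_xi_nonneg (q m i : ℕ) : 0 ≤ xi q m i := by
  rcases OrdB_xi01 q m i with h | h <;> rw [h]
  exact zero_le_one

/-- a set of integers below `L g`, all congruent modulo `L`, has at most `g` elements -/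
lemma OrdB_card {L g : ℕ} (S : Finset ℕ) (hS : S ⊆ range (L * g))
    (hc : ∀ i ∈ S, ∀ i' ∈ S, i ≡ i' [MOD L]) : S.card ≤ g := by
  have h1 : S.card ≤ (range g).card := by
    refine card_le_card_of_injOn (fun i => i / L) ?_ ?_
    · intro i hi
      have hi' : i < L * g := mem_range.mp (hS hi)
      simp only [coe_range, Set.mem_Iio]
      exact Nat.div_lt_of_lt_mul hi'
    · intro i hi i' hi' h
      simp only at h
      have h2 : i % L = i' % L := hc i hi i' hi'
      rw [← Nat.div_add_mod i L, ← Nat.div_add_mod i' L, h, h2]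
  rwa [card_range] at h1

lemma OrdB_sum_card {h : ℕ → ℝ} (h01 : ∀ i, h i = 0 ∨ h i = 1) (n : ℕ) :
    ∑ i ∈ range n, h i = (((range n).filter fun i => h i = 1).card : ℝ) := by
  rw [Finset.card_eq_sum_ones, Nat.cast_sum, Finset.sum_filter]
  refine Finset.sum_congr rfl fun i _ => ?_
  rcases h01 i with h | h
  · rw [h, if_neg zero_ne_one]
  · rw [h, if_pos rfl, Nat.cast_one]

lemma OrdB_sum_le {h : ℕ → ℝ} (h01 : ∀ i, h i = 0 ∨ h i = 1) {L g : ℕ}
    (hc : ∀ i i', h i = 1 → h i' = 1 → i ≡ i' [MOD L]) :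
    ∑ i ∈ range (L * g), h i ≤ g := by
  rw [OrdB_sum_card h01]
  have : ((range (L * g)).filter fun i => h i = 1).card ≤ g := by
    refine OrdB_card _ (filter_subset _ _) fun i hi i' hi' => ?_
    exact hc i i' (mem_filter.mp hi).2 (mem_filter.mp hi').2
  exact_mod_cast this

lemma OrdB_period {h : ℕ → ℝ} {p : ℕ} (hp : ∀ i, h (i + p) = h i) (k : ℕ) :
    ∑ i ∈ range (k * p), h i = k * ∑ i ∈ range p, h i := by
  have hp' : ∀ k i, h (k * p + i) = h i := by
    intro k
    induction k with
    | zero => intro i; simp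
    | succ k ih =>
      intro i
      have : (k + 1) * p + i = (k * p + i) + p := by ring
      rw [this, hp, ih]
  induction k with
  | zero => simp
  | succ k ih =>
    rw [Nat.succ_mul, Finset.sum_range_add, ih]
    rw [Finset.sum_congr rfl fun i _ => hp' k i]
    push_cast
    ring

lemma OrdB_xi_per {q : ℕ} (h : ∀ m i, xi q (m + q) i = xi q m i) {c : ℕ} (hc : q ∣ c)
    (m t i : ℕ) : xi q (m + t * c) i = xi q m i := by
  obtain ⟨e, rfl⟩ := hc
  have h1 : ∀ n, xi q (m + n * q) i = xi q m i := by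
    intro n
    induction n with
    | zero => simp
    | succ n ih =>
      have : m + (n + 1) * q = (m + n * q) + q := by ring
      rw [this, h, ih]
  have : m + t * (q * e) = m + (t * e) * q := by ring
  rw [this, h1]

theorem tOrdB (hA : StmtOrdA) : StmtOrdB := by
  intro q q' hq hq2 hq' hq2' hqq
  obtain ⟨a1, a2, a3, a4, a5, a6⟩ := hA q hq hq2
  obtain ⟨b1, b2, b3, b4, b5, b6⟩ := hA q' hq' hq2'
  have ho : (0 : ℝ) < (od q : ℝ) := by exact_mod_cast a1
  have ho' : (0 : ℝ) < (od q' : ℝ) := by exact_mod_cast b1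
  refine ⟨?_, ?_, ?_, ?_⟩
  · intro m
    refine ⟨?_, ?_, ?_⟩
    · exact div_nonneg (Finset.sum_nonneg fun i _ => OrdB_xi_nonneg q m i) ho.le
    · unfold d1
      refine div_le_div_of_nonneg_right ?_ ho.le
      have h1 := OrdB_sum_le (h := xi q m) (OrdB_xi01 q m) (L := od q) (g := 1)
        (fun i i' => a5 m i i')
      rw [mul_one, Nat.cast_one] at h1
      exact h1
    · unfold d1
      congr 1
      exact Finset.sum_congr rfl fun i _ => a4 m i
  · intro m
    have h01 : ∀ i, xi q m i * xi q' m i = 0 ∨ xi q m i * xi q' m i = 1 := by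
      intro i
      rcases OrdB_xi01 q m i with h | h <;> rcases OrdB_xi01 q' m i with h' | h' <;>
        rw [h, h'] <;> simp
    have hc : ∀ i i', xi q m i * xi q' m i = 1 → xi q m i' * xi q' m i' = 1 →
        i ≡ i' [MOD Nat.lcm (od q) (od q')] := by
      intro i i' h h'
      have e1 : xi q m i = 1 ∧ xi q' m i = 1 := by
        rcases OrdB_xi01 q m i with h2 | h2 <;> rcases OrdB_xi01 q' m i with h3 | h3 <;>
          rw [h2, h3] at h <;> simp_all
      have e2 : xi q m i' = 1 ∧ xi q' m i' = 1 := by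
        rcases OrdB_xi01 q m i' with h2 | h2 <;> rcases OrdB_xi01 q' m i' with h3 | h3 <;>
          rw [h2, h3] at h' <;> simp_all
      have c1 := a5 m i i' e1.1 e2.1
      have c2 := b5 m i i' e1.2 e2.2
      rw [Nat.modEq_iff_dvd] at c1 c2 ⊢
      have := lcm_dvd c1 c2
      rwa [← Int.coe_lcm, Int.lcm_natCast_natCast] at this
    have hL : 0 < Nat.lcm (od q) (od q') := Nat.lcm_pos a1 b1
    have hLR : (0 : ℝ) < ((Nat.lcm (od q) (od q') : ℕ) : ℝ) := by exact_mod_cast hL
    have hgl : Nat.lcm (od q) (od q') * Nat.gcd (od q) (od q') = od q * od q' := by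
      rw [mul_comm, Nat.gcd_mul_lcm]
    refine ⟨?_, ?_, ?_, ?_⟩
    · refine div_nonneg (Finset.sum_nonneg fun i _ => ?_) (by positivity)
      exact mul_nonneg (OrdB_xi_nonneg q m i) (OrdB_xi_nonneg q' m i)
    · unfold d2
      have h1 := OrdB_sum_le (h := fun i => xi q m i * xi q' m i) h01
        (L := Nat.lcm (od q) (od q')) (g := Nat.gcd (od q) (od q')) hc
      rw [hgl] at h1
      rw [div_le_div_iff₀ (by positivity) hLR, one_mul]
      have h2 : ((Nat.lcm (od q) (od q') : ℕ) : ℝ) * ((Nat.gcd (od q) (od q') : ℕ) : ℝ) =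
          (od q : ℝ) * od q' := by exact_mod_cast hgl
      rw [← h2, mul_comm (((Nat.lcm (od q) (od q') : ℕ) : ℝ))]
      exact mul_le_mul_of_nonneg_right h1 hLR.le
    · unfold d2
      congr 1
      refine Finset.sum_congr rfl fun i _ => ?_
      have e1 := OrdB_xi_per a4 (dvd_mul_right q q') m 1 i
      have e2 := OrdB_xi_per b4 (dvd_mul_left q' q) m 1 i
      rw [one_mul] at e1 e2
      rw [e1, e2]
    · unfold d2
      rw [mul_comm (od q) (od q'), mul_comm (od q : ℝ)]
      congr 1
      exact Finset.sum_congr rfl fun i _ => mul_comm _ _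
  · intro c m hc
    unfold d1
    rw [← Finset.sum_div, Finset.sum_comm]
    rw [Finset.sum_congr rfl fun i _ => a6 c m i hc, Finset.sum_const, card_range, nsmul_eq_mul,
      mul_one, div_self ho.ne']
  · intro c m hc hc'
    unfold d2
    rw [← Finset.sum_div, Finset.sum_comm]
    have h1 : ∀ i ∈ range (od q * od q'),
        ∑ t ∈ range q, xi q (m + t * c) i * xi q' (m + t * c) i = xi q' m i := by
      intro i _
      have h2 : ∀ t ∈ range q, xi q (m + t * c) i * xi q' (m + t * c) i =
          xi q (m + t * c) i * xi q' m i := by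
        intro t _
        rw [OrdB_xi_per b4 hc' m t i]
      rw [Finset.sum_congr rfl h2, ← Finset.sum_mul, a6 c m i hc, one_mul]
    rw [Finset.sum_congr rfl h1, OrdB_period (b3 m) (od q)]
    unfold d1
    field_simp

end Pool.Agent.Lib.MP_9f2731_nt.H
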