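import Pool.Agent.Lib.MP_9f2731_nt.H.Spec
import Pool.Agent.Lib.MP_9f2731_nt.Orders

/-! # Many primes in the blocks -/

set_option autoImplicit false

open Finset Filter

namespace Pool.Agent.Lib.MP_9f2731_nt.H

private lemma prm_theta_eq (n : ℕ) :
    Chebyshev.theta (n : ℝ) = ∑ p ∈ (Ioc 0 n).filter Nat.Prime, Real.log p := by
  rw [Chebyshev.theta, Nat.floor_natCast]

/-- many primes in `(Q, 4 Q]` -/
private lemma prm_primes : ∃ Q0 : ℕ, 4 ≤ Q0 ∧ ∀ Q : ℕ, Q0 ≤ Q →
    (Q : ℝ) ≤ (((Ioc Q (4 * Q)).filter Nat.Prime).card : ℝ) * Real.log (4 * (Q : ℝ)) := by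
  have h1 := (isLittleO_log_rpow_atTop (show (0 : ℝ) < 1 / 2 by norm_num)).bound
    (show (0 : ℝ) < 1 / 42 by norm_num)
  have hcast : Tendsto (fun Q : ℕ => 4 * (Q : ℝ)) atTop atTop :=
    tendsto_natCast_atTop_atTop.const_mul_atTop (by norm_num)
  obtain ⟨Q0, hQ0⟩ := eventually_atTop.mp (hcast.eventually h1)
  refine ⟨max Q0 4, le_max_right _ _, fun Q hQ => ?_⟩
  have h2 := hQ0 Q ((le_max_left _ _).trans hQ)
  have hQ4 : 4 ≤ Q := (le_max_right _ _).trans hQ
  have hQ4' : (4 : ℝ) ≤ Q := by exact_mod_cast hQ4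
  set y : ℝ := 4 * (Q : ℝ) with hy
  have hy16 : 16 ≤ y := by rw [hy]; linarith
  have hlog0 : 0 ≤ Real.log y := Real.log_nonneg (by linarith)
  rw [Real.norm_of_nonneg hlog0, ← Real.sqrt_eq_rpow, Real.norm_of_nonneg (Real.sqrt_nonneg y)] at h2
  have hs0 : 0 ≤ √y := Real.sqrt_nonneg y
  have hss : √y * √y = y := Real.mul_self_sqrt (by linarith)
  have h3 : 4 * (√y * Real.log y) ≤ 4 * (√y * (1 / 42 * √y)) := by
    have := mul_le_mul_of_nonneg_left h2 hs0
    linarith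
  have h4 : √y * (1 / 42 * √y) = y / 42 := by
    calc √y * (1 / 42 * √y) = (√y * √y) / 42 := by ring
      _ = y / 42 := by rw [hss]
  have h5 := Chebyshev.theta_ge (4 * Q)
  have h6 := Chebyshev.theta_le_log4_mul_x (x := (Q : ℝ)) (by linarith)
  push_cast at h5
  rw [← hy] at h5
  have hlog4 : Real.log 4 = 2 * Real.log 2 := by
    rw [show (4 : ℝ) = 2 ^ 2 by norm_num, Real.log_pow]; push_cast; ring
  have hl2 := Real.log_two_gt_d9
  -- log (y+1) ≤ 2 √y log y
  have h7 : Real.log (y + 1) ≤ 2 * (√y * Real.log y) := by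
    have e1 : Real.log (y + 1) ≤ Real.log (y ^ 2) := by
      apply Real.log_le_log (by linarith)
      nlinarith
    rw [Real.log_pow] at e1
    push_cast at e1
    have e2 : 1 ≤ √y := by
      rw [Real.one_le_sqrt]; linarith
    have e3 : 1 * Real.log y ≤ √y * Real.log y := mul_le_mul_of_nonneg_right e2 hlog0
    linarith
  -- the sum of the logarithms
  have h8 : Chebyshev.theta y - Chebyshev.theta (Q : ℝ) =
      ∑ p ∈ (Ioc Q (4 * Q)).filter Nat.Prime, Real.log p := by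
    have e1 : y = ((4 * Q : ℕ) : ℝ) := by rw [hy]; push_cast; ring
    rw [e1, prm_theta_eq, prm_theta_eq]
    have e2 : (Ioc 0 (4 * Q)).filter Nat.Prime =
        (Ioc 0 Q).filter Nat.Prime ∪ (Ioc Q (4 * Q)).filter Nat.Prime := by
      rw [← filter_union, Ioc_union_Ioc_eq_Ioc (Nat.zero_le Q) (by omega)]
    rw [e2, sum_union]
    · ring
    · rw [disjoint_left]
      intro p hp1 hp2
      have a1 := (mem_Ioc.mp (mem_filter.mp hp1).1).2
      have a2 := (mem_Ioc.mp (mem_filter.mp hp2).1).1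
      omega
  have h9 : ∑ p ∈ (Ioc Q (4 * Q)).filter Nat.Prime, Real.log p ≤
      (((Ioc Q (4 * Q)).filter Nat.Prime).card : ℝ) * Real.log y := by
    rw [← nsmul_eq_mul, ← sum_const]
    apply sum_le_sum
    intro p hp
    obtain ⟨hp1, hp2⟩ := mem_filter.mp hp
    have a2 := (mem_Ioc.mp hp1).2
    apply Real.log_le_log
    · exact_mod_cast hp2.pos
    · rw [hy]; exact_mod_cast a2
  have h10 : (Q : ℝ) = y / 4 := by rw [hy]; ring
  rw [h10]
  rw [hlog4, h10] at h6
  rw [← h10] at h6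
  nlinarith

theorem tPrm : StmtPrm := by
  classical
  obtain ⟨Q0, hQ04, hQ0⟩ := prm_primes
  refine ⟨1 / 24, by norm_num, Q0, by omega, fun j hj => ?_⟩
  have hj1 : 1 ≤ j := by omega
  set Q := 4 ^ j with hQ
  have hjQ : j < Q := by
    rw [hQ]
    exact Nat.lt_pow_self (by norm_num)
  have hQ1 : Q0 ≤ Q := by omega
  have h1 := hQ0 Q hQ1
  set L := Real.log (4 * (Q : ℝ)) with hL
  have hQ16 : (4 : ℝ) ≤ Q := by
    have : 4 ≤ Q := by omega
    exact_mod_cast this
  have hQpos : (0 : ℝ) < Q := by linarith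
  have hL2 : 2 ≤ L := by
    rw [hL, Real.le_log_iff_exp_le (by linarith)]
    have e1 : Real.exp 2 = Real.exp 1 * Real.exp 1 := by rw [← Real.exp_add]; norm_num
    have e2 := Real.exp_one_lt_d9
    have e3 := Real.exp_pos 1
    rw [e1]
    nlinarith
  have hLpos : 0 < L := by linarith
  set w := ⌊√(Q : ℝ) / L⌋₊ with hw
  -- the bad primes
  have hsub : (Ioc Q (4 * Q)).filter Nat.Prime ⊆ PQ Q ∪ smallOrd (4 * Q) w := by
    intro q hq
    obtain ⟨hq1, hq2⟩ := mem_filter.mp hq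
    rw [mem_Ioc] at hq1
    have hne : q ≠ 2 := by omega
    by_cases h : √(Q : ℝ) ≤ (od q : ℝ) * Real.log (4 * (Q : ℝ))
    · apply mem_union_left
      unfold PQ
      rw [mem_filter, mem_Ioc]
      exact ⟨hq1, hq2, hne, h⟩
    · apply mem_union_right
      unfold smallOrd
      rw [mem_filter, mem_Icc]
      refine ⟨⟨hq2.one_le, hq1.2⟩, hq2, hne, ?_⟩
      push Not at h
      rw [hw]
      apply Nat.le_floor
      rw [le_div_iff₀ hLpos]
      exact h.le
  have hcard : (((Ioc Q (4 * Q)).filter Nat.Prime).card : ℝ) ≤ (PQ Q).card + (w : ℝ) ^ 2 := by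
    have e1 := (card_le_card hsub).trans (card_union_le _ _)
    have e2 := card_smallOrd (4 * Q) w
    have e3 : ((Ioc Q (4 * Q)).filter Nat.Prime).card ≤ (PQ Q).card + w ^ 2 := by omega
    exact_mod_cast e3
  have hw2 : (w : ℝ) ^ 2 ≤ Q / L ^ 2 := by
    have e1 : (w : ℝ) ≤ √(Q : ℝ) / L := Nat.floor_le (by positivity)
    calc (w : ℝ) ^ 2 ≤ (√(Q : ℝ) / L) ^ 2 := pow_le_pow_left₀ (Nat.cast_nonneg w) e1 2
      _ = Q / L ^ 2 := by rw [div_pow, Real.sq_sqrt hQpos.le]
  have hPQ : Q / (2 * L) ≤ (PQ Q).card := by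
    have e1 : Q / L ≤ (((Ioc Q (4 * Q)).filter Nat.Prime).card : ℝ) := by
      rw [div_le_iff₀ hLpos]; exact h1
    have e2 : (Q : ℝ) / L ^ 2 ≤ Q / (2 * L) := by
      apply div_le_div_of_nonneg_left hQpos.le (by positivity)
      nlinarith
    have e3 : (Q : ℝ) / L = Q / (2 * L) + Q / (2 * L) := by field_simp; ring
    linarith
  have hsum : ((PQ Q).card : ℝ) * (1 / (4 * Q)) ≤ ∑ q ∈ PQ Q, 1 / (q : ℝ) := by
    rw [← nsmul_eq_mul, ← sum_const]
    apply sum_le_sum
    intro q hq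
    unfold PQ at hq
    rw [mem_filter, mem_Ioc] at hq
    apply one_div_le_one_div_of_le
    · exact_mod_cast hq.2.1.pos
    · exact_mod_cast hq.1.2
  have hLj : L ≤ 3 * j := by
    have e1 : 4 * (Q : ℝ) = 4 ^ (j + 1) := by
      rw [hQ]; push_cast; ring
    rw [hL, e1, Real.log_pow]
    have hlog4 : Real.log 4 = 2 * Real.log 2 := by
      rw [show (4 : ℝ) = 2 ^ 2 by norm_num, Real.log_pow]; push_cast; ring
    rw [hlog4]
    have e2 := Real.log_two_lt_d9
    have e3 : (1 : ℝ) ≤ j := by exact_mod_cast hj1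
    push_cast
    nlinarith
  have hjpos : (0 : ℝ) < j := by exact_mod_cast hj1
  calc 1 / 24 / (j : ℝ) = 1 / (8 * (3 * j)) := by field_simp; norm_num
    _ ≤ 1 / (8 * L) := by
        apply one_div_le_one_div_of_le (by positivity)
        linarith
    _ = Q / (2 * L) * (1 / (4 * Q)) := by field_simp; norm_num
    _ ≤ ((PQ Q).card : ℝ) * (1 / (4 * Q)) := mul_le_mul_of_nonneg_right hPQ (by positivity)
    _ ≤ _ := hsum

end Pool.Agent.Lib.MP_9f2731_nt.H
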