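import Pool.Agent.Lib.MP_9f2731_nt.H.Spec

/-!
# An elementary inequality
-/

set_option autoImplicit false

open Finset

namespace Pool.Agent.Lib.MP_9f2731_nt.H

lemma Scal_bern {x δ : ℝ} (hx : 0 ≤ x) (hδ : 0 ≤ δ) (l : ℕ) :
    x ^ l + l * x ^ (l - 1) * δ ≤ (x + δ) ^ l := by
  induction l with
  | zero => simp
  | succ l ih =>
    rw [Nat.add_sub_cancel]
    have h1 : (x + δ) * (x ^ l + l * x ^ (l - 1) * δ) ≤ (x + δ) * (x + δ) ^ l :=
      mul_le_mul_of_nonneg_left ih (by positivity)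
    have h2 : x * (l * x ^ (l - 1) * δ) = l * x ^ l * δ := by
      rcases Nat.eq_zero_or_pos l with h | h
      · subst h; simp
      · obtain ⟨k, rfl⟩ := Nat.exists_eq_succ_of_ne_zero h.ne'
        simp only [Nat.succ_eq_add_one, Nat.add_sub_cancel]
        ring
    have h3 : 0 ≤ δ * (l * x ^ (l - 1) * δ) := by positivity
    have h4 : (x + δ) ^ (l + 1) = (x + δ) * (x + δ) ^ l := by ring
    rw [h4]
    refine le_trans ?_ h1
    have h5 : (x + δ) * (x ^ l + l * x ^ (l - 1) * δ) =
        x ^ (l + 1) + δ * x ^ l + x * (l * x ^ (l - 1) * δ) + δ * (l * x ^ (l - 1) * δ) := by ring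
    rw [h5, h2]
    push_cast
    nlinarith

theorem tScal : StmtScal := by
  intro r l A B t hl hlr hA hB ht
  have hl1 : (1 : ℝ) ≤ l := by exact_mod_cast hl
  have hlr' : (l : ℝ) ≤ r := by exact_mod_cast hlr
  have hK : 32 * (l : ℝ) ^ 2 ≤ 32 * (r : ℝ) ^ 2 := by nlinarith
  set K : ℝ := 32 * (r : ℝ) ^ 2 with hKdef
  set s : ℝ := √(A * B) with hs
  have hAB : 0 ≤ A * B := by positivity
  have hs0 : 0 ≤ s := Real.sqrt_nonneg _
  have hs2 : s ^ 2 = A * B := Real.sq_sqrt hAB
  have hts : |t| ≤ s := by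
    refine abs_le_of_sq_le_sq ?_ hs0
    rw [hs2]; exact ht
  obtain ⟨ht1, ht2⟩ := abs_le.mp hts
  have hAMGM : 2 * s ≤ A + B := by
    have : (2 * s) ^ 2 ≤ (A + B) ^ 2 := by nlinarith [sq_nonneg (A - B)]
    exact (abs_le_of_sq_le_sq' this (by positivity)).2
  have hpos : 0 ≤ A + 2 * t + B := by linarith
  have hApow : 0 ≤ A ^ (l - 1) := by positivity
  rcases le_or_gt A (16 * (l : ℝ) ^ 2 * B) with hc | hc
  · -- case 1
    have hs4 : s ≤ 4 * l * B := by
      have : s ^ 2 ≤ (4 * l * B) ^ 2 := by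
        rw [hs2]
        nlinarith
      exact (abs_le_of_sq_le_sq' this (by positivity)).2
    set x : ℝ := A + 2 * s + B with hx
    have hx0 : 0 ≤ x := by positivity
    set δ : ℝ := A + K * B - x with hδ
    have hδ2 : 2 * s ≤ δ := by
      have h1 : δ = (K - 1) * B - 2 * s := by rw [hδ, hx]; ring
      have h2 : (32 * (l : ℝ) ^ 2 - 1) * B ≤ (K - 1) * B :=
        mul_le_mul_of_nonneg_right (by linarith) hB
      have h3 : (16 * (l : ℝ)) * B ≤ (32 * (l : ℝ) ^ 2 - 1) * B :=
        mul_le_mul_of_nonneg_right (by nlinarith) hB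
      rw [h1]
      nlinarith
    have hδ0 : 0 ≤ δ := by linarith
    have h1 := Scal_bern hx0 hδ0 l
    have h2 : x + δ = A + K * B := by rw [hδ]; ring
    rw [h2] at h1
    have h3 : (A + 2 * t + B) ^ l ≤ x ^ l := pow_le_pow_left₀ hpos (by rw [hx]; linarith) l
    have hAx : A ^ (l - 1) ≤ x ^ (l - 1) := pow_le_pow_left₀ hA (by rw [hx]; linarith) _
    have h4 : l * A ^ (l - 1) * (2 * s) ≤ l * x ^ (l - 1) * δ := by
      refine mul_le_mul (mul_le_mul_of_nonneg_left hAx (by positivity)) hδ2 (by positivity)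
        (by positivity)
    have h5 : -(2 * l * A ^ (l - 1) * s) ≤ 2 * l * A ^ (l - 1) * t := by
      have : 0 ≤ 2 * l * A ^ (l - 1) * (t + s) :=
        mul_nonneg (by positivity) (by linarith)
      nlinarith
    nlinarith
  · -- case 2
    have hA0 : 0 < A := lt_of_le_of_lt (by positivity) hc
    have hsA : 4 * l * s ≤ A := by
      have : (4 * l * s) ^ 2 ≤ A ^ 2 := by
        rw [mul_pow, hs2]
        nlinarith
      exact (abs_le_of_sq_le_sq' this hA).2
    have hBs : 4 * l * B ≤ s := by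
      have : (4 * l * B) ^ 2 ≤ s ^ 2 := by
        rw [hs2]
        nlinarith
      exact (abs_le_of_sq_le_sq' this hs0).2
    have hBs1 : 4 * B ≤ s := by nlinarith
    set y : ℝ := 2 * t + B with hy
    have hy1 : |y| ≤ 9 / 4 * s := by
      rw [abs_le]
      constructor <;> rw [hy] <;> linarith
    have hy2 : y ^ 2 ≤ 6 * (A * B) := by
      have h1 : y ^ 2 ≤ (9 / 4 * s) ^ 2 := by
        rw [← sq_abs y]
        exact pow_le_pow_left₀ (abs_nonneg _) hy1 2
      rw [mul_pow, hs2] at h1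
      nlinarith
    have hly : l * |y| ≤ A := by nlinarith [abs_nonneg y]
    set z : ℝ := y / A with hz
    have hlz : |l * z| ≤ 1 := by
      rw [hz, ← mul_div_assoc, abs_div, abs_mul, Nat.abs_cast, abs_of_pos hA0,
        div_le_one hA0]
      exact hly
    have hz1 : 0 ≤ 1 + z := by
      have : 1 + z = (A + 2 * t + B) / A := by
        rw [hz, hy]
        field_simp
        ring
      rw [this]
      positivity
    have hexp : (1 + z) ^ l ≤ 1 + l * z + (l * z) ^ 2 := by
      have h1 : 1 + z ≤ Real.exp z := by linarith [Real.add_one_le_exp z]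
      have h2 : (1 + z) ^ l ≤ Real.exp z ^ l := pow_le_pow_left₀ hz1 h1 l
      rw [← Real.exp_nat_mul] at h2
      have h3 := Real.abs_exp_sub_one_sub_id_le hlz
      have h4 := (abs_le.mp h3).2
      linarith
    have hAl : A ^ l = A * A ^ (l - 1) := by
      obtain ⟨k, rfl⟩ := Nat.exists_eq_succ_of_ne_zero (Nat.one_le_iff_ne_zero.mp hl)
      simp only [Nat.succ_eq_add_one, Nat.add_sub_cancel]
      ring
    have h1 : (A + 2 * t + B) ^ l ≤ A ^ l + l * A ^ (l - 1) * y + 6 * l ^ 2 * A ^ (l - 1) * B := by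
      have h2 : (A + 2 * t + B) ^ l = A ^ l * (1 + z) ^ l := by
        rw [← mul_pow]
        congr 1
        rw [hz, hy]
        field_simp
        ring
      rw [h2]
      have h3 : A ^ l * (1 + z) ^ l ≤ A ^ l * (1 + l * z + (l * z) ^ 2) :=
        mul_le_mul_of_nonneg_left hexp (by positivity)
      refine h3.trans ?_
      have h4 : A ^ l * (l * z) = l * A ^ (l - 1) * y := by
        rw [hAl, hz]
        field_simp
      have h5 : A ^ l * (l * z) ^ 2 ≤ 6 * l ^ 2 * A ^ (l - 1) * B := by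
        have h6 : A ^ l * (l * z) ^ 2 = (l ^ 2 * A ^ (l - 1) / A) * y ^ 2 := by
          rw [hAl, hz]
          field_simp
        rw [h6]
        have h7 : (l ^ 2 * A ^ (l - 1) / A) * y ^ 2 ≤ (l ^ 2 * A ^ (l - 1) / A) * (6 * (A * B)) :=
          mul_le_mul_of_nonneg_left hy2 (by positivity)
        refine h7.trans (le_of_eq ?_)
        field_simp
      nlinarith
    have h2 := Scal_bern hA (show 0 ≤ K * B by positivity) l
    have h3 : (l + 6 * (l : ℝ) ^ 2) * (A ^ (l - 1) * B) ≤ l * K * (A ^ (l - 1) * B) := by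
      refine mul_le_mul_of_nonneg_right ?_ (by positivity)
      have h4 : l * (32 * (l : ℝ) ^ 2) ≤ l * K := mul_le_mul_of_nonneg_left hK (by positivity)
      nlinarith [sq_nonneg ((l : ℝ) - 1)]
    rw [hy] at h1
    nlinarith

end Pool.Agent.Lib.MP_9f2731_nt.H
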