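import Pool.Agent.Lib.MP_9f2731_nt.H.Spec

/-!
# Statement Tau: the number of divisors is at most `2 √n`
-/

set_option autoImplicit false

open Finset

namespace Pool.Agent.Lib.MP_9f2731_nt.H

theorem tTau : StmtTau := by
  intro n hn
  set s : ℕ := Nat.sqrt n with hs
  have hsub : n.divisors ⊆ (Icc 1 s) ∪ (Icc 1 s).image fun d => n / d := by
    intro d hd
    rw [Nat.mem_divisors] at hd
    obtain ⟨hdn, hn0⟩ := hd
    have hd0 : 0 < d := Nat.pos_of_dvd_of_pos hdn (by omega)
    rw [mem_union, mem_image]
    rcases le_or_gt d s with h | h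
    · left
      rw [mem_Icc]
      exact ⟨hd0, h⟩
    · right
      obtain ⟨e, he⟩ := hdn
      have he0 : 0 < e := by
        rcases Nat.eq_zero_or_pos e with h0 | h0
        · rw [h0, mul_zero] at he
          omega
        · exact h0
      refine ⟨e, ?_, ?_⟩
      · rw [mem_Icc]
        refine ⟨he0, ?_⟩
        rw [hs, Nat.le_sqrt]
        by_contra hlt
        have h1 : n < e * e := not_le.1 hlt
        have h2 : s < e := by
          rw [hs]
          exact Nat.sqrt_lt.2 h1
        have h3 : n < (s + 1) * (s + 1) := by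
          rw [hs]
          exact Nat.sqrt_lt'.1 (Nat.lt_succ_self _) |>.trans_le (by rw [pow_two])
        have h4 : (s + 1) * (s + 1) ≤ d * e := Nat.mul_le_mul h h2
        omega
      · rw [he]
        exact Nat.mul_div_cancel _ he0
  have hcard : n.divisors.card ≤ 2 * s := by
    calc n.divisors.card ≤ ((Icc 1 s) ∪ (Icc 1 s).image fun d => n / d).card := card_le_card hsub
      _ ≤ (Icc 1 s).card + ((Icc 1 s).image fun d => n / d).card := card_union_le _ _
      _ ≤ (Icc 1 s).card + (Icc 1 s).card := Nat.add_le_add_left card_image_le _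
      _ = 2 * s := by rw [Nat.card_Icc]; omega
  have h1 : ((n.divisors.card : ℕ) : ℝ) ≤ 2 * (s : ℝ) := by exact_mod_cast hcard
  have h2 : (s : ℝ) ≤ √(n : ℝ) := by
    rw [hs]
    exact Real.nat_sqrt_le_real_sqrt
  linarith

end Pool.Agent.Lib.MP_9f2731_nt.H
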