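import Pool.Agent.Lib.MP_9f2731_nt.H.OrdB

/-!
# Second moment over a window, Chebyshev
-/

set_option autoImplicit false

open Finset

namespace Pool.Agent.Lib.MP_9f2731_nt.H

theorem tWin (hW : StmtWinA) : StmtWin := by
  intro P a W m V hP hV
  set lam : ℝ := ∑ q ∈ P, 1 / (q : ℝ) with hlam
  have hlam0 : 0 ≤ lam := Finset.sum_nonneg fun q _ => by positivity
  set R : ℕ → ℝ := fun i => ∑ q ∈ P, (xi q m (a + i) - 1 / (q : ℝ)) with hR
  have hqpos : ∀ q ∈ P, (2 : ℝ) ≤ q := fun q hq => by exact_mod_cast (hP q hq).1.two_le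
  have hone : ∀ q ∈ P, |∑ i ∈ range W, xi q m (a + i) - W * d1 q m| ≤ 1 := by
    intro q hq
    by_cases h3 : q = 3
    · exact (hW q 5 a W m (hP q hq).1 (hP q hq).2 (by norm_num) (by norm_num)
        (by rw [h3]; norm_num)).1
    · exact (hW q 3 a W m (hP q hq).1 (hP q hq).2 (by norm_num) (by norm_num) h3).1
  have hxx : ∀ q i, xi q m i * xi q m i = xi q m i := by
    intro q i
    rcases OrdB_xi01 q m i with h | h <;> rw [h] <;> norm_num
  -- diagonal
  have hdiag : ∀ q ∈ P, ∑ i ∈ range W, (xi q m (a + i) - 1 / (q : ℝ)) * (xi q m (a + i) - 1 / (q : ℝ))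
      ≤ W * (Fq q m + 2 / (q : ℝ)) + 1 := by
    intro q hq
    have hq2 := hqpos q hq
    have hq0 : (0 : ℝ) < q := by linarith
    have h1 := (abs_le.mp (hone q hq)).2
    have h2 : ∑ i ∈ range W, (xi q m (a + i) - 1 / (q : ℝ)) * (xi q m (a + i) - 1 / (q : ℝ)) ≤
        ∑ i ∈ range W, (xi q m (a + i) + 1 / (q : ℝ)) := by
      refine Finset.sum_le_sum fun i _ => ?_
      have h3 : (xi q m (a + i) - 1 / (q : ℝ)) * (xi q m (a + i) - 1 / (q : ℝ)) =
          xi q m (a + i) * xi q m (a + i) - 2 * (xi q m (a + i) * (1 / (q : ℝ))) +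
            (1 / (q : ℝ)) * (1 / (q : ℝ)) := by ring
      rw [h3, hxx]
      have h4 : 0 ≤ xi q m (a + i) * (1 / (q : ℝ)) :=
        mul_nonneg (OrdB_xi_nonneg _ _ _) (by positivity)
      have h5 : (1 / (q : ℝ)) ≤ 1 := by
        rw [div_le_one hq0]; linarith
      have h6 : (1 / (q : ℝ)) * (1 / (q : ℝ)) ≤ 1 / (q : ℝ) := by
        have h7 : 0 ≤ 1 / (q : ℝ) := by positivity
        nlinarith
      linarith
    refine h2.trans ?_
    rw [Finset.sum_add_distrib, Finset.sum_const, card_range, nsmul_eq_mul]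
    unfold Fq
    have h8 : (W : ℝ) * (d1 q m - 1 / (q : ℝ) + 2 / (q : ℝ)) = W * d1 q m + W * (1 / (q : ℝ)) := by
      ring
    rw [h8]
    linarith
  -- off the diagonal
  have hoff : ∀ q ∈ P, ∀ q' ∈ P.erase q,
      ∑ i ∈ range W, (xi q m (a + i) - 1 / (q : ℝ)) * (xi q' m (a + i) - 1 / (q' : ℝ))
      ≤ W * Gq q q' m + 3 := by
    intro q hq q' hq'
    rw [mem_erase] at hq'
    have hq2 := hqpos q hq
    have hq2' := hqpos q' hq'.2
    have hq0 : (0 : ℝ) < q := by linarith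
    have hq0' : (0 : ℝ) < q' := by linarith
    have e1 := (abs_le.mp (hone q hq)).1
    have e2 := (abs_le.mp (hone q' hq'.2)).1
    have e3 := (abs_le.mp (hW q q' a W m (hP q hq).1 (hP q hq).2 (hP q' hq'.2).1 (hP q' hq'.2).2
      (fun h => hq'.1 h.symm)).2).2
    have h1 : ∑ i ∈ range W, (xi q m (a + i) - 1 / (q : ℝ)) * (xi q' m (a + i) - 1 / (q' : ℝ)) =
        ∑ i ∈ range W, xi q m (a + i) * xi q' m (a + i) -
          (1 / (q' : ℝ)) * ∑ i ∈ range W, xi q m (a + i) -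
          (1 / (q : ℝ)) * ∑ i ∈ range W, xi q' m (a + i) + W * (1 / ((q : ℝ) * q')) := by
      rw [Finset.mul_sum, Finset.mul_sum, ← Finset.sum_sub_distrib, ← Finset.sum_sub_distrib]
      have : (W : ℝ) * (1 / ((q : ℝ) * q')) = ∑ _i ∈ range W, (1 / ((q : ℝ) * q')) := by
        rw [Finset.sum_const, card_range, nsmul_eq_mul]
      rw [this, ← Finset.sum_add_distrib]
      refine Finset.sum_congr rfl fun i _ => ?_
      field_simp
      ring
    rw [h1]
    have i1 : 1 / (q : ℝ) ≤ 1 := by rw [div_le_one hq0]; linarith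
    have i2 : 1 / (q' : ℝ) ≤ 1 := by rw [div_le_one hq0']; linarith
    have j1 : 0 ≤ 1 / (q : ℝ) := by positivity
    have j2 : 0 ≤ 1 / (q' : ℝ) := by positivity
    have k1 : (1 / (q' : ℝ)) * (W * d1 q m - 1) ≤ (1 / (q' : ℝ)) * ∑ i ∈ range W, xi q m (a + i) :=
      mul_le_mul_of_nonneg_left (by linarith) j2
    have k2 : (1 / (q : ℝ)) * (W * d1 q' m - 1) ≤ (1 / (q : ℝ)) * ∑ i ∈ range W, xi q' m (a + i) :=
      mul_le_mul_of_nonneg_left (by linarith) j1
    have hG : (W : ℝ) * Gq q q' m = W * d2 q q' m - (1 / (q' : ℝ)) * (W * d1 q m) -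
        (1 / (q : ℝ)) * (W * d1 q' m) + W * (1 / ((q : ℝ) * q')) := by
      unfold Gq
      field_simp
    rw [hG]
    nlinarith
  -- the second moment
  have hsq : ∑ i ∈ range W, R i ^ 2 ≤ W * (2 * lam + V) + 4 * (P.card : ℝ) ^ 2 := by
    have h1 : ∑ i ∈ range W, R i ^ 2 = ∑ q ∈ P, ∑ q' ∈ P,
        ∑ i ∈ range W, (xi q m (a + i) - 1 / (q : ℝ)) * (xi q' m (a + i) - 1 / (q' : ℝ)) := by
      have h2 : ∀ i ∈ range W, R i ^ 2 = ∑ q ∈ P, ∑ q' ∈ P,
          (xi q m (a + i) - 1 / (q : ℝ)) * (xi q' m (a + i) - 1 / (q' : ℝ)) := by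
        intro i _
        simp only [hR]
        rw [sq, Finset.sum_mul_sum]
      rw [Finset.sum_congr rfl h2, Finset.sum_comm]
      refine Finset.sum_congr rfl fun q _ => ?_
      rw [Finset.sum_comm]
    rw [h1]
    have h3 : ∀ q ∈ P, ∑ q' ∈ P,
        ∑ i ∈ range W, (xi q m (a + i) - 1 / (q : ℝ)) * (xi q' m (a + i) - 1 / (q' : ℝ)) ≤
        (W * (Fq q m + 2 / (q : ℝ)) + 1) + ∑ q' ∈ P.erase q, (W * Gq q q' m + 3) := by
      intro q hq
      rw [← Finset.add_sum_erase P _ hq]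
      exact add_le_add (hdiag q hq) (Finset.sum_le_sum (hoff q hq))
    refine (Finset.sum_le_sum h3).trans ?_
    have h4 : ∑ q ∈ P, ((W * (Fq q m + 2 / (q : ℝ)) + 1) + ∑ q' ∈ P.erase q, (W * Gq q q' m + 3)) =
        W * (∑ q ∈ P, Fq q m + ∑ q ∈ P, ∑ q' ∈ P.erase q, Gq q q' m) + W * (2 * lam) +
          (P.card : ℝ) + ∑ q ∈ P, 3 * ((P.erase q).card : ℝ) := by
      rw [hlam]
      simp only [Finset.sum_add_distrib, Finset.mul_sum, Finset.sum_const, nsmul_eq_mul, mul_add]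
      have h5 : ∀ q ∈ P, (W : ℝ) * (2 / (q : ℝ)) = W * (2 * (1 / (q : ℝ))) := by
        intro q _; ring
      rw [Finset.sum_congr rfl h5]
      ring_nf
    rw [h4]
    have h6 : ∑ q ∈ P, 3 * ((P.erase q).card : ℝ) ≤ 3 * (P.card : ℝ) * ((P.card : ℝ) - 1) := by
      rcases P.eq_empty_or_nonempty with h | h
      · subst h; simp
      · have h7 : ∀ q ∈ P, 3 * ((P.erase q).card : ℝ) = 3 * ((P.card : ℝ) - 1) := by
          intro q hq
          rw [card_erase_of_mem hq, Nat.cast_sub (card_pos.mpr h), Nat.cast_one]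
        rw [Finset.sum_congr rfl h7, Finset.sum_const, nsmul_eq_mul]
        exact le_of_eq (by ring)
    have h8 : (W : ℝ) * (∑ q ∈ P, Fq q m + ∑ q ∈ P, ∑ q' ∈ P.erase q, Gq q q' m) ≤ W * V :=
      mul_le_mul_of_nonneg_left hV (Nat.cast_nonneg _)
    have h9 : (0 : ℝ) ≤ (P.card : ℝ) := Nat.cast_nonneg _
    nlinarith
  refine le_trans ?_ hsq
  have hfil : ∑ i ∈ (range W).filter (fun i => (((2 ^ (a + i) * m + 1).primeFactors.card : ℕ) : ℝ) ≤
      lam / 2), lam ^ 2 / 4 ≤ ∑ i ∈ range W, R i ^ 2 := by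
    refine (Finset.sum_le_sum (g := fun i => R i ^ 2) fun i hi => ?_).trans
      (Finset.sum_le_sum_of_subset_of_nonneg (filter_subset _ _) fun i _ _ => sq_nonneg _)
    have h1 := (mem_filter.mp hi).2
    have h2 : ∑ q ∈ P, xi q m (a + i) ≤ (((2 ^ (a + i) * m + 1).primeFactors.card : ℕ) : ℝ) := by
      have h3 : ∑ q ∈ P, xi q m (a + i) = ((P.filter fun q => q ∣ 2 ^ (a + i) * m + 1).card : ℝ) := by
        unfold xi
        rw [Finset.card_eq_sum_ones, Nat.cast_sum, Finset.sum_filter]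
        simp
      rw [h3]
      have h4 : P.filter (fun q => q ∣ 2 ^ (a + i) * m + 1) ⊆ (2 ^ (a + i) * m + 1).primeFactors := by
        intro q hq
        rw [mem_filter] at hq
        rw [Nat.mem_primeFactors]
        exact ⟨(hP q hq.1).1, hq.2, by omega⟩
      exact_mod_cast card_le_card h4
    have h5 : R i ≤ -(lam / 2) := by
      simp only [hR]
      rw [Finset.sum_sub_distrib, ← hlam]
      linarith
    have h6 : (lam / 2) ^ 2 ≤ (R i) ^ 2 := by nlinarith
    calc lam ^ 2 / 4 = (lam / 2) ^ 2 := by ring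
      _ ≤ R i ^ 2 := h6
  rw [Finset.sum_const, nsmul_eq_mul] at hfil
  exact hfil

end Pool.Agent.Lib.MP_9f2731_nt.H
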