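import Pool.Agent.Lib.MP_9f2731_nt.H.OrdB

/-!
# Counting in windows
-/

set_option autoImplicit false

open Finset

namespace Pool.Agent.Lib.MP_9f2731_nt.H

lemma WinA_shift {h : ℕ → ℝ} {p : ℕ} (hp : ∀ i, h (i + p) = h i) (a : ℕ) :
    ∑ i ∈ range p, h (a + i) = ∑ i ∈ range p, h i := by
  induction a with
  | zero => simp
  | succ a ih =>
    rw [← ih]
    have h1 := Finset.sum_range_succ (fun i => h (a + i)) p
    have h2 := Finset.sum_range_succ' (fun i => h (a + i)) p
    rw [h2] at h1
    have h3 : h (a + p) = h (a + 0) := hp a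
    rw [h3] at h1
    have h4 := add_right_cancel h1
    rw [← h4]
    refine Finset.sum_congr rfl fun i _ => ?_
    congr 1
    omega

lemma WinA_count {h : ℕ → ℝ} {p : ℕ} (hp0 : 0 < p) (hp : ∀ i, h (i + p) = h i)
    (h0 : ∀ i, 0 ≤ h i) (hs : ∑ i ∈ range p, h i ≤ 1) (a W : ℕ) :
    |∑ i ∈ range W, h (a + i) - W * ((∑ i ∈ range p, h i) / (p : ℝ))| ≤ 1 := by
  set S : ℝ := ∑ i ∈ range p, h i with hS
  have hpR : (0 : ℝ) < p := by exact_mod_cast hp0
  have hS0 : 0 ≤ S := Finset.sum_nonneg fun i _ => h0 i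
  set k := W / p with hk
  set ρ := W % p with hρ
  have hρp : ρ < p := Nat.mod_lt _ hp0
  have hW : W = k * p + ρ := by rw [mul_comm]; exact (Nat.div_add_mod W p).symm
  have hper : ∀ i, h (a + (i + p)) = h (a + i) := fun i => by rw [← Nat.add_assoc]; exact hp (a + i)
  have h1 : ∑ i ∈ range (k * p), h (a + i) = k * S := by
    rw [OrdB_period (h := fun i => h (a + i)) hper k, WinA_shift hp]
  set e : ℝ := ∑ i ∈ range ρ, h (a + (k * p + i)) with he
  have h2 : ∑ i ∈ range W, h (a + i) = k * S + e := by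
    rw [hW, Finset.sum_range_add, h1]
  have he0 : 0 ≤ e := Finset.sum_nonneg fun i _ => h0 _
  have heS : e ≤ S := by
    have h3 : ∑ i ∈ range p, h (a + (k * p + i)) = S := by
      have h4 := WinA_shift hp (a + k * p)
      rw [← hS] at h4
      rw [← h4]
      refine Finset.sum_congr rfl fun i _ => ?_
      congr 1
      ring
    rw [← h3]
    exact Finset.sum_le_sum_of_subset_of_nonneg (range_subset_range.mpr hρp.le) fun i _ _ => h0 _
  have h5 : (W : ℝ) * (S / p) = k * S + ρ * S / p := by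
    rw [hW]
    push_cast
    field_simp
  rw [h2, h5]
  have h6 : 0 ≤ (ρ : ℝ) * S / p := by positivity
  have h7 : (ρ : ℝ) * S / p ≤ S := by
    rw [div_le_iff₀ hpR, mul_comm]
    refine mul_le_mul_of_nonneg_left ?_ hS0
    exact_mod_cast hρp.le
  rw [abs_le]
  constructor <;> linarith

theorem tWinA (hA : StmtOrdA) : StmtWinA := by
  intro q q' a W m hq hq2 hq' hq2' hqq
  obtain ⟨a1, a2, a3, a4, a5, a6⟩ := hA q hq hq2
  obtain ⟨b1, b2, b3, b4, b5, b6⟩ := hA q' hq' hq2'
  constructor
  · have h1 : ∑ i ∈ range (od q), xi q m i ≤ 1 := by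
      have h1 := OrdB_sum_le (h := xi q m) (OrdB_xi01 q m) (L := od q) (g := 1)
        (fun i i' => a5 m i i')
      rw [mul_one, Nat.cast_one] at h1
      exact h1
    exact WinA_count a1 (a3 m) (OrdB_xi_nonneg q m) h1 a W
  · set L := Nat.lcm (od q) (od q') with hL
    have hL0 : 0 < L := Nat.lcm_pos a1 b1
    have hperL : ∀ i, xi q m (i + L) * xi q' m (i + L) = xi q m i * xi q' m i := by
      intro i
      have e1 : ∀ n i, xi q m (i + od q * n) = xi q m i := by
        intro n
        induction n with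
        | zero => intro i; simp
        | succ n ih => intro i; rw [Nat.mul_succ, ← Nat.add_assoc, a3, ih]
      have e2 : ∀ n i, xi q' m (i + od q' * n) = xi q' m i := by
        intro n
        induction n with
        | zero => intro i; simp
        | succ n ih => intro i; rw [Nat.mul_succ, ← Nat.add_assoc, b3, ih]
      obtain ⟨u, hu⟩ := Nat.dvd_lcm_left (od q) (od q')
      obtain ⟨v, hv⟩ := Nat.dvd_lcm_right (od q) (od q')
      have f1 : xi q m (i + L) = xi q m i := by rw [hL, hu]; exact e1 u i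
      have f2 : xi q' m (i + L) = xi q' m i := by rw [hL, hv]; exact e2 v i
      rw [f1, f2]
    have h01 : ∀ i, xi q m i * xi q' m i = 0 ∨ xi q m i * xi q' m i = 1 := by
      intro i
      rcases OrdB_xi01 q m i with h | h <;> rcases OrdB_xi01 q' m i with h' | h' <;>
        rw [h, h'] <;> simp
    have hc : ∀ i i', xi q m i * xi q' m i = 1 → xi q m i' * xi q' m i' = 1 →
        i ≡ i' [MOD L] := by
      intro i i' h h'
      have e1 : xi q m i = 1 ∧ xi q' m i = 1 := by
        rcases OrdB_xi01 q m i with h2 | h2 <;> rcases OrdB_xi01 q' m i with h3 | h3 <;>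
          rw [h2, h3] at h <;> simp_all
      have e2 : xi q m i' = 1 ∧ xi q' m i' = 1 := by
        rcases OrdB_xi01 q m i' with h2 | h2 <;> rcases OrdB_xi01 q' m i' with h3 | h3 <;>
          rw [h2, h3] at h' <;> simp_all
      have c1 := a5 m i i' e1.1 e2.1
      have c2 := b5 m i i' e1.2 e2.2
      rw [Nat.modEq_iff_dvd] at c1 c2 ⊢
      have := lcm_dvd c1 c2
      rwa [← Int.coe_lcm, Int.lcm_natCast_natCast] at this
    have hsum : ∑ i ∈ range L, xi q m i * xi q' m i ≤ 1 := by
      have h1 := OrdB_sum_le (h := fun i => xi q m i * xi q' m i) h01 (L := L) (g := 1) hc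
      rw [mul_one, Nat.cast_one] at h1
      exact h1
    have hgl : Nat.gcd (od q) (od q') * L = od q * od q' := Nat.gcd_mul_lcm _ _
    have hg0 : 0 < Nat.gcd (od q) (od q') := Nat.gcd_pos_of_pos_left _ a1
    have hd2 : d2 q q' m = (∑ i ∈ range L, xi q m i * xi q' m i) / (L : ℝ) := by
      unfold d2
      rw [← hgl, OrdB_period (h := fun i => xi q m i * xi q' m i) hperL]
      have h3 : ((od q : ℝ) * od q') = ((Nat.gcd (od q) (od q') : ℕ) : ℝ) * L := by
        exact_mod_cast hgl.symm
      rw [h3]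
      have hgR : (0 : ℝ) < ((Nat.gcd (od q) (od q') : ℕ) : ℝ) := by exact_mod_cast hg0
      have hLR : (0 : ℝ) < (L : ℝ) := by exact_mod_cast hL0
      rw [mul_div_mul_left _ _ hgR.ne']
    rw [hd2]
    exact WinA_count hL0 hperL
      (fun i => mul_nonneg (OrdB_xi_nonneg q m i) (OrdB_xi_nonneg q' m i)) hsum a W

end Pool.Agent.Lib.MP_9f2731_nt.H
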