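import Pool.Agent.Lib.MP_9f2731_nt.H.MZ

/-!
# Moments of sums of nonnegative independent functions
-/

set_option autoImplicit false

open Finset

namespace Pool.Agent.Lib.MP_9f2731_nt.H

lemma Z1_Av_nonneg {G : Type} [AddCommGroup G] {d : G} {n : ℕ} {g : G → ℝ} (hg : ∀ x, 0 ≤ g x)
    (x : G) : 0 ≤ Av d n g x :=
  div_nonneg (Finset.sum_nonneg fun _ _ => hg _) (Nat.cast_nonneg _)

theorem Z1_claim {G ι : Type} [Fintype G] [AddCommGroup G] [DecidableEq ι] (s : Finset ι)
    (d : ι → G) (n : ι → ℕ) (g : ι → G → ℝ) (A : ℝ) (hA : 0 ≤ A) (hn : ∀ j ∈ s, 1 ≤ n j)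
    (hg : ∀ j ∈ s, ∀ x, 0 ≤ g j x) (hinv : ∀ i ∈ s, ∀ j ∈ s, i ≠ j → Inv (d i) (g j))
    (hgA : ∀ j ∈ s, ∀ x, g j x ≤ A) (hav : ∀ x, ∑ j ∈ s, Av (d j) (n j) (g j) x ≤ A) (r : ℕ) :
    ∀ (T : Finset ι) (H : G → ℝ), T ⊆ s → (∀ x, 0 ≤ H x) → (∀ i ∈ s, i ∉ T → Inv (d i) H) →
      ∑ x, H x * (∑ j ∈ s, g j x) ^ r ≤ (((T.card : ℝ) + r) * A) ^ r * ∑ x, H x := by
  induction r with
  | zero => intro T H _ _ _; simp
  | succ r ih =>
    intro T H hT hH hHi
    -- the case of exponent one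
    have hone : ∑ j ∈ s, ∑ x, H x * g j x ≤ ((T.card : ℝ) + 1) * A * ∑ x, H x := by
      have h0 : 0 ≤ ∑ x, H x := Finset.sum_nonneg fun x _ => hH x
      rw [← Finset.sum_sdiff hT]
      have h1 : ∑ j ∈ T, ∑ x, H x * g j x ≤ (T.card : ℝ) * (A * ∑ x, H x) := by
        have : ∀ j ∈ T, ∑ x, H x * g j x ≤ A * ∑ x, H x := by
          intro j hj
          rw [Finset.mul_sum]
          refine Finset.sum_le_sum fun x _ => ?_
          rw [mul_comm A]
          exact mul_le_mul_of_nonneg_left (hgA j (hT hj) x) (hH x)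
        refine (Finset.sum_le_sum this).trans (le_of_eq ?_)
        rw [Finset.sum_const, nsmul_eq_mul]
      have h2 : ∑ j ∈ s \ T, ∑ x, H x * g j x ≤ A * ∑ x, H x := by
        have h3 : ∀ j ∈ s \ T, ∑ x, H x * g j x = ∑ x, H x * Av (d j) (n j) (g j) x := by
          intro j hj
          rw [mem_sdiff] at hj
          exact MZ_av (hn j hj.1) (hHi j hj.1 hj.2) _
        rw [Finset.sum_congr rfl h3, Finset.sum_comm, Finset.mul_sum]
        refine Finset.sum_le_sum fun x _ => ?_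
        rw [← Finset.mul_sum, mul_comm A]
        refine mul_le_mul_of_nonneg_left ?_ (hH x)
        refine le_trans ?_ (hav x)
        exact Finset.sum_le_sum_of_subset_of_nonneg sdiff_subset
          fun j hj _ => Z1_Av_nonneg (hg j hj) x
      nlinarith
    have hexp : ∑ x, H x * (∑ j ∈ s, g j x) ^ (r + 1) =
        ∑ j ∈ s, ∑ x, (H x * g j x) * (∑ j ∈ s, g j x) ^ r := by
      rw [Finset.sum_comm]
      refine Finset.sum_congr rfl fun x _ => ?_
      rw [← Finset.sum_mul, ← Finset.mul_sum]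
      ring
    rw [hexp]
    have hc0 : (0 : ℝ) ≤ ((T.card : ℝ) + ((r + 1 : ℕ) : ℝ)) * A := by positivity
    have hstep : ∀ j ∈ s, ∑ x, (H x * g j x) * (∑ j ∈ s, g j x) ^ r ≤
        (((T.card : ℝ) + ((r + 1 : ℕ) : ℝ)) * A) ^ r * ∑ x, H x * g j x := by
      intro j hj
      have h1 := ih (insert j T) (fun x => H x * g j x) (insert_subset hj hT)
        (fun x => mul_nonneg (hH x) (hg j hj x)) ?_
      · refine h1.trans ?_
        refine mul_le_mul_of_nonneg_right ?_
          (Finset.sum_nonneg fun x _ => mul_nonneg (hH x) (hg j hj x))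
        refine pow_le_pow_left₀ (by positivity) ?_ r
        refine mul_le_mul_of_nonneg_right ?_ hA
        have : ((insert j T).card : ℝ) ≤ (T.card : ℝ) + 1 := by
          exact_mod_cast card_insert_le j T
        push_cast
        linarith
      · intro i hi hiT
        rw [mem_insert, not_or] at hiT
        exact MZ_inv_mul (hHi i hi hiT.2) (hinv i hi j hj hiT.1)
    refine (Finset.sum_le_sum hstep).trans ?_
    rw [← Finset.mul_sum, pow_succ, mul_assoc]
    refine mul_le_mul_of_nonneg_left ?_ (pow_nonneg hc0 r)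
    refine hone.trans ?_
    refine mul_le_mul_of_nonneg_right ?_ (Finset.sum_nonneg fun x _ => hH x)
    refine mul_le_mul_of_nonneg_right ?_ hA
    push_cast
    have : (0 : ℝ) ≤ r := Nat.cast_nonneg r
    linarith

theorem tZ1 : StmtZ1 := by
  intro G ι _ _ _ s d n g A r hA hn hg hinv hgA hav
  have h := Z1_claim s d n g A hA hn hg hinv hgA hav r ∅ (fun _ => 1) (empty_subset _)
    (fun _ => zero_le_one) (fun _ _ _ _ => rfl)
  simp only [one_mul, card_empty, Nat.cast_zero, zero_add, Finset.sum_const, card_univ,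
    nsmul_eq_mul, mul_one] at h
  unfold Ex
  have hG : (0 : ℝ) < (Fintype.card G : ℝ) := by
    exact_mod_cast Fintype.card_pos_iff.mpr ⟨0⟩
  rw [div_le_iff₀ hG]
  exact h

end Pool.Agent.Lib.MP_9f2731_nt.H
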