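import Pool.Agent.Lib.MP_9f2731_nt.H.Cmb
import Pool.Agent.Lib.MP_9f2731_nt.H.Dec
import Pool.Agent.Lib.MP_9f2731_nt.H.Exc
import Pool.Agent.Lib.MP_9f2731_nt.H.Exc1
import Pool.Agent.Lib.MP_9f2731_nt.H.Exc2
import Pool.Agent.Lib.MP_9f2731_nt.H.Gcd
import Pool.Agent.Lib.MP_9f2731_nt.H.HA2
import Pool.Agent.Lib.MP_9f2731_nt.H.LS
import Pool.Agent.Lib.MP_9f2731_nt.H.LSP
import Pool.Agent.Lib.MP_9f2731_nt.H.MZ
import Pool.Agent.Lib.MP_9f2731_nt.H.Main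
import Pool.Agent.Lib.MP_9f2731_nt.H.Mom1
import Pool.Agent.Lib.MP_9f2731_nt.H.Mom2
import Pool.Agent.Lib.MP_9f2731_nt.H.OrdA
import Pool.Agent.Lib.MP_9f2731_nt.H.OrdB
import Pool.Agent.Lib.MP_9f2731_nt.H.Prm
import Pool.Agent.Lib.MP_9f2731_nt.H.Scal
import Pool.Agent.Lib.MP_9f2731_nt.H.Tau
import Pool.Agent.Lib.MP_9f2731_nt.H.Win
import Pool.Agent.Lib.MP_9f2731_nt.H.WinA
import Pool.Agent.Lib.MP_9f2731_nt.H.Z1
import Pool.Agent.Lib.MP_9f2731_nt.H.Z2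

/-!
# Theorem H from the two block moments
-/

set_option autoImplicit false

namespace Pool.Agent.Lib.MP_9f2731_nt.H

theorem ordB : StmtOrdB := tOrdB tOrdA

theorem mz : StmtMZ := tMZ tScal

theorem main_of (hB1 : StmtBlk1) (hB2 : StmtBlk2) : StmtMain :=
  tMain (tExc (tExc1 (tLSP tLS) hB1 ordB) (tExc2 (tLSP tLS) hB2 tDec ordB) ordB) tPrm
    (tCmb (tWin (tWinA tOrdA)))

end Pool.Agent.Lib.MP_9f2731_nt.H
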