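import Pool.Agent.Lib.MP_9f2731_nt.H.Spec
import Pool.Agent.Lib.MP_9f2731_nt.Orders
import Pool.Agent.Lib.MP_9f2731_nt.BT.Mert

/-! # The sum of the reciprocals of the primes in the blocks, with Mertens' theorem -/

set_option autoImplicit false

open Finset

namespace Pool.Agent.Lib.MP_9f2731_nt.H

/-- the primes with small order are negligible -/
theorem PrmE_small (j : ℕ) (hj1 : 1 ≤ j) :
    ∑ q ∈ (Ioc (4 ^ j) (4 * 4 ^ j)).filter Nat.Prime, 1 / (q : ℝ) ≤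
      ∑ q ∈ PQ (4 ^ j), 1 / (q : ℝ) + 1 / ((j : ℝ) + 1) ^ 2 := by
  classical
  obtain ⟨Q, hQ⟩ : ∃ Q : ℕ, Q = 4 ^ j := ⟨_, rfl⟩
  rw [← hQ]
  have hQ4 : 4 ≤ Q := by
    rw [hQ]
    calc 4 = 4 ^ 1 := by norm_num
      _ ≤ 4 ^ j := Nat.pow_le_pow_right (by norm_num) hj1
  have hQ4' : (4 : ℝ) ≤ Q := by exact_mod_cast hQ4
  have hQpos : (0 : ℝ) < Q := by linarith
  set L := Real.log (4 * (Q : ℝ)) with hL
  have hLj : (j : ℝ) + 1 ≤ L := by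
    have e1 : 4 * (Q : ℝ) = 4 ^ (j + 1) := by
      rw [hQ]; push_cast; ring
    rw [hL, e1, Real.log_pow]
    have hl4 : (1 : ℝ) ≤ Real.log 4 := by
      rw [Real.le_log_iff_exp_le (by norm_num)]
      have := Real.exp_one_lt_d9
      linarith
    push_cast
    have : ((j : ℝ) + 1) * 1 ≤ ((j : ℝ) + 1) * Real.log 4 :=
      mul_le_mul_of_nonneg_left hl4 (by positivity)
    linarith
  have hLpos : 0 < L := by
    have : (0 : ℝ) ≤ j := by positivity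
    linarith
  set w := ⌊√(Q : ℝ) / L⌋₊ with hw
  set A := (Ioc Q (4 * Q)).filter Nat.Prime with hA
  have hsub : A \ PQ Q ⊆ smallOrd (4 * Q) w := by
    intro q hq
    rw [mem_sdiff, hA, mem_filter] at hq
    obtain ⟨⟨hq1, hq2⟩, hq3⟩ := hq
    rw [mem_Ioc] at hq1
    have hne : q ≠ 2 := by omega
    unfold smallOrd
    rw [mem_filter, mem_Icc]
    refine ⟨⟨hq2.one_le, hq1.2⟩, hq2, hne, ?_⟩
    have h : ¬ √(Q : ℝ) ≤ (od q : ℝ) * Real.log (4 * (Q : ℝ)) := by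
      intro h
      apply hq3
      unfold PQ
      rw [mem_filter, mem_Ioc]
      exact ⟨hq1, hq2, hne, h⟩
    push Not at h
    rw [hw]
    apply Nat.le_floor
    rw [le_div_iff₀ hLpos]
    exact h.le
  have hcard : ((A \ PQ Q).card : ℝ) ≤ Q / L ^ 2 := by
    have e1 := (card_le_card hsub).trans (card_smallOrd (4 * Q) w)
    have e3 : ((A \ PQ Q).card : ℝ) ≤ (w : ℝ) ^ 2 := by
      have : (A \ PQ Q).card ≤ w ^ 2 := by omega
      exact_mod_cast this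
    have e4 : (w : ℝ) ≤ √(Q : ℝ) / L := Nat.floor_le (by positivity)
    calc ((A \ PQ Q).card : ℝ) ≤ (w : ℝ) ^ 2 := e3
      _ ≤ (√(Q : ℝ) / L) ^ 2 := pow_le_pow_left₀ (Nat.cast_nonneg w) e4 2
      _ = Q / L ^ 2 := by rw [div_pow, Real.sq_sqrt hQpos.le]
  have hsm : ∑ q ∈ A \ PQ Q, 1 / (q : ℝ) ≤ 1 / ((j : ℝ) + 1) ^ 2 := by
    calc ∑ q ∈ A \ PQ Q, 1 / (q : ℝ) ≤ ∑ q ∈ A \ PQ Q, 1 / (Q : ℝ) := by
          apply sum_le_sum
          intro q hq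
          rw [mem_sdiff, hA, mem_filter, mem_Ioc] at hq
          apply one_div_le_one_div_of_le hQpos
          exact_mod_cast hq.1.1.1.le
      _ = ((A \ PQ Q).card : ℝ) * (1 / (Q : ℝ)) := by rw [sum_const, nsmul_eq_mul]
      _ ≤ Q / L ^ 2 * (1 / (Q : ℝ)) := mul_le_mul_of_nonneg_right hcard (by positivity)
      _ = 1 / L ^ 2 := by field_simp
      _ ≤ 1 / ((j : ℝ) + 1) ^ 2 := by
          apply one_div_le_one_div_of_le (by positivity)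
          exact pow_le_pow_left₀ (by positivity) hLj 2
  have hA2 : A ⊆ PQ Q ∪ (A \ PQ Q) := by
    intro q hq
    by_cases h : q ∈ PQ Q
    · exact mem_union_left _ h
    · exact mem_union_right _ (mem_sdiff.2 ⟨hq, h⟩)
  calc ∑ q ∈ A, 1 / (q : ℝ) ≤ ∑ q ∈ PQ Q ∪ (A \ PQ Q), 1 / (q : ℝ) :=
        sum_le_sum_of_subset_of_nonneg hA2 fun _ _ _ => by positivity
    _ = ∑ q ∈ PQ Q, 1 / (q : ℝ) + ∑ q ∈ A \ PQ Q, 1 / (q : ℝ) :=
        sum_union disjoint_sdiff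
    _ ≤ _ := by linarith

theorem PrmE_tele (a b : ℕ) (ha : 1 ≤ a) (hab : a ≤ b) :
    ∑ j ∈ Ico a b, 1 / ((j : ℝ) + 1) ^ 2 ≤ 1 / (a : ℝ) - 1 / (b : ℝ) := by
  induction b, hab using Nat.le_induction with
  | base => simp
  | succ b hab ih =>
    rw [sum_Ico_succ_top hab]
    have hb0 : (0 : ℝ) < b := by
      have : 0 < b := by omega
      exact_mod_cast this
    have h : 1 / ((b : ℝ) + 1) ^ 2 ≤ 1 / (b : ℝ) - 1 / ((b + 1 : ℕ) : ℝ) := by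
      push_cast
      rw [div_sub_div _ _ (by positivity) (by positivity), div_le_div_iff₀ (by positivity)
        (by positivity)]
      ring_nf
      nlinarith
    linarith

theorem PrmE_blocks (f : ℕ → ℝ) (a b : ℕ) (hab : a ≤ b) :
    ∑ j ∈ Ico a b, ∑ q ∈ (Ioc (4 ^ j) (4 * 4 ^ j)).filter Nat.Prime, f q =
      ∑ q ∈ (Ioc (4 ^ a) (4 ^ b)).filter Nat.Prime, f q := by
  induction b, hab using Nat.le_induction with
  | base => simp
  | succ b hab ih =>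
    rw [sum_Ico_succ_top hab, ih]
    have h1 : 4 ^ (b + 1) = 4 * 4 ^ b := by ring
    have h2 : 4 ^ a ≤ 4 ^ b := Nat.pow_le_pow_right (by norm_num) hab
    rw [h1, ← Ioc_union_Ioc_eq_Ioc h2 (show 4 ^ b ≤ 4 * 4 ^ b by omega), filter_union, sum_union]
    apply disjoint_filter_filter
    rw [disjoint_left]
    intro q hq hq'
    rw [mem_Ioc] at hq hq'
    omega

theorem PrmE_scales (ε : ℝ) (hε : 0 < ε) : ∃ j0 : ℕ, 1 ≤ j0 ∧ ∀ j1 : ℕ, j0 ≤ j1 → ∀ n : ℕ,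
    n * (Real.log 2 - ε) ≤ ∑ q ∈ (Ioc (4 ^ j1) (4 ^ (j1 * 2 ^ n))).filter Nat.Prime, 1 / (q : ℝ) := by
  obtain ⟨z0, hz0, hM⟩ := BT.tMert ε hε
  obtain ⟨k, hk⟩ := exists_nat_ge z0
  refine ⟨k + 1, by omega, fun j1 hj1 n => ?_⟩
  have hz : z0 ≤ (4 : ℝ) ^ j1 := by
    have h1 : k < 4 ^ k := Nat.lt_pow_self (by norm_num)
    have h2 : 4 ^ k ≤ 4 ^ j1 := Nat.pow_le_pow_right (by norm_num) (by omega)
    have h3 : (k : ℝ) ≤ (4 : ℝ) ^ j1 := by exact_mod_cast h1.le.trans h2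
    linarith
  induction n with
  | zero => simp
  | succ n ih =>
    have h4 : j1 ≤ j1 * 2 ^ n := Nat.le_mul_of_pos_right _ (by positivity)
    have h1 := (hM ((4 : ℝ) ^ (j1 * 2 ^ n)) (hz.trans (pow_le_pow_right₀ (by norm_num) h4))).1
    have h2 : ⌊(4 : ℝ) ^ (j1 * 2 ^ n)⌋₊ = 4 ^ (j1 * 2 ^ n) := by
      have : (4 : ℝ) ^ (j1 * 2 ^ n) = ((4 ^ (j1 * 2 ^ n) : ℕ) : ℝ) := by push_cast; rfl
      rw [this, Nat.floor_natCast]
    have h3 : ⌊((4 : ℝ) ^ (j1 * 2 ^ n)) ^ 2⌋₊ = 4 ^ (j1 * 2 ^ (n + 1)) := by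
      have : ((4 : ℝ) ^ (j1 * 2 ^ n)) ^ 2 = ((4 ^ (j1 * 2 ^ (n + 1)) : ℕ) : ℝ) := by
        push_cast
        rw [← pow_mul]
        congr 1
        ring
      rw [this, Nat.floor_natCast]
    rw [h2, h3] at h1
    have h5 : 4 ^ j1 ≤ 4 ^ (j1 * 2 ^ n) := Nat.pow_le_pow_right (by norm_num) h4
    have h6 : 4 ^ (j1 * 2 ^ n) ≤ 4 ^ (j1 * 2 ^ (n + 1)) := by
      apply Nat.pow_le_pow_right (by norm_num)
      exact Nat.mul_le_mul_left _ (Nat.pow_le_pow_right (by norm_num) (by omega))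
    rw [← Ioc_union_Ioc_eq_Ioc h5 h6, filter_union, sum_union]
    · push_cast
      linarith
    · apply disjoint_filter_filter
      rw [disjoint_left]
      intro q hq hq'
      rw [mem_Ioc] at hq hq'
      omega

theorem tPrmE (ε : ℝ) (hε : 0 < ε) (hε1 : ε ≤ 1) : ∃ j0 : ℕ, 1 ≤ j0 ∧ ∀ j1 j2 : ℕ, j0 ≤ j1 →
    j1 ≤ j2 → (1 - ε) * Real.log ((j2 : ℝ) / j1) - 2 ≤
      ∑ j ∈ Ico j1 j2, ∑ q ∈ PQ (4 ^ j), 1 / (q : ℝ) := by
  have hl2 := Real.log_two_gt_d9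
  have hl2' := Real.log_two_lt_d9
  obtain ⟨j0, hj0, h⟩ := PrmE_scales (ε * Real.log 2) (by positivity)
  refine ⟨j0, hj0, fun j1 j2 hj1 hj12 => ?_⟩
  have hj1pos : 0 < j1 := by omega
  have hj1pos' : (0 : ℝ) < j1 := by exact_mod_cast hj1pos
  set n := Nat.log 2 (j2 / j1) with hn
  have hdiv : 1 ≤ j2 / j1 := (Nat.one_le_div_iff hj1pos).2 hj12
  have h1 : 2 ^ n ≤ j2 / j1 := Nat.pow_log_le_self 2 (by omega)
  have h2 : j2 / j1 < 2 ^ (n + 1) := Nat.lt_pow_succ_log_self (by norm_num) _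
  have h3 : j1 * 2 ^ n ≤ j2 := by
    calc j1 * 2 ^ n ≤ j1 * (j2 / j1) := Nat.mul_le_mul_left _ h1
      _ ≤ j2 := Nat.mul_div_le _ _
  have h4 : (j2 : ℝ) / j1 ≤ 2 ^ (n + 1) := by
    rw [div_le_iff₀ hj1pos']
    have : j2 < 2 ^ (n + 1) * j1 := (Nat.div_lt_iff_lt_mul hj1pos).1 h2
    exact_mod_cast this.le
  have hj2pos : (0 : ℝ) < j2 := by
    have : 0 < j2 := by omega
    exact_mod_cast this
  have h5 : Real.log ((j2 : ℝ) / j1) ≤ (n + 1) * Real.log 2 := by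
    have := Real.log_le_log (by positivity) h4
    rw [Real.log_pow] at this
    push_cast at this
    exact this
  have h6 := h j1 hj1 n
  have h7 : ∑ q ∈ (Ioc (4 ^ j1) (4 ^ (j1 * 2 ^ n))).filter Nat.Prime, 1 / (q : ℝ) ≤
      ∑ q ∈ (Ioc (4 ^ j1) (4 ^ j2)).filter Nat.Prime, 1 / (q : ℝ) := by
    apply sum_le_sum_of_subset_of_nonneg
    · apply filter_subset_filter
      apply Ioc_subset_Ioc_right
      exact Nat.pow_le_pow_right (by norm_num) h3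
    · intro _ _ _
      positivity
  rw [← PrmE_blocks (fun q => 1 / (q : ℝ)) j1 j2 hj12] at h7
  have h8 : ∑ j ∈ Ico j1 j2, ∑ q ∈ (Ioc (4 ^ j) (4 * 4 ^ j)).filter Nat.Prime, 1 / (q : ℝ) ≤
      ∑ j ∈ Ico j1 j2, ∑ q ∈ PQ (4 ^ j), 1 / (q : ℝ) + ∑ j ∈ Ico j1 j2, 1 / ((j : ℝ) + 1) ^ 2 := by
    rw [← sum_add_distrib]
    apply sum_le_sum
    intro j hj
    exact PrmE_small j (by have := (mem_Ico.1 hj).1; omega)
  have h9 := PrmE_tele j1 j2 hj1pos hj12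
  have h10 : 1 / (j1 : ℝ) ≤ 1 := by
    rw [div_le_one hj1pos']
    exact_mod_cast hj1pos
  have h11 : 0 ≤ 1 / (j2 : ℝ) := by positivity
  have h12 : (1 - ε) * Real.log ((j2 : ℝ) / j1) ≤ (1 - ε) * ((n + 1) * Real.log 2) :=
    mul_le_mul_of_nonneg_left h5 (by linarith)
  have h13 : (1 - ε) * ((n + 1) * Real.log 2) =
      n * (Real.log 2 - ε * Real.log 2) + (1 - ε) * Real.log 2 := by ring
  have h14 : (1 - ε) * Real.log 2 ≤ 1 := by nlinarith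
  linarith

end Pool.Agent.Lib.MP_9f2731_nt.H
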