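import Pool.Agent.Lib.MP_9f2731_nt.H.Cmb

/-!
# Second moment over a window, Chebyshev, with the constant `1 - ε`; the blocks together
-/

set_option autoImplicit false

open Finset

namespace Pool.Agent.Lib.MP_9f2731_nt.H

theorem WinE_xi_sq (q m i : ℕ) : xi q m i * xi q m i = xi q m i := by
  unfold xi
  split_ifs <;> norm_num

theorem WinE_xi_nonneg (q m i : ℕ) : 0 ≤ xi q m i := by
  unfold xi
  split_ifs <;> norm_num

theorem WinE_one (h : StmtWinA) (q a W m : ℕ) (hq : q.Prime) (hq2 : q ≠ 2) :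
    |∑ i ∈ range W, xi q m (a + i) - W * d1 q m| ≤ 1 := by
  by_cases h3 : q = 3
  · exact (h q 5 a W m hq hq2 (by norm_num) (by norm_num) (by omega)).1
  · exact (h q 3 a W m hq hq2 (by norm_num) (by norm_num) h3).1

theorem WinE_diag (h : StmtWinA) (q a W m : ℕ) (hq : q.Prime) (hq2 : q ≠ 2) :
    ∑ i ∈ range W, (xi q m (a + i) - 1 / (q : ℝ)) * (xi q m (a + i) - 1 / (q : ℝ)) ≤
      W * (Fq q m + 2 * (1 / (q : ℝ))) + 1 := by
  have h1 := (abs_le.1 (WinE_one h q a W m hq hq2)).2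
  have hq1 : (1 : ℝ) ≤ q := by exact_mod_cast hq.one_lt.le
  have hq0 : (0 : ℝ) < q := by linarith
  have hi : 0 ≤ 1 / (q : ℝ) := by positivity
  have hi1 : 1 / (q : ℝ) ≤ 1 := by
    rw [div_le_one hq0]
    exact hq1
  have h2 : ∀ i ∈ range W, (xi q m (a + i) - 1 / (q : ℝ)) * (xi q m (a + i) - 1 / (q : ℝ)) ≤
      xi q m (a + i) + 1 / (q : ℝ) := by
    intro i _
    have h3 := WinE_xi_sq q m (a + i)
    have h4 := WinE_xi_nonneg q m (a + i)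
    have h5 : 0 ≤ xi q m (a + i) * (1 / (q : ℝ)) := mul_nonneg h4 hi
    have h6 : 1 / (q : ℝ) * (1 / (q : ℝ)) ≤ 1 / (q : ℝ) * 1 := mul_le_mul_of_nonneg_left hi1 hi
    have h7 : (xi q m (a + i) - 1 / (q : ℝ)) * (xi q m (a + i) - 1 / (q : ℝ)) =
        xi q m (a + i) * xi q m (a + i) - 2 * (xi q m (a + i) * (1 / (q : ℝ))) +
          1 / (q : ℝ) * (1 / (q : ℝ)) := by ring
    rw [h7, h3]
    linarith
  refine (sum_le_sum h2).trans ?_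
  rw [sum_add_distrib, sum_const, card_range, nsmul_eq_mul]
  unfold Fq
  have h8 : (W : ℝ) * (d1 q m - 1 / (q : ℝ) + 2 * (1 / (q : ℝ))) =
      W * d1 q m + W * (1 / (q : ℝ)) := by ring
  rw [h8]
  linarith

theorem WinE_off (h : StmtWinA) (q q' a W m : ℕ) (hq : q.Prime) (hq2 : q ≠ 2) (hq' : q'.Prime)
    (hq2' : q' ≠ 2) (hne : q ≠ q') :
    ∑ i ∈ range W, (xi q m (a + i) - 1 / (q : ℝ)) * (xi q' m (a + i) - 1 / (q' : ℝ)) ≤
      W * Gq q q' m + 3 := by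
  have h1 := (abs_le.1 (WinE_one h q a W m hq hq2)).1
  have h1' := (abs_le.1 (WinE_one h q' a W m hq' hq2')).1
  have h2 := (abs_le.1 (h q q' a W m hq hq2 hq' hq2' hne).2).2
  have hq1 : (1 : ℝ) ≤ q := by exact_mod_cast hq.one_lt.le
  have hq0 : (0 : ℝ) < q := by linarith
  have hq1' : (1 : ℝ) ≤ q' := by exact_mod_cast hq'.one_lt.le
  have hq0' : (0 : ℝ) < q' := by linarith
  have hi : 0 ≤ 1 / (q : ℝ) := by positivity
  have hi1 : 1 / (q : ℝ) ≤ 1 := by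
    rw [div_le_one hq0]
    exact hq1
  have hi' : 0 ≤ 1 / (q' : ℝ) := by positivity
  have hi1' : 1 / (q' : ℝ) ≤ 1 := by
    rw [div_le_one hq0']
    exact hq1'
  have h3 : ∑ i ∈ range W, (xi q m (a + i) - 1 / (q : ℝ)) * (xi q' m (a + i) - 1 / (q' : ℝ)) =
      ∑ i ∈ range W, xi q m (a + i) * xi q' m (a + i) -
        1 / (q' : ℝ) * ∑ i ∈ range W, xi q m (a + i) -
        1 / (q : ℝ) * ∑ i ∈ range W, xi q' m (a + i) + W * (1 / (q : ℝ) * (1 / (q' : ℝ))) := by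
    have h4 : ∀ i ∈ range W,
        (xi q m (a + i) - 1 / (q : ℝ)) * (xi q' m (a + i) - 1 / (q' : ℝ)) =
        xi q m (a + i) * xi q' m (a + i) - 1 / (q' : ℝ) * xi q m (a + i) -
        1 / (q : ℝ) * xi q' m (a + i) + 1 / (q : ℝ) * (1 / (q' : ℝ)) := by
      intro i _
      ring
    rw [sum_congr rfl h4, sum_add_distrib, sum_sub_distrib, sum_sub_distrib, ← mul_sum, ← mul_sum,
      sum_const, card_range, nsmul_eq_mul]
  rw [h3]
  have h5 : 1 / (q' : ℝ) * (W * d1 q m - 1) ≤ 1 / (q' : ℝ) * ∑ i ∈ range W, xi q m (a + i) :=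
    mul_le_mul_of_nonneg_left (by linarith) hi'
  have h6 : 1 / (q : ℝ) * (W * d1 q' m - 1) ≤ 1 / (q : ℝ) * ∑ i ∈ range W, xi q' m (a + i) :=
    mul_le_mul_of_nonneg_left (by linarith) hi
  have h7 : (W : ℝ) * Gq q q' m = W * d2 q q' m - 1 / (q' : ℝ) * (W * d1 q m) -
      1 / (q : ℝ) * (W * d1 q' m) + W * (1 / (q : ℝ) * (1 / (q' : ℝ))) := by
    unfold Gq
    field_simp
  rw [h7]
  have h8 : 1 / (q' : ℝ) * (W * d1 q m - 1) = 1 / (q' : ℝ) * (W * d1 q m) - 1 / (q' : ℝ) := by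
    ring
  have h9 : 1 / (q : ℝ) * (W * d1 q' m - 1) = 1 / (q : ℝ) * (W * d1 q' m) - 1 / (q : ℝ) := by
    ring
  linarith

theorem WinE_second (h : StmtWinA) (P : Finset ℕ) (a W m : ℕ) (V : ℝ)
    (hP : ∀ q ∈ P, q.Prime ∧ q ≠ 2)
    (hV : ∑ q ∈ P, Fq q m + ∑ q ∈ P, ∑ q' ∈ P.erase q, Gq q q' m ≤ V) :
    ∑ i ∈ range W, (∑ q ∈ P, (xi q m (a + i) - 1 / (q : ℝ))) ^ 2 ≤
      W * (2 * ∑ q ∈ P, 1 / (q : ℝ) + V) + 4 * (P.card : ℝ) ^ 2 := by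
  set f : ℕ → ℕ → ℝ := fun q i => xi q m (a + i) - 1 / (q : ℝ) with hf
  have h1 : ∑ i ∈ range W, (∑ q ∈ P, f q i) ^ 2 =
      ∑ q ∈ P, (∑ i ∈ range W, f q i * f q i) +
        ∑ q ∈ P, ∑ q' ∈ P.erase q, ∑ i ∈ range W, f q i * f q' i := by
    have h2 : ∀ i ∈ range W, (∑ q ∈ P, f q i) ^ 2 = ∑ q ∈ P, ∑ q' ∈ P, f q i * f q' i := by
      intro i _
      rw [pow_two, sum_mul_sum]
    rw [sum_congr rfl h2, sum_comm, ← sum_add_distrib]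
    apply sum_congr rfl
    intro q hq
    rw [sum_comm, ← add_sum_erase _ _ hq]
  have h2 : ∑ q ∈ P, (∑ i ∈ range W, f q i * f q i) ≤
      ∑ q ∈ P, (W * (Fq q m + 2 * (1 / (q : ℝ))) + 1) :=
    sum_le_sum fun q hq => WinE_diag h q a W m (hP q hq).1 (hP q hq).2
  have h3 : ∑ q ∈ P, ∑ q' ∈ P.erase q, ∑ i ∈ range W, f q i * f q' i ≤
      ∑ q ∈ P, ∑ q' ∈ P.erase q, (W * Gq q q' m + 3) :=
    sum_le_sum fun q hq => sum_le_sum fun q' hq' =>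
      WinE_off h q q' a W m (hP q hq).1 (hP q hq).2 (hP q' (mem_of_mem_erase hq')).1
        (hP q' (mem_of_mem_erase hq')).2 (mem_erase.1 hq').1.symm
  have h4 : ∑ q ∈ P, (W * (Fq q m + 2 * (1 / (q : ℝ))) + 1) =
      W * (∑ q ∈ P, Fq q m) + W * (2 * ∑ q ∈ P, 1 / (q : ℝ)) + P.card := by
    rw [sum_add_distrib, ← mul_sum, sum_add_distrib, ← mul_sum, sum_const, nsmul_eq_mul]
    ring
  have h5 : ∑ q ∈ P, ∑ q' ∈ P.erase q, ((W : ℝ) * Gq q q' m + 3) ≤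
      W * (∑ q ∈ P, ∑ q' ∈ P.erase q, Gq q q' m) + 3 * P.card ^ 2 := by
    have h6 : ∀ q ∈ P, ∑ q' ∈ P.erase q, ((W : ℝ) * Gq q q' m + 3) ≤
        W * (∑ q' ∈ P.erase q, Gq q q' m) + 3 * P.card := by
      intro q _
      rw [sum_add_distrib, ← mul_sum, sum_const, nsmul_eq_mul]
      have h7 : ((P.erase q).card : ℝ) ≤ P.card := by
        exact_mod_cast card_le_card (erase_subset _ _)
      linarith
    refine (sum_le_sum h6).trans (le_of_eq ?_)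
    rw [sum_add_distrib, ← mul_sum, sum_const, nsmul_eq_mul]
    ring
  have h8 : (P.card : ℝ) ≤ (P.card : ℝ) ^ 2 := by
    have : P.card ≤ P.card ^ 2 := Nat.le_self_pow (by norm_num) _
    exact_mod_cast this
  have h9 : (W : ℝ) * (∑ q ∈ P, Fq q m + ∑ q ∈ P, ∑ q' ∈ P.erase q, Gq q q' m) ≤ W * V :=
    mul_le_mul_of_nonneg_left hV (by positivity)
  rw [mul_add] at h9
  rw [h1]
  have h10 : (W : ℝ) * (2 * ∑ q ∈ P, 1 / (q : ℝ) + V) =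
      W * (2 * ∑ q ∈ P, 1 / (q : ℝ)) + W * V := by ring
  rw [h10]
  linarith

/-- `Win` with the constant `1 - ε` instead of `1/2`. -/
theorem tWinE (h : StmtWinA) (ε : ℝ) (hε0 : 0 ≤ ε) (P : Finset ℕ) (a W m : ℕ) (V : ℝ)
    (hP : ∀ q ∈ P, q.Prime ∧ q ≠ 2)
    (hV : ∑ q ∈ P, Fq q m + ∑ q ∈ P, ∑ q' ∈ P.erase q, Gq q q' m ≤ V) :
    ((((range W).filter fun i => (((2 ^ (a + i) * m + 1).primeFactors.card : ℕ) : ℝ) ≤
      (1 - ε) * (∑ q ∈ P, 1 / (q : ℝ))).card : ℕ) : ℝ) * (ε * ∑ q ∈ P, 1 / (q : ℝ)) ^ 2 ≤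
    W * (2 * ∑ q ∈ P, 1 / (q : ℝ) + V) + 4 * (P.card : ℝ) ^ 2 := by
  have h1 := WinE_second h P a W m V hP hV
  refine le_trans ?_ h1
  set lam : ℝ := ∑ q ∈ P, 1 / (q : ℝ) with hlam
  have hlam0 : 0 ≤ lam := sum_nonneg fun q _ => by positivity
  set S := (range W).filter fun i =>
    (((2 ^ (a + i) * m + 1).primeFactors.card : ℕ) : ℝ) ≤ (1 - ε) * lam with hS
  calc (S.card : ℝ) * (ε * lam) ^ 2 = ∑ i ∈ S, (ε * lam) ^ 2 := by rw [sum_const, nsmul_eq_mul]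
    _ ≤ ∑ i ∈ S, (∑ q ∈ P, (xi q m (a + i) - 1 / (q : ℝ))) ^ 2 := by
        apply sum_le_sum
        intro i hi
        rw [hS, mem_filter] at hi
        have h2 : ∑ q ∈ P, xi q m (a + i) ≤ (1 - ε) * lam := by
          refine le_trans ?_ hi.2
          have h3 : ∑ q ∈ P, xi q m (a + i) =
              ((P.filter fun q => q ∣ 2 ^ (a + i) * m + 1).card : ℝ) := by
            unfold xi
            rw [card_filter]
            push_cast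
            rfl
          rw [h3]
          norm_cast
          apply card_le_card
          intro q hq
          rw [mem_filter] at hq
          rw [Nat.mem_primeFactors]
          exact ⟨(hP q hq.1).1, hq.2, by omega⟩
        have h3 : ∑ q ∈ P, (xi q m (a + i) - 1 / (q : ℝ)) ≤ -(ε * lam) := by
          rw [sum_sub_distrib, ← hlam]
          linarith
        have h4 : 0 ≤ ε * lam := mul_nonneg hε0 hlam0
        nlinarith
    _ ≤ ∑ i ∈ range W, (∑ q ∈ P, (xi q m (a + i) - 1 / (q : ℝ))) ^ 2 := by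
        apply sum_le_sum_of_subset_of_nonneg (filter_subset _ _)
        intro i _ _
        positivity

/-- `Cmb` with the constant `1 - ε`. -/
theorem tCmbE (h : StmtWinA) (ε : ℝ) (hε0 : 0 ≤ ε) (j1 j2 a W m : ℕ) (ℓ lam : ℝ)
    (hj12 : j1 ≤ j2) (hℓ : 1 ≤ ℓ) (hj2 : (j2 : ℝ) ≤ ℓ)
    (hF : ∀ j ∈ Ico j1 j2, |∑ q ∈ PQ (4 ^ j), Fq q m| ≤ 1 / ℓ ^ 2)
    (hG : ∀ j ∈ Ico j1 j2, ∀ j' ∈ Ico j1 j2,
      |∑ q ∈ PQ (4 ^ j), ∑ q' ∈ (PQ (4 ^ j')).erase q, Gq q q' m| ≤ 1 / ℓ ^ 3)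
    (hlam : lam = ∑ j ∈ Ico j1 j2, ∑ q ∈ PQ (4 ^ j), 1 / (q : ℝ)) :
    ((((range W).filter fun i => (((2 ^ (a + i) * m + 1).primeFactors.card : ℕ) : ℝ) ≤
      (1 - ε) * lam).card : ℕ) : ℝ) * (ε * lam) ^ 2 ≤
      W * (2 * lam + 2) + 4 * (4 : ℝ) ^ (2 * j2) := by
  have hlam' : lam = ∑ q ∈ CmbP j1 j2, 1 / (q : ℝ) := by rw [hlam, CmbP_sum]
  have hcardj : ((Ico j1 j2).card : ℝ) ≤ ℓ := by
    rw [Nat.card_Ico]
    have : ((j2 - j1 : ℕ) : ℝ) ≤ j2 := by exact_mod_cast Nat.sub_le _ _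
    linarith
  have hℓ0 : 0 < ℓ := by linarith
  have hF' : ∑ q ∈ CmbP j1 j2, Fq q m ≤ 1 := by
    rw [CmbP_sum]
    calc ∑ j ∈ Ico j1 j2, ∑ q ∈ PQ (4 ^ j), Fq q m ≤ ∑ j ∈ Ico j1 j2, 1 / ℓ ^ 2 :=
          sum_le_sum fun j hj => (le_abs_self _).trans (hF j hj)
      _ = (Ico j1 j2).card * (1 / ℓ ^ 2) := by rw [sum_const, nsmul_eq_mul]
      _ ≤ ℓ * (1 / ℓ ^ 2) := mul_le_mul_of_nonneg_right hcardj (by positivity)
      _ = 1 / ℓ := by field_simp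
      _ ≤ 1 := by rw [div_le_one hℓ0]; exact hℓ
  have hG' : ∑ q ∈ CmbP j1 j2, ∑ q' ∈ (CmbP j1 j2).erase q, Gq q q' m ≤ 1 := by
    rw [CmbP_sum]
    have h3 : ∑ j ∈ Ico j1 j2, ∑ q ∈ PQ (4 ^ j), ∑ q' ∈ (CmbP j1 j2).erase q, Gq q q' m =
        ∑ j ∈ Ico j1 j2, ∑ j' ∈ Ico j1 j2, ∑ q ∈ PQ (4 ^ j), ∑ q' ∈ (PQ (4 ^ j')).erase q,
          Gq q q' m := by
      apply sum_congr rfl
      intro j _
      rw [sum_comm]
      apply sum_congr rfl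
      intro q _
      exact CmbP_erase j1 j2 q _
    rw [h3]
    calc ∑ j ∈ Ico j1 j2, ∑ j' ∈ Ico j1 j2, ∑ q ∈ PQ (4 ^ j), ∑ q' ∈ (PQ (4 ^ j')).erase q,
          Gq q q' m ≤ ∑ j ∈ Ico j1 j2, ∑ j' ∈ Ico j1 j2, 1 / ℓ ^ 3 :=
          sum_le_sum fun j hj => sum_le_sum fun j' hj' => (le_abs_self _).trans (hG j hj j' hj')
      _ = (Ico j1 j2).card * ((Ico j1 j2).card * (1 / ℓ ^ 3)) := by
          rw [sum_const, sum_const, nsmul_eq_mul, nsmul_eq_mul]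
      _ ≤ ℓ * (ℓ * (1 / ℓ ^ 3)) := by
          apply mul_le_mul hcardj _ (by positivity) hℓ0.le
          exact mul_le_mul_of_nonneg_right hcardj (by positivity)
      _ = 1 / ℓ := by field_simp
      _ ≤ 1 := by rw [div_le_one hℓ0]; exact hℓ
  have hP : ∀ q ∈ CmbP j1 j2, q.Prime ∧ q ≠ 2 := by
    intro q hq
    unfold CmbP at hq
    rw [mem_biUnion] at hq
    obtain ⟨j, -, hqj⟩ := hq
    exact (Cmb_mem hqj).2.2
  have h4 := tWinE h ε hε0 (CmbP j1 j2) a W m 2 hP (by linarith)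
  rw [← hlam'] at h4
  refine h4.trans ?_
  have h5 : ((CmbP j1 j2).card : ℝ) ≤ (4 : ℝ) ^ j2 := by exact_mod_cast CmbP_card j1 j2
  have h6 : ((CmbP j1 j2).card : ℝ) ^ 2 ≤ (4 : ℝ) ^ (2 * j2) := by
    calc ((CmbP j1 j2).card : ℝ) ^ 2 ≤ ((4 : ℝ) ^ j2) ^ 2 :=
          pow_le_pow_left₀ (by positivity) h5 2
      _ = (4 : ℝ) ^ (2 * j2) := by rw [← pow_mul]; congr 1; ring
  linarith

end Pool.Agent.Lib.MP_9f2731_nt.H
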