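import Pool.Agent.Lib.MP_9f2731_nt.H.Main
import Pool.Agent.Lib.MP_9f2731_nt.H.WinE
import Pool.Agent.Lib.MP_9f2731_nt.H.PrmE

/-!
# Theorem H with the constant `1 - ε`
-/

set_option autoImplicit false

open Finset

namespace Pool.Agent.Lib.MP_9f2731_nt.H

theorem MainE_end (N lam Λ W C ε : ℝ) (hN0 : 0 ≤ N) (hW0 : 0 ≤ W) (hε : 0 < ε)
    (hcmb : N * (ε / 2 * lam) ^ 2 ≤ W * (2 * lam + 2) + W) (hlam1 : 1 ≤ lam)
    (hlamΛ : Λ / 2 ≤ lam) (hC40 : 40 / ε ^ 2 ≤ C) : N * Λ ≤ C * W := by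
  have hNlam : N * lam * (ε ^ 2 / 4) ≤ 5 * W := by
    have h6 : W * 1 ≤ W * lam := mul_le_mul_of_nonneg_left hlam1 hW0
    have h7 : N * (ε / 2 * lam) ^ 2 = N * lam * (ε ^ 2 / 4) * lam := by ring
    have h8 : W * (2 * lam + 2) + W = 2 * (W * lam) + 3 * (W * 1) := by ring
    rw [h7, h8] at hcmb
    have h9 : N * lam * (ε ^ 2 / 4) * lam ≤ 5 * W * lam := by
      have : 5 * W * lam = 5 * (W * lam) := by ring
      rw [this]
      linarith
    exact le_of_mul_le_mul_right h9 (by linarith)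
  have h4 : N * (Λ / 2) ≤ N * lam := mul_le_mul_of_nonneg_left hlamΛ hN0
  have h5 : N * (Λ / 2) * (ε ^ 2 / 4) ≤ 5 * W :=
    (mul_le_mul_of_nonneg_right h4 (by positivity)).trans hNlam
  have h6 : N * Λ * (ε ^ 2 / 8) ≤ 40 / ε ^ 2 * W * (ε ^ 2 / 8) := by
    have e1 : N * Λ * (ε ^ 2 / 8) = N * (Λ / 2) * (ε ^ 2 / 4) := by ring
    have e2 : 40 / ε ^ 2 * W * (ε ^ 2 / 8) = 5 * W := by
      field_simp
      ring
    rw [e1, e2]
    exact h5
  have h7 : N * Λ ≤ 40 / ε ^ 2 * W := le_of_mul_le_mul_right h6 (by positivity)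
  exact h7.trans (mul_le_mul_of_nonneg_right hC40 hW0)

theorem MainE_filter (N : ℕ) (f : ℕ → ℕ) (Λ ε lam : ℝ) (h : (1 - ε) * Λ ≤ (1 - ε / 2) * lam) :
    ((range N).filter fun i => (f i : ℝ) ≤ (1 - ε) * Λ).card ≤
      ((range N).filter fun i => (f i : ℝ) ≤ (1 - ε / 2) * lam).card := by
  apply card_le_card
  intro i hi
  rw [mem_filter] at hi ⊢
  exact ⟨hi.1, hi.2.trans h⟩

theorem tMainE (h1 : StmtExc) (hWA : StmtWinA) (η ε : ℝ) (hη : 0 < η) (hε : 0 < ε)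
    (hε1 : ε < 1) : ∃ C : ℝ, 1 ≤ C ∧ ∀ X : ℕ, C ≤ X → ∀ M : ℕ,
    ∃ E ⊆ Ioc M (M + X), ((E.card : ℕ) : ℝ) ≤ (X : ℝ) ^ (3 / 4 + η) ∧
    ∀ m ∈ Ioc M (M + X), m ∉ E → ∀ a W : ℕ, Real.log X ^ C ≤ W →
      0 < Lam X W ∧
      ((((range W).filter fun i =>
        (((2 ^ (a + i) * m + 1).primeFactors.card : ℕ) : ℝ) ≤ (1 - ε) * Lam X W).card : ℕ) : ℝ) ≤
        C * W / Lam X W := by
  obtain ⟨B, hB, κ, hκ, hκ20, X0, hE⟩ := h1 η hη
  obtain ⟨j0, hj0, hP⟩ := tPrmE (ε / 4) (by positivity) (by linarith)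
  obtain ⟨hl4, hl4'⟩ := Main_log4
  set C' : ℝ := Real.log (8 * B / κ) with hC'
  have hC'0 : 0 ≤ C' := by
    apply Real.log_nonneg
    rw [le_div_iff₀ hκ]
    linarith
  have hεC : C' + 2 ≤ 4 / ε * (C' + 2) := by
    have : (1 : ℝ) ≤ 4 / ε := by
      rw [le_div_iff₀ hε]
      linarith
    have h := mul_le_mul_of_nonneg_right this (show 0 ≤ C' + 2 by linarith)
    linarith
  set C0 : ℝ := Real.exp (4 / ε * (C' + 2) + 2) + 4 / κ with hC0
  have hC0pos : 0 < C0 := by positivity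
  have hC0log : 4 / ε * (C' + 2) + 2 ≤ Real.log C0 := by
    rw [Real.le_log_iff_exp_le hC0pos, hC0]
    have : 0 < 4 / κ := by positivity
    linarith
  have hC0κ : 4 / κ ≤ C0 := by
    rw [hC0]
    have := Real.exp_pos (4 / ε * (C' + 2) + 2)
    linarith
  have hC01 : 1 ≤ C0 := by
    have h : (1 : ℝ) ≤ 4 / κ := by
      rw [le_div_iff₀ hκ]
      linarith
    linarith
  clear_value C0
  -- large X
  have ht1 : Filter.Tendsto (fun n : ℕ => Real.log (n : ℝ)) Filter.atTop Filter.atTop :=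
    Real.tendsto_log_atTop.comp tendsto_natCast_atTop_atTop
  have ht2 : Filter.Tendsto (fun n : ℕ => Real.log (Real.log (n : ℝ))) Filter.atTop Filter.atTop :=
    Real.tendsto_log_atTop.comp ht1
  have ht3 : ∀ᶠ n : ℕ in Filter.atTop, C0 * Real.log (Real.log (n : ℝ)) ≤ Real.log (n : ℝ) := by
    have h := (Real.isLittleO_log_id_atTop).bound (show (0 : ℝ) < 1 / C0 by positivity)
    have h' := ht1.eventually h
    filter_upwards [h', ht1.eventually_ge_atTop (1 : ℝ)] with n hn hn1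
    rw [Real.norm_eq_abs, Real.norm_eq_abs, id_eq, abs_of_nonneg (Real.log_nonneg hn1),
      abs_of_nonneg (by linarith)] at hn
    rw [div_mul_eq_mul_div, one_mul, le_div_iff₀ hC0pos] at hn
    linarith
  obtain ⟨X1, hX1⟩ := Filter.eventually_atTop.1 ((ht1.eventually_ge_atTop (16 : ℝ)).and
    ((ht2.eventually_ge_atTop (2 * (j0 : ℝ) + 1)).and ht3))
  obtain ⟨C, hCC0, hCX0, hCX1, hC40⟩ : ∃ C : ℝ, C0 ≤ C ∧ (X0 : ℝ) ≤ C ∧ (X1 : ℝ) ≤ C ∧
      40 / ε ^ 2 ≤ C :=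
    ⟨max C0 (max (X0 : ℝ) (max (X1 : ℝ) (40 / ε ^ 2))), le_max_left _ _,
      (le_max_left _ _).trans (le_max_right _ _),
      (le_max_left _ _).trans ((le_max_right _ _).trans (le_max_right _ _)),
      (le_max_right _ _).trans ((le_max_right _ _).trans (le_max_right _ _))⟩
  have hC1 : 1 ≤ C := hC01.trans hCC0
  refine ⟨C, hC1, ?_⟩
  intro X hX M
  have hXX0 : X0 ≤ X := by exact_mod_cast hCX0.trans hX
  have hXX1 : X1 ≤ X := by exact_mod_cast hCX1.trans hX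
  obtain ⟨E, hEs, hEc, hEm⟩ := hE X hXX0 M
  refine ⟨E, hEs, hEc, ?_⟩
  intro m hm hmE a W hW
  obtain ⟨hℓ16, htj, hℓt⟩ := hX1 X hXX1
  clear ht1 ht2 ht3 hX1 hE
  have hlamdef : Lam X W = Real.log (Real.log ((min W X : ℕ) : ℝ) / Real.log (Real.log (X : ℝ))) :=
    rfl
  set ℓ : ℝ := Real.log (X : ℝ) with hℓ
  set t : ℝ := Real.log ℓ with ht
  have hj0' : (1 : ℝ) ≤ j0 := by exact_mod_cast hj0
  have ht1' : 1 ≤ t := by linarith
  have ht0 : 0 < t := by linarith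
  have hℓ0 : 0 < ℓ := by linarith
  have hexpt : Real.exp t = ℓ := Real.exp_log hℓ0
  have hX0' : (0 : ℝ) < X := by
    by_contra h
    have h4 : (X : ℝ) = 0 := le_antisymm (not_lt.1 h) (by positivity)
    have h5 : ℓ = 0 := by rw [hℓ, h4, Real.log_zero]
    linarith
  have hW16 : (16 : ℝ) ≤ W := by
    have h4 : ℓ ≤ ℓ ^ C := by
      calc ℓ = ℓ ^ (1 : ℝ) := (Real.rpow_one _).symm
        _ ≤ ℓ ^ C := Real.rpow_le_rpow_of_exponent_le (by linarith) hC1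
    linarith
  have hW0 : (0 : ℝ) < W := by linarith
  -- μ
  have hWnat : 0 < W := by exact_mod_cast hW0
  have hXnat : 0 < X := by exact_mod_cast hX0'
  have hminpos : 0 < min W X := lt_min hWnat hXnat
  have hmin0 : (0 : ℝ) < ((min W X : ℕ) : ℝ) := by exact_mod_cast hminpos
  have hμW : Real.log ((min W X : ℕ) : ℝ) ≤ Real.log W := by
    apply Real.log_le_log hmin0
    exact_mod_cast min_le_left W X
  have hμX : Real.log ((min W X : ℕ) : ℝ) ≤ ℓ := by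
    apply Real.log_le_log hmin0
    exact_mod_cast min_le_right W X
  have hlogW : C0 * t ≤ Real.log W := by
    have h4 : Real.log (ℓ ^ C) ≤ Real.log W := Real.log_le_log (by positivity) hW
    rw [Real.log_rpow hℓ0] at h4
    have h5 : C0 * t ≤ C * t := mul_le_mul_of_nonneg_right hCC0 (by linarith)
    linarith
  have hμt : C0 * t ≤ Real.log ((min W X : ℕ) : ℝ) := by
    rcases le_total W X with h | h
    · rw [min_eq_left h]
      exact hlogW
    · rw [min_eq_right h]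
      exact hℓt
  set μ : ℝ := Real.log ((min W X : ℕ) : ℝ) with hμ
  have hμ0 : 0 < μ := lt_of_lt_of_le (by positivity) hμt
  -- Λ
  have hΛC0 : Real.log C0 ≤ Lam X W := by
    rw [hlamdef]
    apply Real.log_le_log hC0pos
    rw [le_div_iff₀ (by linarith)]
    exact hμt
  have hΛ0 : 0 < Lam X W := by linarith
  refine ⟨hΛ0, ?_⟩
  have hμκ : 4 ≤ κ * μ := by
    have h4 : 4 / κ ≤ μ := by
      refine hC0κ.trans ?_
      have : C0 * 1 ≤ C0 * t := mul_le_mul_of_nonneg_left ht1' hC0pos.le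
      linarith
    rw [div_le_iff₀ hκ] at h4
    linarith
  obtain ⟨j1, j2, hj1one, hj1j0, hj12, hj1t, hj2μ, hlogratio⟩ :=
    Main_j B κ t μ C' j0 hB hκ hC' htj hj0 hμκ (by rw [← hlamdef]; linarith)
  rw [← hlamdef] at hlogratio
  have hl40 : 0 < Real.log 4 := by linarith
  -- powers of 4
  have hpow1 : ∀ j : ℕ, j1 ≤ j → ℓ ^ B ≤ (4 : ℝ) ^ j := by
    intro j hj
    rw [Main_pow, ← hexpt, ← Real.exp_mul]
    apply Real.exp_le_exp.2
    have h4 : (j1 : ℝ) ≤ j := by exact_mod_cast hj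
    have h5 : (j1 : ℝ) * Real.log 4 ≤ j * Real.log 4 := mul_le_mul_of_nonneg_right h4 hl40.le
    linarith
  have hpow3 : ∀ j : ℕ, j ≤ j2 → (4 : ℝ) ^ j ≤ (X : ℝ) ^ κ := by
    intro j hj
    rw [Main_pow, Real.rpow_def_of_pos hX0']
    apply Real.exp_le_exp.2
    have h4 : (j : ℝ) ≤ j2 := by exact_mod_cast hj
    have h5 : (j : ℝ) * Real.log 4 ≤ j2 * Real.log 4 := mul_le_mul_of_nonneg_right h4 hl40.le
    have h6 : κ * μ ≤ κ * ℓ := mul_le_mul_of_nonneg_left hμX hκ.le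
    rw [← hℓ]
    linarith
  -- apply Cmb
  have hj2ℓ : (j2 : ℝ) ≤ ℓ := by
    have h4 : κ * μ ≤ 1 * μ := mul_le_mul_of_nonneg_right (by linarith) hμ0.le
    have h5 : (j2 : ℝ) * 1 ≤ j2 * Real.log 4 :=
      mul_le_mul_of_nonneg_left (by linarith) (by positivity)
    linarith
  obtain ⟨lam, hlam⟩ : ∃ lam : ℝ, lam = ∑ j ∈ Ico j1 j2, ∑ q ∈ PQ (4 ^ j), 1 / (q : ℝ) :=
    ⟨_, rfl⟩
  have hcmb := tCmbE hWA (ε / 2) (by positivity) j1 j2 a W m ℓ lam hj12 (by linarith) hj2ℓ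
    (fun j hj => (hEm m hm hmE j (hpow1 j (mem_Ico.1 hj).1)
      (hpow3 j (mem_Ico.1 hj).2.le)).1)
    (fun j hj j' hj' => (hEm m hm hmE j (hpow1 j (mem_Ico.1 hj).1)
      (hpow3 j (mem_Ico.1 hj).2.le)).2 j' (hpow1 j' (mem_Ico.1 hj').1)
      (hpow3 j' (mem_Ico.1 hj').2.le)) hlam
  -- lower bound for lam
  have hlamlow : (1 - ε / 4) * (Lam X W - C') - 2 ≤ lam := by
    have h5 := hP j1 j2 hj1j0 hj12
    rw [← hlam] at h5
    have h6 : (1 - ε / 4) * (Lam X W - C') ≤ (1 - ε / 4) * Real.log ((j2 : ℝ) / j1) :=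
      mul_le_mul_of_nonneg_left hlogratio (by linarith)
    linarith
  have hlamΛ : (1 - ε / 2) * Lam X W ≤ lam := by
    have h4 : 4 / ε * (C' + 2) ≤ Lam X W := by linarith
    have h5 : ε / 4 * (4 / ε * (C' + 2)) ≤ ε / 4 * Lam X W :=
      mul_le_mul_of_nonneg_left h4 (by positivity)
    have h6 : ε / 4 * (4 / ε * (C' + 2)) = C' + 2 := by field_simp
    have h7 : (1 - ε / 4) * (Lam X W - C') = (1 - ε / 4) * Lam X W - C' + ε / 4 * C' := by ring
    have h8 : 0 ≤ ε / 4 * C' := by positivity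
    have h9 : (1 - ε / 4) * Lam X W - ε / 4 * Lam X W = (1 - ε / 2) * Lam X W := by ring
    linarith
  have hlam2 : Lam X W / 2 ≤ lam := by
    have h4 : 1 / 2 * Lam X W ≤ (1 - ε / 2) * Lam X W :=
      mul_le_mul_of_nonneg_right (by linarith) hΛ0.le
    linarith
  have hlam1 : 1 ≤ lam := by linarith
  have hthr : (1 - ε) * Lam X W ≤ (1 - ε / 2) * lam := by
    have h4 : (1 - ε / 2) * ((1 - ε / 2) * Lam X W) ≤ (1 - ε / 2) * lam :=
      mul_le_mul_of_nonneg_left hlamΛ (by linarith)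
    have h5 : (1 - ε / 2) * ((1 - ε / 2) * Lam X W) =
        (1 - ε) * Lam X W + ε ^ 2 / 4 * Lam X W := by ring
    have h6 : 0 ≤ ε ^ 2 / 4 * Lam X W := by positivity
    linarith
  -- the error term
  have herr : 4 * (4 : ℝ) ^ (2 * j2) ≤ W :=
    Main_err W κ μ j2 hW16 hμ0.le hμW (by linarith) hj2μ
  rw [le_div_iff₀ hΛ0]
  have hfil := MainE_filter W (fun i => (2 ^ (a + i) * m + 1).primeFactors.card) (Lam X W) ε lam
    hthr
  refine le_trans (mul_le_mul_of_nonneg_right (Nat.cast_le.2 hfil) hΛ0.le) ?_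
  exact MainE_end _ lam (Lam X W) W C ε (by positivity) hW0.le hε (hcmb.trans (by linarith)) hlam1
    hlam2 hC40

end Pool.Agent.Lib.MP_9f2731_nt.H
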