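import Pool.Agent.Lib.MP_9f2731_nt.H.Spec

/-!
# Statement Cmb: the blocks together
-/

set_option autoImplicit false

open Finset

namespace Pool.Agent.Lib.MP_9f2731_nt.H

theorem Cmb_mem {Q q : ℕ} (h : q ∈ PQ Q) : Q < q ∧ q ≤ 4 * Q ∧ q.Prime ∧ q ≠ 2 := by
  unfold PQ at h
  rw [mem_filter, mem_Ioc] at h
  exact ⟨h.1.1, h.1.2, h.2.1, h.2.2.1⟩

theorem Cmb_disj {j j' : ℕ} (h : j ≠ j') : Disjoint (PQ (4 ^ j)) (PQ (4 ^ j')) := by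
  rw [disjoint_left]
  intro q hq hq'
  obtain ⟨h1, h2, -, -⟩ := Cmb_mem hq
  obtain ⟨h3, h4, -, -⟩ := Cmb_mem hq'
  rcases lt_or_gt_of_ne h with hlt | hlt
  · have h5 : 4 ^ (j + 1) ≤ 4 ^ j' := Nat.pow_le_pow_right (by norm_num) hlt
    have h6 : 4 ^ (j + 1) = 4 * 4 ^ j := by ring
    omega
  · have h5 : 4 ^ (j' + 1) ≤ 4 ^ j := Nat.pow_le_pow_right (by norm_num) hlt
    have h6 : 4 ^ (j' + 1) = 4 * 4 ^ j' := by ring
    omega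

open Classical in
/-- the union of the blocks -/
noncomputable def CmbP (j1 j2 : ℕ) : Finset ℕ := (Ico j1 j2).biUnion fun j => PQ (4 ^ j)

theorem CmbP_sum (j1 j2 : ℕ) (f : ℕ → ℝ) :
    ∑ q ∈ CmbP j1 j2, f q = ∑ j ∈ Ico j1 j2, ∑ q ∈ PQ (4 ^ j), f q := by
  unfold CmbP
  rw [sum_biUnion]
  intro j _ j' _ h
  exact Cmb_disj h

theorem CmbP_erase (j1 j2 q : ℕ) (f : ℕ → ℝ) :
    ∑ q' ∈ (CmbP j1 j2).erase q, f q' =
      ∑ j' ∈ Ico j1 j2, ∑ q' ∈ (PQ (4 ^ j')).erase q, f q' := by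
  classical
  have h : (CmbP j1 j2).erase q = (Ico j1 j2).biUnion fun j' => (PQ (4 ^ j')).erase q := by
    ext q'
    unfold CmbP
    simp only [mem_erase, mem_biUnion]
    constructor
    · rintro ⟨h1, j, h2, h3⟩
      exact ⟨j, h2, h1, h3⟩
    · rintro ⟨j, h2, h1, h3⟩
      exact ⟨h1, j, h2, h3⟩
  rw [h, sum_biUnion]
  intro j _ j' _ hjj
  exact (Cmb_disj hjj).mono (erase_subset _ _) (erase_subset _ _)

theorem CmbP_card (j1 j2 : ℕ) : (CmbP j1 j2).card ≤ 4 ^ j2 := by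
  have h : CmbP j1 j2 ⊆ Icc 1 (4 ^ j2) := by
    intro q hq
    unfold CmbP at hq
    rw [mem_biUnion] at hq
    obtain ⟨j, hj, hqj⟩ := hq
    obtain ⟨h1, h2, h3, -⟩ := Cmb_mem hqj
    rw [mem_Icc]
    refine ⟨h3.one_lt.le, h2.trans ?_⟩
    have h5 : 4 ^ (j + 1) ≤ 4 ^ j2 := Nat.pow_le_pow_right (by norm_num) (mem_Ico.1 hj).2
    have h6 : 4 ^ (j + 1) = 4 * 4 ^ j := by ring
    omega
  have := card_le_card h
  rwa [Nat.card_Icc, Nat.add_sub_cancel] at this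

theorem tCmb (h1 : StmtWin) : StmtCmb := by
  intro j1 j2 a W m ℓ lam hj12 hℓ hj2 hF hG hlam
  have hlam' : lam = ∑ q ∈ CmbP j1 j2, 1 / (q : ℝ) := by rw [hlam, CmbP_sum]
  have hcardj : ((Ico j1 j2).card : ℝ) ≤ ℓ := by
    rw [Nat.card_Ico]
    have : ((j2 - j1 : ℕ) : ℝ) ≤ j2 := by exact_mod_cast Nat.sub_le _ _
    linarith
  have hℓ0 : 0 < ℓ := by linarith
  have hF' : ∑ q ∈ CmbP j1 j2, Fq q m ≤ 1 := by
    rw [CmbP_sum]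
    calc ∑ j ∈ Ico j1 j2, ∑ q ∈ PQ (4 ^ j), Fq q m ≤ ∑ j ∈ Ico j1 j2, 1 / ℓ ^ 2 :=
          sum_le_sum fun j hj => (le_abs_self _).trans (hF j hj)
      _ = (Ico j1 j2).card * (1 / ℓ ^ 2) := by rw [sum_const, nsmul_eq_mul]
      _ ≤ ℓ * (1 / ℓ ^ 2) := mul_le_mul_of_nonneg_right hcardj (by positivity)
      _ = 1 / ℓ := by field_simp
      _ ≤ 1 := by rw [div_le_one hℓ0]; exact hℓ
  have hG' : ∑ q ∈ CmbP j1 j2, ∑ q' ∈ (CmbP j1 j2).erase q, Gq q q' m ≤ 1 := by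
    rw [CmbP_sum]
    have h3 : ∑ j ∈ Ico j1 j2, ∑ q ∈ PQ (4 ^ j), ∑ q' ∈ (CmbP j1 j2).erase q, Gq q q' m =
        ∑ j ∈ Ico j1 j2, ∑ j' ∈ Ico j1 j2, ∑ q ∈ PQ (4 ^ j), ∑ q' ∈ (PQ (4 ^ j')).erase q,
          Gq q q' m := by
      apply sum_congr rfl
      intro j _
      rw [sum_comm]
      apply sum_congr rfl
      intro q _
      exact CmbP_erase j1 j2 q _
    rw [h3]
    calc ∑ j ∈ Ico j1 j2, ∑ j' ∈ Ico j1 j2, ∑ q ∈ PQ (4 ^ j), ∑ q' ∈ (PQ (4 ^ j')).erase q,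
          Gq q q' m ≤ ∑ j ∈ Ico j1 j2, ∑ j' ∈ Ico j1 j2, 1 / ℓ ^ 3 :=
          sum_le_sum fun j hj => sum_le_sum fun j' hj' => (le_abs_self _).trans (hG j hj j' hj')
      _ = (Ico j1 j2).card * ((Ico j1 j2).card * (1 / ℓ ^ 3)) := by
          rw [sum_const, sum_const, nsmul_eq_mul, nsmul_eq_mul]
      _ ≤ ℓ * (ℓ * (1 / ℓ ^ 3)) := by
          apply mul_le_mul hcardj _ (by positivity) hℓ0.le
          exact mul_le_mul_of_nonneg_right hcardj (by positivity)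
      _ = 1 / ℓ := by field_simp
      _ ≤ 1 := by rw [div_le_one hℓ0]; exact hℓ
  have hP : ∀ q ∈ CmbP j1 j2, q.Prime ∧ q ≠ 2 := by
    intro q hq
    unfold CmbP at hq
    rw [mem_biUnion] at hq
    obtain ⟨j, -, hqj⟩ := hq
    exact (Cmb_mem hqj).2.2
  have h4 := h1 (CmbP j1 j2) a W m 2 hP (by linarith)
  rw [← hlam'] at h4
  refine h4.trans ?_
  have h5 : ((CmbP j1 j2).card : ℝ) ≤ (4 : ℝ) ^ j2 := by exact_mod_cast CmbP_card j1 j2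
  have h6 : ((CmbP j1 j2).card : ℝ) ^ 2 ≤ (4 : ℝ) ^ (2 * j2) := by
    calc ((CmbP j1 j2).card : ℝ) ^ 2 ≤ ((4 : ℝ) ^ j2) ^ 2 :=
          pow_le_pow_left₀ (by positivity) h5 2
      _ = (4 : ℝ) ^ (2 * j2) := by rw [← pow_mul]; congr 1; ring
  linarith

end Pool.Agent.Lib.MP_9f2731_nt.H
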