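import Mathlib

/-!
# Hooley on average: definitions

Theorem H: for all but `X ^ (3/4 + η)` of the `m` in an interval of length `X`, in every window of
length `W ≥ (log X) ^ C` almost all of the numbers `2 ^ (a + i) * m + 1` have many prime factors.

* `Ex`, `Av`, `Inv`: mean values on a finite additive group, mean values along a progression,
  invariance under a shift. Independent coordinates are replaced by invariance: on `ZMod N` the
  functions of `x mod q` are the functions which are invariant under the shift by `N / q'` for all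
  the other primes `q'`.
* `od q`: the order of `2` modulo `q`; `xi q m i`: the indicator of `q ∣ 2 ^ i * m + 1`;
  `d1 q m`, `d2 q q' m`: the densities of the `i` with `q ∣ 2 ^ i * m + 1`, and with
  `q ∣ 2 ^ i * m + 1` and `q' ∣ 2 ^ i * m + 1`; `Fq`, `Gq`: the centred densities.
* `PQ Q`: the primes `q` in `(Q, 4 Q]` with `od q ≥ √Q / log (4 Q)`.
-/

set_option autoImplicit false

open Finset

namespace Pool.Agent.Lib.MP_9f2731_nt.H

/-- mean value on a finite set -/
noncomputable def Ex {G : Type} [Fintype G] (f : G → ℝ) : ℝ := (∑ x, f x) / (Fintype.card G : ℝ)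

/-- mean value over the progression `x, x + d, ..., x + (n - 1) d` -/
noncomputable def Av {G : Type} [AddCommGroup G] (d : G) (n : ℕ) (f : G → ℝ) (x : G) : ℝ :=
  (∑ t ∈ range n, f (x + t • d)) / (n : ℝ)

/-- `f` is invariant under the shift by `d` -/
def Inv {G : Type} [AddCommGroup G] (d : G) (f : G → ℝ) : Prop := ∀ x, f (x + d) = f x

/-- the order of `2` modulo `q` -/
noncomputable def od (q : ℕ) : ℕ := orderOf (2 : ZMod q)

/-- the indicator of `q ∣ 2 ^ i * m + 1` -/
noncomputable def xi (q m i : ℕ) : ℝ := if q ∣ 2 ^ i * m + 1 then 1 else 0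

/-- the density of the `i` with `q ∣ 2 ^ i * m + 1` -/
noncomputable def d1 (q m : ℕ) : ℝ := (∑ i ∈ range (od q), xi q m i) / (od q : ℝ)

/-- the density of the `i` with `q ∣ 2 ^ i * m + 1` and `q' ∣ 2 ^ i * m + 1` -/
noncomputable def d2 (q q' m : ℕ) : ℝ :=
  (∑ i ∈ range (od q * od q'), xi q m i * xi q' m i) / ((od q : ℝ) * (od q' : ℝ))

/-- centred density, one prime -/
noncomputable def Fq (q m : ℕ) : ℝ := d1 q m - 1 / (q : ℝ)

/-- centred density, two primes -/
noncomputable def Gq (q q' m : ℕ) : ℝ :=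
  d2 q q' m - d1 q m / (q' : ℝ) - d1 q' m / (q : ℝ) + 1 / ((q : ℝ) * (q' : ℝ))

open Classical in
/-- the primes `q` in `(Q, 4 Q]` with `√Q ≤ od q * log (4 Q)` -/
noncomputable def PQ (Q : ℕ) : Finset ℕ :=
  (Ioc Q (4 * Q)).filter fun q => q.Prime ∧ q ≠ 2 ∧
    √(Q : ℝ) ≤ (od q : ℝ) * Real.log (4 * (Q : ℝ))

/-- the parameter of the theorem -/
noncomputable def Lam (X W : ℕ) : ℝ :=
  Real.log (Real.log ((min W X : ℕ) : ℝ) / Real.log (Real.log (X : ℝ)))

end Pool.Agent.Lib.MP_9f2731_nt.H
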