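import Pool.Agent.Lib.MP_9f2731_nt.H.Spec

/-!
# Statement Main: Theorem H, choice of the parameters
-/

set_option autoImplicit false

open Finset

namespace Pool.Agent.Lib.MP_9f2731_nt.H

theorem Main_sum (a b : ℕ) (ha : 1 ≤ a) (hab : a ≤ b) :
    Real.log ((b : ℝ) / a) ≤ ∑ j ∈ Ico a b, 1 / (j : ℝ) := by
  induction b, hab using Nat.le_induction with
  | base =>
    have : (a : ℝ) ≠ 0 := by
      have : (1 : ℝ) ≤ a := by exact_mod_cast ha
      linarith
    rw [div_self this]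
    simp
  | succ b hab ih =>
    have ha0 : (0 : ℝ) < a := by
      have : (1 : ℝ) ≤ a := by exact_mod_cast ha
      linarith
    have hb0 : (0 : ℝ) < b := by
      have : (a : ℝ) ≤ b := by exact_mod_cast hab
      linarith
    rw [sum_Ico_succ_top hab]
    have h1 : Real.log (((b + 1 : ℕ) : ℝ) / a) = Real.log ((b : ℝ) / a) + Real.log (1 + 1 / b) := by
      rw [← Real.log_mul (by positivity) (by positivity)]
      congr 1
      push_cast
      field_simp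
    have h2 : Real.log (1 + 1 / (b : ℝ)) ≤ 1 / b := by
      have := Real.log_le_sub_one_of_pos (show (0 : ℝ) < 1 + 1 / b by positivity)
      linarith
    rw [h1]
    linarith

theorem Main_log4 : (1 : ℝ) < Real.log 4 ∧ Real.log 4 < 2 := by
  have h : Real.log 4 = 2 * Real.log 2 := by
    rw [show (4 : ℝ) = 2 ^ 2 by norm_num, Real.log_pow]
    norm_num
  have h1 := Real.log_two_gt_d9
  have h2 := Real.log_two_lt_d9
  constructor <;> linarith

theorem Main_pow (j : ℕ) : (4 : ℝ) ^ j = Real.exp (j * Real.log 4) := by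
  rw [mul_comm, Real.exp_mul, Real.exp_log (by norm_num), Real.rpow_natCast]

theorem Main_log4' : (13 : ℝ) / 10 < Real.log 4 ∧ Real.log 4 < 14 / 10 := by
  have h : Real.log 4 = 2 * Real.log 2 := by
    rw [show (4 : ℝ) = 2 ^ 2 by norm_num, Real.log_pow]
    norm_num
  have h1 := Real.log_two_gt_d9
  have h2 := Real.log_two_lt_d9
  constructor <;> linarith

theorem Main_j (B κ t μ C' : ℝ) (j0 : ℕ) (hB : 1 ≤ B) (hκ : 0 < κ) (hC' : C' = Real.log (8 * B / κ))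
    (ht1 : 2 * (j0 : ℝ) + 1 ≤ t) (hj0 : 1 ≤ j0) (hμκ : 4 ≤ κ * μ)
    (hpos : 0 < Real.log (μ / t) - C') :
    ∃ j1 j2 : ℕ, 1 ≤ j1 ∧ j0 ≤ j1 ∧ j1 ≤ j2 ∧ B * t ≤ j1 * Real.log 4 ∧
      j2 * Real.log 4 ≤ κ * μ ∧ Real.log (μ / t) - C' ≤ Real.log ((j2 : ℝ) / j1) := by
  obtain ⟨hl4, hl4'⟩ := Main_log4'
  have hl40 : 0 < Real.log 4 := by linarith
  have hj0' : (1 : ℝ) ≤ j0 := by exact_mod_cast hj0
  have ht1' : 1 ≤ t := by linarith
  have ht0 : 0 < t := by linarith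
  have hBt : 0 < B * t := by positivity
  have hBt1 : t ≤ B * t := by
    calc t = 1 * t := (one_mul t).symm
      _ ≤ B * t := mul_le_mul_of_nonneg_right hB ht0.le
  have hμ0 : 0 < μ := by
    by_contra h
    have h5 : κ * μ ≤ 0 := mul_nonpos_of_nonneg_of_nonpos hκ.le (not_lt.1 h)
    linarith
  have hκμ0 : 0 < κ * μ := by linarith
  have hj1le : B * t / Real.log 4 ≤ (⌈B * t / Real.log 4⌉₊ : ℝ) := Nat.le_ceil _
  have hj1lt : (⌈B * t / Real.log 4⌉₊ : ℝ) < B * t / Real.log 4 + 1 :=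
    Nat.ceil_lt_add_one (by positivity)
  have hj2le : (⌊κ * μ / Real.log 4⌋₊ : ℝ) ≤ κ * μ / Real.log 4 := Nat.floor_le (by positivity)
  have hj2lt : κ * μ / Real.log 4 < (⌊κ * μ / Real.log 4⌋₊ : ℝ) + 1 := Nat.lt_floor_add_one _
  generalize ⌈B * t / Real.log 4⌉₊ = j1 at *
  generalize ⌊κ * μ / Real.log 4⌋₊ = j2 at *
  have hBt4 : B * t / 2 ≤ B * t / Real.log 4 :=
    div_le_div_of_nonneg_left hBt.le hl40 (by linarith)
  have hBt4' : B * t / Real.log 4 ≤ B * t / 1 :=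
    div_le_div_of_nonneg_left hBt.le one_pos (by linarith)
  have hj1j0 : j0 ≤ j1 := by
    have h4 : (j0 : ℝ) ≤ B * t / 2 := by linarith
    exact_mod_cast h4.trans (hBt4.trans hj1le)
  have hj1one : 1 ≤ j1 := hj0.trans hj1j0
  have hj1pos : (0 : ℝ) < j1 := by exact_mod_cast hj1one
  have hj1B : (j1 : ℝ) ≤ 2 * (B * t) := by linarith
  have hj2κ : κ * μ / 4 ≤ j2 := by
    have h4 : κ * μ / 2 ≤ κ * μ / Real.log 4 :=
      div_le_div_of_nonneg_left (by positivity) hl40 (by linarith)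
    linarith
  have hratio : κ * μ / (8 * (B * t)) ≤ (j2 : ℝ) / j1 := by
    rw [div_le_div_iff₀ (by positivity) hj1pos]
    have h4 : κ * μ * j1 ≤ κ * μ * (2 * (B * t)) := mul_le_mul_of_nonneg_left hj1B (by positivity)
    have h5 : κ * μ / 4 * (8 * (B * t)) ≤ j2 * (8 * (B * t)) :=
      mul_le_mul_of_nonneg_right hj2κ (by positivity)
    have h6 : κ * μ / 4 * (8 * (B * t)) = κ * μ * (2 * (B * t)) := by ring
    linarith
  have hlogratio : Real.log (μ / t) - C' ≤ Real.log ((j2 : ℝ) / j1) := by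
    have h4 : Real.log (μ / t) - C' = Real.log (κ * μ / (8 * (B * t))) := by
      rw [hC', ← Real.log_div (by positivity) (by positivity)]
      congr 1
      field_simp
    rw [h4]
    exact Real.log_le_log (by positivity) hratio
  have hj12 : j1 ≤ j2 := by
    have h4 : 0 < Real.log ((j2 : ℝ) / j1) := by linarith
    have h5 : 1 < (j2 : ℝ) / j1 := by
      by_contra h
      have := Real.log_nonpos (by positivity) (not_lt.1 h)
      linarith
    rw [lt_div_iff₀ hj1pos, one_mul] at h5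
    exact_mod_cast h5.le
  refine ⟨j1, j2, hj1one, hj1j0, hj12, ?_, ?_, hlogratio⟩
  · rwa [div_le_iff₀ hl40] at hj1le
  · rwa [le_div_iff₀ hl40] at hj2le

theorem Main_err (W : ℕ) (κ μ : ℝ) (j2 : ℕ) (hW : (16 : ℝ) ≤ W) (hμ0 : 0 ≤ μ)
    (hμW : μ ≤ Real.log W) (hκ : κ ≤ 1 / 4)
    (h : j2 * Real.log 4 ≤ κ * μ) : 4 * (4 : ℝ) ^ (2 * j2) ≤ W := by
  have hW0 : (0 : ℝ) < W := by linarith
  have h4 : (4 : ℝ) ^ j2 ≤ (W : ℝ) ^ (1 / 4 : ℝ) := by
    rw [Main_pow, Real.rpow_def_of_pos hW0]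
    apply Real.exp_le_exp.2
    have h5 : κ * μ ≤ 1 / 4 * μ := mul_le_mul_of_nonneg_right hκ hμ0
    linarith
  have h5 : (4 : ℝ) ^ (2 * j2) ≤ (W : ℝ) ^ (1 / 2 : ℝ) := by
    have h6 : (4 : ℝ) ^ (2 * j2) = ((4 : ℝ) ^ j2) ^ 2 := by
      rw [← pow_mul]
      congr 1
      ring
    rw [h6]
    refine (pow_le_pow_left₀ (by positivity) h4 2).trans (le_of_eq ?_)
    rw [← Real.rpow_natCast, ← Real.rpow_mul hW0.le]
    norm_num
  have h6 : (W : ℝ) ^ (1 / 2 : ℝ) * (W : ℝ) ^ (1 / 2 : ℝ) = W := by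
    rw [← Real.rpow_add hW0]
    norm_num
  have h7 : (4 : ℝ) ≤ (W : ℝ) ^ (1 / 2 : ℝ) := by
    rw [← Real.sqrt_eq_rpow]
    apply Real.le_sqrt_of_sq_le
    linarith
  have h8 : (0 : ℝ) ≤ (W : ℝ) ^ (1 / 2 : ℝ) := by linarith
  calc 4 * (4 : ℝ) ^ (2 * j2) ≤ (W : ℝ) ^ (1 / 2 : ℝ) * (W : ℝ) ^ (1 / 2 : ℝ) :=
        mul_le_mul h7 h5 (by positivity) h8
    _ = W := h6

theorem Main_end (N lam Λ W C c : ℝ) (hN0 : 0 ≤ N) (hW0 : 0 ≤ W) (hc : 0 < c)
    (hcmb : N * (lam ^ 2 / 4) ≤ W * (2 * lam + 2) + W) (hlam1 : 1 ≤ lam)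
    (hlamΛ : c / 2 * Λ ≤ lam) (hC40 : 40 / c ≤ C) : N * Λ ≤ C * W := by
  have hNlam : N * lam ≤ 20 * W := by
    have h4 : N * lam ^ 2 ≤ 20 * W * lam := by
      have h6 : W * 1 ≤ W * lam := mul_le_mul_of_nonneg_left hlam1 hW0
      have h7 : N * (lam ^ 2 / 4) = N * lam ^ 2 / 4 := by ring
      have h8 : W * (2 * lam + 2) + W = 2 * (W * lam) + 3 * (W * 1) := by ring
      rw [h7, h8] at hcmb
      have h9 : 20 * W * lam = 20 * (W * lam) := by ring
      rw [h9]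
      linarith
    have h5 : N * lam * lam ≤ 20 * W * lam := by
      calc N * lam * lam = N * lam ^ 2 := by ring
        _ ≤ _ := h4
    exact le_of_mul_le_mul_right h5 (by linarith)
  have h4 : N * (c / 2 * Λ) ≤ 20 * W := (mul_le_mul_of_nonneg_left hlamΛ hN0).trans hNlam
  have h5 : N * Λ ≤ 40 / c * W := by
    have h6 : N * (c / 2 * Λ) = (N * Λ) * (c / 2) := by ring
    rw [h6] at h4
    have h7 : 20 * W = 40 / c * W * (c / 2) := by field_simp; ring
    rw [h7] at h4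
    exact le_of_mul_le_mul_right h4 (by positivity)
  exact h5.trans (mul_le_mul_of_nonneg_right hC40 hW0)

theorem Main_filter (N : ℕ) (f : ℕ → ℕ) (Λ C c lam : ℝ) (hc : 0 < c) (hC40 : 40 / c ≤ C)
    (hlamΛ : c / 2 * Λ ≤ lam) :
    ((range N).filter fun i => C * (f i : ℝ) ≤ Λ).card ≤
      ((range N).filter fun i => (f i : ℝ) ≤ lam / 2).card := by
  apply card_le_card
  intro i hi
  rw [mem_filter] at hi ⊢
  refine ⟨hi.1, ?_⟩
  have h4 := hi.2
  have hω0 : (0 : ℝ) ≤ (f i : ℝ) := by positivity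
  have h5 : 4 / c ≤ C := by
    have : 4 / c ≤ 40 / c := by
      apply div_le_div_of_nonneg_right _ hc.le
      norm_num
    linarith
  have h6 : 4 / c * (f i : ℝ) ≤ Λ := (mul_le_mul_of_nonneg_right h5 hω0).trans h4
  have h7 : (f i : ℝ) ≤ c / 4 * Λ := by
    have h8 : c / 4 * (4 / c * (f i : ℝ)) ≤ c / 4 * Λ :=
      mul_le_mul_of_nonneg_left h6 (by positivity)
    have h9 : c / 4 * (4 / c * (f i : ℝ)) = (f i : ℝ) := by field_simp
    rw [h9] at h8
    exact h8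
  linarith

theorem tMain (h1 : StmtExc) (h2 : StmtPrm) (h3 : StmtCmb) : StmtMain := by
  intro η hη
  obtain ⟨B, hB, κ, hκ, hκ20, X0, hE⟩ := h1 η hη
  obtain ⟨c, hc, j0, hj0, hP⟩ := h2
  obtain ⟨hl4, hl4'⟩ := Main_log4
  set C' : ℝ := Real.log (8 * B / κ) with hC'
  have hC'0 : 0 ≤ C' := by
    apply Real.log_nonneg
    rw [le_div_iff₀ hκ]
    linarith
  set C0 : ℝ := Real.exp (2 * C' + 2 / c + 1) + 4 / κ with hC0
  have hC0pos : 0 < C0 := by positivity
  have hC0log : 2 * C' + 2 / c + 1 ≤ Real.log C0 := by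
    rw [Real.le_log_iff_exp_le hC0pos, hC0]
    have : 0 < 4 / κ := by positivity
    linarith
  have hC0κ : 4 / κ ≤ C0 := by
    rw [hC0]
    have := Real.exp_pos (2 * C' + 2 / c + 1)
    linarith
  have hC01 : 1 ≤ C0 := by
    have h : (1 : ℝ) ≤ 4 / κ := by
      rw [le_div_iff₀ hκ]
      linarith
    linarith
  clear_value C0
  -- large X
  have ht1 : Filter.Tendsto (fun n : ℕ => Real.log (n : ℝ)) Filter.atTop Filter.atTop :=
    Real.tendsto_log_atTop.comp tendsto_natCast_atTop_atTop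
  have ht2 : Filter.Tendsto (fun n : ℕ => Real.log (Real.log (n : ℝ))) Filter.atTop Filter.atTop :=
    Real.tendsto_log_atTop.comp ht1
  have ht3 : ∀ᶠ n : ℕ in Filter.atTop, C0 * Real.log (Real.log (n : ℝ)) ≤ Real.log (n : ℝ) := by
    have h := (Real.isLittleO_log_id_atTop).bound (show (0 : ℝ) < 1 / C0 by positivity)
    have h' := ht1.eventually h
    filter_upwards [h', ht1.eventually_ge_atTop (1 : ℝ)] with n hn hn1
    rw [Real.norm_eq_abs, Real.norm_eq_abs, id_eq, abs_of_nonneg (Real.log_nonneg hn1),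
      abs_of_nonneg (by linarith)] at hn
    rw [div_mul_eq_mul_div, one_mul, le_div_iff₀ hC0pos] at hn
    linarith
  obtain ⟨X1, hX1⟩ := Filter.eventually_atTop.1 ((ht1.eventually_ge_atTop (16 : ℝ)).and
    ((ht2.eventually_ge_atTop (2 * (j0 : ℝ) + 1)).and ht3))
  obtain ⟨C, hCC0, hCX0, hCX1, hC40⟩ : ∃ C : ℝ, C0 ≤ C ∧ (X0 : ℝ) ≤ C ∧ (X1 : ℝ) ≤ C ∧
      40 / c ≤ C :=
    ⟨max C0 (max (X0 : ℝ) (max (X1 : ℝ) (40 / c))), le_max_left _ _,
      (le_max_left _ _).trans (le_max_right _ _),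
      (le_max_left _ _).trans ((le_max_right _ _).trans (le_max_right _ _)),
      (le_max_right _ _).trans ((le_max_right _ _).trans (le_max_right _ _))⟩
  have hC1 : 1 ≤ C := hC01.trans hCC0
  refine ⟨C, hC1, ?_⟩
  intro X hX M
  have hXX0 : X0 ≤ X := by exact_mod_cast hCX0.trans hX
  have hXX1 : X1 ≤ X := by exact_mod_cast hCX1.trans hX
  obtain ⟨E, hEs, hEc, hEm⟩ := hE X hXX0 M
  refine ⟨E, hEs, hEc, ?_⟩
  intro m hm hmE a W hW
  obtain ⟨hℓ16, htj, hℓt⟩ := hX1 X hXX1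
  clear ht1 ht2 ht3 hX1 hE
  have hlamdef : Lam X W = Real.log (Real.log ((min W X : ℕ) : ℝ) / Real.log (Real.log (X : ℝ))) :=
    rfl
  set ℓ : ℝ := Real.log (X : ℝ) with hℓ
  set t : ℝ := Real.log ℓ with ht
  have hj0' : (1 : ℝ) ≤ j0 := by exact_mod_cast hj0
  have ht1' : 1 ≤ t := by linarith
  have ht0 : 0 < t := by linarith
  have hℓ0 : 0 < ℓ := by linarith
  have hexpt : Real.exp t = ℓ := Real.exp_log hℓ0
  have hX0' : (0 : ℝ) < X := by
    by_contra h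
    have h4 : (X : ℝ) = 0 := le_antisymm (not_lt.1 h) (by positivity)
    have h5 : ℓ = 0 := by rw [hℓ, h4, Real.log_zero]
    linarith
  have hW16 : (16 : ℝ) ≤ W := by
    have h4 : ℓ ≤ ℓ ^ C := by
      calc ℓ = ℓ ^ (1 : ℝ) := (Real.rpow_one _).symm
        _ ≤ ℓ ^ C := Real.rpow_le_rpow_of_exponent_le (by linarith) hC1
    linarith
  have hW0 : (0 : ℝ) < W := by linarith
  -- μ
  have hWnat : 0 < W := by exact_mod_cast hW0
  have hXnat : 0 < X := by exact_mod_cast hX0'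
  have hminpos : 0 < min W X := lt_min hWnat hXnat
  have hmin0 : (0 : ℝ) < ((min W X : ℕ) : ℝ) := by exact_mod_cast hminpos
  have hμW : Real.log ((min W X : ℕ) : ℝ) ≤ Real.log W := by
    apply Real.log_le_log hmin0
    exact_mod_cast min_le_left W X
  have hμX : Real.log ((min W X : ℕ) : ℝ) ≤ ℓ := by
    apply Real.log_le_log hmin0
    exact_mod_cast min_le_right W X
  have hlogW : C0 * t ≤ Real.log W := by
    have h4 : Real.log (ℓ ^ C) ≤ Real.log W := Real.log_le_log (by positivity) hW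
    rw [Real.log_rpow hℓ0] at h4
    have h5 : C0 * t ≤ C * t := mul_le_mul_of_nonneg_right hCC0 (by linarith)
    linarith
  have hμt : C0 * t ≤ Real.log ((min W X : ℕ) : ℝ) := by
    rcases le_total W X with h | h
    · rw [min_eq_left h]
      exact hlogW
    · rw [min_eq_right h]
      exact hℓt
  set μ : ℝ := Real.log ((min W X : ℕ) : ℝ) with hμ
  have hμ0 : 0 < μ := lt_of_lt_of_le (by positivity) hμt
  -- Λ
  have hΛC0 : Real.log C0 ≤ Lam X W := by
    rw [hlamdef]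
    apply Real.log_le_log hC0pos
    rw [le_div_iff₀ (by linarith)]
    exact hμt
  have h2c : 0 < 2 / c := by positivity
  have hΛ0 : 0 < Lam X W := by linarith
  refine ⟨hΛ0, ?_⟩
  have hμκ : 4 ≤ κ * μ := by
    have h4 : 4 / κ ≤ μ := by
      refine hC0κ.trans ?_
      have : C0 * 1 ≤ C0 * t := mul_le_mul_of_nonneg_left ht1' hC0pos.le
      linarith
    rw [div_le_iff₀ hκ] at h4
    linarith
  obtain ⟨j1, j2, hj1one, hj1j0, hj12, hj1t, hj2μ, hlogratio⟩ :=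
    Main_j B κ t μ C' j0 hB hκ hC' htj hj0 hμκ (by rw [← hlamdef]; linarith)
  rw [← hlamdef] at hlogratio
  have hl40 : 0 < Real.log 4 := by linarith
  -- powers of 4
  have hpow1 : ∀ j : ℕ, j1 ≤ j → ℓ ^ B ≤ (4 : ℝ) ^ j := by
    intro j hj
    rw [Main_pow, ← hexpt, ← Real.exp_mul]
    apply Real.exp_le_exp.2
    have h4 : (j1 : ℝ) ≤ j := by exact_mod_cast hj
    have h5 : (j1 : ℝ) * Real.log 4 ≤ j * Real.log 4 := mul_le_mul_of_nonneg_right h4 hl40.le
    linarith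
  have hpow3 : ∀ j : ℕ, j ≤ j2 → (4 : ℝ) ^ j ≤ (X : ℝ) ^ κ := by
    intro j hj
    rw [Main_pow, Real.rpow_def_of_pos hX0']
    apply Real.exp_le_exp.2
    have h4 : (j : ℝ) ≤ j2 := by exact_mod_cast hj
    have h5 : (j : ℝ) * Real.log 4 ≤ j2 * Real.log 4 := mul_le_mul_of_nonneg_right h4 hl40.le
    have h6 : κ * μ ≤ κ * ℓ := mul_le_mul_of_nonneg_left hμX hκ.le
    rw [← hℓ]
    linarith
  -- apply Cmb
  have hj2ℓ : (j2 : ℝ) ≤ ℓ := by
    have h4 : κ * μ ≤ 1 * μ := mul_le_mul_of_nonneg_right (by linarith) hμ0.le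
    have h5 : (j2 : ℝ) * 1 ≤ j2 * Real.log 4 :=
      mul_le_mul_of_nonneg_left (by linarith) (by positivity)
    linarith
  obtain ⟨lam, hlam⟩ : ∃ lam : ℝ, lam = ∑ j ∈ Ico j1 j2, ∑ q ∈ PQ (4 ^ j), 1 / (q : ℝ) :=
    ⟨_, rfl⟩
  have hcmb := h3 j1 j2 a W m ℓ lam hj12 (by linarith) hj2ℓ
    (fun j hj => (hEm m hm hmE j (hpow1 j (mem_Ico.1 hj).1)
      (hpow3 j (mem_Ico.1 hj).2.le)).1)
    (fun j hj j' hj' => (hEm m hm hmE j (hpow1 j (mem_Ico.1 hj).1)
      (hpow3 j (mem_Ico.1 hj).2.le)).2 j' (hpow1 j' (mem_Ico.1 hj').1)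
      (hpow3 j' (mem_Ico.1 hj').2.le)) hlam
  -- lower bound for lam
  have hlamlow : c * (Lam X W - C') ≤ lam := by
    have h4 : c * ∑ j ∈ Ico j1 j2, 1 / (j : ℝ) ≤ lam := by
      rw [hlam, mul_sum]
      apply sum_le_sum
      intro j hj
      have h5 := hP j (hj1j0.trans (mem_Ico.1 hj).1)
      calc c * (1 / (j : ℝ)) = c / j := by ring
        _ ≤ _ := h5
    have h5 := Main_sum j1 j2 hj1one hj12
    have h6 : c * (Lam X W - C') ≤ c * ∑ j ∈ Ico j1 j2, 1 / (j : ℝ) :=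
      mul_le_mul_of_nonneg_left (hlogratio.trans h5) hc.le
    linarith
  have hlamΛ : c / 2 * Lam X W ≤ lam := by
    have h4 : Lam X W / 2 ≤ Lam X W - C' := by linarith
    have h5 : c * (Lam X W / 2) ≤ c * (Lam X W - C') := mul_le_mul_of_nonneg_left h4 hc.le
    linarith
  have hlam1 : 1 ≤ lam := by
    have h4 : 2 / c ≤ Lam X W := by linarith
    have h5 : c / 2 * (2 / c) ≤ c / 2 * Lam X W := mul_le_mul_of_nonneg_left h4 (by positivity)
    have h6 : c / 2 * (2 / c) = 1 := by field_simp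
    linarith
  -- the error term
  have herr : 4 * (4 : ℝ) ^ (2 * j2) ≤ W :=
    Main_err W κ μ j2 hW16 hμ0.le hμW (by linarith) hj2μ
  rw [le_div_iff₀ hΛ0]
  have hfil := Main_filter W (fun i => (2 ^ (a + i) * m + 1).primeFactors.card) (Lam X W) C c lam hc
    hC40 hlamΛ
  refine le_trans (mul_le_mul_of_nonneg_right (Nat.cast_le.2 hfil) hΛ0.le) ?_
  exact Main_end _ lam (Lam X W) W C c (by positivity) hW0.le hc (hcmb.trans (by linarith)) hlam1
    hlamΛ hC40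

end Pool.Agent.Lib.MP_9f2731_nt.H
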