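import Pool.Agent.Lib.MP_9f2731_nt.H.Defs

/-!
# Hooley on average (theorem H): statements with complete proofs in the docstrings

One module `H/<Name>.lean` for each statement, theorem
`Pool.Agent.Lib.MP_9f2731_nt.H.t<Name>`; the statements under `uses` are hypotheses, e.g.
`theorem tMZ (h1 : StmtScal) : StmtMZ`.

THEOREM H (`StmtMain`). For every `η > 0` there is `C` such that for all `X ≥ C`, `M`: all `m` in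
`(M, M + X]` outside a set of at most `X ^ (3/4 + η)` integers have the property: for every `a` and
every `W ≥ (log X) ^ C`, at most `C W / Λ` of the numbers `2 ^ (a + i) m + 1`, `i < W`, have at most
`Λ / C` distinct prime factors, `Λ = log (log min(W, X) / log log X)`.

IDEA. For a set `P` of primes let `R(i)` be the sum over `q ∈ P` of `xi q m i - 1/q`. By Chebyshev it
is enough to bound the mean value of `R(i) ^ 2` over the window by `O(λ)`, `λ` = the sum of `1/q`.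
This mean value is `λ` plus the sum of the `Fq q m`, plus the sum of the `Gq q q' m`, up to `O(1)`
(`StmtWin`). These sums are split into dyadic blocks of primes (`PQ Q`), and for each block (pair of
blocks) a moment of high order, adapted to the block, is estimated: by the dual large sieve the
moment over the interval is at most `20 X` times the moment over a complete period (`StmtLSP`),
where the coordinates `m mod q` are independent; the moments over the complete period are estimated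
by `StmtMom1`, `StmtMom2`.
-/

set_option autoImplicit false

open Finset

namespace Pool.Agent.Lib.MP_9f2731_nt.H

/-! ## A. Moments on finite groups -/

/-- **Scal** Proof. Let `s = √(A B)`, so `|t| ≤ s`; `A + 2 t + B ≥ (√A - √B) ^ 2 ≥ 0`; `K = 32 r ^ 2 ≥ 32 l ^ 2`.
Case 1: `A ≤ 16 l ^ 2 B`. Then `s ≤ 4 l B`. Let `x = A + 2 s + B ≥ A`, `δ = A + K B - x`. Then
`δ ≥ (32 l ^ 2 - 8 l - 1) B ≥ 8 l B ≥ 2 s ≥ 0`. `(x + δ) ^ l ≥ x ^ l + l x ^ (l-1) δ ≥ x ^ l + l A ^ (l-1) 2 s`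
(`one_add_mul_le_pow`, or induction), and `(A + 2t + B) ^ l ≤ x ^ l`, `- 2 l A ^ (l-1) t ≤ 2 l A ^ (l-1) s`.
Case 2: `A > 16 l ^ 2 B`. Then `A > 0`, `s ≤ A / (4 l)`, `B ≤ s / (4 l)` and `B ≤ A / (16 l ^ 2)`. Let
`y = 2 t + B`, `z = y / A`: `l |z| ≤ 1/2 + 1/16 ≤ 1`, `1 + z ≥ 0`, so
`(1 + z) ^ l ≤ exp (l z) ≤ 1 + l z + (l z) ^ 2` (`Real.add_one_le_exp`, `Real.abs_exp_sub_one_sub_id_le`).
`y ^ 2 ≤ (9/4 s) ^ 2 ≤ 6 A B`. So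
`(A + y) ^ l ≤ A ^ l + l A ^ (l-1) y + 6 l ^ 2 A ^ (l-1) B ≤ 2 l A ^ (l-1) t + A ^ l + A ^ (l-1) B (l + 6 l ^ 2)`
and `(A + K B) ^ l ≥ A ^ l + l A ^ (l-1) K B`, `l + 6 l ^ 2 ≤ 32 l ^ 3`. -/
def StmtScal : Prop := ∀ (r l : ℕ) (A B t : ℝ), 1 ≤ l → l ≤ r → 0 ≤ A → 0 ≤ B → t ^ 2 ≤ A * B →
  (A + 2 * t + B) ^ l ≤ 2 * l * A ^ (l - 1) * t + (A + 32 * (r : ℝ) ^ 2 * B) ^ l

/-- **MZ** (uses `Scal`) Marcinkiewicz - Zygmund inequality for independent vectors. Proof.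
Basic facts: `Ex (Av d n f) = Ex f` (`n ≥ 1`; shift invariance of the sum over `G`), and
`Av d n (g * f) = g * Av d n f` if `Inv d g`. Let `K = 32 r ^ 2`, `S_k = Σ_{i ∈ s'} f i k`.
CLAIM, by induction on `s' ⊆ s`: for all `l ≤ r` and all `w ≥ 0` with `Inv (d i) w` for `i ∈ s'`:
`Ex (w (Σ_k S_k ^ 2) ^ l) ≤ Ex (w (K Σ_{i ∈ s'} Σ_k (f i k) ^ 2) ^ l)`. Step from `s'` to `insert j s'`:
let `A = Σ_k S_k ^ 2`, `B = Σ_k (f j k) ^ 2`, `t = Σ_k S_k (f j k)`, `t ^ 2 ≤ A B`. `S_k`, `A`, `w` are invariant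
under `d j`. `l = 0` is trivial. For `l ≥ 1` `Scal` gives
`Ex (w (A + 2t + B) ^ l) ≤ Ex (w 2 l A ^ (l-1) t) + Ex (w (A + K B) ^ l)`; the first term is `0`, since its
`Av (d j) (n j)` is `w 2 l A ^ (l-1) Σ_k S_k Av (f j k) = 0`. Expand
`(A + K B) ^ l = Σ_i C(l,i) A ^ i (K B) ^ (l-i)` and apply the claim for `s'`, `i ≤ r` and the weight
`w (K B) ^ (l-i)`, which is invariant under the `d i'`, `i' ∈ s'`; then sum again. -/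
def StmtMZ : Prop := ∀ (G ι κ : Type) [Fintype G] [AddCommGroup G] [DecidableEq ι] (s : Finset ι)
  (K : Finset κ) (d : ι → G) (n : ι → ℕ) (f : ι → κ → G → ℝ) (r : ℕ), (∀ j ∈ s, 1 ≤ n j) →
  (∀ j ∈ s, ∀ k ∈ K, ∀ x, Av (d j) (n j) (f j k) x = 0) →
  (∀ i ∈ s, ∀ j ∈ s, i ≠ j → ∀ k ∈ K, Inv (d i) (f j k)) →
  Ex (fun x => (∑ k ∈ K, (∑ j ∈ s, f j k x) ^ 2) ^ r) ≤
    (32 * (r : ℝ) ^ 2) ^ r * Ex (fun x => (∑ j ∈ s, ∑ k ∈ K, (f j k x) ^ 2) ^ r)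

/-- **Z1** Moments of sums of nonnegative independent functions. Proof. `Z = Σ_j g j`. CLAIM, by
induction on `r`: for `T ⊆ s` and `H ≥ 0` with `Inv (d i) H` for all `i ∈ s \ T`:
`Ex (H Z ^ r) ≤ ((|T| + r) A) ^ r Ex H`. First `r = 1`: `Ex (H Z) ≤ (|T| + 1) A Ex H`: the terms `j ∈ T`
give at most `|T| A Ex H`; for `j ∉ T`: `Ex (H g_j) = Ex (Av (H g_j)) = Ex (H Av g_j)`, and the sum of the
`Av g_j ≥ 0` is at most `A`. Step: `Ex (H Z ^ (r+1)) = Σ_j Ex ((H g_j) Z ^ r)`, `H g_j` and `T + j`: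
at most `((|T| + 1 + r) A) ^ r Σ_j Ex (H g_j) ≤ ((|T| + 1 + r) A) ^ r (|T| + 1) A Ex H`. Take `T = ∅`,
`H = 1`. -/
def StmtZ1 : Prop := ∀ (G ι : Type) [Fintype G] [AddCommGroup G] [DecidableEq ι] (s : Finset ι)
  (d : ι → G) (n : ι → ℕ) (g : ι → G → ℝ) (A : ℝ) (r : ℕ), 0 ≤ A → (∀ j ∈ s, 1 ≤ n j) →
  (∀ j ∈ s, ∀ x, 0 ≤ g j x) → (∀ i ∈ s, ∀ j ∈ s, i ≠ j → Inv (d i) (g j)) →
  (∀ j ∈ s, ∀ x, g j x ≤ A) → (∀ x, ∑ j ∈ s, Av (d j) (n j) (g j) x ≤ A) →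
  Ex (fun x => (∑ j ∈ s, g j x) ^ r) ≤ ((r : ℝ) * A) ^ r

/-- **Z2** The same for functions of two coordinates. Proof. `Z = Σ_{j ∈ s} Σ_{j' ∈ s'} g j j'`. CLAIM, by
induction on `r`: for `T ⊆ s`, `T' ⊆ s'`, `|T|, |T'| ≤ k`, and `H ≥ 0` with `Inv (d i) H` for all
`i ∈ s ∪ s'` not in `T ∪ T'`: `Ex (H Z ^ r) ≤ ((k + r) ^ 2 A) ^ r Ex H`. First
`Ex (H Z) ≤ (k + 1) ^ 2 A Ex H`: terms with `j ∈ T`, `j' ∈ T'`: at most `k ^ 2 A Ex H` (`g ≤ A`);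
`j ∈ T`, `j' ∉ T'`: `Ex (H g) = Ex (H Av_{j'} g)`, for every `j` the sum over `j'` is at most `A Ex H`;
`j ∉ T`, `j' ∈ T'`: the same; `j ∉ T`, `j' ∉ T'`: `Ex (H g) = Ex (H Av_j (Av_{j'} g))` (`Av_{j'}` of `g j j'`
times the invariant `H`, then `Av_j`), in total at most `A Ex H`. Step as in `Z1` with `T + j`, `T' + j'`. -/
def StmtZ2 : Prop := ∀ (G ι : Type) [Fintype G] [AddCommGroup G] [DecidableEq ι]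
  (s s' : Finset ι) (d : ι → G) (n : ι → ℕ) (g : ι → ι → G → ℝ) (A : ℝ) (r : ℕ), 0 ≤ A →
  Disjoint s s' → (∀ j ∈ s ∪ s', 1 ≤ n j) → (∀ j ∈ s, ∀ j' ∈ s', ∀ x, 0 ≤ g j j' x) →
  (∀ j ∈ s, ∀ j' ∈ s', ∀ i ∈ s ∪ s', i ≠ j → i ≠ j' → Inv (d i) (g j j')) →
  (∀ j ∈ s, ∀ j' ∈ s', ∀ x, g j j' x ≤ A) →
  (∀ j ∈ s, ∀ x, ∑ j' ∈ s', Av (d j') (n j') (g j j') x ≤ A) →
  (∀ j' ∈ s', ∀ x, ∑ j ∈ s, Av (d j) (n j) (g j j') x ≤ A) →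
  (∀ x, ∑ j ∈ s, ∑ j' ∈ s', Av (d j) (n j) (Av (d j') (n j') (g j j')) x ≤ A) →
  Ex (fun x => (∑ j ∈ s, ∑ j' ∈ s', g j j' x) ^ r) ≤ ((r : ℝ) ^ 2 * A) ^ r

/-- **Mom1** (uses `MZ`, `Z1`) Proof. `MZ` with `K` a singleton, then `Z1` for `g j = (f j) ^ 2`. -/
def StmtMom1 : Prop := ∀ (G ι : Type) [Fintype G] [AddCommGroup G] [DecidableEq ι] (s : Finset ι)
  (d : ι → G) (n : ι → ℕ) (f : ι → G → ℝ) (A : ℝ) (r : ℕ), 0 ≤ A → (∀ j ∈ s, 1 ≤ n j) →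
  (∀ j ∈ s, ∀ x, Av (d j) (n j) (f j) x = 0) →
  (∀ i ∈ s, ∀ j ∈ s, i ≠ j → Inv (d i) (f j)) → (∀ j ∈ s, ∀ x, (f j x) ^ 2 ≤ A) →
  (∀ x, ∑ j ∈ s, Av (d j) (n j) (fun y => (f j y) ^ 2) x ≤ A) →
  Ex (fun x => (∑ j ∈ s, f j x) ^ (2 * r)) ≤ (32 * (r : ℝ) ^ 2) ^ r * ((r : ℝ) * A) ^ r

/-- **Mom2** (uses `MZ`, `Z2`) Proof. First `MZ` for the index set `s` and the functions
`Σ_{j' ∈ s'} f j j'` (`K` a singleton; their `Av (d j)` is `0`, they are invariant under `d i`, `i ∈ s`,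
`i ≠ j`): `Ex Y ^ (2r) ≤ (32 r ^ 2) ^ r Ex (Σ_{j ∈ s} (Σ_{j' ∈ s'} f j j') ^ 2) ^ r`. Then `MZ` for the
index set `s'`, `K = s`, and the functions `f k j'` (`j' ∈ s'`, `k ∈ s`): at most
`(32 r ^ 2) ^ (2r) Ex (Σ Σ (f j j') ^ 2) ^ r`. Then `Z2` for `g = f ^ 2`. -/
def StmtMom2 : Prop := ∀ (G ι : Type) [Fintype G] [AddCommGroup G] [DecidableEq ι]
  (s s' : Finset ι) (d : ι → G) (n : ι → ℕ) (f : ι → ι → G → ℝ) (A : ℝ) (r : ℕ), 0 ≤ A →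
  Disjoint s s' → (∀ j ∈ s ∪ s', 1 ≤ n j) →
  (∀ j ∈ s, ∀ j' ∈ s', ∀ x, Av (d j) (n j) (f j j') x = 0) →
  (∀ j ∈ s, ∀ j' ∈ s', ∀ x, Av (d j') (n j') (f j j') x = 0) →
  (∀ j ∈ s, ∀ j' ∈ s', ∀ i ∈ s ∪ s', i ≠ j → i ≠ j' → Inv (d i) (f j j')) →
  (∀ j ∈ s, ∀ j' ∈ s', ∀ x, (f j j' x) ^ 2 ≤ A) →
  (∀ j ∈ s, ∀ x, ∑ j' ∈ s', Av (d j') (n j') (fun y => (f j j' y) ^ 2) x ≤ A) →
  (∀ j' ∈ s', ∀ x, ∑ j ∈ s, Av (d j) (n j) (fun y => (f j j' y) ^ 2) x ≤ A) →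
  (∀ x, ∑ j ∈ s, ∑ j' ∈ s',
    Av (d j) (n j) (Av (d j') (n j') (fun y => (f j j' y) ^ 2)) x ≤ A) →
  Ex (fun x => (∑ j ∈ s, ∑ j' ∈ s', f j j' x) ^ (2 * r)) ≤
    (32 * (r : ℝ) ^ 2) ^ (2 * r) * ((r : ℝ) ^ 2 * A) ^ r

/-! ## B. The large sieve -/

/-- **LS** Proof. Import `Pool.Agent.Lib.MP_9f2731_nt.LS2` (`ee`, `gh`, `gh_inv`, `gh_parseval`; `dual_ls` is
in `LS1`). Let `g = Σ_k g k`, periodic modulo `N`, `J` = the set of `b < N` with `N / gcd(b, N) ≤ D`. If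
`g k` has the period `e = e k ∣ N` and `b ∉ J` then `gh N (g k) b = 0`: shifting the summation variable by
`e` multiplies the sum by a power of `ee (b e / N)`, which is `≠ 1` as `N ∤ b e` (`N / gcd(b,N)` does not
divide `e ≤ D`). So `N g(n) = Σ_{b ∈ J} gh N g b ee (n b / N)` (`gh_inv`). The points `b / N`, `b ∈ J`, are
fractions with denominators at most `D`, different modulo `1`, so they are `1 / D ^ 2`-separated. Apply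
`dual_ls` with `2h = X` or `X + 1`, `δ = 1 / D ^ 2`, `c b = gh N g b ee (.. )` (the shift by `M + 1` in the
coefficients) and `gh_parseval`. (`D ≥ 1` if `K` is not empty; `X = 0` is trivial.) -/
def StmtLS : Prop := ∀ (κ : Type) (K : Finset κ) (N D X M : ℕ) (g : κ → ℕ → ℝ) (e : κ → ℕ), 0 < N →
  (∀ k ∈ K, e k ∣ N ∧ e k ≤ D ∧ ∀ m, g k (m + e k) = g k m) → D ^ 2 ≤ X →
  ∑ m ∈ Ioc M (M + X), (∑ k ∈ K, g k m) ^ 2 ≤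
    20 * X * ((∑ m ∈ range N, (∑ k ∈ K, g k m) ^ 2) / N)

/-- **LSP** (uses `LS`) Proof. `(Σ_k g k) ^ s` is the sum over all `u : Fin s → K` of `Π_i g (u i)`
(`Finset.sum_pow'`, `Finset.prod_univ_sum`), which has the period `lcm` of the `e (u i)`, a divisor of `N`
and at most `D ^ s`. Apply `LS`. -/
def StmtLSP : Prop := ∀ (κ : Type) (K : Finset κ) (N D X M s : ℕ) (g : κ → ℕ → ℝ) (e : κ → ℕ),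
  0 < N → (∀ k ∈ K, e k ∣ N ∧ e k ≤ D ∧ ∀ m, g k (m + e k) = g k m) → D ^ (2 * s) ≤ X →
  ∑ m ∈ Ioc M (M + X), (∑ k ∈ K, g k m) ^ (2 * s) ≤
    20 * X * ((∑ m ∈ range N, (∑ k ∈ K, g k m) ^ (2 * s)) / N)

/-! ## C. The densities -/

/-- **OrdA** Elementary facts (see also `Orders.lean`). `2` is a unit modulo `q`; `xi q m i = 1` iff
`2 ^ i m = -1` in `ZMod q`; if this holds for `i` and `i'` then `m` is a unit and `2 ^ i = 2 ^ i'`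
(`pow_inj_mod`, `pow_eq_pow_iff_modEq`). In the last statement `t ↦ 2 ^ i (m + t c) + 1` is a bijection of
`ZMod q`. -/
def StmtOrdA : Prop := ∀ q : ℕ, q.Prime → q ≠ 2 → 1 ≤ od q ∧ od q ∣ q - 1 ∧
  (∀ m i, xi q m (i + od q) = xi q m i) ∧ (∀ m i, xi q (m + q) i = xi q m i) ∧
  (∀ m i i', xi q m i = 1 → xi q m i' = 1 → i ≡ i' [MOD od q]) ∧
  ∀ c m i, ¬ q ∣ c → ∑ t ∈ range q, xi q (m + t * c) i = 1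

/-- **OrdB** (uses `OrdA`) Proof. `d1 ≤ 1 / od q`: at most one `i < od q` has `xi q m i = 1`.
`Σ_t d1 q (m + t c) = 1`: exchange the sums. `d2 ≤ 1 / lcm`: the `i < od q od q'` with both are congruent
modulo the lcm, there are at most `od q od q' / lcm` of them. `Σ_t d2 q q' (m + t c) = d1 q' m`:
`xi q' (m + t c) i = xi q' m i` as `q' ∣ c`, the sum over `t` of `xi q` is `1`, and the sum of `xi q' m i`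
over `i < od q od q'` is `od q` times the sum over one period (`Nat.periodic`-sums, `OrdA`). -/
def StmtOrdB : Prop := ∀ q q' : ℕ, q.Prime → q ≠ 2 → q'.Prime → q' ≠ 2 → q ≠ q' →
  (∀ m, 0 ≤ d1 q m ∧ d1 q m ≤ 1 / (od q : ℝ) ∧ d1 q (m + q) = d1 q m) ∧
  (∀ m, 0 ≤ d2 q q' m ∧ d2 q q' m ≤ 1 / ((Nat.lcm (od q) (od q') : ℕ) : ℝ) ∧
    d2 q q' (m + q * q') = d2 q q' m ∧ d2 q q' m = d2 q' q m) ∧
  (∀ c m, ¬ q ∣ c → ∑ t ∈ range q, d1 q (m + t * c) = 1) ∧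
  ∀ c m, ¬ q ∣ c → q' ∣ c → ∑ t ∈ range q, d2 q q' (m + t * c) = d1 q' m

/-- **WinA** (uses `OrdA`) Proof. Let `S` be a set of integers `i ≥ 0` which is periodic modulo `p ≥ 1` and
contained in one residue class modulo `p`: so it is empty or a full class. The number of elements in
every window of length `W` differs by at most `1` from `W` times the number of elements below `p`
divided by `p`. `p = od q`, and `p = lcm (od q) (od q')` (the mean value over `od q od q'` is the mean value over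
one period). -/
def StmtWinA : Prop := ∀ q q' a W m : ℕ, q.Prime → q ≠ 2 → q'.Prime → q' ≠ 2 → q ≠ q' →
  |∑ i ∈ range W, xi q m (a + i) - W * d1 q m| ≤ 1 ∧
  |∑ i ∈ range W, xi q m (a + i) * xi q' m (a + i) - W * d2 q q' m| ≤ 1

/-- **Win** (uses `WinA`) Proof. `R(i) = Σ_{q ∈ P} (xi q m (a+i) - 1/q)`. Expand `Σ_{i < W} R(i) ^ 2`:
`q = q'`: `Σ_i (xi - 1/q) ^ 2 ≤ Σ_i xi + W / q ^ 2 ≤ W d1 + 1 + W / q = W (Fq + 2/q) + 1`;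
`q ≠ q'`: at most `W Gq q q' m + 3` (`WinA`). So
`Σ_i R(i) ^ 2 ≤ W (2 λ + Σ Fq + Σ Σ Gq) + 4 |P| ^ 2 ≤ W (2 λ + V) + 4 |P| ^ 2`. If
`2 ^ (a+i) m + 1` has at most `λ / 2` prime factors then `Σ_q xi q m (a+i) ≤ λ / 2`, `R(i) ≤ - λ / 2`,
`R(i) ^ 2 ≥ λ ^ 2 / 4`. -/
def StmtWin : Prop := ∀ (P : Finset ℕ) (a W m : ℕ) (V : ℝ), (∀ q ∈ P, q.Prime ∧ q ≠ 2) →
  ∑ q ∈ P, Fq q m + ∑ q ∈ P, ∑ q' ∈ P.erase q, Gq q q' m ≤ V →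
  ((((range W).filter fun i => (((2 ^ (a + i) * m + 1).primeFactors.card : ℕ) : ℝ) ≤
    (∑ q ∈ P, 1 / (q : ℝ)) / 2).card : ℕ) : ℝ) * ((∑ q ∈ P, 1 / (q : ℝ)) ^ 2 / 4) ≤
    W * (2 * ∑ q ∈ P, 1 / (q : ℝ) + V) + 4 * (P.card : ℝ) ^ 2

/-! ## D. The blocks -/

/-- **Tau** Proof. `δ ↦ min(δ, n/δ) ≤ √n` is at most 2 to 1 (the divisors `≤ √n`, and the map `δ ↦ n/δ` on
the others). -/
def StmtTau : Prop := ∀ n : ℕ, 1 ≤ n → ((n.divisors.card : ℕ) : ℝ) ≤ 2 * √(n : ℝ)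

/-- **Gcd** Proof. `gcd(n, k) ≤ Σ_{g ∣ n, g ∣ k} g`. The number of `q ∈ (Q, 4Q]` with `g ∣ q - 1` is `0` for
`g ≥ 4Q` and at most `3Q/g + 1 ≤ 7Q/g` for `g ≤ 4Q`. So the first sum is at most
`Σ_{g ∣ n, g ≤ 4Q} g 7Q/g`. The second one is at most `Σ_{g ≤ 4Q'} g (7Q/g) (7Q'/g)`
(`harmonic_le_one_add_log`). -/
def StmtGcd : Prop := (∀ (Q n : ℕ) (σ : Finset ℕ), 1 ≤ Q → 1 ≤ n → σ ⊆ Ioc Q (4 * Q) →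
    ∑ q ∈ σ, ((Nat.gcd n (q - 1) : ℕ) : ℝ) ≤ 7 * Q * ((n.divisors.card : ℕ) : ℝ)) ∧
  ∀ (Q Q' : ℕ) (σ σ' : Finset ℕ), 1 ≤ Q' → Q' ≤ Q → σ ⊆ Ioc Q (4 * Q) → σ' ⊆ Ioc Q' (4 * Q') →
    ∑ q ∈ σ, ∑ q' ∈ σ', ((Nat.gcd (q - 1) (q' - 1) : ℕ) : ℝ) ≤
      49 * Q * Q' * (1 + Real.log (4 * (Q' : ℝ)))

/-- The bound for one block. -/
noncomputable def A1 (Q : ℕ) : ℝ := 4 * Real.log (4 * (Q : ℝ)) / √(Q : ℝ)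

/-- The bound for two blocks. -/
noncomputable def A2 (Q Q' : ℕ) : ℝ :=
  500 * Real.log (4 * (Q : ℝ)) ^ 3 / √((Q : ℝ) * (Q' : ℝ))

/-- **Blk1** (uses `Mom1`, `OrdB`) Proof. `G = ZMod N`, `N = Π_{q ∈ σ} q`, `d q = N / q`, `n q = q`,
`f q x = Fq q x.val`; `Ex` over `ZMod N` of a function of `x.val` is the mean value over `range N`, and
`h (x + t • d).val = h (x.val + t N/q)` for `h` with the period `N`. `q ∤ N / q` (distinct primes), `q ∣ N/q'`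
for `q ≠ q'`. `Av = 0` and `Inv` follow from `OrdB`. `L = log (4Q) ≥ 1`. `|Fq| ≤ 1 / od q ≤ L / √Q`
(`1/q ≤ 1/od q`), so `Fq ^ 2 ≤ L ^ 2 / Q ≤ 4 L / √Q` (`L ≤ 4 √Q`). `Av (Fq ^ 2) = Av (d1 ^ 2) - 1/q ^ 2 ≤
(1/od q) Av d1 = 1 / (od q q) ≤ L / (√Q Q)`; there are at most `3Q` primes in `σ`. -/
def StmtBlk1 : Prop := ∀ (Q r : ℕ) (σ : Finset ℕ), 1 ≤ Q → σ ⊆ PQ Q →
  (∑ m ∈ range (∏ q ∈ σ, q), (∑ q ∈ σ, Fq q m) ^ (2 * r)) / ((∏ q ∈ σ, q : ℕ) : ℝ) ≤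
    (32 * (r : ℝ) ^ 2) ^ r * ((r : ℝ) * A1 Q) ^ r

/-- **HA2** (uses `OrdB`, `Tau`, `Gcd`) The hypotheses of `Mom2`. Here `c q` plays the role of `N / q`.
Proof. `L = log (4Q) ≥ 1`, `L' = log (4Q') ≤ L`, `o = od q ≥ √Q / L`, `o' = od q' ≥ √Q' / L'`.
`Gq ^ 2 ≤ 4 (d2 ^ 2 + d1(q) ^ 2 / q' ^ 2 + d1(q') ^ 2 / q ^ 2 + 1 / (q q') ^ 2)`.
`d2 ^ 2 ≤ d2 / lcm(o, o')`, `1 / lcm(o,o') = gcd(o,o') / (o o') ≤ gcd(q-1, q'-1) / (o o')`.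
(a) `d2 ≤ 1 / lcm ≤ 1/o`: `d2 ^ 2 ≤ L ^ 2 / Q ≤ L ^ 2 / √(Q Q')`; the other three terms are at most
`L ^ 2 / √(QQ')` as well. (b) fixed `q`: `Σ_{q'} Av_{q'} d2 ^ 2 ≤ Σ_{q'} (1/lcm) d1(q) / q' ≤
Σ_{q'} gcd(q-1,q'-1) / (o ^ 2 o' q') ≤ (L ^ 2 / Q) (L' / √Q') (1/Q') 7 Q' τ(q-1)`, `τ(q-1) ≤ 2 √(4Q)`: at most
`28 L ^ 3 / √(QQ')`. The other terms: `d1(q) ^ 2 Σ 1/q' ^ 2 ≤ (L ^ 2/Q) (3/Q')`,
`Σ_{q'} Av d1(q') ^ 2 / q ^ 2 ≤ (3 L' / √Q') / Q ^ 2`, `Σ 1/(q q') ^ 2 ≤ 3 / (Q ^ 2 Q')`. (c) fixed `q'`: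
`Σ_q Av_q d2 ^ 2 ≤ Σ_q gcd(q-1,q'-1) / (o o' ^ 2 q) ≤ (L' ^ 2/Q') (L/√Q) (1/Q) 7 Q 2 √(4Q') ≤ 28 L ^ 3 / √(QQ')`;
the other terms in the same way. (d) `Σ Σ Av Av d2 ^ 2 ≤ Σ Σ (1/lcm) / (q q') ≤
(L L' / √(QQ')) (1/(QQ')) 49 Q Q' (1 + log (4Q')) ≤ 98 L ^ 3 / √(QQ')`; the other terms:
`(3L/√Q) (3/Q')`, `(3L'/√Q') (3/Q)`, `9/(QQ')`. Everything is at most `500 L ^ 3 / √(QQ')`. -/
def StmtHA2 : Prop := ∀ (Q Q' : ℕ) (σ σ' : Finset ℕ) (c : ℕ → ℕ), 1 ≤ Q' → Q' ≤ Q → σ ⊆ PQ Q →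
  σ' ⊆ PQ Q' → Disjoint σ σ' → (∀ q ∈ σ ∪ σ', ¬ q ∣ c q) →
  (∀ q ∈ σ ∪ σ', ∀ q' ∈ σ ∪ σ', q ≠ q' → q' ∣ c q) → ∀ m : ℕ,
  (∀ q ∈ σ, ∀ q' ∈ σ', (Gq q q' m) ^ 2 ≤ A2 Q Q') ∧
  (∀ q ∈ σ, ∑ q' ∈ σ', (∑ t ∈ range q', (Gq q q' (m + t * c q')) ^ 2) / (q' : ℝ) ≤ A2 Q Q') ∧
  (∀ q' ∈ σ', ∑ q ∈ σ, (∑ t ∈ range q, (Gq q q' (m + t * c q)) ^ 2) / (q : ℝ) ≤ A2 Q Q') ∧
  ∑ q ∈ σ, ∑ q' ∈ σ', (∑ t ∈ range q,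
    (∑ t' ∈ range q', (Gq q q' (m + t * c q + t' * c q')) ^ 2) / (q' : ℝ)) / (q : ℝ) ≤ A2 Q Q'

/-- **Blk2** (uses `Mom2`, `OrdB`, `HA2`) Proof. As `Blk1`, with `N = Π_{q ∈ σ ∪ σ'} q`, `d q = N/q`,
`f q q' x = Gq q q' x.val`. `Av_q Gq = 0`: `Av_q d2 = d1(q')/q`, `Av_q d1(q) = 1/q`; the same for `q'`
(`d2 q q' = d2 q' q`). -/
def StmtBlk2 : Prop := ∀ (Q Q' r : ℕ) (σ σ' : Finset ℕ), 1 ≤ Q' → Q' ≤ Q → σ ⊆ PQ Q →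
  σ' ⊆ PQ Q' → Disjoint σ σ' →
  (∑ m ∈ range (∏ q ∈ σ ∪ σ', q), (∑ q ∈ σ, ∑ q' ∈ σ', Gq q q' m) ^ (2 * r)) /
      ((∏ q ∈ σ ∪ σ', q : ℕ) : ℝ) ≤
    (32 * (r : ℝ) ^ 2) ^ (2 * r) * ((r : ℝ) ^ 2 * A2 Q Q') ^ r

/-- **Dec** Decoupling. Proof. `Σ_{σ ⊆ P} Σ_{q ∈ σ} Σ_{q' ∈ P \ σ} G q q' = 2 ^ |P| / 4 Σ_{q ≠ q'} G q q'` (for
`q ≠ q'` in `P` a quarter of all `σ` contain `q` but not `q'`), and the power mean inequality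
(`Finset.inner_mul_le_norm_mul_norm`, or `inner`: use `Finset.pow_arith_mean_le_arith_mean_pow_of_even`). -/
def StmtDec : Prop := ∀ (P : Finset ℕ) (G : ℕ → ℕ → ℝ) (r : ℕ),
  (∑ q ∈ P, ∑ q' ∈ P.erase q, G q q') ^ (2 * r) ≤
    16 ^ r * ((∑ σ ∈ P.powerset, (∑ q ∈ σ, ∑ q' ∈ P \ σ, G q q') ^ (2 * r)) / 2 ^ P.card)

/-! ## E. The exceptional sets -/

/-- **Exc1** (uses `LSP`, `Blk1`, `OrdB`) Proof. `ℓ = log X`, `B = 36/η + 1`. `s = Nat.log ((4Q) ^ 2) X`: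
`(4Q) ^ (2s) ≤ X < (4Q) ^ (2s+2)`; `s ≤ ℓ`. `LSP` with `K = PQ Q`, `g q m = Fq q m`, `e q = q ≤ 4Q`, and
`Blk1`: the sum over `m` of `(Σ Fq) ^ (2s)` is at most `20 X (32 s ^ 2) ^ s (s A1) ^ s`. So the number of
exceptional `m` is at most `20 X (ℓ ^ 4 32 s ^ 3 4 log(4Q) / √Q) ^ s ≤ 20 X (128 ℓ ^ 8) ^ s Q ^ (-s/2)`
(`log (4Q) ≤ ℓ`), and `Q ^ (-s/2) = 2 ^ s (4Q) ^ (-s/2)`,
`(4Q) ^ (-s/2) = ((4Q) ^ (2s)) ^ (-1/4) ≤ X ^ (-1/4) (4Q) ^ (1/2)`. As `ℓ ^ B ≤ Q`: `ℓ ^ (2 B s) ≤ X`, so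
`(256 ℓ ^ 8) ^ s ≤ ℓ ^ (9 s) ≤ X ^ (9/(2B)) ≤ X ^ (η/8)`. `(4Q) ^ (1/2) ≤ 2 X ^ (η/16)`. Total at most
`40 X ^ (3/4 + η/8 + η/16) ≤ X ^ (3/4 + η/2)`. -/
def StmtExc1 : Prop := ∀ η : ℝ, 0 < η → ∃ B : ℝ, 1 ≤ B ∧ ∃ X0 : ℕ, ∀ X : ℕ, X0 ≤ X →
  ∀ M Q : ℕ, Real.log X ^ B ≤ Q → (Q : ℝ) ≤ (X : ℝ) ^ (η / 8) → (Q : ℝ) ≤ (X : ℝ) ^ (1 / 20 : ℝ) →
  ((((Ioc M (M + X)).filter fun m => 1 / Real.log X ^ 2 < |∑ q ∈ PQ Q, Fq q m|).card : ℕ) : ℝ) ≤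
    (X : ℝ) ^ (3 / 4 + η / 2)

/-- **Exc2** (uses `LSP`, `Blk2`, `Dec`, `OrdB`) Proof. `ℓ = log X`. `D = 16 Q Q'`, `s = Nat.log (D ^ 2) X`:
`D ^ (2s) ≤ X < D ^ (2s+2)`; `s ≤ ℓ`. If `4 Q' ≤ Q` then `PQ Q`, `PQ Q'` are disjoint, and `LSP` with
`K = PQ Q ×ˢ PQ Q'`, `e (q, q') = q q' ≤ D`, `N = Π` of all the primes, and `Blk2` give the bound
`20 X (32 s ^ 2) ^ (2s) (s ^ 2 A2) ^ s` for the sum over `m` of the `2s`-th powers. If `Q = Q'`: `Dec` for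
`P = PQ Q`, and the same bound for all `σ`, `P \ σ` (`LSP` with `K = σ ×ˢ (P \ σ)`); one gets the factor
`16 ^ s`. So the number of exceptional `m` is at most
`20 X (ℓ ^ 6 16 1024 s ^ 6 500 ℓ ^ 3) ^ s (Q Q') ^ (-s/2)`, `(Q Q') ^ (-s/2) = 4 ^ s D ^ (-s/2)
≤ 4 ^ s X ^ (-1/4) D ^ (1/2)`, and `(c ℓ ^ 15) ^ s ≤ ℓ ^ (16 s)`, `ℓ ^ (4 B s) ≤ D ^ (2s) ≤ X`, so this is at most
`X ^ (4/B)`. `D ^ (1/2) ≤ 4 Q ≤ 4 X ^ (η/8)`. With `B = 32/η + 1`: total at most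
`80 X ^ (3/4 + η/8 + η/8) ≤ X ^ (3/4 + η/2)`. -/
def StmtExc2 : Prop := ∀ η : ℝ, 0 < η → ∃ B : ℝ, 1 ≤ B ∧ ∃ X0 : ℕ, ∀ X : ℕ, X0 ≤ X →
  ∀ M Q Q' : ℕ, Real.log X ^ B ≤ Q' → (Q = Q' ∨ 4 * Q' ≤ Q) → (Q : ℝ) ≤ (X : ℝ) ^ (η / 8) →
  (Q : ℝ) ≤ (X : ℝ) ^ (1 / 20 : ℝ) →
  ((((Ioc M (M + X)).filter fun m =>
    1 / Real.log X ^ 3 < |∑ q ∈ PQ Q, ∑ q' ∈ (PQ Q').erase q, Gq q q' m|).card : ℕ) : ℝ) ≤
    (X : ℝ) ^ (3 / 4 + η / 2)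

/-- **Exc** (uses `Exc1`, `Exc2`, `OrdB`) Proof. `B` the maximum of the two constants. `E` is the union of
the exceptional sets for all `Q = 4 ^ j`, `Q' = 4 ^ j'` with `j' ≤ j` in the range; there are at most
`ℓ = log X` values of `j`, so `|E| ≤ (ℓ + ℓ ^ 2) X ^ (3/4 + η/2) ≤ X ^ (3/4 + η)`. For `j < j'` use
`Gq q q' = Gq q' q` (`OrdB`) and exchange the sums. -/
def StmtExc : Prop := ∀ η : ℝ, 0 < η → ∃ B : ℝ, 1 ≤ B ∧ ∃ κ : ℝ, 0 < κ ∧ κ ≤ 1 / 20 ∧ ∃ X0 : ℕ,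
  ∀ X : ℕ, X0 ≤ X → ∀ M : ℕ, ∃ E ⊆ Ioc M (M + X), ((E.card : ℕ) : ℝ) ≤ (X : ℝ) ^ (3 / 4 + η) ∧
  ∀ m ∈ Ioc M (M + X), m ∉ E → ∀ j : ℕ, Real.log X ^ B ≤ (4 : ℝ) ^ j → (4 : ℝ) ^ j ≤ (X : ℝ) ^ κ →
    |∑ q ∈ PQ (4 ^ j), Fq q m| ≤ 1 / Real.log X ^ 2 ∧
    ∀ j' : ℕ, Real.log X ^ B ≤ (4 : ℝ) ^ j' → (4 : ℝ) ^ j' ≤ (X : ℝ) ^ κ →
      |∑ q ∈ PQ (4 ^ j), ∑ q' ∈ (PQ (4 ^ j')).erase q, Gq q q' m| ≤ 1 / Real.log X ^ 3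

/-! ## F. Assembly -/

/-- **Prm** Many primes in the blocks. Proof. Import `Pool.Agent.Lib.MP_9f2731_nt.Orders` (`card_smallOrd`).
Chebyshev (`Mathlib.NumberTheory.Chebyshev`: `Chebyshev.theta_ge`, `Chebyshev.theta_le_log4_mul_x`): for
large `Q`, `θ(4Q) - θ(Q) ≥ 4 Q log 2 - Q log 4 - o(Q) ≥ Q`, so there are at least `Q / log (4Q)` primes in
`(Q, 4Q]`. Those with `od q < √Q / log (4Q)` are at most `Q / log (4Q) ^ 2` (`card_smallOrd` with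
`w = ⌊√Q / log (4Q)⌋`). So `|PQ Q| ≥ Q / (2 log (4Q))`, and the sum of `1/q` is at least
`1 / (8 log (4Q))`. -/
def StmtPrm : Prop := ∃ c : ℝ, 0 < c ∧ ∃ j0 : ℕ, 1 ≤ j0 ∧ ∀ j : ℕ, j0 ≤ j →
  c / (j : ℝ) ≤ ∑ q ∈ PQ (4 ^ j), 1 / (q : ℝ)

/-- **Cmb** (uses `Win`) The blocks `j1 ≤ j < j2` together. Proof. Let `P` be the union of the
`PQ (4 ^ j)`, which are disjoint and contained in `(4 ^ j1, 4 ^ j2]`. The sums over `P` split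
(`Finset.sum_biUnion`; `P.erase q` is the union of the `(PQ (4 ^ j')).erase q`). So the sum of the `Fq` is at
most `(j2 - j1) / ℓ ^ 2 ≤ 1` and the sum of the `Gq` at most `(j2 - j1) ^ 2 / ℓ ^ 3 ≤ 1`; `|P| ≤ 4 ^ j2`.
`Win` with `V = 2`. Here `ℓ ≥ 1` is a real number (`log X`), `j2 ≤ ℓ`. -/
def StmtCmb : Prop := ∀ (j1 j2 a W m : ℕ) (ℓ lam : ℝ), j1 ≤ j2 → 1 ≤ ℓ → (j2 : ℝ) ≤ ℓ →
  (∀ j ∈ Ico j1 j2, |∑ q ∈ PQ (4 ^ j), Fq q m| ≤ 1 / ℓ ^ 2) →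
  (∀ j ∈ Ico j1 j2, ∀ j' ∈ Ico j1 j2,
    |∑ q ∈ PQ (4 ^ j), ∑ q' ∈ (PQ (4 ^ j')).erase q, Gq q q' m| ≤ 1 / ℓ ^ 3) →
  lam = ∑ j ∈ Ico j1 j2, ∑ q ∈ PQ (4 ^ j), 1 / (q : ℝ) →
  ((((range W).filter fun i => (((2 ^ (a + i) * m + 1).primeFactors.card : ℕ) : ℝ) ≤
    lam / 2).card : ℕ) : ℝ) * (lam ^ 2 / 4) ≤ W * (2 * lam + 2) + 4 * (4 : ℝ) ^ (2 * j2)

/-- **Main** (uses `Exc`, `Prm`, `Cmb`) Theorem H. Proof. `B, κ, X0` from `Exc`, `c, j0` from `Prm`,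
`ℓ = log X`. Let `m ∉ E`, `W ≥ ℓ ^ C`. `j1 = ⌈B log ℓ / log 4⌉ ≥ j0`, `j2` = the largest `j` with
`4 ^ j ≤ W ^ (1/3)` and `4 ^ j ≤ X ^ κ`. Then `j2 ≤ ℓ`, `j1 ≤ 2 B log ℓ`,
`j2 ≥ (κ/4) log min(W, X)` (`C` and `X` large, `κ ≤ 1/20`), so `j2 / j1 ≥ κ log min(W,X) / (8 B log ℓ)` and
`lam ≥ c Σ_{j1 ≤ j < j2} 1/j ≥ c log (j2/j1) ≥ c (Λ - C')`, `Λ = Lam X W`; `Λ ≥ log C - 1 ≥ 2 C'` for large `C`
(`W ≥ ℓ ^ C`, and `log X / log ℓ ≥ C`). So `lam ≥ (c/2) Λ ≥ 1`. `Cmb`: `4 4 ^ (2 j2) ≤ 4 W ^ (2/3) ≤ W`, so the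
number of `i` with at most `lam / 2` prime factors is at most `4 W (2 lam + 3) / lam ^ 2 ≤ 20 W / lam ≤
(40/c) W / Λ`; `Λ / C ≤ lam / 2` for `C ≥ 4/c`. -/
def StmtMain : Prop := ∀ η : ℝ, 0 < η → ∃ C : ℝ, 1 ≤ C ∧ ∀ X : ℕ, C ≤ X → ∀ M : ℕ,
  ∃ E ⊆ Ioc M (M + X), ((E.card : ℕ) : ℝ) ≤ (X : ℝ) ^ (3 / 4 + η) ∧
  ∀ m ∈ Ioc M (M + X), m ∉ E → ∀ a W : ℕ, Real.log X ^ C ≤ W →
    0 < Lam X W ∧
    ((((range W).filter fun i =>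
      C * (((2 ^ (a + i) * m + 1).primeFactors.card : ℕ) : ℝ) ≤ Lam X W).card : ℕ) : ℝ) ≤
      C * W / Lam X W

end Pool.Agent.Lib.MP_9f2731_nt.H
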