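import Pool.Agent.Lib.MP_9f2731_nt.H.Spec

/-! Moments of sums of nonnegative functions of two coordinates. -/

set_option autoImplicit false
set_option linter.unusedSectionVars false

open Finset

namespace Pool.Agent.Lib.MP_9f2731_nt.H

section Z2_basic

variable {G : Type} [Fintype G]

theorem Z2_sum {ι : Type} (S : Finset ι) (f : ι → G → ℝ) :
    Ex (fun x => ∑ i ∈ S, f i x) = ∑ i ∈ S, Ex (f i) := by
  unfold Ex
  rw [sum_comm, sum_div]

theorem Z2_mono {f g : G → ℝ} (h : ∀ x, f x ≤ g x) : Ex f ≤ Ex g := by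
  unfold Ex
  exact div_le_div_of_nonneg_right (sum_le_sum fun x _ => h x) (Nat.cast_nonneg _)

theorem Z2_const_mul (c : ℝ) (f : G → ℝ) : Ex (fun x => c * f x) = c * Ex f := by
  unfold Ex
  rw [← mul_sum, mul_div_assoc]

theorem Z2_nonneg {f : G → ℝ} (h : ∀ x, 0 ≤ f x) : 0 ≤ Ex f := by
  unfold Ex
  exact div_nonneg (sum_nonneg fun x _ => h x) (Nat.cast_nonneg _)

variable [AddCommGroup G]

theorem Z2_Av (d : G) (n : ℕ) (hn : 1 ≤ n) (f : G → ℝ) : Ex (Av d n f) = Ex f := by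
  unfold Ex Av
  congr 1
  have hn0 : (n : ℝ) ≠ 0 := by
    have : (1 : ℝ) ≤ n := by exact_mod_cast hn
    positivity
  rw [← sum_div, sum_comm]
  have h1 : ∀ t ∈ range n, ∑ x : G, f (x + t • d) = ∑ x : G, f x := by
    intro t _
    exact Fintype.sum_equiv (Equiv.addRight (t • d)) _ _ fun x => rfl
  rw [sum_congr rfl h1, sum_const, card_range, nsmul_eq_mul, mul_div_cancel_left₀ _ hn0]

theorem Z2_inv {d : G} {H : G → ℝ} (hH : Inv d H) (t : ℕ) (x : G) : H (x + t • d) = H x := by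
  induction t with
  | zero => simp
  | succ t ih => rw [succ_nsmul, ← add_assoc, hH, ih]

theorem Z2_shift {d : G} {n : ℕ} (hn : 1 ≤ n) {H : G → ℝ} (hH : Inv d H) (f : G → ℝ) :
    Ex (fun x => H x * f x) = Ex (fun x => H x * Av d n f x) := by
  rw [← Z2_Av d n hn (fun x => H x * f x)]
  congr 1
  funext x
  unfold Av
  simp only [Z2_inv hH]
  rw [← mul_sum, mul_div_assoc]

theorem Z2_Av_nonneg (d : G) (n : ℕ) {f : G → ℝ} (h : ∀ x, 0 ≤ f x) (x : G) :
    0 ≤ Av d n f x := by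
  unfold Av
  exact div_nonneg (sum_nonneg fun t _ => h _) (Nat.cast_nonneg _)

theorem Z2_Inv_mul {d : G} {f g : G → ℝ} (hf : Inv d f) (hg : Inv d g) :
    Inv d (fun x => f x * g x) := by
  intro x
  show f (x + d) * g (x + d) = f x * g x
  rw [hf x, hg x]

end Z2_basic

theorem tZ2 : StmtZ2 := by
  intro G ι _ _ _ s s' d n g A r hA hdis hn hg0 hinv hgA h1 h2 h3
  -- the first moment
  have first : ∀ (k : ℕ) (T T' : Finset ι), T ⊆ s → T' ⊆ s' → T.card ≤ k → T'.card ≤ k →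
      ∀ H : G → ℝ, (∀ x, 0 ≤ H x) → (∀ i ∈ s ∪ s', i ∉ T → i ∉ T' → Inv (d i) H) →
      ∑ j ∈ s, ∑ j' ∈ s', Ex (fun x => H x * g j j' x) ≤ ((k : ℝ) + 1) ^ 2 * A * Ex H := by
    intro k T T' hT hT' hTk hTk' H hH0 hH
    have hE0 : 0 ≤ Ex H := Z2_nonneg hH0
    have hAE : 0 ≤ A * Ex H := mul_nonneg hA hE0
    have hsT : ∀ j ∈ s, j ∉ s' := fun j hj hj' => disjoint_left.mp hdis hj hj'
    have hTkR : (T.card : ℝ) ≤ k := by exact_mod_cast hTk
    have hTkR' : (T'.card : ℝ) ≤ k := by exact_mod_cast hTk'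
    have hone : ∀ j ∈ s, ∀ j' ∈ s', Ex (fun x => H x * g j j' x) ≤ A * Ex H := by
      intro j hj j' hj'
      rw [← Z2_const_mul]
      apply Z2_mono
      intro x
      rw [mul_comm A]
      exact mul_le_mul_of_nonneg_left (hgA j hj j' hj' x) (hH0 x)
    -- rows
    have hrow : ∀ j ∈ s, ∑ j' ∈ s' \ T', Ex (fun x => H x * g j j' x) ≤ A * Ex H := by
      intro j hj
      have e1 : ∀ j' ∈ s' \ T', Ex (fun x => H x * g j j' x) =
          Ex (fun x => H x * Av (d j') (n j') (g j j') x) := by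
        intro j' hj'
        rw [mem_sdiff] at hj'
        refine Z2_shift (hn j' (mem_union_right _ hj'.1)) (hH j' (mem_union_right _ hj'.1) ?_ hj'.2) _
        intro h
        exact hsT j' (hT h) hj'.1
      rw [sum_congr rfl e1, ← Z2_sum, ← Z2_const_mul]
      apply Z2_mono
      intro x
      rw [← mul_sum, mul_comm A]
      apply mul_le_mul_of_nonneg_left _ (hH0 x)
      refine le_trans ?_ (h1 j hj x)
      apply sum_le_sum_of_subset_of_nonneg sdiff_subset
      intro j' hj' _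
      exact Z2_Av_nonneg _ _ (hg0 j hj j' hj') x
    have hcol : ∀ j' ∈ s', ∑ j ∈ s \ T, Ex (fun x => H x * g j j' x) ≤ A * Ex H := by
      intro j' hj'
      have e1 : ∀ j ∈ s \ T, Ex (fun x => H x * g j j' x) =
          Ex (fun x => H x * Av (d j) (n j) (g j j') x) := by
        intro j hj
        rw [mem_sdiff] at hj
        refine Z2_shift (hn j (mem_union_left _ hj.1)) (hH j (mem_union_left _ hj.1) hj.2 ?_) _
        intro h
        exact hsT j hj.1 (hT' h)
      rw [sum_congr rfl e1, ← Z2_sum, ← Z2_const_mul]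
      apply Z2_mono
      intro x
      rw [← mul_sum, mul_comm A]
      apply mul_le_mul_of_nonneg_left _ (hH0 x)
      refine le_trans ?_ (h2 j' hj' x)
      apply sum_le_sum_of_subset_of_nonneg sdiff_subset
      intro j hj _
      exact Z2_Av_nonneg _ _ (hg0 j hj j' hj') x
    have hrest : ∑ j ∈ s \ T, ∑ j' ∈ s' \ T', Ex (fun x => H x * g j j' x) ≤ A * Ex H := by
      have e1 : ∀ j ∈ s \ T, ∑ j' ∈ s' \ T', Ex (fun x => H x * g j j' x) =
          ∑ j' ∈ s' \ T', Ex (fun x => H x * Av (d j) (n j) (Av (d j') (n j') (g j j')) x) := by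
        intro j hj
        rw [mem_sdiff] at hj
        apply sum_congr rfl
        intro j' hj'
        rw [mem_sdiff] at hj'
        rw [Z2_shift (hn j' (mem_union_right _ hj'.1)) (hH j' (mem_union_right _ hj'.1)
          (fun h => hsT j' (hT h) hj'.1) hj'.2) (g j j')]
        exact Z2_shift (hn j (mem_union_left _ hj.1)) (hH j (mem_union_left _ hj.1) hj.2
          (fun h => hsT j hj.1 (hT' h))) _
      rw [sum_congr rfl e1]
      have e2 : ∀ j ∈ s \ T,
          ∑ j' ∈ s' \ T', Ex (fun x => H x * Av (d j) (n j) (Av (d j') (n j') (g j j')) x) =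
          Ex (fun x => ∑ j' ∈ s' \ T', H x * Av (d j) (n j) (Av (d j') (n j') (g j j')) x) :=
        fun j _ => (Z2_sum _ _).symm
      rw [sum_congr rfl e2, ← Z2_sum, ← Z2_const_mul]
      apply Z2_mono
      intro x
      simp only [← mul_sum]
      rw [mul_comm A]
      apply mul_le_mul_of_nonneg_left _ (hH0 x)
      refine le_trans ?_ (h3 x)
      have hpos : ∀ j ∈ s, ∀ j' ∈ s', 0 ≤ Av (d j) (n j) (Av (d j') (n j') (g j j')) x :=
        fun j hj j' hj' => Z2_Av_nonneg _ _ (Z2_Av_nonneg _ _ (hg0 j hj j' hj')) x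
      calc ∑ j ∈ s \ T, ∑ j' ∈ s' \ T', Av (d j) (n j) (Av (d j') (n j') (g j j')) x
          ≤ ∑ j ∈ s \ T, ∑ j' ∈ s', Av (d j) (n j) (Av (d j') (n j') (g j j')) x := by
            apply sum_le_sum
            intro j hj
            apply sum_le_sum_of_subset_of_nonneg sdiff_subset
            intro j' hj' _
            exact hpos j (mem_sdiff.mp hj).1 j' hj'
        _ ≤ ∑ j ∈ s, ∑ j' ∈ s', Av (d j) (n j) (Av (d j') (n j') (g j j')) x := by
            apply sum_le_sum_of_subset_of_nonneg sdiff_subset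
            intro j hj _
            exact sum_nonneg fun j' hj' => hpos j hj j' hj'
    have hsplit' : ∀ j, ∑ j' ∈ s', Ex (fun x => H x * g j j' x) =
        ∑ j' ∈ s' \ T', Ex (fun x => H x * g j j' x) +
          ∑ j' ∈ T', Ex (fun x => H x * g j j' x) := fun j => (sum_sdiff hT').symm
    have hsplit : ∑ j ∈ s, ∑ j' ∈ s', Ex (fun x => H x * g j j' x) =
        ∑ j ∈ s \ T, ∑ j' ∈ s', Ex (fun x => H x * g j j' x) +
          ∑ j ∈ T, ∑ j' ∈ s', Ex (fun x => H x * g j j' x) := (sum_sdiff hT).symm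
    have b1 : ∑ j ∈ T, ∑ j' ∈ s', Ex (fun x => H x * g j j' x) ≤ k * ((k + 1) * (A * Ex H)) := by
      have c1 : ∀ j ∈ T, ∑ j' ∈ s', Ex (fun x => H x * g j j' x) ≤ (k + 1) * (A * Ex H) := by
        intro j hj
        rw [hsplit' j]
        have c2 : ∑ j' ∈ T', Ex (fun x => H x * g j j' x) ≤ k * (A * Ex H) := by
          calc ∑ j' ∈ T', Ex (fun x => H x * g j j' x) ≤ ∑ _j' ∈ T', A * Ex H :=
                sum_le_sum fun j' hj' => hone j (hT hj) j' (hT' hj')
            _ = T'.card * (A * Ex H) := by rw [sum_const, nsmul_eq_mul]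
            _ ≤ k * (A * Ex H) := mul_le_mul_of_nonneg_right hTkR' hAE
        have c3 := hrow j (hT hj)
        linarith
      calc ∑ j ∈ T, ∑ j' ∈ s', Ex (fun x => H x * g j j' x)
          ≤ ∑ _j ∈ T, (k + 1) * (A * Ex H) := sum_le_sum c1
        _ = T.card * ((k + 1) * (A * Ex H)) := by rw [sum_const, nsmul_eq_mul]
        _ ≤ k * ((k + 1) * (A * Ex H)) := mul_le_mul_of_nonneg_right hTkR (by positivity)
    have b2 : ∑ j ∈ s \ T, ∑ j' ∈ s', Ex (fun x => H x * g j j' x) ≤ (k + 1) * (A * Ex H) := by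
      rw [sum_congr rfl fun j _ => hsplit' j, sum_add_distrib]
      have c2 : ∑ j ∈ s \ T, ∑ j' ∈ T', Ex (fun x => H x * g j j' x) ≤ k * (A * Ex H) := by
        rw [sum_comm]
        calc ∑ j' ∈ T', ∑ j ∈ s \ T, Ex (fun x => H x * g j j' x) ≤ ∑ _j' ∈ T', A * Ex H :=
              sum_le_sum fun j' hj' => hcol j' (hT' hj')
          _ = T'.card * (A * Ex H) := by rw [sum_const, nsmul_eq_mul]
          _ ≤ k * (A * Ex H) := mul_le_mul_of_nonneg_right hTkR' hAE
      linarith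
    rw [hsplit]
    calc _ ≤ (k + 1) * (A * Ex H) + k * ((k + 1) * (A * Ex H)) := add_le_add b2 b1
      _ = ((k : ℝ) + 1) ^ 2 * A * Ex H := by ring
  -- the claim
  have claim : ∀ (r k : ℕ) (T T' : Finset ι), T ⊆ s → T' ⊆ s' → T.card ≤ k → T'.card ≤ k →
      ∀ H : G → ℝ, (∀ x, 0 ≤ H x) → (∀ i ∈ s ∪ s', i ∉ T → i ∉ T' → Inv (d i) H) →
      Ex (fun x => H x * (∑ j ∈ s, ∑ j' ∈ s', g j j' x) ^ r) ≤
        (((k : ℝ) + r) ^ 2 * A) ^ r * Ex H := by
    intro r
    induction r with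
    | zero =>
      intro k T T' _ _ _ _ H _ _
      simp
    | succ r ih =>
      intro k T T' hT hT' hTk hTk' H hH0 hH
      have hE0 : 0 ≤ Ex H := Z2_nonneg hH0
      have e1 : Ex (fun x => H x * (∑ j ∈ s, ∑ j' ∈ s', g j j' x) ^ (r + 1)) =
          ∑ j ∈ s, ∑ j' ∈ s', Ex (fun x => (H x * g j j' x) *
            (∑ j ∈ s, ∑ j' ∈ s', g j j' x) ^ r) := by
        have e2 : ∀ j ∈ s, ∑ j' ∈ s', Ex (fun x => (H x * g j j' x) *
            (∑ j ∈ s, ∑ j' ∈ s', g j j' x) ^ r) = Ex (fun x => ∑ j' ∈ s', (H x * g j j' x) *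
            (∑ j ∈ s, ∑ j' ∈ s', g j j' x) ^ r) := fun j _ => (Z2_sum _ _).symm
        rw [sum_congr rfl e2, ← Z2_sum]
        congr 1
        funext x
        simp only [← sum_mul, ← mul_sum]
        rw [pow_succ]
        ring
      have e3 : ∀ j ∈ s, ∀ j' ∈ s', Ex (fun x => (H x * g j j' x) *
            (∑ j ∈ s, ∑ j' ∈ s', g j j' x) ^ r) ≤
          ((((k + 1 : ℕ) : ℝ) + r) ^ 2 * A) ^ r * Ex (fun x => H x * g j j' x) := by
        intro j hj j' hj'
        apply ih (k + 1) (insert j T) (insert j' T')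
          (insert_subset hj hT) (insert_subset hj' hT')
          ((card_insert_le _ _).trans (by omega)) ((card_insert_le _ _).trans (by omega))
        · intro x
          exact mul_nonneg (hH0 x) (hg0 j hj j' hj' x)
        · intro i hi hi1 hi2
          rw [mem_insert, not_or] at hi1 hi2
          exact Z2_Inv_mul (hH i hi hi1.2 hi2.2) (hinv j hj j' hj' i hi hi1.1 hi2.1)
      have hb : 0 ≤ ((((k + 1 : ℕ) : ℝ) + r) ^ 2 * A) ^ r := by positivity
      rw [e1]
      calc ∑ j ∈ s, ∑ j' ∈ s', Ex (fun x => (H x * g j j' x) *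
            (∑ j ∈ s, ∑ j' ∈ s', g j j' x) ^ r)
          ≤ ∑ j ∈ s, ∑ j' ∈ s',
            ((((k + 1 : ℕ) : ℝ) + r) ^ 2 * A) ^ r * Ex (fun x => H x * g j j' x) :=
            sum_le_sum fun j hj => sum_le_sum fun j' hj' => e3 j hj j' hj'
        _ = ((((k + 1 : ℕ) : ℝ) + r) ^ 2 * A) ^ r *
            ∑ j ∈ s, ∑ j' ∈ s', Ex (fun x => H x * g j j' x) := by
            simp only [← mul_sum]
        _ ≤ ((((k + 1 : ℕ) : ℝ) + r) ^ 2 * A) ^ r * (((k : ℝ) + 1) ^ 2 * A * Ex H) :=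
            mul_le_mul_of_nonneg_left (first k T T' hT hT' hTk hTk' H hH0 hH) hb
        _ ≤ ((((k + 1 : ℕ) : ℝ) + r) ^ 2 * A) ^ r * ((((k + 1 : ℕ) : ℝ) + r) ^ 2 * A * Ex H) := by
            apply mul_le_mul_of_nonneg_left _ hb
            apply mul_le_mul_of_nonneg_right _ hE0
            apply mul_le_mul_of_nonneg_right _ hA
            apply pow_le_pow_left₀ (by positivity)
            push_cast
            have : (0 : ℝ) ≤ r := Nat.cast_nonneg _
            linarith
        _ = (((k : ℝ) + ((r + 1 : ℕ) : ℝ)) ^ 2 * A) ^ (r + 1) * Ex H := by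
            push_cast
            ring
  have h := claim r 0 ∅ ∅ (empty_subset _) (empty_subset _) (by simp) (by simp) (fun _ => 1)
    (fun _ => zero_le_one) (fun _ _ _ _ _ => rfl)
  have hE1 : Ex (fun _ : G => (1 : ℝ)) = 1 := by
    unfold Ex
    rw [sum_const, card_univ, nsmul_eq_mul, mul_one]
    apply div_self
    exact_mod_cast Fintype.card_ne_zero
  rw [hE1, mul_one] at h
  simpa using h

end Pool.Agent.Lib.MP_9f2731_nt.H
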